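import Pool.Agent.Lib.MP_391708_nt.MAR.Spec

/-!
# CLS: the ideals of a narrow class and the points of a lattice in a sector
-/

set_option autoImplicit false

namespace Pool.Agent.Lib.MP391708.MAR

open Finset Filter Topology NumberField
open scoped ComplexConjugate Classical nonZeroDivisors

namespace ClsAux

variable {K : Type} [Field K] [NumberField K]

section emb

variable (Φ : Fund K)

/-- the two real embeddings as complex ones -/
noncomputable def c1 : K →+* ℂ := Complex.ofRealHom.comp Φ.σ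
/-- the two real embeddings as complex ones -/
noncomputable def c2 : K →+* ℂ := Complex.ofRealHom.comp Φ.τ

lemma c1_ne_c2 : c1 Φ ≠ c2 Φ := by
  intro h
  apply Φ.ne
  ext x
  have := RingHom.congr_fun h x
  simpa [c1, c2] using this

lemma univ_eq [hK : RQ K] : (Finset.univ : Finset (K →+* ℂ)) = {c1 Φ, c2 Φ} := by
  symm
  apply Finset.eq_univ_of_card
  rw [Finset.card_pair (c1_ne_c2 Φ), NumberField.Embeddings.card K ℂ, hK.deg]

lemma real_emb [hK : RQ K] (ρ : K →+* ℝ) : ρ = Φ.σ ∨ ρ = Φ.τ := by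
  have h : (Complex.ofRealHom.comp ρ : K →+* ℂ) ∈ ({c1 Φ, c2 Φ} : Finset (K →+* ℂ)) := by
    rw [← univ_eq Φ]; exact Finset.mem_univ _
  rw [Finset.mem_insert, Finset.mem_singleton] at h
  rcases h with h | h
  · left
    ext x
    have := RingHom.congr_fun h x
    simpa [c1] using this
  · right
    ext x
    have := RingHom.congr_fun h x
    simpa [c2] using this

lemma norm_eq [hK : RQ K] (x : K) : ((Algebra.norm ℚ x : ℚ) : ℝ) = Φ.σ x * Φ.τ x := by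
  have h := Algebra.norm_eq_prod_embeddings ℚ ℂ x
  have h2 : ∏ σ : K →ₐ[ℚ] ℂ, σ x = ∏ σ : K →+* ℂ, σ x := by
    refine Fintype.prod_equiv (RingHom.equivRatAlgHom K ℂ).symm _ _ ?_
    intro σ
    rfl
  rw [h2, univ_eq Φ, Finset.prod_pair (c1_ne_c2 Φ)] at h
  have h3 : (((Algebra.norm ℚ x : ℚ) : ℝ) : ℂ) = ((Φ.σ x * Φ.τ x : ℝ) : ℂ) := by
    have h4 : (algebraMap ℚ ℂ) ((Algebra.norm ℚ) x) = (((Algebra.norm ℚ x : ℚ) : ℝ) : ℂ) := by
      simp
    rw [← h4, h]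
    simp [c1, c2]
  exact_mod_cast h3

lemma norm_int_eq [hK : RQ K] (v : 𝓞 K) : ((Algebra.norm ℤ v : ℤ) : ℝ) = Φ.σ (v : K) * Φ.τ (v : K) := by
  rw [← norm_eq Φ (v : K), ← Algebra.coe_norm_int]
  norm_cast

lemma nm_span [hK : RQ K] (v : 𝓞 K) : (nm (Ideal.span {v} : Gi K) : ℝ) = |Φ.σ (v : K) * Φ.τ (v : K)| := by
  unfold nm
  rw [Ideal.absNorm_span_singleton, ← norm_int_eq Φ v, Nat.cast_natAbs, Int.cast_abs]

lemma unit_norm [hK : RQ K] : Φ.σ ((Φ.E : 𝓞 K) : K) * Φ.τ ((Φ.E : 𝓞 K) : K) = 1 := by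
  have h1 : (nm (Ideal.span {(Φ.E : 𝓞 K)} : Gi K) : ℝ) = 1 := by
    rw [Ideal.span_singleton_eq_top.mpr Φ.E.isUnit]
    unfold nm
    rw [← Ideal.one_eq_top]
    simp
  rw [nm_span Φ] at h1
  have h2 : 0 < Φ.σ ((Φ.E : 𝓞 K) : K) * Φ.τ ((Φ.E : 𝓞 K) : K) :=
    mul_pos (by have := Φ.one_lt; linarith) Φ.pos
  rwa [abs_of_pos h2] at h1

lemma one_lt_R [hK : RQ K] : 1 < Φ.R := by
  unfold Fund.R
  rw [lt_div_iff₀ Φ.pos, one_mul]
  have h1 := unit_norm Φ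
  have h2 := Φ.one_lt
  have h3 := Φ.pos
  nlinarith

lemma eq_of_emb {x y : K} (h : Φ.σ x = Φ.σ y) : x = y := Φ.σ.injective h

end emb

section cls

lemma cls_of {z : Gi K} (h : z ≠ 0) :
    cls z = clmk K (FractionalIdeal.mk0 K ⟨z, mem_nonZeroDivisors_of_ne_zero h⟩) := dif_pos h

lemma cls_mul' {x y : Gi K} (hx : x ≠ 0) (hy : y ≠ 0) : cls (x * y) = cls x * cls y := by
  rw [cls_of hx, cls_of hy, cls_of (mul_ne_zero hx hy), ← map_mul, ← map_mul]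
  rfl

omit [NumberField K] in
lemma span_ne {v : 𝓞 K} (hv : v ≠ 0) : (Ideal.span {v} : Gi K) ≠ 0 := by
  rw [Ideal.zero_eq_bot, Ne, Ideal.span_singleton_eq_bot]; exact hv

lemma mk0_span {v : 𝓞 K} (hv : v ≠ 0) (hv' : (v : K) ≠ 0) :
    FractionalIdeal.mk0 K ⟨Ideal.span {v}, mem_nonZeroDivisors_of_ne_zero (span_ne hv)⟩ =
        toPrincipalIdeal (𝓞 K) K (Units.mk0 (v : K) hv') := by
  symm
  rw [toPrincipalIdeal_eq_iff]
  simp only [Units.val_mk0, FractionalIdeal.coe_mk0]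
  rw [FractionalIdeal.coeIdeal_span_singleton]

lemma cls_span' {v : 𝓞 K} (hv : v ≠ 0) (hp : ∀ ρ : K →+* ℝ, 0 < ρ (v : K)) :
    cls (Ideal.span {v} : Gi K) = 1 := by
  have hv' : (v : K) ≠ 0 := by
    intro h; exact hv (by exact_mod_cast h)
  rw [cls_of (span_ne hv), mk0_span hv hv']
  unfold clmk
  show (QuotientGroup.mk' (tp K)) _ = 1
  rw [QuotientGroup.mk'_apply, QuotientGroup.eq_one_iff]
  exact Subgroup.mem_map.mpr ⟨Units.mk0 (v : K) hv', hp, rfl⟩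

lemma exists_gen {z : Gi K} (hz : z ≠ 0) (h : cls z = 1) :
    ∃ v : 𝓞 K, v ≠ 0 ∧ (∀ ρ : K →+* ℝ, 0 < ρ (v : K)) ∧ z = Ideal.span {v} := by
  rw [cls_of hz] at h
  unfold clmk at h
  have h' : (FractionalIdeal.mk0 K ⟨z, mem_nonZeroDivisors_of_ne_zero hz⟩) ∈ tp K := by
    rw [← QuotientGroup.eq_one_iff]
    exact h
  obtain ⟨u, hu, hu2⟩ := Subgroup.mem_map.mp h'
  rw [toPrincipalIdeal_eq_iff] at hu2
  simp only [FractionalIdeal.coe_mk0] at hu2
  have hmem : (u : K) ∈ ((z : FractionalIdeal (𝓞 K)⁰ K)) := by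
    rw [← hu2]
    exact FractionalIdeal.mem_spanSingleton_self _ _
  rw [FractionalIdeal.mem_coeIdeal] at hmem
  obtain ⟨v, hvz, hv⟩ := hmem
  have hvu : (v : K) = (u : K) := hv
  refine ⟨v, ?_, ?_, ?_⟩
  · rintro rfl
    exact u.ne_zero (by rw [← hvu]; simp)
  · intro ρ
    rw [hvu]
    exact hu ρ
  · have h3 : ((z : FractionalIdeal (𝓞 K)⁰ K)) =
        ((Ideal.span {v} : Ideal (𝓞 K)) : FractionalIdeal (𝓞 K)⁰ K) := by
      rw [FractionalIdeal.coeIdeal_span_singleton, ← hu2]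
      congr 1
      exact hvu.symm
    exact FractionalIdeal.coeIdeal_injective h3

lemma exists_rep (c : Cl K) : ∃ J : Gi K, J ≠ 0 ∧ cls J = c := by
  obtain ⟨I, rfl⟩ : ∃ I : (FractionalIdeal (𝓞 K)⁰ K)ˣ, clmk K I = c :=
    QuotientGroup.mk'_surjective (tp K) c
  obtain ⟨a, aI, ha, h⟩ := FractionalIdeal.exists_eq_spanSingleton_mul (I : FractionalIdeal (𝓞 K)⁰ K)
  have haI : aI ≠ 0 := by
    rintro rfl
    have : (I : FractionalIdeal (𝓞 K)⁰ K) = 0 := by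
      rw [h]; simp
    exact I.ne_zero this
  have ha' : (a : K) ≠ 0 := by
    intro h'; exact ha (by exact_mod_cast h')
  have hJ : (Ideal.span {a} : Gi K) * aI ≠ 0 := mul_ne_zero (span_ne ha) haI
  refine ⟨Ideal.span {a} * aI, hJ, ?_⟩
  rw [cls_of hJ]
  show QuotientGroup.mk' (tp K) _ = QuotientGroup.mk' (tp K) _
  rw [QuotientGroup.mk'_apply, QuotientGroup.mk'_apply, QuotientGroup.eq]
  refine Subgroup.mem_map.mpr ⟨((Units.mk0 (a : K) ha') ^ 2)⁻¹, ?_, ?_⟩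
  · apply inv_mem
    intro ρ
    simp only [Units.val_pow_eq_pow_val, Units.val_mk0, map_pow]
    have : ρ (a : K) ≠ 0 := (map_ne_zero ρ).mpr ha'
    positivity
  · rw [eq_inv_mul_iff_mul_eq]
    apply Units.ext
    rw [Units.val_mul, h, coe_toPrincipalIdeal]
    simp only [FractionalIdeal.coe_mk0, FractionalIdeal.coeIdeal_mul,
      FractionalIdeal.coeIdeal_span_singleton]
    have h1 : (FractionalIdeal.spanSingleton (𝓞 K)⁰ ((algebraMap (𝓞 K) K) a) : FractionalIdeal (𝓞 K)⁰ K) *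
        (aI : FractionalIdeal (𝓞 K)⁰ K) *
        FractionalIdeal.spanSingleton (𝓞 K)⁰ (((Units.mk0 (a : K) ha' ^ 2)⁻¹ : Kˣ) : K) =
        FractionalIdeal.spanSingleton (𝓞 K)⁰ ((algebraMap (𝓞 K) K) a *
          (((Units.mk0 (a : K) ha' ^ 2)⁻¹ : Kˣ) : K)) * (aI : FractionalIdeal (𝓞 K)⁰ K) := by
      rw [← FractionalIdeal.spanSingleton_mul_spanSingleton]
      ring
    rw [h1]
    congr 2
    simp only [Units.val_inv_eq_inv_val, Units.val_pow_eq_pow_val, Units.val_mk0]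
    field_simp

end cls

section lattice

variable (Φ : Fund K)

/-- the determinant of two algebraic integers -/
noncomputable def W (u v : 𝓞 K) : ℝ := Φ.σ (u : K) * Φ.τ (v : K) - Φ.τ (u : K) * Φ.σ (v : K)

lemma W_lin (u v : 𝓞 K) (a b c d : ℤ) :
    W Φ ((a : 𝓞 K) * u + (b : 𝓞 K) * v) ((c : 𝓞 K) * u + (d : 𝓞 K) * v) =
      ((a * d - b * c : ℤ) : ℝ) * W Φ u v := by
  unfold W
  simp only [map_add, map_mul, map_intCast]
  push_cast
  ring

/-- an integral basis -/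
noncomputable def bO [hK : RQ K] : Module.Basis (Fin 2) ℤ (𝓞 K) :=
  Module.finBasisOfFinrankEq ℤ (𝓞 K) (by rw [RingOfIntegers.rank K, hK.deg])

lemma repr_two {M : Type*} [AddCommGroup M] (b : Module.Basis (Fin 2) ℤ M) (v : M) :
    v = b.repr v 0 • b 0 + b.repr v 1 • b 1 := by
  have := b.sum_repr v
  rw [Fin.sum_univ_two] at this
  exact this.symm

lemma W_bO_ne [hK : RQ K] : W Φ (bO (K := K) 0) (bO 1) ≠ 0 := by
  intro h0
  -- the second embedding is a multiple of the first one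
  have h1 : ∀ v w : 𝓞 K, W Φ v w = 0 := by
    intro v w
    have hv := repr_two (bO (K := K)) v
    have hw := repr_two (bO (K := K)) w
    rw [hv, hw]
    simp only [zsmul_eq_mul]
    rw [W_lin, h0, mul_zero]
  have h2 : ∀ v : 𝓞 K, Φ.σ (v : K) = Φ.τ (v : K) := by
    intro v
    have := h1 v 1
    unfold W at this
    simp only [map_one, mul_one] at this
    linarith
  apply Φ.ne
  ext x
  obtain ⟨a, b, hb, rfl⟩ := IsFractionRing.div_surjective (A := 𝓞 K) x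
  rw [map_div₀, map_div₀]
  congr 1
  · exact h2 a
  · exact h2 b

/-- the covolume -/
noncomputable def V0 [RQ K] : ℝ := |W Φ (bO (K := K) 0) (bO 1)|

lemma V0_pos [RQ K] : 0 < V0 Φ := abs_pos.mpr (W_bO_ne Φ)

lemma exists_bas [hK : RQ K] {J : Gi K} (hJ : J ≠ 0) : ∃ (n : ℕ) (f : 𝓞 K), 0 < n ∧
    (n : 𝓞 K) ∈ J ∧ f ∈ J ∧ (∀ v ∈ J, ∃ x y : ℤ, v = (x : 𝓞 K) * (n : 𝓞 K) + (y : 𝓞 K) * f) ∧
    |W Φ (n : 𝓞 K) f| = nm J * V0 Φ := by
  have hJ' : J ≠ ⊥ := by rwa [Ideal.zero_eq_bot] at hJ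
  let bJ : Module.Basis (Fin 2) ℤ J := J.selfBasis (bO (K := K)) hJ'
  have hdet := Ideal.natAbs_det_basis_change (bO (K := K)) J bJ
  -- the least positive integer
  have hex : ∃ n : ℕ, 0 < n ∧ (n : 𝓞 K) ∈ J := by
    refine ⟨Ideal.absNorm J, Nat.pos_of_ne_zero (by rwa [Ne, Ideal.absNorm_eq_zero_iff]), ?_⟩
    exact Ideal.absNorm_mem J
  let n := Nat.find hex
  obtain ⟨hn, hnJ⟩ : 0 < n ∧ (n : 𝓞 K) ∈ J := Nat.find_spec hex
  have hmin : ∀ m : ℕ, 0 < m → (m : 𝓞 K) ∈ J → n ≤ m := fun m h1 h2 => Nat.find_min' hex ⟨h1, h2⟩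
  -- coordinates
  let a : ℤ := bJ.repr ⟨n, hnJ⟩ 0
  let c : ℤ := bJ.repr ⟨n, hnJ⟩ 1
  let b0 : 𝓞 K := (bJ 0 : J)
  let b1 : 𝓞 K := (bJ 1 : J)
  have hb : ∀ v (hv : v ∈ J), v = ((bJ.repr ⟨v, hv⟩ 0 : ℤ) : 𝓞 K) * b0 + ((bJ.repr ⟨v, hv⟩ 1 : ℤ) : 𝓞 K) * b1 := by
    intro v hv
    have := congrArg (fun t : J => (t : 𝓞 K)) (repr_two bJ ⟨v, hv⟩)
    simpa [zsmul_eq_mul] using this
  have hnb : (n : 𝓞 K) = (a : 𝓞 K) * b0 + (c : 𝓞 K) * b1 := hb _ hnJ
  have hb0 : b0 ∈ J := (bJ 0).2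
  have hb1 : b1 ∈ J := (bJ 1).2
  have hgcd : Int.gcd a c = 1 := by
    by_contra hne
    obtain ⟨a', ha'⟩ := Int.gcd_dvd_left (a := a) (b := c)
    obtain ⟨c', hc'⟩ := Int.gcd_dvd_right (a := a) (b := c)
    set g := Int.gcd a c with hg
    have hg0 : g ≠ 0 := by
      intro h0
      rw [h0] at ha' hc'
      simp at ha' hc'
      rw [ha', hc'] at hnb
      simp at hnb
      omega
    -- m = a' b0 + c' b1
    set m : 𝓞 K := (a' : 𝓞 K) * b0 + (c' : 𝓞 K) * b1 with hm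
    have hmJ : m ∈ J := J.add_mem (J.mul_mem_left _ hb0) (J.mul_mem_left _ hb1)
    have hgm : (n : 𝓞 K) = (g : 𝓞 K) * m := by
      rw [hnb, hm, ha', hc']
      push_cast
      ring
    -- m is rational, so an integer
    have hgK : ((g : ℕ) : K) ≠ 0 := by exact_mod_cast hg0
    have hmK : (m : K) = algebraMap ℚ K ((n : ℚ) / (g : ℚ)) := by
      have h1 : ((n : ℕ) : K) = (g : K) * (m : K) := by
        have := congrArg (fun t : 𝓞 K => (t : K)) hgm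
        simpa using this
      rw [map_div₀, map_natCast, map_natCast, h1]
      field_simp
    have hint : IsIntegral ℤ (algebraMap ℚ K ((n : ℚ) / (g : ℚ))) := by
      rw [← hmK]; exact m.isIntegral_coe
    have hint2 : IsIntegral ℤ ((n : ℚ) / (g : ℚ)) :=
      (isIntegral_algebraMap_iff (algebraMap ℚ K).injective).mp hint
    obtain ⟨t, ht⟩ := IsIntegrallyClosed.isIntegral_iff.mp hint2
    have ht' : (n : ℚ) = g * t := by
      have : ((t : ℤ) : ℚ) = (n : ℚ) / (g : ℚ) := ht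
      rw [this]
      field_simp
    have ht2 : (n : ℤ) = g * t := by exact_mod_cast ht'
    have ht3 : 0 < t := by
      by_contra h
      push Not at h
      have : (g : ℤ) * t ≤ 0 := mul_nonpos_of_nonneg_of_nonpos (by positivity) h
      omega
    obtain ⟨s, rfl⟩ := Int.eq_ofNat_of_zero_le ht3.le
    have hs : (n : ℕ) = g * s := by exact_mod_cast ht2
    have hms : m = (s : 𝓞 K) := by
      have h1 : (g : 𝓞 K) * m = (g : 𝓞 K) * (s : 𝓞 K) := by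
        rw [← hgm]
        exact_mod_cast congrArg (fun t : ℕ => (t : 𝓞 K)) hs
      exact mul_left_cancel₀ (by exact_mod_cast hg0) h1
    have hs0 : 0 < s := by exact_mod_cast ht3
    have := hmin s hs0 (hms ▸ hmJ)
    have hg2 : 2 ≤ g := by omega
    nlinarith
  -- Bezout
  set u := Int.gcdA a c with hu
  set w := Int.gcdB a c with hw
  have hbez : a * u + c * w = 1 := by
    have := Int.gcd_eq_gcd_ab a c
    rw [hgcd] at this
    exact_mod_cast this.symm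
  refine ⟨n, ((-w : ℤ) : 𝓞 K) * b0 + (u : 𝓞 K) * b1, hn, hnJ,
    J.add_mem (J.mul_mem_left _ hb0) (J.mul_mem_left _ hb1), ?_, ?_⟩
  · intro v hv
    refine ⟨(bJ.repr ⟨v, hv⟩ 0) * u + (bJ.repr ⟨v, hv⟩ 1) * w,
      -(bJ.repr ⟨v, hv⟩ 0) * c + (bJ.repr ⟨v, hv⟩ 1) * a, ?_⟩
    conv_lhs => rw [hb v hv]
    rw [hnb]
    have hbez' : (a : 𝓞 K) * (u : 𝓞 K) + (c : 𝓞 K) * (w : 𝓞 K) = 1 := by exact_mod_cast hbez
    push_cast
    linear_combination (-((bJ.repr ⟨v, hv⟩ 0 : ℤ) : 𝓞 K) * b0 - ((bJ.repr ⟨v, hv⟩ 1 : ℤ) : 𝓞 K) * b1) * hbez'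
  · rw [hnb, W_lin]
    have h1 : a * u - c * (-w) = 1 := by linarith
    rw [h1, Int.cast_one, one_mul]
    -- W b0 b1 = det * W
    have e0 := repr_two (bO (K := K)) b0
    have e1 := repr_two (bO (K := K)) b1
    simp only [zsmul_eq_mul] at e0 e1
    have h2 : W Φ b0 b1 = (((bO (K := K)).det ((↑) ∘ bJ) : ℤ) : ℝ) * W Φ (bO (K := K) 0) (bO 1) := by
      rw [e0, e1, W_lin]
      congr 2
      rw [Module.Basis.det_apply, Matrix.det_fin_two]
      simp only [Module.Basis.toMatrix_apply, Function.comp]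
      change _ = (bO.repr b0) 0 * (bO.repr b1) 1 - (bO.repr b1) 0 * (bO.repr b0) 1
      ring
    rw [h2, abs_mul]
    unfold V0 nm
    rw [← hdet, Nat.cast_natAbs, Int.cast_abs]

omit [NumberField K] in
lemma emb_zpow (ρ : K →+* ℝ) (u : (𝓞 K)ˣ) (n : ℤ) :
    ρ (((u ^ n : (𝓞 K)ˣ) : 𝓞 K) : K) = (ρ ((u : 𝓞 K) : K)) ^ n := by
  let g : (𝓞 K)ˣ →* ℝˣ := Units.map ((ρ.comp (algebraMap (𝓞 K) K)) : 𝓞 K →* ℝ)
  calc ρ (((u ^ n : (𝓞 K)ˣ) : 𝓞 K) : K) = ((g (u ^ n) : ℝˣ) : ℝ) := rfl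
    _ = (((g u) ^ n : ℝˣ) : ℝ) := by rw [map_zpow]
    _ = ((g u : ℝˣ) : ℝ) ^ n := Units.val_zpow_eq_zpow_val _ _

lemma mem_of_span {J z : Gi K} {v : 𝓞 K} (h : J * z = Ideal.span {v}) : v ∈ J := by
  have h1 : v ∈ Ideal.span {v} := Ideal.mem_span_singleton_self v
  have h2 : J ∣ Ideal.span {v} := ⟨z, h.symm⟩
  exact Ideal.dvd_iff_le.mp h2 h1

/-- the ratio of the embeddings -/
noncomputable def rat (v : 𝓞 K) : ℝ := Φ.σ (v : K) / Φ.τ (v : K)

lemma rat_mul (u v : 𝓞 K) : rat Φ (u * v) = rat Φ u * rat Φ v := by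
  unfold rat
  simp only [map_mul]
  rw [mul_div_mul_comm]

lemma rat_zpow (n : ℤ) : rat Φ ((Φ.E ^ n : (𝓞 K)ˣ) : 𝓞 K) = Φ.R ^ n := by
  unfold rat Fund.R
  rw [emb_zpow, emb_zpow, div_zpow]

end lattice

end ClsAux

open ClsAux

variable {K : Type} [Field K] [NumberField K]

/-- **CLS** -/
theorem specCls [hK : RQ K] (D : Dir K) : SpecCls K D := by
  set Φ := D.toFund with hΦ
  have hR1 : 1 < Φ.R := one_lt_R Φ
  have hR0 : 0 < Φ.R := lt_trans one_pos hR1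
  refine ⟨V0 Φ, V0_pos Φ, fun c => ?_⟩
  obtain ⟨J, hJ, hJc⟩ := exists_rep c⁻¹
  obtain ⟨n, f, hn, hnJ, hfJ, hspan, hW⟩ := exists_bas Φ hJ
  have hN0 : 0 < nm J := by
    unfold nm
    exact Nat.pos_of_ne_zero (by rwa [Ne, Ideal.absNorm_eq_zero_iff])
  have hN : (0 : ℝ) < nm J := by exact_mod_cast hN0
  set s : ℝ := Real.sqrt (nm J) with hs
  have hs0 : 0 < s := Real.sqrt_pos.mpr hN
  have hss : s * s = nm J := Real.mul_self_sqrt hN.le
  set E2 : 𝓞 K := ((Φ.E ^ (2 : ℤ) : (𝓞 K)ˣ) : 𝓞 K) with hE2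
  set Em2 : 𝓞 K := ((Φ.E ^ (-2 : ℤ) : (𝓞 K)ˣ) : 𝓞 K) with hEm2
  have hEE : Em2 * E2 = 1 := by
    rw [hE2, hEm2, ← Units.val_mul, ← zpow_add]
    simp
  have hσE : 1 < Φ.σ ((Φ.E : 𝓞 K) : K) := Φ.one_lt
  have hτE : 0 < Φ.τ ((Φ.E : 𝓞 K) : K) := Φ.pos
  have hστ := unit_norm Φ
  have hsE2 : Φ.σ (E2 : K) = Φ.σ ((Φ.E : 𝓞 K) : K) ^ 2 := by
    rw [hE2, emb_zpow]; norm_cast
  have htE2 : Φ.τ (E2 : K) = Φ.τ ((Φ.E : 𝓞 K) : K) ^ 2 := by
    rw [hE2, emb_zpow]; norm_cast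
  set g1 : 𝓞 K := (n : 𝓞 K) * E2 with hg1
  set g2 : 𝓞 K := f * E2 with hg2
  have hWg : |W Φ g1 g2| = nm J * V0 Φ := by
    have : W Φ g1 g2 = W Φ (n : 𝓞 K) f * (Φ.σ (E2 : K) * Φ.τ (E2 : K)) := by
      unfold W
      rw [hg1, hg2]
      simp only [map_mul]
      ring
    rw [this, hsE2, htE2, ← mul_pow, hστ, one_pow, mul_one, hW]
  let v : ℤ × ℤ → 𝓞 K := fun p => (p.1 : 𝓞 K) * g1 + (p.2 : 𝓞 K) * g2
  have hvJ : ∀ p, v p ∈ J := fun p =>
    J.add_mem (J.mul_mem_left _ (J.mul_mem_right _ hnJ)) (J.mul_mem_left _ (J.mul_mem_right _ hfJ))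
  let e₁ : ℝ × ℝ := (Φ.σ (g1 : K) / s, Φ.τ (g1 : K) / s)
  let e₂ : ℝ × ℝ := (Φ.σ (g2 : K) / s, Φ.τ (g2 : K) / s)
  have hlr1 : ∀ p, (lr e₁ e₂ p).1 = Φ.σ (v p : K) / s := by
    intro p
    simp only [lr, e₁, e₂, v, map_add, map_mul, map_intCast]
    ring
  have hlr2 : ∀ p, (lr e₁ e₂ p).2 = Φ.τ (v p : K) / s := by
    intro p
    simp only [lr, e₁, e₂, v, map_add, map_mul, map_intCast]
    ring
  have hratio : ∀ p, (lr e₁ e₂ p).1 / (lr e₁ e₂ p).2 = rat Φ (v p) := by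
    intro p
    rw [hlr1, hlr2, div_div_div_cancel_right₀ hs0.ne']
    rfl
  have hprod : ∀ p, (lr e₁ e₂ p).1 * (lr e₁ e₂ p).2 = Φ.σ (v p : K) * Φ.τ (v p : K) / nm J := by
    intro p
    rw [hlr1, hlr2, ← hss]
    field_simp
  have hsec : ∀ p, Sec Φ.R (lr e₁ e₂ p) ↔
      0 < Φ.τ (v p : K) ∧ 0 < Φ.σ (v p : K) ∧ 1 ≤ rat Φ (v p) ∧ rat Φ (v p) < Φ.R := by
    intro p
    unfold Sec rat
    rw [hlr1, hlr2]
    constructor
    · rintro ⟨h1, h2, h3⟩
      have h1' : 0 < Φ.τ (v p : K) := by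
        have := mul_pos h1 hs0
        rwa [div_mul_cancel₀ _ hs0.ne'] at this
      have h2' : Φ.τ (v p : K) ≤ Φ.σ (v p : K) := by
        rwa [div_le_div_iff_of_pos_right hs0] at h2
      have h3' : Φ.σ (v p : K) < Φ.R * Φ.τ (v p : K) := by
        rwa [← mul_div_assoc, div_lt_div_iff_of_pos_right hs0] at h3
      exact ⟨h1', lt_of_lt_of_le h1' h2', by rwa [one_le_div h1'], by rwa [div_lt_iff₀ h1']⟩
    · rintro ⟨h1, h2, h3, h4⟩
      rw [one_le_div h1] at h3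
      rw [div_lt_iff₀ h1] at h4
      refine ⟨div_pos h1 hs0, by rwa [div_le_div_iff_of_pos_right hs0], ?_⟩
      rwa [← mul_div_assoc, div_lt_div_iff_of_pos_right hs0]
  have hfJ0 : D.f J ≠ 0 := by
    intro h
    have := D.norm J hJ
    rw [h] at this
    simp at this
  refine ⟨e₁, e₂, (D.f J)⁻¹, ?_, ?_, ?_⟩
  · rw [norm_inv, D.norm J hJ, inv_one]
  · have hn' : (0 : ℝ) < n := by exact_mod_cast hn
    have hσg : Φ.σ (g1 : K) = n * Φ.σ ((Φ.E : 𝓞 K) : K) ^ 2 := by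
      rw [hg1, ← hsE2]; simp
    have hτg : Φ.τ (g1 : K) = n * Φ.τ ((Φ.E : 𝓞 K) : K) ^ 2 := by
      rw [hg1, ← htE2]; simp
    refine ⟨?_, ?_, ?_⟩
    · show 0 < Φ.τ (g1 : K) / s
      rw [hτg]
      positivity
    · show Φ.R * (Φ.τ (g1 : K) / s) < Φ.σ (g1 : K) / s
      rw [← mul_div_assoc, div_lt_div_iff_of_pos_right hs0, hσg, hτg]
      have h1 : Φ.R * Φ.τ ((Φ.E : 𝓞 K) : K) = Φ.σ ((Φ.E : 𝓞 K) : K) := by
        unfold Fund.R
        rw [div_mul_cancel₀ _ hτE.ne']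
      have h2 : Φ.τ ((Φ.E : 𝓞 K) : K) < Φ.σ ((Φ.E : 𝓞 K) : K) := by nlinarith
      have h3 : 0 < Φ.σ ((Φ.E : 𝓞 K) : K) := by linarith
      calc Φ.R * (n * Φ.τ ((Φ.E : 𝓞 K) : K) ^ 2)
          = n * ((Φ.R * Φ.τ ((Φ.E : 𝓞 K) : K)) * Φ.τ ((Φ.E : 𝓞 K) : K)) := by ring
        _ = n * (Φ.σ ((Φ.E : 𝓞 K) : K) * Φ.τ ((Φ.E : 𝓞 K) : K)) := by rw [h1]
        _ < n * (Φ.σ ((Φ.E : 𝓞 K) : K) * Φ.σ ((Φ.E : 𝓞 K) : K)) := by
            apply mul_lt_mul_of_pos_left _ hn'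
            exact mul_lt_mul_of_pos_left h2 h3
        _ = n * Φ.σ ((Φ.E : 𝓞 K) : K) ^ 2 := by ring
    · show |Φ.σ (g1 : K) / s * (Φ.τ (g2 : K) / s) - Φ.τ (g1 : K) / s * (Φ.σ (g2 : K) / s)| = V0 Φ
      have : Φ.σ (g1 : K) / s * (Φ.τ (g2 : K) / s) - Φ.τ (g1 : K) / s * (Φ.σ (g2 : K) / s) =
          W Φ g1 g2 / nm J := by
        rw [← hss]
        unfold W
        field_simp
      rw [this, abs_div, hWg, abs_of_pos hN]
      field_simp
  · intro x S hS F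
    -- the ideal of a point
    have hz : ∀ p, ∃ z : Gi K, Ideal.span {v p} = J * z := fun p =>
      Ideal.dvd_span_singleton.mpr (hvJ p)
    choose zz hzz using hz
    have hv0 : ∀ p, Sec Φ.R (lr e₁ e₂ p) → v p ≠ 0 := by
      intro p hp h0
      have := ((hsec p).mp hp).1
      rw [h0] at this
      simp at this
    have hzz0 : ∀ p, Sec Φ.R (lr e₁ e₂ p) → zz p ≠ 0 := by
      intro p hp h0
      have := hzz p
      rw [h0, mul_zero] at this
      exact span_ne (hv0 p hp) this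
    have hpos : ∀ p, Sec Φ.R (lr e₁ e₂ p) → ∀ ρ : K →+* ℝ, 0 < ρ (v p : K) := by
      intro p hp ρ
      obtain ⟨h1, h2, -⟩ := (hsec p).mp hp
      rcases real_emb Φ ρ with rfl | rfl
      · exact h2
      · exact h1
    have hnm : ∀ p, Sec Φ.R (lr e₁ e₂ p) → (nm (zz p) : ℝ) = (lr e₁ e₂ p).1 * (lr e₁ e₂ p).2 := by
      intro p hp
      obtain ⟨h1, h2, -⟩ := (hsec p).mp hp
      have h3 := nm_span Φ (v p)
      rw [abs_of_pos (mul_pos h2 h1), hzz p] at h3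
      rw [hprod, ← h3]
      unfold nm
      rw [map_mul]
      push_cast
      have : ((Ideal.absNorm J : ℕ) : ℝ) ≠ 0 := hN.ne'
      field_simp
    have hfz : ∀ p, Sec Φ.R (lr e₁ e₂ p) →
        D.f (zz p) = (D.f J)⁻¹ * ph D.R ((lr e₁ e₂ p).1 / (lr e₁ e₂ p).2) := by
      intro p hp
      obtain ⟨h1, h2, -⟩ := (hsec p).mp hp
      have h3 := D.prin (v p) h2 h1
      rw [hzz p, D.mul] at h3
      rw [hratio, eq_inv_mul_iff_mul_eq₀ hfJ0, h3]
      rfl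
    symm
    refine Finset.sum_bij (fun p _ => zz p) ?_ ?_ ?_ ?_
    · intro p hp
      obtain ⟨hp1, hp2⟩ := (hS p).mp hp
      rw [Finset.mem_filter]
      refine ⟨?_, ?_⟩
      · unfold disc
        rw [Finset.mem_filter]
        have h4 : (nm (zz p) : ℝ) ≤ x := by rw [hnm p hp1]; exact hp2
        refine ⟨?_, hzz0 p hp1, h4⟩
        rw [Set.Finite.mem_toFinset]
        exact Nat.le_floor h4
      · have h5 := cls_span' (hv0 p hp1) (hpos p hp1)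
        rw [hzz p, cls_mul' hJ (hzz0 p hp1), hJc] at h5
        exact (inv_mul_eq_one.mp h5).symm
    · intro p hp q hq hpq
      change zz p = zz q at hpq
      obtain ⟨hp1, hp2⟩ := (hS p).mp hp
      obtain ⟨hq1, hq2⟩ := (hS q).mp hq
      have h1 : Ideal.span {v p} = Ideal.span {v q} := by rw [hzz p, hzz q, hpq]
      rw [Ideal.span_singleton_eq_span_singleton] at h1
      obtain ⟨u, hu⟩ := h1
      have hu1 : ∀ ρ : K →+* ℝ, 0 < ρ ((u : 𝓞 K) : K) := by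
        intro ρ
        have h2 := hpos p hp1 ρ
        have h3 := hpos q hq1 ρ
        rw [← hu] at h3
        simp only [map_mul] at h3
        exact (pos_iff_pos_of_mul_pos h3).mp h2
      obtain ⟨m, hm⟩ := Φ.gen u (hu1 _) (hu1 _)
      obtain ⟨-, -, a1, a2⟩ := (hsec p).mp hp1
      obtain ⟨-, -, b1, b2⟩ := (hsec q).mp hq1
      have h4 : rat Φ (v q) = rat Φ (v p) * Φ.R ^ m := by
        rw [← hu, rat_mul, hm, rat_zpow]
      have hm0 : m = 0 := by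
        have h5 : Φ.R ^ m < Φ.R ^ (1 : ℤ) := by
          rw [zpow_one]
          have h6 : Φ.R ^ m ≤ rat Φ (v p) * Φ.R ^ m := by
            have : 0 < Φ.R ^ m := zpow_pos hR0 m
            nlinarith
          linarith
        have h7 : Φ.R ^ (-m) < Φ.R ^ (1 : ℤ) := by
          rw [zpow_one]
          have h8 : rat Φ (v p) = rat Φ (v q) * Φ.R ^ (-m) := by
            rw [h4, mul_assoc, ← zpow_add₀ hR0.ne']
            simp
          have h6 : Φ.R ^ (-m) ≤ rat Φ (v q) * Φ.R ^ (-m) := by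
            have : 0 < Φ.R ^ (-m) := zpow_pos hR0 _
            nlinarith
          linarith
        have h9 := (zpow_lt_zpow_iff_right₀ hR1).mp h5
        have h10 := (zpow_lt_zpow_iff_right₀ hR1).mp h7
        omega
      rw [hm0, zpow_zero] at hm
      rw [hm, Units.val_one, mul_one] at hu
      -- coordinates
      have e1 : Φ.σ (v p : K) = Φ.σ (v q : K) := by rw [hu]
      have e2 : Φ.τ (v p : K) = Φ.τ (v q : K) := by rw [hu]
      simp only [v, map_add, map_mul, map_intCast] at e1 e2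
      have hWne : W Φ g1 g2 ≠ 0 := by
        intro h0
        rw [h0, abs_zero] at hWg
        exact (mul_pos hN (V0_pos Φ)).ne hWg
      unfold W at hWne
      have k1 : ((p.1 : ℝ) - q.1) * (Φ.σ (g1 : K) * Φ.τ (g2 : K) - Φ.τ (g1 : K) * Φ.σ (g2 : K)) = 0 := by
        linear_combination Φ.τ (g2 : K) * e1 - Φ.σ (g2 : K) * e2
      have k2 : ((p.2 : ℝ) - q.2) * (Φ.σ (g1 : K) * Φ.τ (g2 : K) - Φ.τ (g1 : K) * Φ.σ (g2 : K)) = 0 := by
        linear_combination Φ.σ (g1 : K) * e2 - Φ.τ (g1 : K) * e1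
      have l1 := (mul_eq_zero.mp k1).resolve_right hWne
      have l2 := (mul_eq_zero.mp k2).resolve_right hWne
      have m1 : p.1 = q.1 := by
        have : (p.1 : ℝ) = q.1 := by linarith
        exact_mod_cast this
      have m2 : p.2 = q.2 := by
        have : (p.2 : ℝ) = q.2 := by linarith
        exact_mod_cast this
      exact Prod.ext m1 m2
    · intro z hz
      rw [Finset.mem_filter] at hz
      obtain ⟨hz1, hz2⟩ := hz
      unfold disc at hz1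
      rw [Finset.mem_filter] at hz1
      obtain ⟨-, hz0, hzx⟩ := hz1
      have h1 : cls (J * z) = 1 := by
        rw [cls_mul' hJ hz0, hJc, hz2, inv_mul_cancel]
      obtain ⟨v0, hv00, hv0p, hv0s⟩ := exists_gen (mul_ne_zero hJ hz0) h1
      have hr : 0 < rat Φ v0 := div_pos (hv0p _) (hv0p _)
      obtain ⟨m, hm1, hm2⟩ := exists_mem_Ico_zpow hr hR1
      obtain ⟨U, hU⟩ : ∃ U : (𝓞 K)ˣ, U = Φ.E ^ (-m) := ⟨_, rfl⟩
      obtain ⟨v1, hv1⟩ : ∃ v1 : 𝓞 K, v1 = v0 * (U : 𝓞 K) := ⟨_, rfl⟩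
      have hrat1 : rat Φ v1 = rat Φ v0 * Φ.R ^ (-m) := by
        rw [hv1, rat_mul, hU, rat_zpow]
      have hv1J : v1 ∈ J := by
        have h6 : v0 ∈ J := mem_of_span hv0s
        rw [hv1]
        exact J.mul_mem_right _ h6
      obtain ⟨a, b, hab⟩ := hspan (v1 * Em2) (J.mul_mem_right _ hv1J)
      have hvp : v (a, b) = v1 := by
        show (a : 𝓞 K) * g1 + (b : 𝓞 K) * g2 = v1
        calc (a : 𝓞 K) * g1 + (b : 𝓞 K) * g2 = ((a : 𝓞 K) * (n : 𝓞 K) + (b : 𝓞 K) * f) * E2 := by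
              rw [hg1, hg2]; ring
          _ = v1 * (Em2 * E2) := by rw [← hab]; ring
          _ = v1 := by rw [hEE, mul_one]
      have hspan1 : Ideal.span {v1} = J * z := by
        rw [hv0s, Ideal.span_singleton_eq_span_singleton]
        exact ⟨U⁻¹, by rw [hv1, mul_assoc, Units.mul_inv, mul_one]⟩
      have hposU : ∀ ρ : K →+* ℝ, 0 < ρ ((U : 𝓞 K) : K) := by
        intro ρ
        rw [hU, emb_zpow]
        apply zpow_pos
        rcases real_emb Φ ρ with rfl | rfl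
        · linarith
        · exact hτE
      have hpos1 : ∀ ρ : K →+* ℝ, 0 < ρ (v1 : K) := by
        intro ρ
        rw [hv1]
        simp only [map_mul]
        exact mul_pos (hv0p ρ) (hposU ρ)
      have hsec1 : Sec Φ.R (lr e₁ e₂ (a, b)) := by
        rw [hsec, hvp]
        refine ⟨hpos1 _, hpos1 _, ?_, ?_⟩
        · rw [hrat1]
          calc (1 : ℝ) = Φ.R ^ m * Φ.R ^ (-m) := by rw [← zpow_add₀ hR0.ne']; simp
            _ ≤ rat Φ v0 * Φ.R ^ (-m) := mul_le_mul_of_nonneg_right hm1 (zpow_pos hR0 _).le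
        · rw [hrat1]
          calc rat Φ v0 * Φ.R ^ (-m) < Φ.R ^ (m + 1) * Φ.R ^ (-m) :=
                mul_lt_mul_of_pos_right hm2 (zpow_pos hR0 _)
            _ = Φ.R := by rw [← zpow_add₀ hR0.ne']; simp
      have hzeq : zz (a, b) = z := by
        have h5 := hzz (a, b)
        rw [hvp, hspan1] at h5
        exact (mul_left_cancel₀ hJ h5).symm
      refine ⟨(a, b), ?_, hzeq⟩
      rw [hS]
      refine ⟨hsec1, ?_⟩
      rw [← hnm _ hsec1, hzeq]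
      exact hzx
    · intro p hp
      obtain ⟨hp1, hp2⟩ := (hS p).mp hp
      show F (_ * ph D.R _) = F (D.f (zz p))
      rw [hfz p hp1]

end Pool.Agent.Lib.MP391708.MAR
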