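import Pool.Agent.Lib.MP_391708_nt.MAR.Spec

/-!
# COUNT and TYPE: ideals in discs, sums of nontrivial characters (real quadratic fields)

`specCount`, `specType` from `SpecCls`, `SpecLatC`, `SpecLatT`.
-/

set_option autoImplicit false

namespace Pool.Agent.Lib.MP391708.MAR

open Finset Filter Topology NumberField
open scoped ComplexConjugate Classical

/-- the finite set of the lattice points in a sector region -/
lemma exists_isH {R V : ℝ} {e₁ e₂ : ℝ × ℝ} (hR : 1 < R) (hV : 0 < V) (hB : Bas R V e₁ e₂) (Y : ℝ) :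
    ∃ S : Finset (ℤ × ℤ), IsH e₁ e₂ R Y S := by
  obtain ⟨_, _, hdet⟩ := hB
  set d : ℝ := e₁.1 * e₂.2 - e₁.2 * e₂.1 with hd
  have hd0 : 0 < |d| := by rw [hdet]; exact hV
  set B : ℝ := R * (|Y| + 1) with hBd
  have hR0 : 0 < R := by linarith
  have hB0 : 0 ≤ B := by positivity
  set M : ℝ := (B * (|e₁.1| + |e₁.2| + |e₂.1| + |e₂.2|)) / |d| with hM
  have hfin : Set.Finite {p : ℤ × ℤ | Sec R (lr e₁ e₂ p) ∧ (lr e₁ e₂ p).1 * (lr e₁ e₂ p).2 ≤ Y} := by
    refine Set.Finite.subset (Finset.finite_toSet (Finset.Icc (-⌈M⌉) ⌈M⌉ ×ˢ Finset.Icc (-⌈M⌉) ⌈M⌉)) ?_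
    rintro p ⟨⟨s1, s2, s3⟩, hY⟩
    set X := lr e₁ e₂ p with hX
    have hX2 : X.2 ≤ |Y| + 1 := by
      by_contra hcon
      push Not at hcon
      have h1 : 1 ≤ X.2 := by linarith [abs_nonneg Y]
      have h2 : X.2 ≤ X.1 * X.2 := by nlinarith
      linarith [le_abs_self Y]
    have hX1 : X.1 ≤ B := by
      rw [hBd]
      nlinarith
    have hX2' : X.2 ≤ B := by linarith
    have a1 : |X.1| ≤ B := by rw [abs_of_pos (by linarith)]; exact hX1
    have a2 : |X.2| ≤ B := by rw [abs_of_pos s1]; exact hX2'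
    have e1 : (p.1 : ℝ) * d = X.1 * e₂.2 - X.2 * e₂.1 := by
      rw [hX, hd]; simp only [lr]; ring
    have e2 : (p.2 : ℝ) * d = e₁.1 * X.2 - e₁.2 * X.1 := by
      rw [hX, hd]; simp only [lr]; ring
    have b1 : |(p.1 : ℝ)| ≤ M := by
      rw [hM, le_div_iff₀ hd0, ← abs_mul, e1]
      refine (abs_sub _ _).trans ?_
      rw [abs_mul, abs_mul]
      have := mul_le_mul_of_nonneg_right a1 (abs_nonneg e₂.2)
      have := mul_le_mul_of_nonneg_right a2 (abs_nonneg e₂.1)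
      have := mul_nonneg hB0 (abs_nonneg e₁.1)
      have := mul_nonneg hB0 (abs_nonneg e₁.2)
      nlinarith
    have b2 : |(p.2 : ℝ)| ≤ M := by
      rw [hM, le_div_iff₀ hd0, ← abs_mul, e2]
      refine (abs_sub _ _).trans ?_
      rw [abs_mul, abs_mul]
      have := mul_le_mul_of_nonneg_right a2 (abs_nonneg e₁.1)
      have := mul_le_mul_of_nonneg_right a1 (abs_nonneg e₁.2)
      have := mul_nonneg hB0 (abs_nonneg e₂.1)
      have := mul_nonneg hB0 (abs_nonneg e₂.2)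
      nlinarith
    have c : ∀ n : ℤ, |(n : ℝ)| ≤ M → n ∈ Finset.Icc (-⌈M⌉) ⌈M⌉ := by
      intro n hn
      have h1 := abs_le.mp hn
      have h2 : M ≤ (⌈M⌉ : ℝ) := Int.le_ceil M
      rw [Finset.mem_Icc]
      constructor
      · have : (-(⌈M⌉ : ℝ)) ≤ (n : ℝ) := by linarith
        exact_mod_cast this
      · have : (n : ℝ) ≤ (⌈M⌉ : ℝ) := by linarith
        exact_mod_cast this
    rw [Finset.mem_coe, Finset.mem_product]
    exact ⟨c _ b1, c _ b2⟩
  exact ⟨hfin.toFinset, fun p => by simp [Set.Finite.mem_toFinset]⟩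

variable {K : Type} [Field K] [NumberField K]

/-- a sum over a disc, class by class -/
lemma sum_disc_cls (x : ℝ) (F : Gi K → ℂ) :
    ∑ z ∈ disc x, F z = ∑ c : Cl K, ∑ z ∈ (disc x).filter (fun z => cls z = c), F z :=
  (Finset.sum_fiberwise _ _ _).symm

/-- the norm is the product over the two embeddings -/
lemma norm_two [RQ K] {σ τ : K →+* ℝ} (hne : σ ≠ τ) (x : K) :
    ((Algebra.norm ℚ x : ℚ) : ℝ) = σ x * τ x := by
  have h := Algebra.norm_eq_prod_embeddings ℚ ℂ x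
  set s₁ : K →ₐ[ℚ] ℂ := (Complex.ofRealHom.comp σ).toRatAlgHom with hs1
  set s₂ : K →ₐ[ℚ] ℂ := (Complex.ofRealHom.comp τ).toRatAlgHom with hs2
  have hs : s₁ ≠ s₂ := by
    intro h0
    apply hne
    ext y
    have h1 := DFunLike.congr_fun h0 y
    have h2 : ((σ y : ℝ) : ℂ) = ((τ y : ℝ) : ℂ) := h1
    exact_mod_cast h2
  have hcard : Fintype.card (K →ₐ[ℚ] ℂ) = 2 := by
    rw [AlgHom.card ℚ K ℂ, RQ.deg]
  have huniv : (Finset.univ : Finset (K →ₐ[ℚ] ℂ)) = {s₁, s₂} := by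
    symm
    apply Finset.eq_univ_of_card
    rw [hcard, Finset.card_pair hs]
  rw [huniv, Finset.prod_pair hs] at h
  have h3 : (((Algebra.norm ℚ x : ℚ) : ℝ) : ℂ) = (((σ x * τ x : ℝ)) : ℂ) := by
    push_cast
    exact h
  exact_mod_cast h3

/-- the fundamental unit has norm one -/
lemma E_norm [RQ K] (Φ : Fund K) : Φ.σ ((Φ.E : 𝓞 K) : K) * Φ.τ ((Φ.E : 𝓞 K) : K) = 1 := by
  rw [← norm_two Φ.ne]
  have h1 : IsUnit (Φ.E : 𝓞 K) := Φ.E.isUnit
  rw [NumberField.isUnit_iff_norm, RingOfIntegers.coe_norm] at h1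
  have h2 : (0 : ℝ) < ((Algebra.norm ℚ ((Φ.E : 𝓞 K) : K) : ℚ) : ℝ) := by
    rw [norm_two Φ.ne]
    exact mul_pos (by linarith [Φ.one_lt]) Φ.pos
  have h3 : (0 : ℚ) < Algebra.norm ℚ ((Φ.E : 𝓞 K) : K) := by exact_mod_cast h2
  rw [abs_of_pos h3] at h1
  rw [h1]
  norm_num

/-- `1 < R` -/
lemma R_gt_one [RQ K] (Φ : Fund K) : 1 < Φ.R := by
  have h0 := E_norm Φ
  have h1 := Φ.one_lt
  have h2 := Φ.pos
  unfold Fund.R
  rw [lt_div_iff₀ h2, one_mul]
  by_contra hcon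
  push Not at hcon
  nlinarith

/-- the number of ideals of a class in a disc -/
theorem card_cls {D : Dir K} (hR : 1 < D.R) (hC : SpecCls K D) (hL : SpecLatC) :
    ∃ ρ C : ℝ, 0 < ρ ∧ 0 < C ∧ ∀ Y : ℝ, 0 ≤ Y → ∀ c : Cl K,
      |(((disc Y : Finset (Gi K)).filter (fun z => cls z = c)).card : ℝ) - ρ * Y| ≤
        C * (Real.sqrt Y + 1) := by
  obtain ⟨V, hV, hcl⟩ := hC
  have key : ∀ c : Cl K, ∃ C : ℝ, 0 < C ∧ ∀ Y : ℝ, 0 ≤ Y →
      |(((disc Y : Finset (Gi K)).filter (fun z => cls z = c)).card : ℝ) -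
        Real.log D.R / 2 / V * Y| ≤ C * (Real.sqrt Y + 1) := by
    intro c
    obtain ⟨e₁, e₂, δ, _, hV2, hS⟩ := hcl c
    obtain ⟨C, hC0, hCC⟩ := hL D.R V e₁ e₂ hR hV hV2
    refine ⟨C, hC0, fun Y hY => ?_⟩
    obtain ⟨S, hSS⟩ := exists_isH hR hV hV2 Y
    have h1 := hS Y S hSS (fun _ => 1)
    have h2 := hCC Y S hY hSS
    simp only [Finset.sum_const, nsmul_eq_mul, mul_one] at h1
    have h3 : (((disc Y : Finset (Gi K)).filter (fun z => cls z = c)).card : ℝ) = (S.card : ℝ) := by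
      exact_mod_cast h1
    rw [h3]
    have h4 : Real.log D.R / 2 / V * Y = Real.log D.R / 2 * Y / V := by ring
    rw [h4]
    exact h2
  choose C hC0 hCC using key
  refine ⟨Real.log D.R / 2 / V, ∑ c, C c, ?_, ?_, fun Y hY c => ?_⟩
  · have := Real.log_pos hR
    positivity
  · exact Finset.sum_pos (fun c _ => hC0 c) ⟨1, Finset.mem_univ _⟩
  · refine (hCC c Y hY).trans (mul_le_mul_of_nonneg_right ?_ (by positivity))
    exact Finset.single_le_sum (f := C) (fun c _ => (hC0 c).le) (Finset.mem_univ c)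

/-- COUNT -/
theorem specCount' {D : Dir K} (hR : 1 < D.R) (hC : SpecCls K D) (hL : SpecLatC) :
    SpecCount K := by
  obtain ⟨ρ, C, hρ, hC0, h⟩ := card_cls hR hC hL
  have hh : (0 : ℝ) < Fintype.card (Cl K) := by
    exact_mod_cast Fintype.card_pos
  refine ⟨Fintype.card (Cl K) * ρ, Fintype.card (Cl K) * C, mul_pos hh hρ, mul_pos hh hC0,
    fun Y hY => ?_⟩
  have h1 : ((disc Y : Finset (Gi K)).card : ℝ) =
      ∑ c : Cl K, (((disc Y : Finset (Gi K)).filter (fun z => cls z = c)).card : ℝ) := by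
    have := Finset.card_eq_sum_card_fiberwise (s := (disc Y : Finset (Gi K)))
      (t := (Finset.univ : Finset (Cl K))) (f := cls) (fun z _ => Finset.mem_coe.2 (Finset.mem_univ _))
    rw [this]
    push_cast
    rfl
  have h2 : ((disc Y : Finset (Gi K)).card : ℝ) - Fintype.card (Cl K) * ρ * Y =
      ∑ c : Cl K, ((((disc Y : Finset (Gi K)).filter (fun z => cls z = c)).card : ℝ) - ρ * Y) := by
    rw [Finset.sum_sub_distrib, ← h1, Finset.sum_const, Finset.card_univ, nsmul_eq_mul]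
    ring
  rw [h2]
  refine (Finset.abs_sum_le_sum_abs _ _).trans ?_
  refine (Finset.sum_le_sum (fun c _ => h Y hY c)).trans ?_
  rw [Finset.sum_const, Finset.card_univ, nsmul_eq_mul, mul_assoc]

/-- the sum of a character of frequency `0` -/
theorem sum_xi_zero {D : Dir K} (hR : 1 < D.R) (hC : SpecCls K D) (hL : SpecLatC) :
    ∃ C : ℝ, 0 < C ∧ ∀ κ : Kp K, κ ≠ 0 → κ.2 = 0 → ∀ Y : ℝ, 0 ≤ Y →
      ‖∑ z ∈ disc Y, xi D κ z‖ ≤ C * (Real.sqrt Y + 1) := by
  obtain ⟨ρ, C, hρ, hC0, h⟩ := card_cls hR hC hL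
  have hh : (0 : ℝ) < Fintype.card (Cl K) := by
    exact_mod_cast Fintype.card_pos
  refine ⟨Fintype.card (Cl K) * C, mul_pos hh hC0, fun κ hκ hκ2 Y hY => ?_⟩
  have hκ1 : κ.1 ≠ 0 := fun h1 => hκ (Prod.ext h1 hκ2)
  have hsum : ∑ c : Cl K, κ.1 (Additive.ofMul c) = 0 := by
    have := AddChar.sum_eq_zero_iff_ne_zero.2 hκ1
    rw [← this]
    exact Fintype.sum_equiv Additive.ofMul _ _ (fun _ => rfl)
  have h1 : ∑ z ∈ disc Y, xi D κ z = ∑ c : Cl K, κ.1 (Additive.ofMul c) *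
      (((((disc Y : Finset (Gi K)).filter (fun z => cls z = c)).card : ℝ) - ρ * Y : ℝ) : ℂ) := by
    have h2 : ∀ c : Cl K, κ.1 (Additive.ofMul c) *
      (((((disc Y : Finset (Gi K)).filter (fun z => cls z = c)).card : ℝ) - ρ * Y : ℝ) : ℂ) =
        (∑ z ∈ (disc Y).filter (fun z => cls z = c), xi D κ z) -
          κ.1 (Additive.ofMul c) * ((ρ * Y : ℝ) : ℂ) := by
      intro c
      have h3 : ∑ z ∈ (disc Y).filter (fun z => cls z = c), xi D κ z =
          ∑ z ∈ (disc Y : Finset (Gi K)).filter (fun z => cls z = c), κ.1 (Additive.ofMul c) := by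
        refine Finset.sum_congr rfl (fun z hz => ?_)
        have h4 := (Finset.mem_filter.1 hz).2
        simp only [xi, hκ2, zpow_zero, mul_one, h4]
      rw [h3, Finset.sum_const, nsmul_eq_mul]
      push_cast
      ring
    rw [Finset.sum_congr rfl (fun c _ => h2 c), Finset.sum_sub_distrib, ← Finset.sum_mul, hsum,
      zero_mul, sub_zero, ← sum_disc_cls]
  rw [h1]
  refine (norm_sum_le _ _).trans ?_
  refine (Finset.sum_le_sum (g := fun _ => C * (Real.sqrt Y + 1)) (fun c _ => ?_)).trans ?_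
  · rw [norm_mul, AddChar.norm_apply, one_mul, Complex.norm_real, Real.norm_eq_abs]
    exact h Y hY c
  · rw [Finset.sum_const, Finset.card_univ, nsmul_eq_mul, mul_assoc]

/-- the sums of the characters of nonzero frequency over a class -/
theorem sum_xi_cls {D : Dir K} (hR : 1 < D.R) (hC : SpecCls K D) (hT : SpecLatT) {A : ℝ}
    (hA : 1 ≤ A) (c : Cl K) :
    ∃ b : ℝ, 0 < b ∧ b < 1 ∧ ∀ᶠ x : ℝ in atTop, ∀ κ : Kp K, κ.2 ≠ 0 → |(κ.2 : ℝ)| ≤ x ^ A →
      ‖∑ z ∈ (disc x).filter (fun z => cls z = c), xi D κ z‖ ≤ x ^ (1 - b) := by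
  obtain ⟨V, hV, hcl⟩ := hC
  obtain ⟨e₁, e₂, δ, hδ, hV2, hS⟩ := hcl c
  obtain ⟨b, hb0, hb1, hb⟩ := hT D.R V e₁ e₂ hR hV hV2 A hA
  refine ⟨b, hb0, hb1, ?_⟩
  filter_upwards [hb] with x hx κ hκ2 hκA
  obtain ⟨S, hSS⟩ := exists_isH hR hV hV2 x
  have h1 := hS x S hSS (fun u => u ^ κ.2)
  have h2 := hx κ.2 hκ2 hκA S hSS
  have h3 : ∑ z ∈ (disc x).filter (fun z => cls z = c), xi D κ z =
      κ.1 (Additive.ofMul c) * ∑ z ∈ (disc x).filter (fun z => cls z = c), D.f z ^ κ.2 := by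
    rw [Finset.mul_sum]
    refine Finset.sum_congr rfl (fun z hz => ?_)
    have h4 := (Finset.mem_filter.1 hz).2
    simp only [xi, h4]
  have h4 : ∑ p ∈ S, (δ * ph D.R ((lr e₁ e₂ p).1 / (lr e₁ e₂ p).2)) ^ κ.2 =
      δ ^ κ.2 * ∑ p ∈ S, ph D.R ((lr e₁ e₂ p).1 / (lr e₁ e₂ p).2) ^ κ.2 := by
    rw [Finset.mul_sum]
    refine Finset.sum_congr rfl (fun p _ => ?_)
    rw [mul_zpow]
  beta_reduce at h1
  rw [h4] at h1
  rw [h3, norm_mul, AddChar.norm_apply, one_mul, h1, norm_mul, norm_zpow, hδ, one_zpow, one_mul]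
  exact h2

/-- TYPE -/
theorem specType' {D : Dir K} (hR : 1 < D.R) (hC : SpecCls K D) (hL : SpecLatC)
    (hT : SpecLatT) : SpecType K D := by
  intro A hA
  obtain ⟨C, hC0, hz⟩ := sum_xi_zero hR hC hL
  choose b hb0 hb1 hb using fun c : Cl K => sum_xi_cls hR hC hT hA c
  obtain ⟨c₀, _, hmin⟩ := Finset.exists_min_image (Finset.univ : Finset (Cl K)) b
    ⟨1, Finset.mem_univ _⟩
  have hb' : ∀ᶠ x : ℝ in atTop, ∀ c : Cl K, ∀ κ : Kp K, κ.2 ≠ 0 → |(κ.2 : ℝ)| ≤ x ^ A →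
      ‖∑ z ∈ (disc x).filter (fun z => cls z = c), xi D κ z‖ ≤ x ^ (1 - b c) :=
    Filter.eventually_all.2 hb
  set s : ℝ := min (b c₀ / 2) (1 / 4) with hs
  have hs0 : 0 < s := lt_min (by linarith [hb0 c₀]) (by norm_num)
  have hs1 : s ≤ b c₀ / 2 := min_le_left _ _
  have hs2 : s ≤ 1 / 4 := min_le_right _ _
  have hbig : ∀ᶠ x : ℝ in atTop, (Fintype.card (Cl K) : ℝ) + 2 * C ≤ x ^ s :=
    (tendsto_rpow_atTop hs0).eventually_ge_atTop _
  refine ⟨s, hs0, by linarith, ?_⟩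
  filter_upwards [hb', hbig, eventually_ge_atTop (1 : ℝ)] with x hx hxs hx1 κ hκ hκA
  have hx0 : 0 < x := lt_of_lt_of_le one_pos hx1
  have hcard : (0 : ℝ) ≤ Fintype.card (Cl K) := Nat.cast_nonneg _
  by_cases h2 : κ.2 = 0
  · refine (hz κ hκ h2 x hx0.le).trans ?_
    have h3 : (1 : ℝ) ≤ Real.sqrt x := by
      rw [Real.one_le_sqrt]; exact hx1
    have h4 : C * (Real.sqrt x + 1) ≤ 2 * C * Real.sqrt x := by nlinarith
    refine h4.trans ?_
    have h5 : 2 * C * Real.sqrt x ≤ x ^ s * Real.sqrt x :=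
      mul_le_mul_of_nonneg_right (by linarith) (Real.sqrt_nonneg _)
    refine h5.trans ?_
    rw [Real.sqrt_eq_rpow, ← Real.rpow_add hx0]
    exact Real.rpow_le_rpow_of_exponent_le hx1 (by linarith)
  · rw [sum_disc_cls]
    refine (norm_sum_le _ _).trans ?_
    have h3 : ∀ c ∈ (Finset.univ : Finset (Cl K)),
        ‖∑ z ∈ (disc x).filter (fun z => cls z = c), xi D κ z‖ ≤ x ^ (1 - b c₀) := by
      intro c hc
      refine (hx c κ h2 hκA).trans ?_
      exact Real.rpow_le_rpow_of_exponent_le hx1 (by linarith [hmin c hc])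
    refine (Finset.sum_le_sum h3).trans ?_
    rw [Finset.sum_const, Finset.card_univ, nsmul_eq_mul]
    have h5 : (Fintype.card (Cl K) : ℝ) * x ^ (1 - b c₀) ≤ x ^ s * x ^ (1 - b c₀) :=
      mul_le_mul_of_nonneg_right (by linarith) (Real.rpow_nonneg hx0.le _)
    refine h5.trans ?_
    rw [← Real.rpow_add hx0]
    exact Real.rpow_le_rpow_of_exponent_le hx1 (by linarith)

/-- COUNT -/
theorem specCount [RQ K] {D : Dir K} (hC : SpecCls K D) (hL : SpecLatC) : SpecCount K :=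
  specCount' (R_gt_one D.toFund) hC hL

/-- TYPE -/
theorem specType [RQ K] {D : Dir K} (hC : SpecCls K D) (hL : SpecLatC) (hT : SpecLatT) :
    SpecType K D :=
  specType' (R_gt_one D.toFund) hC hL hT

end Pool.Agent.Lib.MP391708.MAR
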