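import Pool.Agent.Lib.MP_391708_nt.MAR.Defs
import Pool.Agent.Lib.MP_391708_nt.MA.Spec

/-!
# Exact statements of the modules (Matomäki–Radziwiłł for ideals, real quadratic fields)

A module proves `theorem specXxx ... : SpecXxx ...` in its own file `MAR/<Name>.lean`, namespace
`Pool.Agent.Lib.MP391708.MAR`, possibly from other `Spec`s (hypotheses).  `MR.SpecLad`,
`MR.SpecLandau`, `MR.SpecVDC`, `MA.SpecPlan` are reused as they are.  The statements COUNT .. MRC are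
those of `MA/Spec.lean` (there for imaginary quadratic fields), word for word.
-/

set_option autoImplicit false

namespace Pool.Agent.Lib.MP391708.MAR

open Finset Filter Topology NumberField
open scoped ComplexConjugate Classical

export Pool.Agent.Lib.MP391708.MA (SpecPlan)

variable [MA.Sg]

/-! ## Lattices in the plane (no number fields) -/

/-- `p₁ e₁ + p₂ e₂` -/
noncomputable def lr (e₁ e₂ : ℝ × ℝ) (p : ℤ × ℤ) : ℝ × ℝ :=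
  ((p.1 : ℝ) * e₁.1 + (p.2 : ℝ) * e₂.1, (p.1 : ℝ) * e₁.2 + (p.2 : ℝ) * e₂.2)

/-- the half-open sector `0 < X₂ ≤ X₁ < R X₂` -/
def Sec (R : ℝ) (X : ℝ × ℝ) : Prop := 0 < X.2 ∧ X.2 ≤ X.1 ∧ X.1 < R * X.2

/-- `S` is the set of the lattice points in the sector with `X₁ X₂ ≤ Y` -/
def IsH (e₁ e₂ : ℝ × ℝ) (R Y : ℝ) (S : Finset (ℤ × ℤ)) : Prop :=
  ∀ p : ℤ × ℤ, p ∈ S ↔ Sec R (lr e₁ e₂ p) ∧ (lr e₁ e₂ p).1 * (lr e₁ e₂ p).2 ≤ Y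

/-- bases of covolume `V`; the lines in the direction `e₁` meet each sector region in an interval -/
def Bas (R V : ℝ) (e₁ e₂ : ℝ × ℝ) : Prop :=
  0 < e₁.2 ∧ R * e₁.2 < e₁.1 ∧ |e₁.1 * e₂.2 - e₁.2 * e₂.1| = V

/-- LATC: lattice points in the sector under a hyperbola (area `Y log R / 2`) -/
def SpecLatC : Prop := ∀ (R V : ℝ) (e₁ e₂ : ℝ × ℝ), 1 < R → 0 < V → Bas R V e₁ e₂ →
  ∃ C : ℝ, 0 < C ∧ ∀ (Y : ℝ) (S : Finset (ℤ × ℤ)), 0 ≤ Y → IsH e₁ e₂ R Y S →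
    |(S.card : ℝ) - Real.log R / 2 * Y / V| ≤ C * (Real.sqrt Y + 1)

/-- LATT (from `MR.SpecVDC`): sums of `exp (2 π i k log (X₁ / X₂) / log R)` over the lattice points
in the sector, for `k` up to a power (as `MR.SpecType`) -/
def SpecLatT : Prop := ∀ (R V : ℝ) (e₁ e₂ : ℝ × ℝ), 1 < R → 0 < V → Bas R V e₁ e₂ →
  ∀ A : ℝ, 1 ≤ A → ∃ c : ℝ, 0 < c ∧ c < 1 ∧ ∀ᶠ x : ℝ in atTop, ∀ k : ℤ, k ≠ 0 →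
    |(k : ℝ)| ≤ x ^ A → ∀ S : Finset (ℤ × ℤ), IsH e₁ e₂ R x S →
      ‖∑ p ∈ S, ph R ((lr e₁ e₂ p).1 / (lr e₁ e₂ p).2) ^ k‖ ≤ x ^ (1 - c)

/-! ## Number fields -/

section

variable (K : Type) [Field K] [NumberField K]

/-- FUND (for `RQ K`; Dirichlet's unit theorem): the fundamental totally positive unit -/
def SpecFund : Prop := (∃ σ τ : K →+* ℝ, σ ≠ τ) ∧
  ∀ σ τ : K →+* ℝ, σ ≠ τ → ∃ Φ : Fund K, Φ.σ = σ ∧ Φ.τ = τ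

/-- EXT (for `RQ K`): there is a direction -/
def SpecExt : Prop := ∀ Φ : Fund K, ∃ D : Dir K, D.toFund = Φ

variable (D : Dir K)

/-- CLS: the ideals of a narrow class are the points of a lattice in the sector; all lattices have
the same covolume -/
def SpecCls : Prop := ∃ V : ℝ, 0 < V ∧ ∀ c : Cl K, ∃ (e₁ e₂ : ℝ × ℝ) (δ : ℂ), ‖δ‖ = 1 ∧
  Bas D.R V e₁ e₂ ∧ ∀ (x : ℝ) (S : Finset (ℤ × ℤ)), IsH e₁ e₂ D.R x S → ∀ F : ℂ → ℂ,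
    ∑ z ∈ ((disc x : Finset (Gi K))).filter (fun z => cls z = c), F (D.f z) =
      ∑ p ∈ S, F (δ * ph D.R ((lr e₁ e₂ p).1 / (lr e₁ e₂ p).2))

/-- SEP: different directions in a narrow class are separated -/
def SpecSep : Prop := ∃ c : ℝ, 0 < c ∧ ∀ z z' : Gi K, z ≠ 0 → z' ≠ 0 → cls z = cls z' →
  ¬ par z z' → c / Real.sqrt ((nm z : ℝ) * nm z') ≤ ‖D.f z - D.f z'‖

/-- COUNT (from CLS, LATC) -/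
def SpecCount : Prop := ∃ ρ C : ℝ, 0 < ρ ∧ 0 < C ∧ ∀ Y : ℝ, 0 ≤ Y →
  |((disc Y : Finset (Gi K)).card : ℝ) - ρ * Y| ≤ C * (Real.sqrt Y + 1)

/-- TYPE (from CLS, LATC, LATT): nontrivial characters -/
def SpecType : Prop := ∀ A : ℝ, 1 ≤ A → ∃ c : ℝ, 0 < c ∧ c < 1 ∧
  ∀ᶠ x : ℝ in atTop, ∀ κ : Kp K, κ ≠ 0 → |(κ.2 : ℝ)| ≤ x ^ A →
    ‖∑ z ∈ disc x, xi D κ z‖ ≤ x ^ (1 - c)

/-- LSG (from SEP): the large sieve -/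
def SpecLSG : Prop := ∃ C : ℝ, 0 < C ∧ ∀ (S : Finset (Gi K)) (a : Gi K → ℂ) (Y : ℝ) (Z : ℕ),
  1 ≤ Y → (∀ z ∈ S, z ≠ 0 ∧ (nm z : ℝ) ≤ Y) →
    ∑ κ ∈ IK K Z, ‖∑ z ∈ S, a z * xi D κ z‖ ^ 2 ≤
      C * (Z + Y) * ∑ z ∈ S, ∑ z' ∈ S.filter (fun z' => par z z'), ‖a z‖ * ‖a z'‖

/-- TK (from COUNT): Turán–Kubilius -/
def SpecTK : Prop := ∃ C : ℝ, 0 < C ∧ ∀ P Q Y Y' : ℝ, 1 ≤ P → P ≤ Q → 0 ≤ Y → Y ≤ Y' → 1 ≤ Y' →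
  ∑ z ∈ (ann Y Y' : Finset (Gi K)), ((om P Q z : ℝ) - WW K P Q) ^ 2 ≤
    C * ((Y' - Y) * (WW K P Q + 1) + Q ^ 2 * Real.sqrt Y')

/-- PG: prime sums -/
def SpecPG : Prop :=
  (∃ C : ℝ, ∀ P Q : ℝ, 3 ≤ P → P ≤ Q →
    |WW K P Q - (Real.log (Real.log Q) - Real.log (Real.log P))| ≤ C) ∧
  (∃ C : ℝ, 0 < C ∧ ∀ x : ℝ, 2 ≤ x → WW K x (Real.exp 1 * x) ≤ C / Real.log x) ∧
  (∃ C : ℝ, 0 < C ∧ ∀ x : ℝ, 2 ≤ x →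
    ((GP 0 x : Finset (Gi K)).card : ℝ) ≤ C * x / Real.log x)

/-! ## The ladder -/

/-- DEC (from LSG, TK, COUNT): the decomposition at a stage. -/
def SpecDec : Prop := ∃ C : ℝ, 0 < C ∧ ∀ (h P Q X X' : ℝ) (Z : ℕ),
  1 ≤ h → 2 ≤ P → P ≤ Q → Q ^ 10 ≤ X → X ≤ X' → X' ≤ 4 * X → 1 ≤ WW K P Q →
    ∑ κ ∈ IK K Z, ‖MM D X X' κ - (1 / (WW K P Q : ℂ)) * ∑ v ∈ VV h P Q, QQ D h P Q v κ *
        MM D (X * Real.exp (-(v / h))) (X' * Real.exp (-(v / h))) κ‖ ^ 2 ≤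
      C * (Z + X) * X * (1 / WW K P Q + 1 / h + X ^ (-(1 / 10) : ℝ))

/-- MOM (from LSG, COUNT): moments. -/
def SpecMom : Prop := ∃ C : ℝ, 1 ≤ C ∧ ∀ (Y Y' N : ℝ) (l Z : ℕ) (E S : Finset (Gi K))
  (b a : Gi K → ℂ), C ≤ Y → Y ≤ Y' → Y' ≤ Real.exp 2 * Y → 1 ≤ N → E ⊆ GP Y Y' →
  (∀ z, ‖b z‖ ≤ 1) → (∀ z, ‖a z‖ ≤ 1) → (∀ m ∈ S, prim m ∧ Y' ^ l * nm m ≤ N) →
    ∑ κ ∈ IK K Z, ‖(∑ π ∈ E, b π * xi D κ π) ^ l * ∑ m ∈ S, a m * xi D κ m‖ ^ 2 ≤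
      C ^ (l + 1) * (l.factorial : ℝ) ^ 2 * (Z + N) * N

/-- LADDER (from DEC, MOM, `MR.SpecLad`, PG): outside a small set `U` of frequencies the sums
are small in mean square. -/
def SpecLadder : Prop := ∀ c₁ η ε : ℝ, 0 < c₁ → 0 < η → η ≤ 1 → 0 < ε →
  ∃ H₀ : ℝ, ∀ H : ℝ, H₀ ≤ H → ∀ᶠ X : ℝ in atTop, ∃ U : Finset (Kp K),
    (∀ κ ∈ U, |(κ.2 : ℝ)| ≤ X) ∧ (U.card : ℝ) ≤ X ^ c₁ ∧
    ∑ κ ∈ IK K ⌊X / H⌋₊ \ U, ‖MM D X ((1 + η) ^ 2 * X) κ‖ ^ 2 ≤ ε * X ^ 2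

/-! ## The top scale -/

/-- UP (from TYPE, COUNT, TK, PG): Halász–Montgomery on sparse sets of frequencies. -/
def SpecUp : Prop := ∃ c₀ C d₀ : ℝ, 0 < c₀ ∧ 0 < C ∧ 0 < d₀ ∧
  ∀ d : ℝ, 0 < d → d ≤ d₀ → ∀ᶠ X : ℝ in atTop, ∀ U : Finset (Kp K),
    (∀ κ ∈ U, |(κ.2 : ℝ)| ≤ X) → (U.card : ℝ) ≤ X ^ c₀ →
    (∀ x : ℝ, Real.sqrt X ≤ x → x ≤ 4 * X → ∑ κ ∈ U, ‖SS D κ x‖ ^ 2 ≤ C * x ^ 2) ∧
    (∀ x x' : ℝ, Real.sqrt X ≤ x → x ≤ x' → x' ≤ 4 * X →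
      ∑ κ ∈ U, ‖SS D κ x' - SS D κ x‖ ^ 2 ≤ C * ((x' - x) ^ 2 + X ^ (-c₀) * x' ^ 2)) ∧
    (∀ x : ℝ, Real.sqrt X ≤ x → x ≤ 4 * X →
      ∑ κ ∈ U, ‖SS D κ x - (1 / (WW K (X ^ (d ^ 2)) (X ^ d) : ℂ)) *
          ∑ π ∈ GP (X ^ (d ^ 2)) (X ^ d), (lam π : ℂ) * xi D κ π * SS D κ (x / nm π)‖ ^ 2 ≤
        C * x ^ 2 / WW K (X ^ (d ^ 2)) (X ^ d))

/-- OS (from `MR.SpecLandau`, PG, COUNT): the one-sided bound for twisted prime sums. -/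
def SpecOS : Prop := ∃ C : ℝ, ∀ T d : ℝ, 0 < T → 0 < d → d ≤ 1 / 2 →
  ∃ θ : ℝ, 0 < θ ∧ ∀ c : ℝ, 0 < c → c < 1 → ∀ᶠ X : ℝ in atTop, ∀ G : Gi K → ℂ, CM G →
    (∀ x : ℝ, X ^ θ ≤ x → ‖∑ z ∈ disc x, G z‖ ≤ x ^ (1 - c)) →
    ∀ t : ℝ, |t| ≤ T →
      (∑ π ∈ (GP (X ^ (d ^ 2)) (X ^ d) : Finset (Gi K)),
        G π * ((nm π : ℕ) : ℂ) ^ (-1 - Complex.I * (t : ℂ))).re ≤ C

/-- LOWER (from TYPE, OS, PG): the twisted sums `-λ ξ_κ` are not close to `-W`, nonzero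
frequencies. -/
def SpecLower : Prop := ∃ c : ℝ, 0 < c ∧ ∀ T : ℝ, 0 < T →
  ∃ d₁ : ℝ, 0 < d₁ ∧ ∀ d : ℝ, 0 < d → d ≤ d₁ → ∀ᶠ X : ℝ in atTop, ∀ κ : Kp K, κ.2 ≠ 0 →
    |(κ.2 : ℝ)| ≤ X → ∀ t : ℝ, |t| ≤ T →
      c * WW K (X ^ (d ^ 2)) (X ^ d) ≤ ‖(WW K (X ^ (d ^ 2)) (X ^ d) : ℂ) -
        ∑ π ∈ GP (X ^ (d ^ 2)) (X ^ d),
          (lam π : ℂ) * xi D κ π * ((nm π : ℕ) : ℂ) ^ (-1 - Complex.I * (t : ℂ))‖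

/-- TOP (from UP, PLAN, LOWER, PG): the sparse set of frequencies. -/
def SpecTop : Prop := ∃ c₁ : ℝ, 0 < c₁ ∧ ∀ ε : ℝ, 0 < ε →
  ∀ᶠ X : ℝ in atTop, ∀ U : Finset (Kp K), (∀ κ ∈ U, κ.2 ≠ 0 ∧ |(κ.2 : ℝ)| ≤ X) →
    (U.card : ℝ) ≤ X ^ c₁ → ∀ x : ℝ, X ≤ x → x ≤ 4 * X →
      ∑ κ ∈ U, ‖SS D κ x‖ ^ 2 ≤ ε * X ^ 2

/-! ## Conclusion -/

/-- MRK (from LADDER, TOP). -/
def SpecMRk : Prop := ∀ η ε : ℝ, 0 < η → η ≤ 1 → 0 < ε →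
  ∃ H₀ : ℝ, ∀ H : ℝ, H₀ ≤ H → ∀ᶠ X : ℝ in atTop,
    ∑ κ ∈ (IK K ⌊X / H⌋₊).filter (fun κ => κ.2 ≠ 0), ‖MM D X ((1 + η) ^ 2 * X) κ‖ ^ 2 ≤
      ε * X ^ 2

/-- MRC (from MRK): wide annuli. -/
def SpecMRC : Prop := ∀ B ε : ℝ, 1 < B → 0 < ε →
  ∃ H₀ : ℝ, ∀ H : ℝ, H₀ ≤ H → ∀ᶠ X : ℝ in atTop,
    ∑ κ ∈ (IK K ⌊X / H⌋₊).filter (fun κ => κ.2 ≠ 0), ‖MM D X (B * X) κ‖ ^ 2 ≤ ε * X ^ 2

end

/-! ## The interface to group S (no number fields) -/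

/-- PRIN: the sign function at the norms of the totally positive principal elements does not
correlate with directions.  `s, t` are the roots of `X² = b X - c`,
`qn b c p = (p₁ + p₂ s) (p₁ + p₂ t)`, `R` the ratio of the fundamental unit. -/
def Prin (b c : ℤ) (R s t : ℝ) : Prop := ∀ B ε : ℝ, 1 < B → 0 < ε →
  ∃ H₀ : ℝ, ∀ H : ℝ, H₀ ≤ H → ∀ᶠ X : ℝ in atTop, ∀ S : Finset (ℤ × ℤ),
    (∀ p : ℤ × ℤ, p ∈ S ↔ Int.gcd p.1 p.2 = 1 ∧ Sec R (lr (1, 1) (s, t) p) ∧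
      X < (MA.qn b c p : ℝ) ∧ (MA.qn b c p : ℝ) ≤ B * X) →
    ∑ j ∈ (Icc (-(⌊X / H⌋₊ : ℤ)) ⌊X / H⌋₊).filter (fun j => j ≠ 0),
      ‖∑ p ∈ S, ((MA.gs (MA.qn b c p).natAbs : ℤ) : ℂ) *
        ph R ((lr (1, 1) (s, t) p).1 / (lr (1, 1) (s, t) p).2) ^ j‖ ^ 2 ≤ ε * X ^ 2

/-- PRIN for a field with the integral basis `1, ω` (from MRC). -/
def SpecPrin (K : Type) [Field K] [NumberField K] : Prop :=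
  ∀ (ω : 𝓞 K) (b c : ℤ) (D : Dir K), SpecMRC K D → ω ^ 2 = (b : 𝓞 K) * ω - (c : 𝓞 K) →
    (∀ v : 𝓞 K, ∃ x y : ℤ, v = (x : 𝓞 K) + (y : 𝓞 K) * ω) →
    Prin b c D.R (D.σ (ω : K)) (D.τ (ω : K))

/-- FIELD: the field and its integral basis for a given `k`. -/
def SpecField : Prop := ∀ k : ℕ, ¬ IsSquare k → ∃ (K : Type) (_ : Field K) (_ : NumberField K),
  RQ K ∧ ∃ (ω : 𝓞 K) (b c g : ℤ), 0 < g ∧ g ^ 2 * (b ^ 2 - 4 * c) = 4 * (k : ℤ) ∧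
    ω ^ 2 = (b : 𝓞 K) * ω - (c : 𝓞 K) ∧
    ∀ v : 𝓞 K, ∃ x y : ℤ, v = (x : 𝓞 K) + (y : 𝓞 K) * ω

/-- **The result of MAR**: for every `k ≥ 1` which is not a square a form of discriminant `4 k`
(content `g`), a totally positive unit `e₁ + e₂ ω` and PRIN. -/
def SpecMAR : Prop := ∀ k : ℕ, ¬ IsSquare k → ∃ (b c g : ℤ) (e : ℤ × ℤ) (s t : ℝ), 0 < g ∧
  g ^ 2 * (b ^ 2 - 4 * c) = 4 * (k : ℤ) ∧ t < s ∧ s ^ 2 = (b : ℝ) * s - (c : ℝ) ∧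
    t ^ 2 = (b : ℝ) * t - (c : ℝ) ∧ MA.qn b c e = 1 ∧ 1 < (e.1 : ℝ) + (e.2 : ℝ) * s ∧
    Prin b c (((e.1 : ℝ) + (e.2 : ℝ) * s) / ((e.1 : ℝ) + (e.2 : ℝ) * t)) s t

end Pool.Agent.Lib.MP391708.MAR
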