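import Mathlib
import Pool.Agent.Lib.MP_391708_nt.MA.Sg

/-!
# Matomäki–Radziwiłł for sign functions of ideals, real quadratic fields: definitions

Input of the theorem on the values `n² - k`, `k > 0` not a square (MP_391708_nt).  The text follows
`MA/Defs.lean`; `K` is a real quadratic field, `Cl K` its narrow class group, `σ, τ` the two real
embeddings, `E` the fundamental totally positive unit, `1 < σ E`, `R = σ E / τ E = (σ E)²`.  The
direction of a totally positive `v` is `exp (2 π i log (σ v / τ v) / log R)`.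
-/

set_option autoImplicit false

namespace Pool.Agent.Lib.MP391708.MAR

open Finset Filter Topology NumberField
open scoped ComplexConjugate Classical nonZeroDivisors

/-- real quadratic fields -/
class RQ (K : Type) [Field K] [NumberField K] : Prop where
  deg : Module.finrank ℚ K = 2
  re : NumberField.IsTotallyReal K

section

variable (K : Type) [Field K]

/-- the totally positive elements of `Kˣ` -/
def tpos : Subgroup Kˣ where
  carrier := {u | ∀ σ : K →+* ℝ, 0 < σ (u : K)}
  one_mem' := by intro σ; simp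
  mul_mem' := by
    intro a b ha hb σ
    simpa using mul_pos (ha σ) (hb σ)
  inv_mem' := by
    intro a ha σ
    simpa using ha σ

/-- the signs at the real places -/
noncomputable def sgn : Kˣ →* ((K →+* ℝ) → SignTypeˣ) :=
  MonoidHom.pi (fun σ => (Units.map ((signHom : ℝ →*₀ SignType) : ℝ →* SignType)).comp
    (Units.map (σ : K →* ℝ)))

theorem sgn_ker : (sgn K).ker = tpos K := by
  ext u
  rw [MonoidHom.mem_ker]
  constructor
  · intro h σ
    have := congrFun h σ
    have h2 : ((sgn K u σ : SignTypeˣ) : SignType) = 1 := by rw [this]; rfl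
    have h3 : SignType.sign (σ (u : K)) = 1 := h2
    exact sign_eq_one_iff.mp h3
  · intro h
    funext σ
    apply Units.ext
    show SignType.sign (σ (u : K)) = 1
    exact sign_eq_one_iff.mpr (h σ)

variable [NumberField K]

/-- the ideals of the ring of integers -/
abbrev Gi := Ideal (𝓞 K)

/-- the principal fractional ideals with a totally positive generator -/
noncomputable def tp : Subgroup (FractionalIdeal (𝓞 K)⁰ K)ˣ :=
  (tpos K).map (toPrincipalIdeal (𝓞 K) K)

/-- the narrow class group -/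
def Cl := (FractionalIdeal (𝓞 K)⁰ K)ˣ ⧸ tp K

noncomputable instance : CommGroup (Cl K) :=
  inferInstanceAs (CommGroup ((FractionalIdeal (𝓞 K)⁰ K)ˣ ⧸ tp K))

/-- the narrow class of a fractional ideal -/
noncomputable def clmk : (FractionalIdeal (𝓞 K)⁰ K)ˣ →* Cl K := QuotientGroup.mk' (tp K)

instance : Finite (Kˣ ⧸ tpos K) := by
  rw [← sgn_ker]
  exact Finite.of_injective _ (QuotientGroup.kerLift_injective (sgn K))

instance : Finite ((FractionalIdeal (𝓞 K)⁰ K)ˣ ⧸ tp K) := by
  have h0 : Finite ((FractionalIdeal (𝓞 K)⁰ K)ˣ ⧸ (toPrincipalIdeal (𝓞 K) K).range) :=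
    Finite.of_equiv _ (ClassGroup.equiv (R := 𝓞 K) K).toEquiv
  let g : ((FractionalIdeal (𝓞 K)⁰ K)ˣ ⧸ (toPrincipalIdeal (𝓞 K) K).range) × (Kˣ ⧸ tpos K) →
    (FractionalIdeal (𝓞 K)⁰ K)ˣ ⧸ tp K := fun t => QuotientGroup.mk (t.1.out * toPrincipalIdeal (𝓞 K) K t.2.out)
  apply Finite.of_surjective g
  intro c
  induction c using QuotientGroup.induction_on with
  | H I =>
    obtain ⟨⟨r, hr⟩, h1⟩ := QuotientGroup.mk_out_eq_mul ((toPrincipalIdeal (𝓞 K) K).range) I
    obtain ⟨x, hx⟩ := hr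
    obtain ⟨⟨t, ht⟩, h2⟩ := QuotientGroup.mk_out_eq_mul (tpos K) x⁻¹
    refine ⟨(QuotientGroup.mk I, QuotientGroup.mk x⁻¹), ?_⟩
    show QuotientGroup.mk _ = QuotientGroup.mk _
    rw [QuotientGroup.eq]
    refine ⟨t⁻¹, inv_mem ht, ?_⟩
    simp only at h1 h2
    rw [h1, h2, ← hx]
    simp only [map_mul, map_inv]
    group

instance : Finite (Cl K) := inferInstanceAs (Finite ((FractionalIdeal (𝓞 K)⁰ K)ˣ ⧸ tp K))

noncomputable instance : Fintype (Cl K) := Fintype.ofFinite _

/-- the indices of the characters: a character of the narrow class group and a frequency -/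
abbrev Kp := AddChar (Additive (Cl K)) ℂ × ℤ

end

variable {K : Type} [Field K] [NumberField K]

/-- the norm -/
noncomputable def nm (z : Gi K) : ℕ := Ideal.absNorm z

/-- the sign function at the norm -/
noncomputable def lam [MA.Sg] (z : Gi K) : ℝ := ((MA.gs (nm z) : ℤ) : ℝ)

/-- the narrow class of a nonzero ideal (`1` for the zero ideal) -/
noncomputable def cls (z : Gi K) : Cl K :=
  if h : z ≠ 0 then
    clmk K (FractionalIdeal.mk0 K ⟨z, mem_nonZeroDivisors_of_ne_zero h⟩) else 1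

/-- the ideal generated by a natural number -/
noncomputable def rt (n : ℕ) : Gi K := Ideal.span {(n : 𝓞 K)}

/-- primitive: no rational integer `≥ 2` divides `z` -/
def prim (z : Gi K) : Prop := z ≠ 0 ∧ ∀ n : ℕ, 2 ≤ n → ¬ rt n ∣ z

/-- rational multiples of each other -/
def par (z z' : Gi K) : Prop :=
  z ≠ 0 ∧ z' ≠ 0 ∧ ∃ n n' : ℕ, 0 < n ∧ 0 < n' ∧ rt n * z = rt n' * z'

/-- the nonzero ideals `z` with `nm z ≤ x` -/
noncomputable def disc (x : ℝ) : Finset (Gi K) :=
  ((Ideal.finite_setOfPred_absNorm_le (S := 𝓞 K) ⌊x⌋₊).toFinset).filter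
    (fun z => z ≠ 0 ∧ (nm z : ℝ) ≤ x)

/-- `x < nm z ≤ x'` -/
noncomputable def ann (x x' : ℝ) : Finset (Gi K) := (disc x').filter (fun z => x < (nm z : ℝ))

/-- the conjugate ideal: `z * cj z = rt (nm z)` -/
noncomputable def cj (z : Gi K) : Gi K :=
  if h : ∃ z' : Gi K, z * z' = rt (nm z) ∧ z ≠ 0 then h.choose else 0

/-- the split prime ideals of degree one with norm in `(P, Q]` -/
noncomputable def GP (P Q : ℝ) : Finset (Gi K) :=
  (disc Q).filter (fun z => (nm z).Prime ∧ cj z ≠ z ∧ P < (nm z : ℝ))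

/-- `∑ 1/N(π)` -/
noncomputable def WW (K : Type) [Field K] [NumberField K] (P Q : ℝ) : ℝ :=
  ∑ π ∈ (GP P Q : Finset (Gi K)), 1 / (nm π : ℝ)

/-- number of primes of `GP P Q` dividing `z` -/
noncomputable def om (P Q : ℝ) (z : Gi K) : ℕ := ((GP P Q).filter (fun π => π ∣ z)).card

/-- the phase `exp (2 π i log u / log R)` -/
noncomputable def ph (R u : ℝ) : ℂ :=
  Complex.exp (Complex.I * ((2 * Real.pi * (Real.log u / Real.log R) : ℝ) : ℂ))

/-- the two real embeddings and the fundamental totally positive unit -/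
structure Fund (K : Type) [Field K] [NumberField K] where
  σ : K →+* ℝ
  τ : K →+* ℝ
  ne : σ ≠ τ
  E : (𝓞 K)ˣ
  one_lt : 1 < σ ((E : 𝓞 K) : K)
  pos : 0 < τ ((E : 𝓞 K) : K)
  gen : ∀ u : (𝓞 K)ˣ, 0 < σ ((u : 𝓞 K) : K) → 0 < τ ((u : 𝓞 K) : K) → ∃ n : ℤ, u = E ^ n

/-- the ratio `σ E / τ E = (σ E)²` -/
noncomputable def Fund.R (Φ : Fund K) : ℝ :=
  Φ.σ ((Φ.E : 𝓞 K) : K) / Φ.τ ((Φ.E : 𝓞 K) : K)

/-- a direction for ideals: a completely multiplicative function of absolute value one, equal to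
`exp (2 π i log (σ v / τ v) / log R)` at the ideals with a totally positive generator `v` -/
structure Dir (K : Type) [Field K] [NumberField K] extends Fund K where
  f : Gi K → ℂ
  zero : f 0 = 0
  one : f 1 = 1
  mul : ∀ x y, f (x * y) = f x * f y
  norm : ∀ x, x ≠ 0 → ‖f x‖ = 1
  prin : ∀ v : 𝓞 K, 0 < σ (v : K) → 0 < τ (v : K) →
    f (Ideal.span {v}) = ph toFund.R (σ (v : K) / τ (v : K))

/-- the character with index `κ` -/
noncomputable def xi (D : Dir K) (κ : Kp K) (z : Gi K) : ℂ :=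
  κ.1 (Additive.ofMul (cls z)) * D.f z ^ κ.2

/-- the indices with frequency in `[-Z, Z]` -/
noncomputable def IK (K : Type) [Field K] [NumberField K] (Z : ℕ) : Finset (Kp K) :=
  Finset.univ ×ˢ Icc (-(Z : ℤ)) Z

/-- sum over primitive `z` with norm in `(Y, Y']` -/
noncomputable def MM [MA.Sg] (D : Dir K) (Y Y' : ℝ) (κ : Kp K) : ℂ :=
  ∑ m ∈ (ann Y Y').filter prim, (lam m : ℂ) * xi D κ m

/-- sum over primitive `z` with norm at most `x` -/
noncomputable def SS [MA.Sg] (D : Dir K) (κ : Kp K) (x : ℝ) : ℂ :=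
  ∑ m ∈ (disc x).filter prim, (lam m : ℂ) * xi D κ m

/-- the primes `π` of `GP P Q` with `v ≤ h log N(π) < v + 1` -/
noncomputable def cell (h P Q : ℝ) (v : ℕ) : Finset (Gi K) :=
  (GP P Q).filter (fun π => ⌊h * Real.log (nm π)⌋₊ = v)

/-- the prime sum over a cell -/
noncomputable def QQ [MA.Sg] (D : Dir K) (h P Q : ℝ) (v : ℕ) (κ : Kp K) : ℂ :=
  ∑ π ∈ cell h P Q v, (lam π : ℂ) * xi D κ π

/-- the range of `v` -/
noncomputable def VV (h P Q : ℝ) : Finset ℕ := Icc ⌊h * Real.log P⌋₊ ⌊h * Real.log Q⌋₊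

/-- completely multiplicative functions bounded by one -/
structure CM (G : Gi K → ℂ) : Prop where
  zero : G 0 = 0
  one : G 1 = 1
  mul : ∀ x y, G (x * y) = G x * G y
  le : ∀ z, ‖G z‖ ≤ 1

end Pool.Agent.Lib.MP391708.MAR
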