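import Pool.Agent.Lib.MP_391708_nt.MAR.Spec
import Pool.Agent.Lib.MP_391708_nt.MA.Ext

/-!
# EXT: every fundamental unit gives a direction
-/

set_option autoImplicit false

namespace Pool.Agent.Lib.MP391708.MAR

open NumberField

variable {K : Type} [Field K] [NumberField K]

/-- the elements positive at the two embeddings -/
def pos2 (Φ : Fund K) : Subgroup Kˣ where
  carrier := {u | 0 < Φ.σ (u : K) ∧ 0 < Φ.τ (u : K)}
  one_mem' := by simp
  mul_mem' := by
    intro a b ha hb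
    simp only [Set.mem_ofPred_eq, Units.val_mul, map_mul] at ha hb ⊢
    exact ⟨mul_pos ha.1 hb.1, mul_pos ha.2 hb.2⟩
  inv_mem' := by
    intro a ha
    simp only [Set.mem_ofPred_eq, Units.val_inv_eq_inv_val, map_inv₀, inv_pos] at ha ⊢
    exact ha

/-- `log (σ u / τ u) / log R` -/
noncomputable def lg (Φ : Fund K) (u : K) : ℝ := Real.log (Φ.σ u / Φ.τ u) / Real.log Φ.R

lemma lg_mul (Φ : Fund K) {u v : K} (hu : 0 < Φ.σ u ∧ 0 < Φ.τ u) (hv : 0 < Φ.σ v ∧ 0 < Φ.τ v) :
    lg Φ (u * v) = lg Φ u + lg Φ v := by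
  unfold lg
  rw [map_mul, map_mul, mul_div_mul_comm, Real.log_mul (div_pos hu.1 hu.2).ne'
    (div_pos hv.1 hv.2).ne', add_div]

/-- the phase as a homomorphism -/
noncomputable def phH (Φ : Fund K) : pos2 Φ →* Circle where
  toFun u := Circle.exp (2 * Real.pi * lg Φ ((u : Kˣ) : K))
  map_one' := by
    simp [lg]
  map_mul' u v := by
    rw [← Circle.exp_add]
    congr 1
    rw [Subgroup.coe_mul, Units.val_mul, lg_mul Φ u.2 v.2]
    ring

lemma phH_coe (Φ : Fund K) (u : pos2 Φ) :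
    ((phH Φ u : Circle) : ℂ) = ph Φ.R (Φ.σ ((u : Kˣ) : K) / Φ.τ ((u : Kˣ) : K)) := by
  change ((Circle.exp (2 * Real.pi * lg Φ ((u : Kˣ) : K)) : Circle) : ℂ) = _
  rw [Circle.coe_exp, ph, lg, mul_comm]

lemma lg_E (Φ : Fund K) : lg Φ ((Φ.E : 𝓞 K) : K) = 0 ∨ lg Φ ((Φ.E : 𝓞 K) : K) = 1 := by
  by_cases h : Real.log Φ.R = 0
  · left; unfold lg; rw [h, div_zero]
  · right; unfold lg; exact div_self h

/-- **EXT** -/
theorem specExt : SpecExt K := by
  classical
  intro Φ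
  let T : pos2 Φ →* (FractionalIdeal (nonZeroDivisors (𝓞 K)) K)ˣ :=
    (toPrincipalIdeal (𝓞 K) K).comp (pos2 Φ).subtype
  have hker : T.ker ≤ (phH Φ).ker := by
    intro x hx
    rw [MonoidHom.mem_ker] at hx
    have hx0 : toPrincipalIdeal (𝓞 K) K (x : Kˣ) = 1 := hx
    rw [toPrincipalIdeal_eq_iff, Units.val_one,
      ← FractionalIdeal.spanSingleton_one, FractionalIdeal.spanSingleton_eq_spanSingleton] at hx0
    obtain ⟨u, hu⟩ := hx0
    have h1 : ((u : 𝓞 K) : K) * ((x : Kˣ) : K) = 1 := by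
      rw [← hu, Units.smul_def, Algebra.smul_def]
    have hxp := x.2
    have hs : 0 < Φ.σ ((u : 𝓞 K) : K) := by
      have h2 := congrArg Φ.σ h1
      rw [map_mul, map_one] at h2
      by_contra hc
      push Not at hc
      nlinarith [hxp.1, mul_nonneg (neg_nonneg.2 hc) hxp.1.le]
    have ht : 0 < Φ.τ ((u : 𝓞 K) : K) := by
      have h2 := congrArg Φ.τ h1
      rw [map_mul, map_one] at h2
      by_contra hc
      push Not at hc
      nlinarith [hxp.2, mul_nonneg (neg_nonneg.2 hc) hxp.2.le]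
    obtain ⟨n, hn⟩ := Φ.gen u hs ht
    have hEp : 0 < Φ.σ ((Φ.E : 𝓞 K) : K) ∧ 0 < Φ.τ ((Φ.E : 𝓞 K) : K) :=
      ⟨lt_trans one_pos Φ.one_lt, Φ.pos⟩
    let e : Kˣ := Units.map (algebraMap (𝓞 K) K).toMonoidHom Φ.E
    have he : e ∈ pos2 Φ := hEp
    have hx1 : x = (⟨e, he⟩ : pos2 Φ) ^ (-n) := by
      apply Subtype.ext
      rw [Subgroup.coe_zpow]
      have h3 : Units.map (algebraMap (𝓞 K) K).toMonoidHom u * (x : Kˣ) = 1 := Units.ext h1
      rw [hn, map_zpow] at h3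
      rw [zpow_neg]
      exact (eq_inv_of_mul_eq_one_right h3)
    have h4 : phH Φ ⟨e, he⟩ = 1 := by
      change Circle.exp (2 * Real.pi * lg Φ ((Φ.E : 𝓞 K) : K)) = 1
      rcases lg_E Φ with h | h
      · rw [h, mul_zero, Circle.exp_zero]
      · rw [h, mul_one, Circle.exp_two_pi]
    rw [MonoidHom.mem_ker, hx1, map_zpow, h4, one_zpow]
  obtain ⟨ψ, hψ⟩ := MA.ext_char T (phH Φ) hker
  let f : Gi K → ℂ := fun z => if h : z ≠ 0 then
    ((ψ (FractionalIdeal.mk0 K ⟨z, mem_nonZeroDivisors_of_ne_zero h⟩) : Circle) : ℂ) else 0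
  refine ⟨⟨Φ, f, ?_, ?_, ?_, ?_, ?_⟩, rfl⟩
  · simp [f]
  · have h1 : (⟨(1 : Gi K), mem_nonZeroDivisors_of_ne_zero one_ne_zero⟩ :
        nonZeroDivisors (Ideal (𝓞 K))) = 1 := rfl
    simp only [f, ne_eq, one_ne_zero, not_false_eq_true, dif_pos, h1, map_one]
    simp
  · intro x y
    by_cases hx : x = 0
    · simp [f, hx]
    · by_cases hy : y = 0
      · simp [f, hy]
      · have hxy : x * y ≠ 0 := mul_ne_zero hx hy
        simp only [f, ne_eq, hx, hy, hxy, not_false_eq_true, dif_pos]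
        rw [← Circle.coe_mul, ← map_mul, ← map_mul]
        rfl
  · intro x hx
    simp only [f, ne_eq, hx, not_false_eq_true, dif_pos]
    exact Circle.norm_coe _
  · intro v hvs hvt
    have hv : v ≠ 0 := by
      rintro rfl
      simp at hvs
    have hs : Ideal.span {v} ≠ (0 : Gi K) := by
      rw [Ideal.zero_eq_bot, Ne, Ideal.span_singleton_eq_bot]; exact hv
    have hv' : (v : K) ≠ 0 := by
      intro h; exact hv (by exact_mod_cast h)
    simp only [f, ne_eq, hs, not_false_eq_true, dif_pos]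
    let x : pos2 Φ := ⟨Units.mk0 (v : K) hv', hvs, hvt⟩
    have h1 : FractionalIdeal.mk0 K ⟨Ideal.span {v}, mem_nonZeroDivisors_of_ne_zero hs⟩ = T x := by
      symm
      change toPrincipalIdeal (𝓞 K) K (Units.mk0 (v : K) hv') = _
      rw [toPrincipalIdeal_eq_iff]
      simp only [Units.val_mk0, FractionalIdeal.coe_mk0]
      rw [FractionalIdeal.coeIdeal_span_singleton]
    rw [h1, hψ, phH_coe]
    rfl

end Pool.Agent.Lib.MP391708.MAR
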