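import Pool.Agent.Lib.MP_391708_nt.MAR.Spec
import Pool.Agent.Lib.MP_391708_nt.MA.Field

/-!
# MAR: FIELD, the field `ℚ(√k)` and its integral basis
-/

set_option autoImplicit false

namespace Pool.Agent.Lib.MP391708.MAR

open NumberField Polynomial

/-- `X² - k` is irreducible -/
theorem field_irr (k : ℕ) (hk : ¬ IsSquare k) : Irreducible (X ^ 2 - C (k : ℚ) : ℚ[X]) := by
  have hdeg : (X ^ 2 - C (k : ℚ) : ℚ[X]).natDegree = 2 := by
    compute_degree!
  have hne : (X ^ 2 - C (k : ℚ) : ℚ[X]) ≠ 0 := by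
    intro h
    rw [h] at hdeg
    simp at hdeg
  rw [Polynomial.irreducible_iff_roots_eq_zero_of_degree_le_three (by omega) (by omega)]
  rw [Multiset.eq_zero_iff_forall_notMem]
  intro x hx
  rw [Polynomial.mem_roots hne, Polynomial.IsRoot.def] at hx
  simp at hx
  apply hk
  rw [← Rat.isSquare_natCast_iff]
  exact ⟨x, by linear_combination (-1 : ℚ) * hx⟩

/-- the field -/
theorem field_exists (k : ℕ) (hk : ¬ IsSquare k) : ∃ (K : Type) (_ : Field K) (_ : NumberField K),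
    Module.finrank ℚ K = 2 ∧ ∃ t : K, t ^ 2 = (k : K) ∧
      ∀ φ ψ : K →+* ℂ, φ t = ψ t → φ = ψ := by
  have hi := field_irr k hk
  have hdeg : (X ^ 2 - C (k : ℚ) : ℚ[X]).natDegree = 2 := by
    compute_degree!
  have : Fact (Irreducible (X ^ 2 - C (k : ℚ) : ℚ[X])) := ⟨hi⟩
  have hne : (X ^ 2 - C (k : ℚ) : ℚ[X]) ≠ 0 := hi.ne_zero
  let f : ℚ[X] := X ^ 2 - C (k : ℚ)
  have : FiniteDimensional ℚ (AdjoinRoot f) := (AdjoinRoot.powerBasis hne).finite
  have : NumberField (AdjoinRoot f) :=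
    { to_charZero := charZero_of_injective_algebraMap (algebraMap ℚ (AdjoinRoot f)).injective
      to_finiteDimensional := inferInstance }
  refine ⟨AdjoinRoot f, inferInstance, inferInstance, ?_, AdjoinRoot.root f, ?_, ?_⟩
  · rw [(AdjoinRoot.powerBasis hne).finrank, AdjoinRoot.powerBasis_dim, hdeg]
  · have h := AdjoinRoot.eval₂_root f
    simp only [f, eval₂_sub, eval₂_pow, eval₂_X, eval₂_C] at h
    have h2 : (AdjoinRoot.of f) (k : ℚ) = (k : AdjoinRoot f) := map_natCast _ k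
    rw [h2] at h
    exact sub_eq_zero.mp h
  · intro φ ψ h
    refine AdjoinRoot.ringHom_ext ?_ h
    exact RingHom.ext_rat _ _

theorem field_re {K : Type} [Field K] [NumberField K] (k : ℕ) (t : K)
    (ht : t ^ 2 = (k : K)) (hext : ∀ φ ψ : K →+* ℂ, φ t = ψ t → φ = ψ) :
    NumberField.IsTotallyReal K := by
  refine ⟨fun v => ?_⟩
  rw [InfinitePlace.isReal_iff]
  have h2 := congrArg v.embedding ht
  rw [map_pow, map_natCast] at h2
  -- the square root is real
  have h3 : (v.embedding t - (Real.sqrt k : ℝ)) * (v.embedding t + (Real.sqrt k : ℝ)) = 0 := by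
    have h4 : ((Real.sqrt k : ℝ) : ℂ) ^ 2 = (k : ℂ) := by
      rw [← Complex.ofReal_pow, Real.sq_sqrt (Nat.cast_nonneg k)]
      norm_num
    linear_combination h2 - h4
  have h5 : (starRingEnd ℂ) (v.embedding t) = v.embedding t := by
    rcases mul_eq_zero.mp h3 with h | h
    · rw [sub_eq_zero.mp h, Complex.conj_ofReal]
    · rw [eq_neg_of_add_eq_zero_left h, map_neg, Complex.conj_ofReal]
  show ComplexEmbedding.conjugate v.embedding = v.embedding
  refine hext _ _ ?_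
  rw [ComplexEmbedding.conjugate_coe_eq]
  exact h5

theorem specField : SpecField := by
  intro k hk
  obtain ⟨K, hF, hN, hdeg, t, ht, hext⟩ := field_exists k hk
  refine ⟨K, hF, hN, ⟨hdeg, field_re k t ht hext⟩, ?_⟩
  obtain ⟨ω, hω, hun⟩ := MA.field_basis K hdeg
  -- `√k` is an integer
  have hint : IsIntegral ℤ t := by
    refine ⟨X ^ 2 - C (k : ℤ), ?_, ?_⟩
    · monicity!
    · simp [ht]
  obtain ⟨θ, hθ⟩ : ∃ θ : 𝓞 K, θ ^ 2 = (k : 𝓞 K) := by
    obtain ⟨θ, hθ⟩ : ∃ θ : 𝓞 K, algebraMap (𝓞 K) K θ = t := ⟨⟨t, hint⟩, rfl⟩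
    refine ⟨θ, ?_⟩
    apply FaithfulSMul.algebraMap_injective (𝓞 K) K
    rw [map_pow, map_natCast, hθ]
    exact ht
  obtain ⟨x, y, hxy⟩ := hω θ
  obtain ⟨u, b, hub⟩ := hω (ω ^ 2)
  have h1 : ((x ^ 2 + y ^ 2 * u - k : ℤ) : 𝓞 K) + ((2 * x * y + y ^ 2 * b : ℤ) : 𝓞 K) * ω = 0 := by
    have h2 := hθ
    rw [hxy] at h2
    push_cast
    linear_combination h2 - (y : 𝓞 K) ^ 2 * hub
  obtain ⟨h3, h4⟩ := hun _ _ h1
  have hy : y ≠ 0 := by
    rintro rfl
    apply hk
    have h6 : (x : ℤ) ^ 2 = (k : ℤ) := by linear_combination h3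
    exact ⟨x.natAbs, by
      zify
      rw [← h6, abs_mul_abs_self, sq]⟩
  have h5 : 2 * x + y * b = 0 := by
    have : y * (2 * x + y * b) = 0 := by linear_combination h4
    exact (mul_eq_zero.1 this).resolve_left hy
  refine ⟨ω, b, -u, |y|, abs_pos.2 hy, ?_, ?_, hω⟩
  · rw [sq_abs]
    linear_combination (4) * h3 - (2 * x - y * b) * h5
  · rw [hub]
    push_cast
    ring

end Pool.Agent.Lib.MP391708.MAR
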