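import Pool.Agent.Lib.MP_391708_nt.MAR.Spec

/-!
# FUND: the fundamental totally positive unit of a real quadratic field
-/

set_option autoImplicit false

namespace Pool.Agent.Lib.MP391708.MAR

open Finset Filter Topology NumberField NumberField.Units
open scoped Classical

namespace FundM

variable {K : Type} [Field K] [NumberField K]

theorem card_places (h : RQ K) : Fintype.card (InfinitePlace K) = 2 := by
  have := h.re
  have h1 := NumberField.IsTotallyReal.finrank (K := K)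
  have h2 := NumberField.InfinitePlace.card_eq_nrRealPlaces_add_nrComplexPlaces (K := K)
  have h3 := NumberField.IsTotallyReal.nrComplexPlaces_eq_zero (K := K)
  rw [h.deg] at h1
  omega

theorem rank_eq (h : RQ K) : rank K = 1 := by
  unfold rank
  rw [card_places h]

/-- the real embedding of a complex embedding -/
theorem exists_real (h : RQ K) (φ : K →+* ℂ) : ∃ σ : K →+* ℝ, φ = Complex.ofRealHom.comp σ := by
  have := h.re
  have h1 := NumberField.IsTotallyReal.complexEmbedding_isReal φ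
  refine ⟨h1.embedding, ?_⟩
  ext x
  exact (NumberField.ComplexEmbedding.IsReal.coe_embedding_apply h1 x).symm

theorem exists_two (h : RQ K) : ∃ σ τ : K →+* ℝ, σ ≠ τ := by
  have h1 : Fintype.card (K →+* ℂ) = 2 := by
    rw [NumberField.Embeddings.card, h.deg]
  obtain ⟨φ, ψ, hne⟩ := Fintype.one_lt_card_iff.1 (by rw [h1]; norm_num)
  obtain ⟨σ, hσ⟩ := exists_real h φ
  obtain ⟨τ, hτ⟩ := exists_real h ψ
  refine ⟨σ, τ, ?_⟩
  rintro rfl
  exact hne (hσ.trans hτ.symm)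

/-- every complex embedding is `σ` or `τ` -/
theorem emb_cases (h : RQ K) {σ τ : K →+* ℝ} (hne : σ ≠ τ) (φ : K →+* ℂ) :
    φ = Complex.ofRealHom.comp σ ∨ φ = Complex.ofRealHom.comp τ := by
  have h1 : Fintype.card (K →+* ℂ) = 2 := by
    rw [NumberField.Embeddings.card, h.deg]
  have hne' : Complex.ofRealHom.comp σ ≠ Complex.ofRealHom.comp τ := by
    intro h
    apply hne
    ext x
    have := RingHom.congr_fun h x
    exact Complex.ofReal_injective this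
  have h2 : ({Complex.ofRealHom.comp σ, Complex.ofRealHom.comp τ} : Finset (K →+* ℂ)) =
      Finset.univ := by
    apply Finset.eq_univ_of_card
    rw [h1, Finset.card_pair hne']
  have h3 : φ ∈ ({Complex.ofRealHom.comp σ, Complex.ofRealHom.comp τ} : Finset (K →+* ℂ)) := by
    rw [h2]; exact Finset.mem_univ _
  simpa using h3

/-- every real embedding is `σ` or `τ` -/
theorem real_cases (h : RQ K) {σ τ : K →+* ℝ} (hne : σ ≠ τ) (ρ : K →+* ℝ) : ρ = σ ∨ ρ = τ := by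
  have key : ∀ a b : K →+* ℝ, Complex.ofRealHom.comp a = Complex.ofRealHom.comp b → a = b := by
    intro a b h
    ext x
    exact Complex.ofReal_injective (RingHom.congr_fun h x)
  rcases emb_cases h hne (Complex.ofRealHom.comp ρ) with h1 | h1
  · exact Or.inl (key _ _ h1)
  · exact Or.inr (key _ _ h1)

/-- the norm is the product of the two conjugates -/
theorem norm_eq (h : RQ K) {σ τ : K →+* ℝ} (hne : σ ≠ τ) (x : K) :
    ((Algebra.norm ℚ x : ℚ) : ℝ) = σ x * τ x := by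
  have h1 := Algebra.norm_eq_prod_embeddings ℚ ℂ x
  have hne' : Complex.ofRealHom.comp σ ≠ Complex.ofRealHom.comp τ := by
    intro h
    apply hne
    ext x
    exact Complex.ofReal_injective (RingHom.congr_fun h x)
  have h2 : ({Complex.ofRealHom.comp σ, Complex.ofRealHom.comp τ} : Finset (K →+* ℂ)) =
      Finset.univ := by
    ext φ
    simpa using emb_cases h hne φ
  have h3 : ∏ φ : K →ₐ[ℚ] ℂ, φ x = ∏ φ : K →+* ℂ, φ x :=
    Fintype.prod_equiv (RingHom.equivRatAlgHom (R := K) (S := ℂ)).symm _ _ (fun φ => rfl)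
  rw [h3, ← h2, Finset.prod_pair hne'] at h1
  apply Complex.ofReal_injective
  have h4 : ((algebraMap ℚ ℂ) ((Algebra.norm ℚ) x)) = (((Algebra.norm ℚ x : ℚ) : ℝ) : ℂ) := by
    simp
  rw [← h4, h1]
  simp

/-- the totally positive units -/
def T (σ τ : K →+* ℝ) : Subgroup (𝓞 K)ˣ where
  carrier := {u | 0 < σ ((u : 𝓞 K) : K) ∧ 0 < τ ((u : 𝓞 K) : K)}
  one_mem' := by simp
  mul_mem' := by
    rintro a b ⟨ha, ha'⟩ ⟨hb, hb'⟩
    constructor
    · simpa using mul_pos ha hb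
    · simpa using mul_pos ha' hb'
  inv_mem' := by
    rintro a ⟨ha, ha'⟩
    have key : ∀ ρ : K →+* ℝ, 0 < ρ ((a : 𝓞 K) : K) → 0 < ρ (((a⁻¹ : (𝓞 K)ˣ) : 𝓞 K) : K) := by
      intro ρ h
      have h1 : ρ ((a : 𝓞 K) : K) * ρ (((a⁻¹ : (𝓞 K)ˣ) : 𝓞 K) : K) = 1 := by
        rw [← map_mul, ← map_mul, Units.mul_inv]; simp
      by_contra h2
      push Not at h2
      nlinarith
    exact ⟨key σ ha, key τ ha'⟩

theorem mem_T {σ τ : K →+* ℝ} {u : (𝓞 K)ˣ} :
    u ∈ T σ τ ↔ 0 < σ ((u : 𝓞 K) : K) ∧ 0 < τ ((u : 𝓞 K) : K) := Iff.rfl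

theorem eq_one_of {σ : K →+* ℝ} {u : (𝓞 K)ˣ} (h : σ ((u : 𝓞 K) : K) = 1) : u = 1 := by
  apply Units.ext
  apply RingOfIntegers.ext
  apply σ.injective
  rw [h]; simp

/-- a torsion unit which is positive is one -/
theorem torsion_eq_one {σ : K →+* ℝ} {u : (𝓞 K)ˣ} (hu : u ∈ torsion K)
    (h : 0 < σ ((u : 𝓞 K) : K)) : u = 1 := by
  apply eq_one_of (σ := σ)
  obtain ⟨n, hn, h1⟩ := isOfFinOrder_iff_pow_eq_one.1 ((CommGroup.mem_torsion _).1 hu)
  have h2 : σ ((u : 𝓞 K) : K) ^ n = 1 := by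
    have := congrArg (fun v : (𝓞 K)ˣ => σ ((v : 𝓞 K) : K)) h1
    simpa using this
  exact (pow_eq_one_iff_of_nonneg h.le hn.ne').1 h2

theorem sq_mem_T (σ τ : K →+* ℝ) (u : (𝓞 K)ˣ) : u ^ 2 ∈ T σ τ := by
  have key : ∀ ρ : K →+* ℝ, 0 < ρ (((u ^ 2 : (𝓞 K)ˣ) : 𝓞 K) : K) := by
    intro ρ
    have h1 : ρ (((u ^ 2 : (𝓞 K)ˣ) : 𝓞 K) : K) = ρ ((u : 𝓞 K) : K) ^ 2 := by simp
    rw [h1]
    have h2 : ρ ((u : 𝓞 K) : K) ≠ 0 := by
      rw [map_ne_zero]
      exact RingOfIntegers.coe_ne_zero_iff.2 u.ne_zero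
    positivity
  exact ⟨key σ, key τ⟩

/-- rank one: a unit `η` such that every unit is `ζ η ^ n` with `ζ` torsion, in one way -/
theorem exists_eta (h : RQ K) : ∃ η : (𝓞 K)ˣ, (∀ x : (𝓞 K)ˣ, ∃ ζ ∈ torsion K, ∃ n : ℤ,
    x = ζ * η ^ n) ∧ η ^ 2 ≠ 1 := by
  have hr := rank_eq h
  haveI : Unique (Fin (rank K)) := by rw [hr]; infer_instance
  refine ⟨fundSystem K default, ?_, ?_⟩
  · intro x
    obtain ⟨⟨ζ, e⟩, h1, -⟩ := exist_unique_eq_mul_prod K x
    refine ⟨ζ, ζ.2, e default, ?_⟩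
    rw [Fintype.prod_unique] at h1
    exact h1
  · intro h2
    obtain ⟨t, -, h3⟩ := exist_unique_eq_mul_prod K (1 : (𝓞 K)ˣ)
    have e1 := h3 (1, fun _ => 0) (by simp)
    have e2 := h3 (1, fun _ => 2) (by
      simp only [OneMemClass.coe_one, one_mul, Fintype.prod_unique]
      rw [← h2]; norm_cast)
    have := congrFun (congrArg Prod.snd (e1.trans e2.symm)) default
    norm_num at this

/-- the totally positive units are cyclic, with a generator `> 1` at `σ` -/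
theorem exists_gen (h : RQ K) (σ τ : K →+* ℝ) : ∃ E ∈ T σ τ, 1 < σ ((E : 𝓞 K) : K) ∧
    ∀ u ∈ T σ τ, ∃ n : ℤ, u = E ^ n := by
  obtain ⟨η, h1, h2⟩ := exists_eta h
  let S : AddSubgroup ℤ :=
    { carrier := {n | ∃ u ∈ T σ τ, ∃ ζ ∈ torsion K, u = ζ * η ^ n}
      zero_mem' := ⟨1, one_mem _, 1, one_mem _, by simp⟩
      add_mem' := by
        rintro a b ⟨u, hu, ζ, hζ, e⟩ ⟨u', hu', ζ', hζ', e'⟩
        refine ⟨u * u', mul_mem hu hu', ζ * ζ', mul_mem hζ hζ', ?_⟩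
        rw [e, e', zpow_add]
        exact mul_mul_mul_comm _ _ _ _
      neg_mem' := by
        rintro a ⟨u, hu, ζ, hζ, e⟩
        refine ⟨u⁻¹, inv_mem hu, ζ⁻¹, inv_mem hζ, ?_⟩
        rw [e, zpow_neg, mul_inv] }
  obtain ⟨a, ha⟩ := Int.subgroup_cyclic S
  have haS : a ∈ S := by rw [ha]; exact AddSubgroup.subset_closure rfl
  obtain ⟨E, hE, ζ, hζ, e⟩ := haS
  have hgen : ∀ u ∈ T σ τ, ∃ n : ℤ, u = E ^ n := by
    intro u hu
    obtain ⟨ζ', hζ', n, e'⟩ := h1 u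
    have hn : n ∈ S := ⟨u, hu, ζ', hζ', e'⟩
    rw [ha, AddSubgroup.mem_closure_singleton] at hn
    obtain ⟨k, hk⟩ := hn
    refine ⟨k, ?_⟩
    have h3 : u * (E ^ k)⁻¹ ∈ torsion K := by
      have : u * (E ^ k)⁻¹ = ζ' * (ζ ^ k)⁻¹ := by
        rw [e', e, mul_zpow, ← zpow_mul, mul_inv, ← hk, smul_eq_mul, mul_comm k a]
        rw [mul_mul_mul_comm, mul_inv_cancel, mul_one]
      rw [this]
      exact mul_mem hζ' (inv_mem (zpow_mem hζ k))
    have h4 : u * (E ^ k)⁻¹ ∈ T σ τ := mul_mem hu (inv_mem (zpow_mem hE k))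
    have h5 := torsion_eq_one h3 h4.1
    exact mul_inv_eq_one.1 h5
  have hE1 : σ ((E : 𝓞 K) : K) ≠ 1 := by
    intro hE2
    have h3 := eq_one_of hE2
    obtain ⟨n, hn⟩ := hgen _ (sq_mem_T σ τ η)
    rw [h3, one_zpow] at hn
    exact h2 hn
  rcases lt_or_gt_of_ne hE1 with h3 | h3
  · refine ⟨E⁻¹, inv_mem hE, ?_, ?_⟩
    · have h4 : σ ((E : 𝓞 K) : K) * σ (((E⁻¹ : (𝓞 K)ˣ) : 𝓞 K) : K) = 1 := by
        rw [← map_mul, ← map_mul, Units.mul_inv]; simp
      have h5 := hE.1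
      by_contra h6
      push Not at h6
      nlinarith
    · intro u hu
      obtain ⟨n, hn⟩ := hgen u hu
      exact ⟨-n, by rw [inv_zpow', neg_neg]; exact hn⟩
  · exact ⟨E, hE, h3, hgen⟩

end FundM

open FundM in
/-- `σ E * τ E = 1` -/
theorem Fund.mul_eq_one {K : Type} [Field K] [NumberField K] [h : RQ K] (Φ : Fund K) :
    Φ.σ ((Φ.E : 𝓞 K) : K) * Φ.τ ((Φ.E : 𝓞 K) : K) = 1 := by
  rw [← norm_eq h Φ.ne]
  have h1 : IsUnit ((Algebra.norm ℤ ((Φ.E : 𝓞 K)))) := Φ.E.isUnit.map _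
  have h2 : ((Algebra.norm ℚ ((Φ.E : 𝓞 K) : K) : ℚ)) = ((Algebra.norm ℤ (Φ.E : 𝓞 K) : ℤ) : ℚ) := by
    rw [Algebra.coe_norm_int]
  have h3 : 0 < ((Algebra.norm ℚ ((Φ.E : 𝓞 K) : K) : ℚ) : ℝ) := by
    rw [norm_eq h Φ.ne]
    exact mul_pos (lt_trans one_pos Φ.one_lt) Φ.pos
  rw [h2] at h3 ⊢
  rcases Int.isUnit_iff.1 h1 with h4 | h4
  · rw [h4]; norm_num
  · rw [h4] at h3; norm_num at h3

theorem Fund.R_eq {K : Type} [Field K] [NumberField K] [RQ K] (Φ : Fund K) :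
    Φ.R = Φ.σ ((Φ.E : 𝓞 K) : K) ^ 2 := by
  have h1 := Φ.mul_eq_one
  have h2 := Φ.pos
  unfold Fund.R
  rw [div_eq_iff h2.ne', pow_two, mul_assoc, h1, mul_one]

theorem Fund.one_lt_R {K : Type} [Field K] [NumberField K] [RQ K] (Φ : Fund K) : 1 < Φ.R := by
  rw [Φ.R_eq]
  exact one_lt_pow₀ Φ.one_lt two_ne_zero

open FundM in
theorem specFund (K : Type) [Field K] [NumberField K] [h : RQ K] : SpecFund K := by
  refine ⟨exists_two h, ?_⟩
  intro σ τ hne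
  obtain ⟨E, hE, h1, h2⟩ := exists_gen h σ τ
  exact ⟨⟨σ, τ, hne, E, h1, hE.2, fun u hu hu' => h2 u ⟨hu, hu'⟩⟩, rfl, rfl⟩

end Pool.Agent.Lib.MP391708.MAR
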