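import Pool.Agent.Lib.MP_391708_nt.MAR.Basic2
import Pool.Agent.Lib.MP_391708_nt.MAR.Spec

/-!
# LADDER: outside a small set of frequencies the sums are small in mean square
-/

set_option autoImplicit false

namespace Pool.Agent.Lib.MP391708.MAR

open Finset Filter Topology NumberField
open scoped ComplexConjugate Classical

variable {K : Type} [Field K] [NumberField K]
variable [MA.Sg]

namespace LadAux

/-! ## the cells -/

lemma mem_VV {h a b : ℝ} {v : ℕ} (hh : 1 ≤ h) (hb : 0 ≤ b)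
    (hv : v ∈ VV h (Real.exp a) (Real.exp b)) : a - 1 ≤ v / h ∧ (v : ℝ) / h ≤ b := by
  unfold VV at hv
  rw [mem_Icc, Real.log_exp, Real.log_exp] at hv
  have hh0 : 0 < h := lt_of_lt_of_le one_pos hh
  constructor
  · rw [le_div_iff₀ hh0]
    have h1 : h * a < v + 1 := by
      have := Nat.lt_floor_add_one (h * a)
      have h2 : (⌊h * a⌋₊ : ℝ) ≤ v := by exact_mod_cast hv.1
      linarith
    nlinarith
  · rw [div_le_iff₀ hh0]
    have h1 : (v : ℝ) ≤ ⌊h * b⌋₊ := by exact_mod_cast hv.2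
    have h2 := Nat.floor_le (mul_nonneg hh0.le hb)
    linarith

lemma card_VV {h a b : ℝ} (hh : 1 ≤ h) (hb : 0 ≤ b) :
    ((VV h (Real.exp a) (Real.exp b)).card : ℝ) ≤ h * b + 2 := by
  unfold VV
  rw [Nat.card_Icc, Real.log_exp, Real.log_exp]
  have h2 := Nat.floor_le (mul_nonneg (zero_le_one.trans hh) hb)
  have h3 : ((⌊h * b⌋₊ + 1 - ⌊h * a⌋₊ : ℕ) : ℝ) ≤ ⌊h * b⌋₊ + 1 := by
    have : ⌊h * b⌋₊ + 1 - ⌊h * a⌋₊ ≤ ⌊h * b⌋₊ + 1 := Nat.sub_le _ _
    exact_mod_cast this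
  linarith

lemma cell_subset {h a b : ℝ} {v : ℕ} (hh : 1 ≤ h) :
    (cell h (Real.exp a) (Real.exp b) v : Finset (Gi K)) ⊆
      GP (Real.exp (v / h - 1)) (Real.exp (v / h + 1)) := by
  intro π hπ
  unfold cell at hπ
  rw [mem_filter] at hπ
  obtain ⟨h1, h2⟩ := hπ
  have hne := GP_ne_zero h1
  rw [mem_GP] at h1
  have hh0 : 0 < h := lt_of_lt_of_le one_pos hh
  have hn : (1 : ℝ) ≤ nm π := one_le_nm hne
  have hn0 : (0 : ℝ) < nm π := by linarith
  have hlog : 0 ≤ Real.log (nm π) := Real.log_nonneg hn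
  have h3 : (v : ℝ) ≤ h * Real.log (nm π) := by
    rw [← h2]; exact Nat.floor_le (mul_nonneg hh0.le hlog)
  have h4 : h * Real.log (nm π) < v + 1 := by
    rw [← h2]; exact Nat.lt_floor_add_one _
  rw [mem_GP]
  refine ⟨h1.1, h1.2.1, ?_, ?_⟩
  · apply (Real.lt_log_iff_exp_lt hn0).1
    have : (v : ℝ) / h ≤ Real.log (nm π) := by
      rw [div_le_iff₀ hh0]; linarith
    linarith
  · apply (Real.log_le_iff_le_exp hn0).1
    have h5 : Real.log (nm π) ≤ (v + 1) / h := by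
      rw [le_div_iff₀ hh0]; linarith
    have h6 : (1 : ℝ) / h ≤ 1 := by
      rw [div_le_one hh0]; exact hh
    rw [add_div] at h5
    linarith

/-! ## splitting -/

lemma split_sq (W : ℝ) (hW : 1 ≤ W) (s : Finset ℕ) (q m : ℕ → ℂ) (M : ℂ) :
    ‖M‖ ^ 2 ≤ 2 * ‖M - (1 / (W : ℂ)) * ∑ v ∈ s, q v * m v‖ ^ 2 +
      2 * (s.card : ℝ) * ∑ v ∈ s, ‖q v‖ ^ 2 * ‖m v‖ ^ 2 := by
  set A := ∑ v ∈ s, q v * m v with hA
  have h1 : ‖M‖ ≤ ‖M - (1 / (W : ℂ)) * A‖ + ‖A‖ := by
    calc ‖M‖ = ‖(M - (1 / (W : ℂ)) * A) + (1 / (W : ℂ)) * A‖ := by congr 1; ring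
      _ ≤ ‖M - (1 / (W : ℂ)) * A‖ + ‖(1 / (W : ℂ)) * A‖ := norm_add_le _ _
      _ ≤ _ := by
        gcongr
        rw [norm_mul, norm_div, norm_one, Complex.norm_real, Real.norm_eq_abs,
          abs_of_nonneg (by linarith)]
        have : 1 / W ≤ 1 := by rw [div_le_one (by linarith)]; exact hW
        nlinarith [norm_nonneg A]
  have h2 : ‖A‖ ^ 2 ≤ (s.card : ℝ) * ∑ v ∈ s, ‖q v‖ ^ 2 * ‖m v‖ ^ 2 := by
    have h3 : ‖A‖ ≤ ∑ v ∈ s, ‖q v‖ * ‖m v‖ := by
      refine (norm_sum_le _ _).trans (le_of_eq ?_)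
      exact sum_congr rfl fun v _ => norm_mul _ _
    calc ‖A‖ ^ 2 ≤ (∑ v ∈ s, ‖q v‖ * ‖m v‖) ^ 2 := by gcongr
      _ ≤ (s.card : ℝ) * ∑ v ∈ s, (‖q v‖ * ‖m v‖) ^ 2 := sq_sum_le_card_mul_sum_sq
      _ = _ := by
        congr 1
        exact sum_congr rfl fun v _ => mul_pow _ _ _
  have h4 := norm_nonneg (M - (1 / (W : ℂ)) * A)
  have h5 := norm_nonneg A
  calc ‖M‖ ^ 2 ≤ (‖M - (1 / (W : ℂ)) * A‖ + ‖A‖) ^ 2 := by gcongr
    _ ≤ 2 * ‖M - (1 / (W : ℂ)) * A‖ ^ 2 + 2 * ‖A‖ ^ 2 := by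
      nlinarith [sq_nonneg (‖M - (1 / (W : ℂ)) * A‖ - ‖A‖)]
    _ ≤ _ := by nlinarith

/-- a stage -/
lemma stage_le (D : Dir K) (h P Q X X' : ℝ) (hW : 1 ≤ WW K P Q) (Zk : ℕ) (T : Finset (Kp K))
    (hT : T ⊆ IK K Zk) :
    ∑ k ∈ T, ‖MM D X X' k‖ ^ 2 ≤
      2 * ∑ k ∈ IK K Zk, ‖MM D X X' k - (1 / (WW K P Q : ℂ)) * ∑ v ∈ VV h P Q, QQ D h P Q v k *
        MM D (X * Real.exp (-(v / h))) (X' * Real.exp (-(v / h))) k‖ ^ 2 +
      2 * ((VV h P Q).card : ℝ) * ∑ v ∈ VV h P Q, ∑ k ∈ T, ‖QQ D h P Q v k‖ ^ 2 *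
        ‖MM D (X * Real.exp (-(v / h))) (X' * Real.exp (-(v / h))) k‖ ^ 2 := by
  have h1 : ∀ k ∈ T, ‖MM D X X' k‖ ^ 2 ≤ 2 * ‖MM D X X' k - (1 / (WW K P Q : ℂ)) *
      ∑ v ∈ VV h P Q, QQ D h P Q v k *
        MM D (X * Real.exp (-(v / h))) (X' * Real.exp (-(v / h))) k‖ ^ 2 +
      2 * ((VV h P Q).card : ℝ) * ∑ v ∈ VV h P Q, ‖QQ D h P Q v k‖ ^ 2 *
        ‖MM D (X * Real.exp (-(v / h))) (X' * Real.exp (-(v / h))) k‖ ^ 2 := fun k _ =>
    split_sq _ hW _ _ _ _
  refine (sum_le_sum h1).trans ?_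
  rw [sum_add_distrib, ← mul_sum, ← mul_sum, sum_comm]
  have h2 : ∑ k ∈ T, ‖MM D X X' k - (1 / (WW K P Q : ℂ)) *
      ∑ v ∈ VV h P Q, QQ D h P Q v k *
        MM D (X * Real.exp (-(v / h))) (X' * Real.exp (-(v / h))) k‖ ^ 2 ≤
      ∑ k ∈ IK K Zk, ‖MM D X X' k - (1 / (WW K P Q : ℂ)) * ∑ v ∈ VV h P Q, QQ D h P Q v k *
        MM D (X * Real.exp (-(v / h))) (X' * Real.exp (-(v / h))) k‖ ^ 2 :=
    sum_le_sum_of_subset_of_nonneg hT fun _ _ _ => sq_nonneg _
  linarith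

/-- mean values of `MM` times a power of a prime sum -/
lemma mom_le (D : Dir K) {CM : ℝ} (hCM : 1 ≤ CM)
    (hM : ∀ (Y Z N : ℝ) (l Zk : ℕ) (E S : Finset (Gi K)) (b a : Gi K → ℂ),
      CM ≤ Y → Y ≤ Z → Z ≤ Real.exp 2 * Y → 1 ≤ N → E ⊆ GP Y Z → (∀ z, ‖b z‖ ≤ 1) →
      (∀ z, ‖a z‖ ≤ 1) → (∀ m ∈ S, prim m ∧ Z ^ l * nm m ≤ N) →
      ∑ k ∈ IK K Zk, ‖(∑ π ∈ E, b π * xi D k π) ^ l * ∑ m ∈ S, a m * xi D k m‖ ^ 2 ≤
        CM ^ (l + 1) * (l.factorial : ℝ) ^ 2 * (Zk + N) * N)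
    {h a b V0 : ℝ} {v0 l Zk : ℕ} {S : Finset (Gi K)} {B : ℝ}
    {c : Gi K → ℂ} (hc : ∀ z, ‖c z‖ ≤ 1)
    (hh : 1 ≤ h) (hV0 : (v0 : ℝ) / h = V0) (ha : Real.log CM + 1 ≤ V0)
    (hS : ∀ m ∈ S, prim m ∧ (nm m : ℝ) ≤ B) (hK : (Zk : ℝ) ≤ B * Real.exp (l * (V0 + 1)))
    (hN1 : 1 ≤ B * Real.exp (l * (V0 + 1))) :
    ∑ k ∈ IK K Zk, ‖QQ D h (Real.exp a) (Real.exp b) v0 k‖ ^ (2 * l) *
        ‖∑ m ∈ S, c m * xi D k m‖ ^ 2 ≤
      2 * (CM ^ (l + 1) * (l.factorial : ℝ) ^ 2 * Real.exp (2 * l)) *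
        (B ^ 2 * Real.exp (2 * (l * V0))) := by
  have hZ : Real.exp (V0 + 1) ^ l = Real.exp (l * (V0 + 1)) := (Real.exp_nat_mul _ _).symm
  have key := hM (Real.exp (V0 - 1)) (Real.exp (V0 + 1)) (B * Real.exp (l * (V0 + 1))) l Zk
    (cell h (Real.exp a) (Real.exp b) v0) S (fun z => (lam z : ℂ)) c
    ((Real.log_le_iff_le_exp (lt_of_lt_of_le one_pos hCM)).1 (by linarith))
    (Real.exp_le_exp.2 (by linarith))
    (by rw [← Real.exp_add]; apply Real.exp_le_exp.2; linarith)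
    hN1 (by rw [← hV0]; exact cell_subset hh)
    ((fun z => (norm_lam z).le)) hc (fun m hm => ⟨(hS m hm).1, by
      rw [hZ, mul_comm]
      exact mul_le_mul_of_nonneg_right (hS m hm).2 (Real.exp_pos _).le⟩)
  have h1 : ∑ k ∈ IK K Zk, ‖QQ D h (Real.exp a) (Real.exp b) v0 k‖ ^ (2 * l) *
        ‖∑ m ∈ S, c m * xi D k m‖ ^ 2 =
      ∑ k ∈ IK K Zk, ‖(∑ π ∈ cell h (Real.exp a) (Real.exp b) v0, (lam π : ℂ) * xi D k π) ^ l *
        ∑ m ∈ S, c m * xi D k m‖ ^ 2 := by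
    apply sum_congr rfl
    intro k _
    rw [norm_mul, norm_pow, mul_pow, ← pow_mul, mul_comm l 2]
    rfl
  rw [h1]
  refine key.trans ?_
  set N := B * Real.exp (l * (V0 + 1)) with hN
  have h2 : ((Zk : ℝ) + N) * N ≤ 2 * (B ^ 2 * Real.exp (2 * (l * V0)) * Real.exp (2 * l)) := by
    have h3 : N ^ 2 = B ^ 2 * Real.exp (2 * (l * V0)) * Real.exp (2 * l) := by
      rw [hN, mul_pow, ← Real.exp_nat_mul, mul_assoc, ← Real.exp_add]
      congr 2
      push_cast; ring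
    rw [← h3]
    nlinarith
  have h4 : 0 ≤ CM ^ (l + 1) * (l.factorial : ℝ) ^ 2 := by positivity
  calc CM ^ (l + 1) * (l.factorial : ℝ) ^ 2 * (Zk + N) * N
      = CM ^ (l + 1) * (l.factorial : ℝ) ^ 2 * ((Zk + N) * N) := by ring
    _ ≤ CM ^ (l + 1) * (l.factorial : ℝ) ^ 2 *
        (2 * (B ^ 2 * Real.exp (2 * (l * V0)) * Real.exp (2 * l))) :=
      mul_le_mul_of_nonneg_left h2 h4
    _ = _ := by ring

/-- `CM`-property of the moment bound -/
def MomC (D : Dir K) (CM : ℝ) : Prop :=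
  ∀ (Y Z N : ℝ) (l Zk : ℕ) (E S : Finset (Gi K)) (b a : Gi K → ℂ),
      CM ≤ Y → Y ≤ Z → Z ≤ Real.exp 2 * Y → 1 ≤ N → E ⊆ GP Y Z → (∀ z, ‖b z‖ ≤ 1) →
      (∀ z, ‖a z‖ ≤ 1) → (∀ m ∈ S, prim m ∧ Z ^ l * nm m ≤ N) →
      ∑ k ∈ IK K Zk, ‖(∑ π ∈ E, b π * xi D k π) ^ l * ∑ m ∈ S, a m * xi D k m‖ ^ 2 ≤
        CM ^ (l + 1) * (l.factorial : ℝ) ^ 2 * (Zk + N) * N

/-- smallness at a stage -/
def sml (D : Dir K) (a b al h : ℝ) (k : Kp K) : Prop :=
  ∀ v ∈ VV h (Real.exp a) (Real.exp b),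
    ‖QQ D h (Real.exp a) (Real.exp b) v k‖ ≤ Real.exp ((1 - al) * (v / h))

/-- if a stage is not small then the sum of high powers is at least 1 -/
lemma one_le_of_not_sml {D : Dir K} {a b al h : ℝ} {k : Kp K} (hs : ¬ sml D a b al h k)
    (l : ℕ → ℕ) :
    1 ≤ ∑ v ∈ VV h (Real.exp a) (Real.exp b),
      Real.exp (-(2 * (l v * ((1 - al) * (v / h))))) *
        ‖QQ D h (Real.exp a) (Real.exp b) v k‖ ^ (2 * l v) := by
  unfold sml at hs
  push Not at hs
  obtain ⟨v, hv, hlt⟩ := hs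
  have h1 : 1 ≤ Real.exp (-(2 * (l v * ((1 - al) * (v / h))))) *
        ‖QQ D h (Real.exp a) (Real.exp b) v k‖ ^ (2 * l v) := by
    have h2 : Real.exp (2 * (l v * ((1 - al) * (v / h)))) ≤
        ‖QQ D h (Real.exp a) (Real.exp b) v k‖ ^ (2 * l v) := by
      calc Real.exp (2 * (l v * ((1 - al) * (v / h))))
          = Real.exp ((1 - al) * (v / h)) ^ (2 * l v) := by
            rw [← Real.exp_nat_mul]; congr 1; push_cast; ring
        _ ≤ _ := pow_le_pow_left₀ (Real.exp_pos _).le hlt.le _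
    calc (1 : ℝ) = Real.exp (-(2 * (l v * ((1 - al) * (v / h))))) *
          Real.exp (2 * (l v * ((1 - al) * (v / h)))) := by
          rw [← Real.exp_add]; simp
      _ ≤ _ := mul_le_mul_of_nonneg_left h2 (Real.exp_pos _).le
  refine h1.trans ?_
  exact single_le_sum (f := fun v : ℕ => Real.exp (-(2 * (l v * ((1 - al) * (v / h))))) *
        ‖QQ D h (Real.exp a) (Real.exp b) v k‖ ^ (2 * l v))
    (fun i _ => mul_nonneg (Real.exp_pos _).le (pow_nonneg (norm_nonneg _) _)) hv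

/-- the number of frequencies which are not small at a stage -/
lemma card_not_sml [RQ K] (D : Dir K) {CM : ℝ} (hCM : 1 ≤ CM) (hM : MomC D CM)
    {a b al h X : ℝ} (hh : 1 ≤ h) (hb : 0 ≤ b) (hX : 1 ≤ X) (ha : Real.log CM + 2 ≤ a)
    (U : Finset (Kp K)) (hU : U ⊆ IK K ⌊X⌋₊) (hUs : ∀ k ∈ U, ¬ sml D a b al h k) {B : ℝ}
    (hB : ∀ (l : ℕ) (V : ℝ), a - 1 ≤ V → V ≤ b → Real.log X ≤ l * V →
      l * V ≤ Real.log X + V →
      2 * (CM ^ (l + 1) * (l.factorial : ℝ) ^ 2 * Real.exp (2 * l)) *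
        Real.exp (2 * al * l * V) ≤ B) :
    (U.card : ℝ) ≤ (VV h (Real.exp a) (Real.exp b)).card * B := by
  have hlogC : 0 ≤ Real.log CM := Real.log_nonneg hCM
  set l : ℕ → ℕ := fun v => ⌈Real.log X / (v / h)⌉₊ with hl
  have h1 : (U.card : ℝ) ≤ ∑ k ∈ U, ∑ v ∈ VV h (Real.exp a) (Real.exp b),
      Real.exp (-(2 * (l v * ((1 - al) * (v / h))))) *
        ‖QQ D h (Real.exp a) (Real.exp b) v k‖ ^ (2 * l v) := by
    rw [card_eq_sum_ones]
    push_cast
    exact sum_le_sum fun k hk => one_le_of_not_sml (hUs k hk) l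
  refine h1.trans ?_
  rw [sum_comm, ← nsmul_eq_mul]
  apply sum_le_card_nsmul
  intro v hv
  obtain ⟨hv1, hv2⟩ := mem_VV hh hb hv
  set V : ℝ := (v : ℝ) / h with hV
  have hV0 : 0 < V := by linarith
  have hlX : 0 ≤ Real.log X := Real.log_nonneg hX
  have hl1 : Real.log X ≤ l v * V := by
    have := Nat.le_ceil (Real.log X / V)
    rw [div_le_iff₀ hV0] at this
    exact this
  have hl2 : l v * V ≤ Real.log X + V := by
    have := (Nat.ceil_lt_add_one (div_nonneg hlX hV0.le)).le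
    have h3 : (⌈Real.log X / V⌉₊ : ℝ) * V ≤ (Real.log X / V + 1) * V :=
      mul_le_mul_of_nonneg_right this hV0.le
    rw [add_mul, div_mul_cancel₀ _ hV0.ne', one_mul] at h3
    exact h3
  have hXe : X ≤ Real.exp (l v * (V + 1)) := by
    rw [← Real.log_le_iff_le_exp (by linarith)]
    have : (0 : ℝ) ≤ l v := Nat.cast_nonneg _
    linarith
  have key := mom_le D hCM hM (h := h) (a := a) (b := b) (V0 := V) (v0 := v) (l := l v)
    (Zk := ⌊X⌋₊) (S := {1}) (B := 1) (c := fun _ => 1) (fun _ => by simp) hh rfl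
    (by linarith)
    (fun m hm => by rw [mem_singleton] at hm; subst hm; exact ⟨prim_one, by rw [nm_one]; simp⟩)
    (by rw [one_mul]; exact (Nat.floor_le (by linarith)).trans hXe)
    (by rw [one_mul]; exact hX.trans hXe)
  rw [← mul_sum]
  have h4 : ∑ k ∈ U, ‖QQ D h (Real.exp a) (Real.exp b) v k‖ ^ (2 * l v) ≤
      ∑ k ∈ IK K ⌊X⌋₊, ‖QQ D h (Real.exp a) (Real.exp b) v k‖ ^ (2 * l v) *
        ‖∑ m ∈ ({1} : Finset (Gi K)), (fun _ => (1 : ℂ)) m * xi D k m‖ ^ 2 := by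
    refine (sum_le_sum_of_subset_of_nonneg hU fun _ _ _ =>
      pow_nonneg (norm_nonneg _) _).trans (le_of_eq ?_)
    apply sum_congr rfl
    intro k _
    rw [sum_singleton, xi_one D]
    simp
  have h5 := h4.trans key
  refine (mul_le_mul_of_nonneg_left h5 (Real.exp_pos _).le).trans ?_
  refine le_trans (le_of_eq ?_) (hB (l v) V hv1 hv2 hl1 hl2)
  rw [one_pow, one_mul]
  have h6 : Real.exp (2 * al * (l v) * V) =
      Real.exp (-(2 * (l v * ((1 - al) * V)))) * Real.exp (2 * (l v * V)) := by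
    rw [← Real.exp_add]; congr 1; ring
  rw [h6]
  ring

lemma sml_sq {D : Dir K} {a b al h : ℝ} {k : Kp K} (hs : sml D a b al h k) {v : ℕ}
    (hv : v ∈ VV h (Real.exp a) (Real.exp b)) :
    ‖QQ D h (Real.exp a) (Real.exp b) v k‖ ^ 2 ≤ Real.exp (2 * ((1 - al) * (v / h))) := by
  calc ‖QQ D h (Real.exp a) (Real.exp b) v k‖ ^ 2 ≤ Real.exp ((1 - al) * (v / h)) ^ 2 := by
        gcongr; exact hs v hv
    _ = _ := by rw [← Real.exp_nat_mul]; congr 1

/-- the first stage -/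
lemma stage0_le (D : Dir K) {CM : ℝ} (hCM : 1 ≤ CM) (hM : MomC D CM)
    {a b al h X X' H : ℝ} (hh : 1 ≤ h) (hb : 0 ≤ b) (hbH : b = Real.log H) (hH : 0 < H)
    (hX : 1 ≤ X) (hbX : b ≤ Real.log X) (hX' : X' ≤ 4 * X) (ha : Real.log CM + 2 ≤ a)
    (hal : 0 ≤ al) (T : Finset (Kp K)) (hT : T ⊆ IK K ⌊X / H⌋₊) (hTs : ∀ k ∈ T, sml D a b al h k) :
    ∑ v ∈ VV h (Real.exp a) (Real.exp b), ∑ k ∈ T, ‖QQ D h (Real.exp a) (Real.exp b) v k‖ ^ 2 *
        ‖MM D (X * Real.exp (-(v / h))) (X' * Real.exp (-(v / h))) k‖ ^ 2 ≤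
      (VV h (Real.exp a) (Real.exp b)).card *
        (32 * CM * X ^ 2 * Real.exp (-2 * al * (a - 1))) := by
  rw [← nsmul_eq_mul]
  apply sum_le_card_nsmul
  intro v hv
  obtain ⟨hv1, hv2⟩ := mem_VV hh hb hv
  set V : ℝ := (v : ℝ) / h with hV
  have hX0 : 0 < X := by linarith
  have hlX : 0 ≤ Real.log X := Real.log_nonneg hX
  have hN1 : 1 ≤ 4 * X * Real.exp (-V) := by
    have h1 : Real.exp (-Real.log X) ≤ Real.exp (-V) := Real.exp_le_exp.2 (by linarith)
    rw [Real.exp_neg, Real.exp_log hX0] at h1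
    have h2 : X * X⁻¹ ≤ X * Real.exp (-V) := mul_le_mul_of_nonneg_left h1 hX0.le
    rw [mul_inv_cancel₀ hX0.ne'] at h2
    linarith
  have hKb : ((⌊X / H⌋₊ : ℕ) : ℝ) ≤ 4 * X * Real.exp (-V) := by
    have h1 : Real.exp (-Real.log H) ≤ Real.exp (-V) := Real.exp_le_exp.2 (by linarith)
    rw [Real.exp_neg, Real.exp_log hH] at h1
    have h2 : X * H⁻¹ ≤ X * Real.exp (-V) := mul_le_mul_of_nonneg_left h1 hX0.le
    have h3 := Nat.floor_le (div_nonneg hX0.le hH.le)
    rw [div_eq_mul_inv] at h3 ⊢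
    have h4 : 0 < X * Real.exp (-V) := mul_pos hX0 (Real.exp_pos _)
    linarith
  have key := mom_le D hCM hM (h := h) (a := a) (b := b) (V0 := V) (v0 := v) (l := 0)
    (Zk := ⌊X / H⌋₊) (S := (ann (X * Real.exp (-V)) (X' * Real.exp (-V))).filter prim)
    (B := 4 * X * Real.exp (-V)) (c := (fun z => (lam z : ℂ))) (fun z => (norm_lam z).le) hh rfl
    (by linarith)
    (fun m hm => by
      rw [mem_filter, mem_ann] at hm
      refine ⟨hm.2, hm.1.2.2.trans ?_⟩
      exact mul_le_mul_of_nonneg_right hX' (Real.exp_pos _).le)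
    (by simpa using hKb) (by simpa using hN1)
  have h4 : ∑ k ∈ T, ‖QQ D h (Real.exp a) (Real.exp b) v k‖ ^ 2 *
        ‖MM D (X * Real.exp (-V)) (X' * Real.exp (-V)) k‖ ^ 2 ≤
      Real.exp (2 * ((1 - al) * V)) * ∑ k ∈ IK K ⌊X / H⌋₊,
        ‖QQ D h (Real.exp a) (Real.exp b) v k‖ ^ (2 * 0) *
        ‖∑ m ∈ (ann (X * Real.exp (-V)) (X' * Real.exp (-V))).filter prim,
          (lam m : ℂ) * xi D k m‖ ^ 2 := by
    rw [mul_sum]
    refine le_trans (sum_le_sum fun k hk => ?_) (sum_le_sum_of_subset_of_nonneg hT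
      fun _ _ _ => by positivity)
    rw [mul_zero, pow_zero, one_mul]
    exact mul_le_mul_of_nonneg_right (sml_sq (hTs k hk) hv) (sq_nonneg _)
  refine h4.trans ((mul_le_mul_of_nonneg_left key (Real.exp_pos _).le).trans ?_)
  have h5 : Real.exp (2 * ((1 - al) * V)) * (Real.exp (-V) * Real.exp (-V)) ≤
      Real.exp (-2 * al * (a - 1)) := by
    rw [← Real.exp_add, ← Real.exp_add]
    apply Real.exp_le_exp.2
    nlinarith
  have h6 : 0 ≤ 32 * CM * X ^ 2 := by positivity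
  calc Real.exp (2 * ((1 - al) * V)) *
        (2 * (CM ^ (0 + 1) * (Nat.factorial 0 : ℝ) ^ 2 * Real.exp (2 * (0 : ℕ))) *
          ((4 * X * Real.exp (-V)) ^ 2 * Real.exp (2 * ((0 : ℕ) * V))))
      = (32 * CM * X ^ 2) *
        (Real.exp (2 * ((1 - al) * V)) * (Real.exp (-V) * Real.exp (-V))) := by
        simp only [Nat.cast_zero, mul_zero, zero_mul, Real.exp_zero, Nat.factorial_zero,
          Nat.cast_one]
        ring
    _ ≤ _ := mul_le_mul_of_nonneg_left h5 h6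

/-- the later stages -/
lemma stageS_le (D : Dir K) {CM : ℝ} (hCM : 1 ≤ CM) (hM : MomC D CM)
    {a b al h a' b' al' h' X X' H B : ℝ} (hh : 1 ≤ h) (hb : 0 ≤ b) (hh' : 1 ≤ h')
    (hb' : 0 ≤ b') (hH : 1 ≤ H) (hX : 1 ≤ X) (hX' : X' ≤ 4 * X)
    (ha : Real.log CM + 2 ≤ a) (ha' : 1 ≤ a')
    (hal : 0 ≤ al) (T : Finset (Kp K)) (hT : T ⊆ IK K ⌊X / H⌋₊) (hTs : ∀ k ∈ T, sml D a' b' al' h' k)
    (hTn : ∀ k ∈ T, ¬ sml D a b al h k)
    (hB : ∀ (l : ℕ) (V V0 : ℝ), a' - 1 ≤ V → V ≤ b' → a - 1 ≤ V0 → V0 ≤ b → V ≤ l * V0 →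
      l * V0 ≤ V + V0 → CM ^ (l + 1) * (l.factorial : ℝ) ^ 2 * Real.exp (2 * l) *
        Real.exp (-2 * (al' - al) * V + 2 * al * V0) ≤ B) :
    ∑ v ∈ VV h' (Real.exp a') (Real.exp b'), ∑ k ∈ T,
      ‖QQ D h' (Real.exp a') (Real.exp b') v k‖ ^ 2 *
        ‖MM D (X * Real.exp (-(v / h'))) (X' * Real.exp (-(v / h'))) k‖ ^ 2 ≤
      (VV h' (Real.exp a') (Real.exp b')).card * ((VV h (Real.exp a) (Real.exp b)).card *
        (32 * X ^ 2 * B)) := by
  have hlogC : 0 ≤ Real.log CM := Real.log_nonneg hCM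
  rw [← nsmul_eq_mul]
  apply sum_le_card_nsmul
  intro v hv
  obtain ⟨hv1, hv2⟩ := mem_VV hh' hb' hv
  set V : ℝ := (v : ℝ) / h' with hV
  have hVn : 0 ≤ V := by linarith
  have hX0 : 0 < X := by linarith
  set l : ℕ → ℕ := fun v0 => ⌈V / (v0 / h)⌉₊ with hl
  set S : Finset (Gi K) := (ann (X * Real.exp (-V)) (X' * Real.exp (-V))).filter prim with hS
  have h1 : ∑ k ∈ T, ‖QQ D h' (Real.exp a') (Real.exp b') v k‖ ^ 2 *
        ‖MM D (X * Real.exp (-V)) (X' * Real.exp (-V)) k‖ ^ 2 ≤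
      ∑ v0 ∈ VV h (Real.exp a) (Real.exp b), Real.exp (2 * ((1 - al') * V)) *
        (Real.exp (-(2 * (l v0 * ((1 - al) * (v0 / h))))) *
        ∑ k ∈ IK K ⌊X / H⌋₊, ‖QQ D h (Real.exp a) (Real.exp b) v0 k‖ ^ (2 * l v0) *
          ‖∑ m ∈ S, (lam m : ℂ) * xi D k m‖ ^ 2) := by
    calc ∑ k ∈ T, ‖QQ D h' (Real.exp a') (Real.exp b') v k‖ ^ 2 *
          ‖MM D (X * Real.exp (-V)) (X' * Real.exp (-V)) k‖ ^ 2
        ≤ ∑ k ∈ T, ∑ v0 ∈ VV h (Real.exp a) (Real.exp b), Real.exp (2 * ((1 - al') * V)) *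
          (Real.exp (-(2 * (l v0 * ((1 - al) * (v0 / h))))) *
          (‖QQ D h (Real.exp a) (Real.exp b) v0 k‖ ^ (2 * l v0) *
          ‖∑ m ∈ S, (lam m : ℂ) * xi D k m‖ ^ 2)) := by
          apply sum_le_sum
          intro k hk
          have h2 := one_le_of_not_sml (hTn k hk) l
          have h3 := sml_sq (hTs k hk) hv
          have h4 : MM D (X * Real.exp (-V)) (X' * Real.exp (-V)) k =
            ∑ m ∈ S, (lam m : ℂ) * xi D k m := rfl
          rw [h4]
          set Mk := ‖∑ m ∈ S, (lam m : ℂ) * xi D k m‖ ^ 2 with hMk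
          have hMk0 : 0 ≤ Mk := sq_nonneg _
          calc ‖QQ D h' (Real.exp a') (Real.exp b') v k‖ ^ 2 * Mk
              ≤ Real.exp (2 * ((1 - al') * V)) * Mk := mul_le_mul_of_nonneg_right h3 hMk0
            _ = Real.exp (2 * ((1 - al') * V)) * Mk * 1 := (mul_one _).symm
            _ ≤ Real.exp (2 * ((1 - al') * V)) * Mk * _ :=
                mul_le_mul_of_nonneg_left h2 (mul_nonneg (Real.exp_pos _).le hMk0)
            _ = _ := by
                rw [mul_sum]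
                apply sum_congr rfl
                intro v0 _
                ring
      _ = ∑ v0 ∈ VV h (Real.exp a) (Real.exp b), Real.exp (2 * ((1 - al') * V)) *
          (Real.exp (-(2 * (l v0 * ((1 - al) * (v0 / h))))) *
          ∑ k ∈ T, ‖QQ D h (Real.exp a) (Real.exp b) v0 k‖ ^ (2 * l v0) *
          ‖∑ m ∈ S, (lam m : ℂ) * xi D k m‖ ^ 2) := by
          rw [sum_comm]
          apply sum_congr rfl
          intro v0 _
          rw [mul_sum, mul_sum]
      _ ≤ _ := by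
          apply sum_le_sum
          intro v0 _
          refine mul_le_mul_of_nonneg_left (mul_le_mul_of_nonneg_left ?_ (Real.exp_pos _).le)
            (Real.exp_pos _).le
          exact sum_le_sum_of_subset_of_nonneg hT fun _ _ _ => by positivity
  refine h1.trans ?_
  rw [← nsmul_eq_mul (VV h (Real.exp a) (Real.exp b)).card]
  apply sum_le_card_nsmul
  intro v0 hv0
  obtain ⟨hw1, hw2⟩ := mem_VV hh hb hv0
  set V0 : ℝ := (v0 : ℝ) / h with hV0
  have hV0p : 0 < V0 := by linarith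
  have hl1 : V ≤ l v0 * V0 := by
    have := Nat.le_ceil (V / V0)
    rw [div_le_iff₀ hV0p] at this
    exact this
  have hl2 : l v0 * V0 ≤ V + V0 := by
    have := (Nat.ceil_lt_add_one (div_nonneg hVn hV0p.le)).le
    have h3 : (⌈V / V0⌉₊ : ℝ) * V0 ≤ (V / V0 + 1) * V0 :=
      mul_le_mul_of_nonneg_right this hV0p.le
    rw [add_mul, div_mul_cancel₀ _ hV0p.ne', one_mul] at h3
    exact h3
  have hXN : X ≤ 4 * X * Real.exp (-V) * Real.exp (l v0 * (V0 + 1)) := by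
    have h5 : 1 ≤ Real.exp (-V) * Real.exp (l v0 * (V0 + 1)) := by
      rw [← Real.exp_add]
      apply Real.one_le_exp
      have : (0 : ℝ) ≤ l v0 := Nat.cast_nonneg _
      linarith
    nlinarith
  have key := mom_le D hCM hM (h := h) (a := a) (b := b) (V0 := V0) (v0 := v0) (l := l v0)
    (Zk := ⌊X / H⌋₊) (S := S)
    (B := 4 * X * Real.exp (-V)) (c := (fun z => (lam z : ℂ))) (fun z => (norm_lam z).le) hh rfl
    (by linarith)
    (fun m hm => by
      rw [hS, mem_filter, mem_ann] at hm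
      refine ⟨hm.2, hm.1.2.2.trans ?_⟩
      exact mul_le_mul_of_nonneg_right hX' (Real.exp_pos _).le)
    ((Nat.floor_le (by positivity)).trans ((div_le_self hX0.le hH).trans hXN))
    (hX.trans hXN)
  refine (mul_le_mul_of_nonneg_left (mul_le_mul_of_nonneg_left key (Real.exp_pos _).le)
    (Real.exp_pos _).le).trans ?_
  have h7 := hB (l v0) V V0 hv1 hv2 hw1 hw2 hl1 hl2
  have h8 : Real.exp (2 * ((1 - al') * V)) * (Real.exp (-(2 * (l v0 * ((1 - al) * V0)))) *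
      (Real.exp (-V) * Real.exp (-V) * Real.exp (2 * (l v0 * V0)))) ≤
      Real.exp (-2 * (al' - al) * V + 2 * al * V0) := by
    rw [← Real.exp_add, ← Real.exp_add, ← Real.exp_add, ← Real.exp_add]
    apply Real.exp_le_exp.2
    nlinarith
  have h9 : 0 ≤ 32 * X ^ 2 * (CM ^ (l v0 + 1) * ((l v0).factorial : ℝ) ^ 2 *
    Real.exp (2 * (l v0))) := by positivity
  have h10 := mul_le_mul_of_nonneg_left h8 h9
  have h11 : 0 ≤ 32 * X ^ 2 := by positivity
  have h12 := mul_le_mul_of_nonneg_left h7 h11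
  calc _ = 32 * X ^ 2 * (CM ^ (l v0 + 1) * ((l v0).factorial : ℝ) ^ 2 *
        Real.exp (2 * (l v0))) * (Real.exp (2 * ((1 - al') * V)) *
        (Real.exp (-(2 * (l v0 * ((1 - al) * V0)))) *
      (Real.exp (-V) * Real.exp (-V) * Real.exp (2 * (l v0 * V0))))) := by ring
    _ ≤ _ := h10
    _ = 32 * X ^ 2 * (CM ^ (l v0 + 1) * ((l v0).factorial : ℝ) ^ 2 *
        Real.exp (2 * (l v0)) * Real.exp (-2 * (al' - al) * V + 2 * al * V0)) := by ring
    _ ≤ _ := h12

end LadAux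

open LadAux in
theorem specLadder {K : Type} [Field K] [NumberField K] [RQ K] (D : Dir K) (hD : SpecDec K D)
    (hMom : SpecMom K D) (hLad : MR.SpecLad) (hPG : SpecPG K) : SpecLadder K D := by
  obtain ⟨CD, hCD, hD⟩ := hD
  obtain ⟨CM, hCM, hM⟩ := hMom
  replace hM : MomC D CM := hM
  obtain ⟨⟨CP, hCP⟩, -⟩ := hPG
  intro c₁ η ε hc₁ hη hη1 hε
  set C₀ : ℝ := 2 * CM + |CP| + CD + 4 with hC₀
  have habs : 0 ≤ |CP| := abs_nonneg _
  have hCPC : CP ≤ C₀ := by linarith [le_abs_self CP]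
  have hCDC : CD ≤ C₀ := by linarith
  have hCMC : 2 * CM ≤ C₀ := by linarith
  have hC4 : 4 ≤ C₀ := by linarith
  have hC0p : 0 < C₀ := by linarith
  have hlogC : Real.log CM + 2 ≤ C₀ := by
    have := Real.log_le_sub_one_of_pos (show 0 < CM by linarith)
    linarith
  set ε' : ℝ := ε / 136 with hε'
  have hε'p : 0 < ε' := by positivity
  obtain ⟨H₀, hH₀, hLad⟩ := hLad c₁ C₀ ε' hc₁ (by linarith) hε'p
  refine ⟨H₀, fun H hH => ?_⟩
  obtain ⟨a, b, al, h, hb0, hab, hal, hh, hrat, hsum, hst0, hstS, hev⟩ := hLad H hH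
  have hH1 : 1 < H := by linarith
  have hbn : ∀ j, 0 ≤ b j := fun j => by linarith [(hab j).1, (hab j).2.1]
  -- Lemma: WW bound
  have hWW : ∀ j, Real.log (b j / a j) - C₀ ≤ WW K (Real.exp (a j)) (Real.exp (b j)) := by
    intro j
    have h3 : (3 : ℝ) ≤ Real.exp (a j) := by
      have := Real.add_one_le_exp (a j)
      linarith [(hab j).1]
    have h4 := hCP (Real.exp (a j)) (Real.exp (b j)) h3 (Real.exp_le_exp.2 (hab j).2.1)
    rw [Real.log_exp, Real.log_exp] at h4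
    have h5 : Real.log (b j / a j) = Real.log (b j) - Real.log (a j) := by
      apply Real.log_div
      · have := (hab j).1; have := (hab j).2.1; intro h; linarith
      · have := (hab j).1; intro h; linarith
    rw [h5]
    have := (abs_le.1 h4).1
    linarith
  have hW1 : ∀ j, 1 ≤ WW K (Real.exp (a j)) (Real.exp (b j)) := fun j => by
    linarith [hWW j, hrat j]
  filter_upwards [hev, eventually_ge_atTop (1 : ℝ)] with X hX hX1
  obtain ⟨J, hJ1, hJ2, hJ3⟩ := hX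
  have hX0 : 0 < X := by linarith
  have hlX : 0 ≤ Real.log X := Real.log_nonneg hX1
  set Sm : ℕ → Kp K → Prop := fun j k => sml D (a j) (b j) (al j) (h j) k with hSm
  set U : Finset (Kp K) := (IK K ⌊X⌋₊).filter (fun k => ∀ j ≤ J, ¬ Sm j k) with hU
  refine ⟨U, ?_, ?_, ?_⟩
  · intro k hk
    rw [hU, mem_filter] at hk
    have h1 := hk.1
    rw [mem_IK] at h1
    have h3 : |(k.2 : ℝ)| ≤ ((⌊X⌋₊ : ℕ) : ℝ) := by exact_mod_cast h1
    exact h3.trans (Nat.floor_le hX0.le)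
  · -- the number of exceptional frequencies
    have hden : 0 < h J * b J + 2 := by
      have := mul_nonneg (zero_le_one.trans (hh J)) (hbn J)
      linarith
    have h1 := card_not_sml D hCM hM (a := a J) (b := b J) (al := al J) (h := h J) (X := X)
      (hh J) (hbn J) hX1 (by linarith [(hab J).1]) U (filter_subset _ _)
      (fun k hk => by
        rw [hU, mem_filter] at hk
        exact hk.2 J le_rfl) (B := X ^ c₁ / (h J * b J + 2))
      (by
        intro l V hV1 hV2 hV3 hV4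
        rw [le_div_iff₀ hden]
        refine le_trans ?_ (hJ3 l V hV1 hV2 hV3 hV4)
        have h2 : 2 * CM ^ (l + 1) ≤ C₀ ^ (l + 1) := by
          calc 2 * CM ^ (l + 1) ≤ 2 ^ (l + 1) * CM ^ (l + 1) := by
                have : (2 : ℝ) ≤ 2 ^ (l + 1) := by
                  rw [pow_succ]
                  have := one_le_pow₀ (show (1 : ℝ) ≤ 2 by norm_num) (n := l)
                  linarith
                have h0 : 0 ≤ CM ^ (l + 1) := by positivity
                nlinarith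
            _ = (2 * CM) ^ (l + 1) := (mul_pow _ _ _).symm
            _ ≤ C₀ ^ (l + 1) := pow_le_pow_left₀ (by linarith) hCMC _
        have h3 : 0 ≤ (l.factorial : ℝ) ^ 2 * Real.exp (2 * l) * Real.exp (2 * al J * l * V) *
          (h J * b J + 2) := by positivity
        calc 2 * (CM ^ (l + 1) * (l.factorial : ℝ) ^ 2 * Real.exp (2 * l)) *
              Real.exp (2 * al J * l * V) * (h J * b J + 2)
            = (2 * CM ^ (l + 1)) * ((l.factorial : ℝ) ^ 2 * Real.exp (2 * l) *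
              Real.exp (2 * al J * l * V) * (h J * b J + 2)) := by ring
          _ ≤ C₀ ^ (l + 1) * ((l.factorial : ℝ) ^ 2 * Real.exp (2 * l) *
              Real.exp (2 * al J * l * V) * (h J * b J + 2)) :=
            mul_le_mul_of_nonneg_right h2 h3
          _ = _ := by ring)
    refine h1.trans ?_
    have h4 := card_VV (h := h J) (a := a J) (b := b J) (hh J) (hbn J)
    have h5 : 0 ≤ X ^ c₁ / (h J * b J + 2) := by positivity
    calc _ ≤ (h J * b J + 2) * (X ^ c₁ / (h J * b J + 2)) :=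
          mul_le_mul_of_nonneg_right h4 h5
      _ = X ^ c₁ := by field_simp
  · -- the mean value
    set Zk : ℕ := ⌊X / H⌋₊ with hK
    set X' : ℝ := (1 + η) ^ 2 * X with hX'
    have hXX' : X ≤ X' := by
      have : 1 ≤ (1 + η) ^ 2 := by nlinarith
      nlinarith
    have hX'4 : X' ≤ 4 * X := by
      have : (1 + η) ^ 2 ≤ 4 := by nlinarith
      nlinarith
    have hKX : (Zk : ℝ) ≤ X := (Nat.floor_le (by positivity)).trans (div_le_self hX0.le hH1.le)
    set T : ℕ → Finset (Kp K) := fun j => (IK K Zk).filter (fun k => Sm j k ∧ ∀ i < j, ¬ Sm i k) with hT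
    -- covering
    have hcov : ∑ k ∈ IK K Zk \ U, ‖MM D X X' k‖ ^ 2 ≤
        ∑ j ∈ range (J + 1), ∑ k ∈ T j, ‖MM D X X' k‖ ^ 2 := by
      have h1 : ∑ j ∈ range (J + 1), ∑ k ∈ T j, ‖MM D X X' k‖ ^ 2 =
          ∑ k ∈ IK K Zk, ∑ j ∈ range (J + 1),
            if (Sm j k ∧ ∀ i < j, ¬ Sm i k) then ‖MM D X X' k‖ ^ 2 else 0 := by
        rw [sum_comm]
        apply sum_congr rfl
        intro j _
        rw [hT, sum_filter]
      rw [h1]
      refine le_trans (sum_le_sum fun k hk => ?_) (sum_le_sum_of_subset_of_nonneg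
        sdiff_subset fun k _ _ => sum_nonneg fun j _ => by split_ifs <;> positivity)
      rw [Finset.mem_sdiff] at hk
      have h2 : ∃ j, j ≤ J ∧ Sm j k := by
        by_contra hcon
        apply hk.2
        rw [hU, mem_filter]
        refine ⟨?_, ?_⟩
        · have h3 := hk.1
          rw [mem_IK] at h3 ⊢
          have h4 : Zk ≤ ⌊X⌋₊ := Nat.floor_le_floor (div_le_self hX0.le hH1.le)
          have h5 : (Zk : ℤ) ≤ (⌊X⌋₊ : ℤ) := by exact_mod_cast h4
          exact h3.trans h5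
        · intro j hj hs
          exact hcon ⟨j, hj, hs⟩
      have h6 := Nat.find_spec h2
      have h7 : ∀ i < Nat.find h2, ¬ Sm i k := by
        intro i hi hs
        exact Nat.find_min h2 hi ⟨(hi.le).trans h6.1, hs⟩
      have h8 : Nat.find h2 ∈ range (J + 1) := mem_range.2 (Nat.lt_succ_of_le h6.1)
      refine le_trans (le_of_eq ?_) (single_le_sum (f := fun j =>
        if (Sm j k ∧ ∀ i < j, ¬ Sm i k) then ‖MM D X X' k‖ ^ 2 else 0)
        (fun j _ => by split_ifs <;> positivity) h8)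
      rw [if_pos ⟨h6.2, h7⟩]
    refine hcov.trans ?_
    -- bound of a stage
    have hstage : ∀ j ≤ J, ∀ B : ℝ, ∑ v ∈ VV (h j) (Real.exp (a j)) (Real.exp (b j)),
        ∑ k ∈ T j, ‖QQ D (h j) (Real.exp (a j)) (Real.exp (b j)) v k‖ ^ 2 *
        ‖MM D (X * Real.exp (-(v / h j))) (X' * Real.exp (-(v / h j))) k‖ ^ 2 ≤ B →
        ∑ k ∈ T j, ‖MM D X X' k‖ ^ 2 ≤ 4 * X ^ 2 *
          (C₀ * (1 / (Real.log (b j / a j) - C₀) + 1 / h j) + C₀ * X ^ (-(1 / 10) : ℝ)) +
          2 * (h j * b j + 2) * B := by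
      intro j hj B hB
      have h1 := stage_le D (h j) (Real.exp (a j)) (Real.exp (b j)) X X' (hW1 j) Zk (T j)
        (filter_subset _ _)
      have hQ : Real.exp (b j) ^ 10 ≤ X := by
        rw [← Real.exp_nat_mul, ← Real.le_log_iff_exp_le hX0]
        have := hJ1 j hj
        have := hbn j
        push_cast
        linarith
      have h2P : (2 : ℝ) ≤ Real.exp (a j) := by
        have := Real.add_one_le_exp (a j)
        linarith [(hab j).1]
      have h2 := hD (h j) (Real.exp (a j)) (Real.exp (b j)) X X' Zk (hh j) h2P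
        (Real.exp_le_exp.2 (hab j).2.1) hQ hXX' hX'4 (hW1 j)
      have h3 : 1 / WW K (Real.exp (a j)) (Real.exp (b j)) ≤
          1 / (Real.log (b j / a j) - C₀) :=
        one_div_le_one_div_of_le (by linarith [hrat j]) (hWW j)
      have hXr : 0 < X ^ (-(1 / 10) : ℝ) := Real.rpow_pos_of_pos hX0 _
      have hWi : 0 ≤ 1 / WW K (Real.exp (a j)) (Real.exp (b j)) :=
        div_nonneg zero_le_one (by linarith [hW1 j])
      have hhi : 0 ≤ 1 / h j := div_nonneg zero_le_one (by linarith [hh j])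
      have h4 : CD * (Zk + X) * X * (1 / WW K (Real.exp (a j)) (Real.exp (b j)) + 1 / h j +
          X ^ (-(1 / 10) : ℝ)) ≤ 2 * X ^ 2 *
          (C₀ * (1 / (Real.log (b j / a j) - C₀) + 1 / h j) + C₀ * X ^ (-(1 / 10) : ℝ)) := by
        have h5 : CD * (Zk + X) * X ≤ C₀ * (2 * X ^ 2) := by
          have h6 : (Zk + X) * X ≤ 2 * X ^ 2 := by nlinarith
          have h7 : 0 ≤ ((Zk : ℝ) + X) * X := by positivity
          calc CD * (Zk + X) * X = CD * ((Zk + X) * X) := by ring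
            _ ≤ C₀ * ((Zk + X) * X) := mul_le_mul_of_nonneg_right hCDC h7
            _ ≤ _ := mul_le_mul_of_nonneg_left h6 hC0p.le
        calc _ ≤ C₀ * (2 * X ^ 2) * (1 / WW K (Real.exp (a j)) (Real.exp (b j)) + 1 / h j +
              X ^ (-(1 / 10) : ℝ)) := mul_le_mul_of_nonneg_right h5 (by linarith)
          _ ≤ C₀ * (2 * X ^ 2) * (1 / (Real.log (b j / a j) - C₀) + 1 / h j +
              X ^ (-(1 / 10) : ℝ)) := mul_le_mul_of_nonneg_left (by linarith) (by positivity)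
          _ = _ := by ring
      have h8 := card_VV (h := h j) (a := a j) (b := b j) (hh j) (hbn j)
      have hSn : 0 ≤ ∑ v ∈ VV (h j) (Real.exp (a j)) (Real.exp (b j)),
        ∑ k ∈ T j, ‖QQ D (h j) (Real.exp (a j)) (Real.exp (b j)) v k‖ ^ 2 *
        ‖MM D (X * Real.exp (-(v / h j))) (X' * Real.exp (-(v / h j))) k‖ ^ 2 :=
        sum_nonneg fun _ _ => sum_nonneg fun _ _ => by positivity
      have h9 : 2 * ((VV (h j) (Real.exp (a j)) (Real.exp (b j))).card : ℝ) *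
          ∑ v ∈ VV (h j) (Real.exp (a j)) (Real.exp (b j)),
        ∑ k ∈ T j, ‖QQ D (h j) (Real.exp (a j)) (Real.exp (b j)) v k‖ ^ 2 *
        ‖MM D (X * Real.exp (-(v / h j))) (X' * Real.exp (-(v / h j))) k‖ ^ 2 ≤
        2 * (h j * b j + 2) * B := by
        apply mul_le_mul (by linarith) hB hSn
        have := mul_nonneg (zero_le_one.trans (hh j)) (hbn j)
        linarith
      linarith
    -- second parts
    have hsec : ∀ j ≤ J, ∑ k ∈ T j, ‖MM D X X' k‖ ^ 2 ≤ 4 * X ^ 2 *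
          (C₀ * (1 / (Real.log (b j / a j) - C₀) + 1 / h j) + C₀ * X ^ (-(1 / 10) : ℝ)) +
          64 * X ^ 2 * (ε' * (1 / 2) ^ j) := by
      intro j hj
      rcases j with _ | i
      · have h1 := stage0_le D hCM hM (a := a 0) (b := b 0) (al := al 0) (h := h 0) (X := X)
          (X' := X') (H := H) (hh 0) (hbn 0) hb0 (by linarith) hX1
          (by linarith [hJ1 0 hj, hbn 0]) hX'4 (by linarith [(hab 0).1]) (hal 0).1.le (T 0)
          (filter_subset _ _) (fun k hk => by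
            rw [hT, mem_filter] at hk
            exact hk.2.1)
        refine (hstage 0 hj _ h1).trans ?_
        have h2 := card_VV (h := h 0) (a := a 0) (b := b 0) (hh 0) (hbn 0)
        have hd : 0 ≤ h 0 * b 0 := mul_nonneg (zero_le_one.trans (hh 0)) (hbn 0)
        have h3 : 2 * (h 0 * b 0 + 2) * (((VV (h 0) (Real.exp (a 0)) (Real.exp (b 0))).card : ℝ) *
            (32 * CM * X ^ 2 * Real.exp (-2 * al 0 * (a 0 - 1)))) ≤
            64 * X ^ 2 * (ε' * (1 / 2) ^ 0) := by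
          have h4 : 0 ≤ 32 * CM * X ^ 2 * Real.exp (-2 * al 0 * (a 0 - 1)) := by positivity
          calc _ ≤ 2 * (h 0 * b 0 + 2) * ((h 0 * b 0 + 2) *
              (32 * CM * X ^ 2 * Real.exp (-2 * al 0 * (a 0 - 1)))) := by
                apply mul_le_mul_of_nonneg_left _ (by linarith)
                exact mul_le_mul_of_nonneg_right h2 h4
            _ = 64 * X ^ 2 * (CM * (h 0 * b 0 + 2) ^ 2 * Real.exp (-2 * al 0 * (a 0 - 1))) := by
                ring
            _ ≤ 64 * X ^ 2 * (C₀ * (h 0 * b 0 + 2) ^ 2 * Real.exp (-2 * al 0 * (a 0 - 1))) := by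
                apply mul_le_mul_of_nonneg_left _ (by positivity)
                apply mul_le_mul_of_nonneg_right _ (Real.exp_pos _).le
                exact mul_le_mul_of_nonneg_right (by linarith) (sq_nonneg _)
            _ ≤ 64 * X ^ 2 * (ε' * (1 / 2) ^ 0) := by
                rw [pow_zero, mul_one]
                exact mul_le_mul_of_nonneg_left hst0 (by positivity)
        linarith
      · have hd : 0 ≤ h i * b i := mul_nonneg (zero_le_one.trans (hh i)) (hbn i)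
        have hd' : 0 ≤ h (i + 1) * b (i + 1) :=
          mul_nonneg (zero_le_one.trans (hh (i + 1))) (hbn (i + 1))
        set Dn : ℝ := (h (i + 1) * b (i + 1) + 2) ^ 2 * (h i * b i + 2) with hDd
        have hDp : 0 < Dn := by positivity
        have h1 := stageS_le D hCM hM (a := a i) (b := b i) (al := al i) (h := h i)
          (a' := a (i + 1)) (b' := b (i + 1)) (al' := al (i + 1)) (h' := h (i + 1)) (X := X)
          (X' := X') (H := H) (B := ε' / 2 ^ (i + 1) / Dn) (hh i) (hbn i) (hh (i + 1))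
          (hbn (i + 1)) hH1.le hX1 hX'4 (by linarith [(hab i).1])
          (by linarith [(hab (i + 1)).1]) (hal i).1.le (T (i + 1)) (filter_subset _ _)
          (fun k hk => by
            rw [hT, mem_filter] at hk
            exact hk.2.1)
          (fun k hk => by
            rw [hT, mem_filter] at hk
            exact hk.2.2 i (Nat.lt_succ_self i))
          (by
            intro l V V0 g1 g2 g3 g4 g5 g6
            rw [le_div_iff₀ hDp]
            refine le_trans ?_ (hstS i l V V0 g1 g2 g3 g4 g5 g6)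
            have h2 : CM ^ (l + 1) ≤ C₀ ^ (l + 1) :=
              pow_le_pow_left₀ (by linarith) (by linarith) _
            have h3 : 0 ≤ (l.factorial : ℝ) ^ 2 * Real.exp (2 * l) *
              Real.exp (-2 * (al (i + 1) - al i) * V + 2 * al i * V0) * Dn := by positivity
            calc _ = CM ^ (l + 1) * ((l.factorial : ℝ) ^ 2 * Real.exp (2 * l) *
              Real.exp (-2 * (al (i + 1) - al i) * V + 2 * al i * V0) * Dn) := by ring
              _ ≤ C₀ ^ (l + 1) * ((l.factorial : ℝ) ^ 2 * Real.exp (2 * l) *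
              Real.exp (-2 * (al (i + 1) - al i) * V + 2 * al i * V0) * Dn) :=
                mul_le_mul_of_nonneg_right h2 h3
              _ = _ := by ring)
        refine (hstage (i + 1) hj _ h1).trans ?_
        have h2 := card_VV (h := h i) (a := a i) (b := b i) (hh i) (hbn i)
        have h2' := card_VV (h := h (i + 1)) (a := a (i + 1)) (b := b (i + 1)) (hh (i + 1))
          (hbn (i + 1))
        have h3 : 2 * (h (i + 1) * b (i + 1) + 2) *
            (((VV (h (i + 1)) (Real.exp (a (i + 1))) (Real.exp (b (i + 1)))).card : ℝ) *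
            (((VV (h i) (Real.exp (a i)) (Real.exp (b i))).card : ℝ) *
              (32 * X ^ 2 * (ε' / 2 ^ (i + 1) / Dn)))) ≤
            64 * X ^ 2 * (ε' * (1 / 2) ^ (i + 1)) := by
          have h4 : 0 ≤ 32 * X ^ 2 * (ε' / 2 ^ (i + 1) / Dn) := by positivity
          calc _ ≤ 2 * (h (i + 1) * b (i + 1) + 2) * ((h (i + 1) * b (i + 1) + 2) *
              ((h i * b i + 2) * (32 * X ^ 2 * (ε' / 2 ^ (i + 1) / Dn)))) := by
                apply mul_le_mul_of_nonneg_left _ (by linarith)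
                apply mul_le_mul h2' (mul_le_mul_of_nonneg_right h2 h4) (by positivity)
                linarith
            _ = 64 * X ^ 2 * (ε' / 2 ^ (i + 1) / Dn * Dn) := by rw [hDd]; ring
            _ = 64 * X ^ 2 * (ε' * (1 / 2) ^ (i + 1)) := by
                rw [div_mul_cancel₀ _ hDp.ne', one_div, inv_pow, div_eq_mul_inv]
        linarith
    have hgeo : ∑ j ∈ range (J + 1), (1 / 2 : ℝ) ^ j ≤ 2 := sum_geometric_two_le _
    calc ∑ j ∈ range (J + 1), ∑ k ∈ T j, ‖MM D X X' k‖ ^ 2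
        ≤ ∑ j ∈ range (J + 1), (4 * X ^ 2 *
          (C₀ * (1 / (Real.log (b j / a j) - C₀) + 1 / h j) + C₀ * X ^ (-(1 / 10) : ℝ)) +
          64 * X ^ 2 * (ε' * (1 / 2) ^ j)) := by
          apply sum_le_sum
          intro j hj
          exact hsec j (Nat.lt_succ_iff.1 (mem_range.1 hj))
      _ = 4 * X ^ 2 * (∑ j ∈ range (J + 1),
            C₀ * (1 / (Real.log (b j / a j) - C₀) + 1 / h j)) +
          4 * X ^ 2 * ((J + 1) * C₀ * X ^ (-(1 / 10) : ℝ)) +
          64 * X ^ 2 * ε' * ∑ j ∈ range (J + 1), (1 / 2 : ℝ) ^ j := by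
          have e1 : ∑ j ∈ range (J + 1), 64 * X ^ 2 * (ε' * (1 / 2) ^ j) =
              64 * X ^ 2 * ε' * ∑ j ∈ range (J + 1), (1 / 2 : ℝ) ^ j := by
            rw [mul_sum]
            exact sum_congr rfl fun j _ => by ring
          have e2 : ∑ j ∈ range (J + 1), C₀ * X ^ (-(1 / 10) : ℝ) =
              (J + 1) * C₀ * X ^ (-(1 / 10) : ℝ) := by
            rw [sum_const, card_range, nsmul_eq_mul]
            push_cast
            ring
          rw [sum_add_distrib, e1, ← mul_sum, sum_add_distrib, e2, mul_add]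
      _ ≤ 4 * X ^ 2 * ε' + 4 * X ^ 2 * ε' + 64 * X ^ 2 * ε' * 2 := by
          have hX2 : 0 ≤ 4 * X ^ 2 := by positivity
          have h1 := mul_le_mul_of_nonneg_left (hsum (J + 1)) hX2
          have h2 := mul_le_mul_of_nonneg_left hJ2 hX2
          have h3 := mul_le_mul_of_nonneg_left hgeo (show 0 ≤ 64 * X ^ 2 * ε' by positivity)
          linarith
      _ = ε * X ^ 2 := by rw [hε']; ring

end Pool.Agent.Lib.MP391708.MAR
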