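import Pool.Agent.Lib.MP_391708_nt.MAR.Spec

/-!
# LATT, real quadratic case: the lattice points of the sector, line by line

`α = tau 1`, `β = tau R` are the values of `n / m` at the two sides of the sector.
-/

set_option autoImplicit false

namespace Pool.Agent.Lib.MP391708.MAR.LT

open Finset

/-- normalized data: `a₁ b₂ - a₂ b₁ > 0` -/
structure LC (R a₁ a₂ b₁ b₂ : ℝ) : Prop where
  hR : 1 < R
  h2 : 0 < a₂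
  h1 : R * a₂ < a₁
  hV : 0 < a₁ * b₂ - a₂ * b₁

/-- the value of `n / m` where `X₁ = ρ X₂` -/
noncomputable def tau (a₁ a₂ b₁ b₂ ρ : ℝ) : ℝ := (ρ * b₂ - b₁) / (a₁ - ρ * a₂)

/-- the quadratic form on the line -/
def qq (a₁ a₂ b₁ b₂ r : ℝ) : ℝ := (a₁ * r + b₁) * (a₂ * r + b₂)

section

variable {R a₁ a₂ b₁ b₂ : ℝ}

namespace LC

lemma a1_pos (h : LC R a₁ a₂ b₁ b₂) : 0 < a₁ := by
  have h1 := h.h1
  have h2 := h.h2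
  have h3 := h.hR
  nlinarith

lemma a12 (h : LC R a₁ a₂ b₁ b₂) : 0 < a₁ - a₂ := by
  have h1 := h.h1
  have h2 := h.h2
  have h3 := h.hR
  nlinarith

lemma aR (h : LC R a₁ a₂ b₁ b₂) : 0 < a₁ - R * a₂ := by linarith [h.h1]

lemma X2_tau {ρ : ℝ} (hρ : 0 < a₁ - ρ * a₂) :
    a₂ * tau a₁ a₂ b₁ b₂ ρ + b₂ = (a₁ * b₂ - a₂ * b₁) / (a₁ - ρ * a₂) := by
  unfold tau
  rw [eq_div_iff hρ.ne', add_mul, mul_assoc, div_mul_cancel₀ _ hρ.ne']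
  ring

lemma X1_tau {ρ : ℝ} (hρ : 0 < a₁ - ρ * a₂) :
    a₁ * tau a₁ a₂ b₁ b₂ ρ + b₁ = ρ * ((a₁ * b₂ - a₂ * b₁) / (a₁ - ρ * a₂)) := by
  unfold tau
  rw [← mul_div_assoc ρ, eq_div_iff hρ.ne', add_mul, mul_assoc, div_mul_cancel₀ _ hρ.ne']
  ring

lemma tau_lt (h : LC R a₁ a₂ b₁ b₂) : tau a₁ a₂ b₁ b₂ 1 < tau a₁ a₂ b₁ b₂ R := by
  unfold tau
  have h1 := h.a12
  have h2 := h.aR
  have h3 := h.hV
  have h4 := h.hR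
  rw [div_lt_div_iff₀ (by linarith) h2]
  nlinarith

lemma X2_pos (h : LC R a₁ a₂ b₁ b₂) {r : ℝ} (hr : tau a₁ a₂ b₁ b₂ 1 ≤ r) :
    (a₁ * b₂ - a₂ * b₁) / (a₁ - a₂) ≤ a₂ * r + b₂ := by
  have h1 := X2_tau (a₁ := a₁) (a₂ := a₂) (b₁ := b₁) (b₂ := b₂) (ρ := 1) (by linarith [h.a12])
  rw [one_mul] at h1
  rw [← h1]
  have := mul_le_mul_of_nonneg_left hr h.h2.le
  linarith

lemma X1_ge (h : LC R a₁ a₂ b₁ b₂) {r : ℝ} (hr : tau a₁ a₂ b₁ b₂ 1 ≤ r) :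
    (a₁ * b₂ - a₂ * b₁) / (a₁ - a₂) ≤ a₁ * r + b₁ := by
  have h1 := X1_tau (a₁ := a₁) (a₂ := a₂) (b₁ := b₁) (b₂ := b₂) (ρ := 1) (by linarith [h.a12])
  rw [one_mul, one_mul] at h1
  rw [← h1]
  have := mul_le_mul_of_nonneg_left hr h.a1_pos.le
  linarith

lemma v0_pos (h : LC R a₁ a₂ b₁ b₂) : 0 < (a₁ * b₂ - a₂ * b₁) / (a₁ - a₂) :=
  div_pos h.hV h.a12

/-- `X₁`, `X₂` at `(n, m)` -/
lemma lr_eq {n m : ℤ} (hm : 0 < m) : lr (a₁, a₂) (b₁, b₂) (n, m) =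
    ((m : ℝ) * (a₁ * ((n : ℝ) / m) + b₁), (m : ℝ) * (a₂ * ((n : ℝ) / m) + b₂)) := by
  have : (m : ℝ) ≠ 0 := by exact_mod_cast hm.ne'
  unfold lr
  apply Prod.ext
  · simp only
    field_simp
  · simp only
    field_simp

lemma sec_iff (h : LC R a₁ a₂ b₁ b₂) {n m : ℤ} (hm : 0 < m) :
    Sec R (lr (a₁, a₂) (b₁, b₂) (n, m)) ↔
      tau a₁ a₂ b₁ b₂ 1 ≤ (n : ℝ) / m ∧ (n : ℝ) / m < tau a₁ a₂ b₁ b₂ R := by
  have hm' : (0 : ℝ) < m := by exact_mod_cast hm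
  have h1 := h.a12
  have h2 := h.aR
  unfold Sec lr tau
  simp only
  rw [div_le_div_iff₀ (by linarith) hm', div_lt_div_iff₀ hm' h2]
  constructor
  · rintro ⟨e1, e2, e3⟩
    constructor
    · nlinarith
    · nlinarith
  · rintro ⟨e1, e2⟩
    have e3 : (n : ℝ) * a₂ + m * b₂ ≤ n * a₁ + m * b₁ := by nlinarith
    have e4 : (n : ℝ) * a₁ + m * b₁ < R * (n * a₂ + m * b₂) := by nlinarith
    refine ⟨?_, e3, e4⟩
    have h3 := h.hR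
    have e5 : 0 < (R - 1) * (n * a₂ + m * b₂) := by nlinarith
    exact (mul_pos_iff_of_pos_left (by linarith)).1 e5

lemma m_pos (h : LC R a₁ a₂ b₁ b₂) {p : ℤ × ℤ} (hp : Sec R (lr (a₁, a₂) (b₁, b₂) p)) :
    0 < p.2 := by
  obtain ⟨e1, e2, e3⟩ := hp
  unfold lr at e1 e2 e3
  simp only at e1 e2 e3
  have h1 := h.aR
  have h2 := h.h2
  have h3 := h.hV
  have key : (p.2 : ℝ) * (a₁ * b₂ - a₂ * b₁) =
      a₁ * (p.1 * a₂ + p.2 * b₂) - a₂ * (p.1 * a₁ + p.2 * b₁) := by ring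
  have h4 : 0 < (p.2 : ℝ) * (a₁ * b₂ - a₂ * b₁) := by
    rw [key]
    have : a₂ * (p.1 * a₁ + p.2 * b₁) < a₂ * (R * (p.1 * a₂ + p.2 * b₂)) :=
      mul_lt_mul_of_pos_left e3 h2
    have h5 : 0 < (a₁ - R * a₂) * (p.1 * a₂ + p.2 * b₂) := mul_pos h1 e1
    nlinarith
  have h5 : (0 : ℝ) < p.2 := (mul_pos_iff_of_pos_right h3).1 h4
  exact_mod_cast h5

/-- membership of the points -/
lemma mem_iff (h : LC R a₁ a₂ b₁ b₂) {x : ℝ} {S : Finset (ℤ × ℤ)}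
    (hS : IsH (a₁, a₂) (b₁, b₂) R x S) (p : ℤ × ℤ) : p ∈ S ↔ 0 < p.2 ∧
      tau a₁ a₂ b₁ b₂ 1 ≤ (p.1 : ℝ) / p.2 ∧ (p.1 : ℝ) / p.2 < tau a₁ a₂ b₁ b₂ R ∧
      qq a₁ a₂ b₁ b₂ ((p.1 : ℝ) / p.2) * (p.2 : ℝ) ^ 2 ≤ x := by
  obtain ⟨n, m⟩ := p
  rw [hS (n, m)]
  constructor
  · rintro ⟨e1, e2⟩
    have hm := h.m_pos e1
    have e3 := (h.sec_iff hm).1 e1
    refine ⟨hm, e3.1, e3.2, ?_⟩
    rw [lr_eq hm] at e2
    simp only at e2 ⊢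
    unfold qq
    linarith
  · rintro ⟨hm, e1, e2, e3⟩
    refine ⟨(h.sec_iff hm).2 ⟨e1, e2⟩, ?_⟩
    rw [lr_eq hm]
    simp only at e3 ⊢
    unfold qq at e3
    linarith

/-- `q` is strictly increasing on `[α, ∞)` -/
lemma qq_lt (h : LC R a₁ a₂ b₁ b₂) {r s : ℝ} (hr : tau a₁ a₂ b₁ b₂ 1 ≤ r) (hrs : r < s) :
    qq a₁ a₂ b₁ b₂ r < qq a₁ a₂ b₁ b₂ s := by
  unfold qq
  have e1 := h.X1_ge hr
  have e2 := h.X2_pos hr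
  have e0 := h.v0_pos
  have e3 : a₁ * r + b₁ < a₁ * s + b₁ := by
    have := mul_lt_mul_of_pos_left hrs h.a1_pos
    linarith
  have e4 : a₂ * r + b₂ < a₂ * s + b₂ := by
    have := mul_lt_mul_of_pos_left hrs h.h2
    linarith
  exact mul_lt_mul'' e3 e4 (by linarith) (by linarith)

lemma qq_le (h : LC R a₁ a₂ b₁ b₂) {r s : ℝ} (hr : tau a₁ a₂ b₁ b₂ 1 ≤ r) (hrs : r ≤ s) :
    qq a₁ a₂ b₁ b₂ r ≤ qq a₁ a₂ b₁ b₂ s := by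
  rcases hrs.eq_or_lt with rfl | h1
  · exact le_rfl
  · exact (h.qq_lt hr h1).le

lemma qq_alpha_pos (h : LC R a₁ a₂ b₁ b₂) {r : ℝ} (hr : tau a₁ a₂ b₁ b₂ 1 ≤ r) :
    ((a₁ * b₂ - a₂ * b₁) / (a₁ - a₂)) ^ 2 ≤ qq a₁ a₂ b₁ b₂ r := by
  unfold qq
  rw [sq]
  exact mul_le_mul (h.X1_ge hr) (h.X2_pos hr) h.v0_pos.le (h.v0_pos.le.trans (h.X1_ge hr))

end LC

/-- the integers `n` with `(n, m) ∈ S` -/
def fib (S : Finset (ℤ × ℤ)) (m : ℤ) : Finset ℤ := (S.filter (fun p => p.2 = m)).image Prod.fst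

lemma mem_fib {S : Finset (ℤ × ℤ)} {m n : ℤ} : n ∈ fib S m ↔ (n, m) ∈ S := by
  unfold fib
  rw [mem_image]
  constructor
  · rintro ⟨⟨a, b⟩, h1, rfl⟩
    rw [mem_filter] at h1
    obtain ⟨h2, h3⟩ := h1
    simp only at h3
    rw [← h3]
    exact h2
  · intro h
    exact ⟨(n, m), mem_filter.2 ⟨h, rfl⟩, rfl⟩

/-- the sum over `S`, line by line -/
lemma sum_fib {S : Finset (ℤ × ℤ)} {M : ℤ} (hM : ∀ p ∈ S, 1 ≤ p.2 ∧ p.2 ≤ M) (f : ℤ × ℤ → ℂ) :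
    ∑ p ∈ S, f p = ∑ m ∈ Icc 1 M, ∑ n ∈ fib S m, f (n, m) := by
  rw [← sum_fiberwise_of_maps_to (s := S) (t := Icc 1 M) (g := Prod.snd)
    (fun p hp => mem_Icc.2 (hM p hp))]
  refine sum_congr rfl fun m _ => ?_
  unfold fib
  rw [sum_image]
  · refine sum_congr rfl fun p hp => ?_
    rw [← (mem_filter.1 hp).2]
  · intro p hp p' hp' he
    have e1 := (mem_filter.1 (mem_coe.1 hp)).2
    have e2 := (mem_filter.1 (mem_coe.1 hp')).2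
    exact Prod.ext he (e1.trans e2.symm)

end

end Pool.Agent.Lib.MP391708.MAR.LT
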