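import Pool.Agent.Lib.MP_391708_nt.MAR.Spec

/-!
# LATC: lattice points in the sector under a hyperbola

Lines in the direction `e₁`: with `v = X₂` and `w = n δ / a₂`, `X₁ = λ v - w` (`e₁ = (a₁, a₂)`,
`λ = a₁ / a₂ > R`, `δ` the determinant) the region is `w / (λ - 1) ≤ v < w / (λ - R)`,
`v ≤ (w + √(w² + 4 λ Y)) / (2 λ)`; the length of this interval is a Lipschitz function of `w`.
-/

set_option autoImplicit false

namespace Pool.Agent.Lib.MP391708.MAR

open Finset Filter Topology MeasureTheory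
open scoped Classical

namespace LatCM

/-- integers in an interval -/
lemma card_int (T : Finset ℤ) (x y₁ y₂ : ℝ)
    (hT : ∀ m : ℤ, m ∈ T ↔ x ≤ (m : ℝ) ∧ (m : ℝ) < y₁ ∧ (m : ℝ) ≤ y₂) :
    |(T.card : ℝ) - max 0 (min y₁ y₂ - x)| ≤ 1 := by
  set y := min y₁ y₂ with hy
  have h1 : (T.card : ℝ) ≤ max 0 (y - x) + 1 := by
    rcases T.eq_empty_or_nonempty with h | h
    · rw [h]
      have : 0 ≤ max 0 (y - x) := le_max_left _ _
      simp
      linarith
    · have hsub : T ⊆ Finset.Icc ⌈x⌉ ⌊y⌋ := by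
        intro m hm
        obtain ⟨ha, hb, hc⟩ := (hT m).1 hm
        rw [Finset.mem_Icc]
        exact ⟨Int.ceil_le.2 ha, Int.le_floor.2 (le_min hb.le hc)⟩
      have hc := Finset.card_le_card hsub
      rw [Int.card_Icc] at hc
      obtain ⟨m, hm⟩ := h
      obtain ⟨ha, hb, hc'⟩ := (hT m).1 hm
      have hmy : (m : ℝ) ≤ y := le_min hb.le hc'
      have h0 : 0 ≤ ⌊y⌋ + 1 - ⌈x⌉ := by
        have := Int.ceil_le.2 ha
        have := Int.le_floor.2 hmy
        linarith
      have h2 : (T.card : ℤ) ≤ ⌊y⌋ + 1 - ⌈x⌉ := by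
        have := Int.toNat_of_nonneg h0
        omega
      have h3 : (T.card : ℝ) ≤ (⌊y⌋ : ℝ) + 1 - (⌈x⌉ : ℝ) := by exact_mod_cast h2
      have h4 : (⌊y⌋ : ℝ) ≤ y := Int.floor_le y
      have h5 : x ≤ (⌈x⌉ : ℝ) := Int.le_ceil x
      have h6 : y - x ≤ max 0 (y - x) := le_max_right _ _
      linarith
  have h2 : max 0 (y - x) - 1 ≤ (T.card : ℝ) := by
    rcases le_or_gt (y - x) 1 with h | h
    · have : max 0 (y - x) ≤ 1 := max_le zero_le_one h
      have h0 : (0 : ℝ) ≤ T.card := Nat.cast_nonneg _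
      linarith
    · have hsub : Finset.Icc (⌊x⌋ + 1) (⌈y⌉ - 1) ⊆ T := by
        intro m hm
        rw [Finset.mem_Icc] at hm
        have h3 : x < m := by
          have := Int.lt_floor_add_one x
          have h4 : ((⌊x⌋ + 1 : ℤ) : ℝ) ≤ m := by exact_mod_cast hm.1
          push_cast at h4
          linarith
        have h5 : (m : ℝ) < y := by
          have := Int.ceil_lt_add_one y
          have h4 : (m : ℝ) ≤ ((⌈y⌉ - 1 : ℤ) : ℝ) := by exact_mod_cast hm.2
          push_cast at h4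
          linarith
        exact (hT m).2 ⟨h3.le, h5.trans_le (min_le_left _ _), h5.le.trans (min_le_right _ _)⟩
      have hc := Finset.card_le_card hsub
      rw [Int.card_Icc] at hc
      have h2 : ⌈y⌉ - 1 + 1 - (⌊x⌋ + 1) ≤ (T.card : ℤ) := by omega
      have h3 : (⌈y⌉ : ℝ) - 1 + 1 - ((⌊x⌋ : ℝ) + 1) ≤ (T.card : ℝ) := by exact_mod_cast h2
      have h4 : y ≤ (⌈y⌉ : ℝ) := Int.le_ceil y
      have h5 : (⌊x⌋ : ℝ) ≤ x := Int.floor_le x
      have h6 : max 0 (y - x) = y - x := max_eq_right (by linarith)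
      rw [h6]
      linarith
  rw [abs_le]
  constructor <;> linarith

/-- sum and integral of a Lipschitz function -/
lemma sum_int (F : ℝ → ℝ) (K : ℝ) (_hK : 0 ≤ K) (hF : ∀ y y', |F y - F y'| ≤ K * |y - y'|)
    (hc : Continuous F) (a : ℝ) (N : ℕ) :
    |∑ n ∈ Finset.range N, F (a + n) - ∫ y in a..(a + N), F y| ≤ K * N := by
  have h1 : ∑ n ∈ Finset.range N, ∫ y in (a + (n : ℕ))..(a + ((n + 1 : ℕ) : ℝ)), F y =
      ∫ y in a..(a + N), F y := by
    have := intervalIntegral.sum_integral_adjacent_intervals (f := F) (μ := volume)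
      (a := fun n : ℕ => a + (n : ℝ)) (n := N) (fun k _ => hc.intervalIntegrable _ _)
    simpa using this
  rw [← h1, ← Finset.sum_sub_distrib]
  refine (Finset.abs_sum_le_sum_abs _ _).trans ?_
  have h2 : ∀ n ∈ Finset.range N,
      |F (a + n) - ∫ y in (a + (n : ℕ))..(a + ((n + 1 : ℕ) : ℝ)), F y| ≤ K := by
    intro n _
    have h3 : F (a + n) = ∫ y in (a + (n : ℕ))..(a + ((n + 1 : ℕ) : ℝ)), F (a + n) := by
      rw [intervalIntegral.integral_const]
      push_cast
      simp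
    rw [h3, ← intervalIntegral.integral_sub (by simp) (hc.intervalIntegrable _ _)]
    have h4 := intervalIntegral.norm_integral_le_of_norm_le_const (a := a + (n : ℝ))
      (b := a + ((n + 1 : ℕ) : ℝ)) (C := K) (f := fun y => F (a + n) - F y) ?_
    · rw [Real.norm_eq_abs] at h4
      refine h4.trans ?_
      have : |a + ((n + 1 : ℕ) : ℝ) - (a + (n : ℝ))| = 1 := by
        push_cast
        rw [show a + ((n : ℝ) + 1) - (a + n) = 1 by ring, abs_one]
      rw [this, mul_one]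
    · intro y hy
      rw [Set.uIoc_of_le (by push_cast; linarith)] at hy
      rw [Real.norm_eq_abs]
      refine (hF _ _).trans ?_
      have h5 : |a + (n : ℝ) - y| ≤ 1 := by
        have h6 := hy.1
        have h7 := hy.2
        push_cast at h7
        rw [abs_le]
        constructor <;> linarith
      calc K * |a + (n : ℝ) - y| ≤ K * 1 := mul_le_mul_of_nonneg_left h5 _hK
        _ = K := mul_one K
  refine (Finset.sum_le_sum h2).trans ?_
  rw [Finset.sum_const, Finset.card_range, nsmul_eq_mul, mul_comm]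

/-- the region, open form, coordinates `(X₂, X₁)` -/
def Dg (R Y : ℝ) : Set (ℝ × ℝ) := {p | p.1 < p.2 ∧ p.2 < R * p.1 ∧ p.1 * p.2 < Y}

lemma area {R Y : ℝ} (hR : 1 < R) (hY : 0 < Y) :
    volume (Dg R Y) = ENNReal.ofReal (Real.log R / 2 * Y) := by
  set q := Real.sqrt Y with hq
  set ρ := Real.sqrt R with hρ
  have hq0 : 0 < q := Real.sqrt_pos.2 hY
  have hR0 : 0 < R := by linarith
  have hρ0 : 0 < ρ := Real.sqrt_pos.2 hR0
  have hqq : q * q = Y := Real.mul_self_sqrt hY.le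
  have hρρ : ρ * ρ = R := Real.mul_self_sqrt hR0.le
  have hρ1 : 1 < ρ := by
    by_contra h
    rw [not_lt] at h
    nlinarith
  have hset : Dg R Y = regionBetween (fun v : ℝ => v) (fun v => min (R * v) (Y / v))
      (Set.Ioo 0 q) := by
    ext p
    obtain ⟨v, u⟩ := p
    simp only [Dg, Set.mem_ofPred_eq, regionBetween, Set.mem_Ioo, lt_min_iff]
    constructor
    · rintro ⟨h1, h2, h3⟩
      have hv : 0 < v := by nlinarith
      refine ⟨⟨hv, ?_⟩, h1, h2, ?_⟩
      · by_contra h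
        rw [not_lt] at h
        nlinarith
      · rw [lt_div_iff₀ hv]
        linarith
    · rintro ⟨⟨hv, _⟩, h1, h2, h3⟩
      rw [lt_div_iff₀ hv] at h3
      exact ⟨h1, h2, by linarith⟩
  have hle : ∀ v ∈ Set.Ioo 0 q, v ≤ min (R * v) (Y / v) := by
    intro v hv
    refine le_min ?_ ?_
    · nlinarith [hv.1]
    · rw [le_div_iff₀ hv.1]
      nlinarith [hv.1, hv.2]
  have hg : IntegrableOn (fun v : ℝ => min (R * v) (Y / v)) (Set.Ioo 0 q) := by
    refine Measure.integrableOn_of_bounded (M := R * q) ?_ ?_ ?_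
    · rw [Real.volume_Ioo]
      exact ENNReal.ofReal_ne_top
    · exact ((measurable_const.mul measurable_id).min
        (measurable_const.div measurable_id)).aestronglyMeasurable
    · refine (ae_restrict_iff' measurableSet_Ioo).2 (Eventually.of_forall ?_)
      intro v hv
      rw [Real.norm_eq_abs, abs_of_nonneg (hv.1.le.trans (hle v hv))]
      refine (min_le_left _ _).trans ?_
      exact mul_le_mul_of_nonneg_left hv.2.le hR0.le
  have hf : IntegrableOn (fun v : ℝ => v) (Set.Ioo 0 q) := by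
    refine Measure.integrableOn_of_bounded (M := q) ?_ measurable_id.aestronglyMeasurable ?_
    · rw [Real.volume_Ioo]
      exact ENNReal.ofReal_ne_top
    · refine (ae_restrict_iff' measurableSet_Ioo).2 (Eventually.of_forall ?_)
      intro v hv
      rw [Real.norm_eq_abs, abs_of_pos hv.1]
      exact hv.2.le
  rw [hset]
  have hv := volume_regionBetween_eq_integral hf hg measurableSet_Ioo hle
  rw [Measure.volume_eq_prod, hv]
  congr 1
  -- the integral
  have hc0 : 0 < q / ρ := by positivity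
  have hcq : q / ρ ≤ q := by
    rw [div_le_iff₀ hρ0]
    nlinarith
  have hi : IntegrableOn (fun v : ℝ => min (R * v) (Y / v) - v) (Set.Ioo 0 q) := hg.sub hf
  have hi' : IntegrableOn (fun v : ℝ => min (R * v) (Y / v) - v) (Set.Ioc 0 q) :=
    (integrableOn_Ioc_iff_integrableOn_Ioo).2 hi
  have h1 : ∫ y in Set.Ioo 0 q, (((fun v : ℝ => min (R * v) (Y / v)) - fun v : ℝ => v) : ℝ → ℝ) y =
      ∫ y in (0 : ℝ)..q, (min (R * y) (Y / y) - y) := by
    rw [intervalIntegral.integral_of_le hq0.le, integral_Ioc_eq_integral_Ioo]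
    rfl
  rw [h1]
  have hII : IntervalIntegrable (fun v : ℝ => min (R * v) (Y / v) - v) volume 0 q := by
    rw [intervalIntegrable_iff_integrableOn_Ioc_of_le hq0.le]
    exact hi'
  have hI1 : IntervalIntegrable (fun v : ℝ => min (R * v) (Y / v) - v) volume 0 (q / ρ) :=
    hII.mono_set (by
      rw [Set.uIcc_of_le hc0.le, Set.uIcc_of_le hq0.le]
      exact Set.Icc_subset_Icc_right hcq)
  have hI2 : IntervalIntegrable (fun v : ℝ => min (R * v) (Y / v) - v) volume (q / ρ) q :=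
    hII.mono_set (by
      rw [Set.uIcc_of_le hcq, Set.uIcc_of_le hq0.le]
      exact Set.Icc_subset_Icc_left hc0.le)
  rw [← intervalIntegral.integral_add_adjacent_intervals hI1 hI2]
  have h2 : ∫ y in (0 : ℝ)..(q / ρ), (min (R * y) (Y / y) - y) =
      ∫ y in (0 : ℝ)..(q / ρ), (R - 1) * y := by
    refine intervalIntegral.integral_congr_ae (Eventually.of_forall ?_)
    intro v hv
    rw [Set.uIoc_of_le hc0.le] at hv
    have h3 : R * v ≤ Y / v := by
      rw [le_div_iff₀ hv.1]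
      have h4 : v * ρ ≤ q := by
        have := hv.2
        rwa [le_div_iff₀ hρ0] at this
      have h5 : 0 ≤ v * ρ := mul_nonneg hv.1.le hρ0.le
      have h6 : (v * ρ) * (v * ρ) ≤ q * q := mul_le_mul h4 h4 h5 hq0.le
      calc R * v * v = (v * ρ) * (v * ρ) := by rw [← hρρ]; ring
        _ ≤ Y := by rw [← hqq]; exact h6
    rw [min_eq_left h3]
    ring
  have h3 : ∫ y in (q / ρ)..q, (min (R * y) (Y / y) - y) =
      ∫ y in (q / ρ)..q, (Y * y⁻¹ - y) := by
    refine intervalIntegral.integral_congr_ae (Eventually.of_forall ?_)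
    intro v hv
    rw [Set.uIoc_of_le hcq] at hv
    have hv0 : 0 < v := hc0.trans hv.1
    have h3 : Y / v ≤ R * v := by
      rw [div_le_iff₀ hv0]
      have h4 : q ≤ v * ρ := by
        have := hv.1
        rw [div_lt_iff₀ hρ0] at this
        exact this.le
      have h6 : q * q ≤ (v * ρ) * (v * ρ) := mul_le_mul h4 h4 hq0.le (hq0.le.trans h4)
      calc Y = q * q := hqq.symm
        _ ≤ (v * ρ) * (v * ρ) := h6
        _ = R * v * v := by rw [← hρρ]; ring
    rw [min_eq_right h3]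
    rfl
  have h4 : ∫ y in (0 : ℝ)..(q / ρ), (R - 1) * y = (R - 1) * ((q / ρ) ^ 2 / 2) := by
    rw [intervalIntegral.integral_const_mul, integral_id]
    ring
  have h5 : ∫ y in (q / ρ)..q, (Y * y⁻¹ - y) = Y * Real.log ρ - (q ^ 2 - (q / ρ) ^ 2) / 2 := by
    rw [intervalIntegral.integral_sub, intervalIntegral.integral_const_mul,
      integral_inv_of_pos hc0 hq0, integral_id]
    · congr 2
      congr 1
      field_simp
    · refine IntervalIntegrable.const_mul ?_ _
      refine intervalIntegrable_inv_iff.2 (Or.inr ?_)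
      rw [Set.uIcc_of_le hcq]
      intro h
      linarith [h.1]
    · exact continuous_id.intervalIntegrable _ _
  rw [h2, h3, h4, h5]
  have h6 : Real.log R = 2 * Real.log ρ := by
    rw [← hρρ, Real.log_mul hρ0.ne' hρ0.ne']
    ring
  rw [h6, ← hqq, ← hρρ]
  field_simp
  ring

/-! ### One line -/

/-- the positive root of `v (λ v - w) = Y` -/
noncomputable def rr (l Y w : ℝ) : ℝ := (w + Real.sqrt (w ^ 2 + 4 * l * Y)) / (2 * l)

section line

variable {R l Y v w : ℝ}

lemma lin_pos (hR : 1 < R) (hl : R < l) (h1 : w / (l - 1) ≤ v) (h2 : v < w / (l - R)) :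
    0 < w ∧ 0 < v := by
  have h3 : 0 < l - R := by linarith
  have h4 : 0 < l - 1 := by linarith
  rw [div_le_iff₀ h4] at h1
  rw [lt_div_iff₀ h3] at h2
  have hv : 0 < v := by nlinarith
  exact ⟨by nlinarith, hv⟩

lemma le_rr (hR : 1 < R) (hl : R < l) (hY : 0 ≤ Y) (hv : 0 < v) (h : v ≤ l * v - w) :
    v ≤ rr l Y w ↔ (l * v - w) * v ≤ Y := by
  have hl0 : 0 < l := by linarith
  have h1 : 0 ≤ 2 * l * v - w := by nlinarith
  rw [rr, le_div_iff₀ (by positivity)]
  have h2 : v * (2 * l) ≤ w + Real.sqrt (w ^ 2 + 4 * l * Y) ↔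
      2 * l * v - w ≤ Real.sqrt (w ^ 2 + 4 * l * Y) := by
    constructor <;> intro h <;> linarith
  rw [h2, Real.le_sqrt h1 (by positivity)]
  constructor
  · intro h3
    have : 4 * l * ((l * v - w) * v) ≤ 4 * l * Y := by nlinarith
    exact le_of_mul_le_mul_left this (by positivity)
  · intro h3
    have : 4 * l * ((l * v - w) * v) ≤ 4 * l * Y := mul_le_mul_of_nonneg_left h3 (by positivity)
    nlinarith

lemma lt_rr (hR : 1 < R) (hl : R < l) (_hY : 0 ≤ Y) (hv : 0 < v) (h : v ≤ l * v - w) :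
    v < rr l Y w ↔ (l * v - w) * v < Y := by
  have hl0 : 0 < l := by linarith
  have h1 : 0 ≤ 2 * l * v - w := by nlinarith
  rw [rr, lt_div_iff₀ (by positivity)]
  have h2 : v * (2 * l) < w + Real.sqrt (w ^ 2 + 4 * l * Y) ↔
      2 * l * v - w < Real.sqrt (w ^ 2 + 4 * l * Y) := by
    constructor <;> intro h <;> linarith
  rw [h2, Real.lt_sqrt h1]
  constructor
  · intro h3
    have : 4 * l * ((l * v - w) * v) < 4 * l * Y := by nlinarith
    exact lt_of_mul_lt_mul_left this (by positivity)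
  · intro h3
    have : 4 * l * ((l * v - w) * v) < 4 * l * Y := mul_lt_mul_of_pos_left h3 (by positivity)
    nlinarith

lemma closed_iff (hR : 1 < R) (hl : R < l) (hY : 0 ≤ Y) :
    (0 < v ∧ v ≤ l * v - w ∧ l * v - w < R * v) ∧ (l * v - w) * v ≤ Y ↔
      w / (l - 1) ≤ v ∧ v < w / (l - R) ∧ v ≤ rr l Y w := by
  have h3 : 0 < l - R := by linarith
  have h4 : 0 < l - 1 := by linarith
  constructor
  · rintro ⟨⟨h0, h1, h2⟩, h5⟩
    refine ⟨?_, ?_, (le_rr hR hl hY h0 h1).2 h5⟩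
    · rw [div_le_iff₀ h4]; linarith
    · rw [lt_div_iff₀ h3]; linarith
  · rintro ⟨h1, h2, h5⟩
    obtain ⟨_, hv⟩ := lin_pos hR hl h1 h2
    rw [div_le_iff₀ h4] at h1
    rw [lt_div_iff₀ h3] at h2
    have h6 : v ≤ l * v - w := by linarith
    exact ⟨⟨hv, h6, by linarith⟩, (le_rr hR hl hY hv h6).1 h5⟩

lemma open_iff (hR : 1 < R) (hl : R < l) (hY : 0 ≤ Y) :
    (v < l * v - w ∧ l * v - w < R * v ∧ v * (l * v - w) < Y) ↔
      w / (l - 1) < v ∧ v < w / (l - R) ∧ v < rr l Y w := by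
  have h3 : 0 < l - R := by linarith
  have h4 : 0 < l - 1 := by linarith
  constructor
  · rintro ⟨h1, h2, h5⟩
    have h0 : 0 < v := by nlinarith
    refine ⟨?_, ?_, (lt_rr hR hl hY h0 h1.le).2 (by linarith)⟩
    · rw [div_lt_iff₀ h4]; linarith
    · rw [lt_div_iff₀ h3]; linarith
  · rintro ⟨h1, h2, h5⟩
    obtain ⟨_, hv⟩ := lin_pos hR hl h1.le h2
    rw [div_lt_iff₀ h4] at h1
    rw [lt_div_iff₀ h3] at h2
    have h6 : v < l * v - w := by linarith
    have h7 := (lt_rr hR hl hY hv h6.le).1 h5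
    exact ⟨h6, by linarith, by linarith⟩

/-- the range of `w` -/
lemma w_le (hR : 1 < R) (hl : R < l) (hY : 0 ≤ Y) (h0 : 0 < w)
    (h : w / (l - 1) ≤ rr l Y w) : w ≤ (l - 1) * Real.sqrt Y := by
  have h4 : 0 < l - 1 := by linarith
  have hv : 0 < w / (l - 1) := by positivity
  have h5 : l * (w / (l - 1)) - w = w / (l - 1) := by
    field_simp
    ring
  have h6 := (le_rr (w := w) hR hl hY hv h5.ge).1 h
  rw [h5] at h6
  have h7 : w / (l - 1) ≤ Real.sqrt Y := Real.le_sqrt_of_sq_le (by nlinarith)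
  rw [div_le_iff₀ h4] at h7
  linarith

lemma sqrt_lip {D : ℝ} (hD : 0 < D) (x y : ℝ) :
    |Real.sqrt (x ^ 2 + D) - Real.sqrt (y ^ 2 + D)| ≤ |x - y| := by
  set s := Real.sqrt (x ^ 2 + D) with hs
  set t := Real.sqrt (y ^ 2 + D) with ht
  have hs0 : 0 < s := Real.sqrt_pos.2 (by positivity)
  have ht0 : 0 < t := Real.sqrt_pos.2 (by positivity)
  have hs2 : s ^ 2 = x ^ 2 + D := Real.sq_sqrt (by positivity)
  have ht2 : t ^ 2 = y ^ 2 + D := Real.sq_sqrt (by positivity)
  have hsx : |x| ≤ s := Real.le_sqrt_of_sq_le (by rw [sq_abs]; linarith)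
  have hty : |y| ≤ t := Real.le_sqrt_of_sq_le (by rw [sq_abs]; linarith)
  have h1 : |s - t| * (s + t) = |x - y| * |x + y| := by
    rw [← abs_mul]
    have h5 : (s - t) * (s + t) = (x - y) * (x + y) := by nlinarith
    rw [← h5, abs_mul, abs_of_pos (show 0 < s + t by positivity)]
  have h2 : |x + y| ≤ s + t := (abs_add_le x y).trans (add_le_add hsx hty)
  have h3 : |s - t| * (s + t) ≤ |x - y| * (s + t) := by
    rw [h1]
    exact mul_le_mul_of_nonneg_left h2 (abs_nonneg _)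
  exact le_of_mul_le_mul_right h3 (by positivity)

/-- the length -/
noncomputable def LL (R l Y w : ℝ) : ℝ := max 0 (min (w / (l - R)) (rr l Y w) - w / (l - 1))

lemma LL_lip (hR : 1 < R) (hl : R < l) (hY : 0 < Y) (w w' : ℝ) :
    |LL R l Y w - LL R l Y w'| ≤ 2 / (l - R) * |w - w'| := by
  have h3 : 0 < l - R := by linarith
  have h4 : 0 < l - 1 := by linarith
  have hl0 : 0 < l := by linarith
  have h5 : |w / (l - R) - w' / (l - R)| ≤ 1 / (l - R) * |w - w'| := by
    rw [← sub_div, abs_div, abs_of_pos h3]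
    exact le_of_eq (by ring)
  have h6 : |w / (l - 1) - w' / (l - 1)| ≤ 1 / (l - R) * |w - w'| := by
    rw [← sub_div, abs_div, abs_of_pos h4]
    have : 1 / (l - 1) ≤ 1 / (l - R) := one_div_le_one_div_of_le h3 (by linarith)
    calc |w - w'| / (l - 1) = 1 / (l - 1) * |w - w'| := by ring
      _ ≤ _ := mul_le_mul_of_nonneg_right this (abs_nonneg _)
  have h7 : |rr l Y w - rr l Y w'| ≤ 1 / (l - R) * |w - w'| := by
    have h8 := sqrt_lip (D := 4 * l * Y) (by positivity) w w'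
    have h9 : |rr l Y w - rr l Y w'| ≤ 1 / l * |w - w'| := by
      rw [rr, rr, ← sub_div, abs_div, abs_of_pos (show 0 < 2 * l by positivity),
        div_le_iff₀ (by positivity)]
      have : w + Real.sqrt (w ^ 2 + 4 * l * Y) - (w' + Real.sqrt (w' ^ 2 + 4 * l * Y)) =
          (w - w') + (Real.sqrt (w ^ 2 + 4 * l * Y) - Real.sqrt (w' ^ 2 + 4 * l * Y)) := by ring
      rw [this]
      refine (abs_add_le _ _).trans ?_
      have : 1 / l * |w - w'| * (2 * l) = |w - w'| + |w - w'| := by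
        field_simp
        ring
      rw [this]
      exact add_le_add_right h8 _
    refine h9.trans (mul_le_mul_of_nonneg_right ?_ (abs_nonneg _))
    exact one_div_le_one_div_of_le h3 (by linarith)
  have h8 : |min (w / (l - R)) (rr l Y w) - min (w' / (l - R)) (rr l Y w')| ≤
      1 / (l - R) * |w - w'| := (abs_min_sub_min_le_max _ _ _ _).trans (max_le h5 h7)
  rw [LL, LL]
  refine (abs_max_sub_max_le_max _ _ _ _).trans (max_le ?_ ?_)
  · simp
    positivity
  · have : min (w / (l - R)) (rr l Y w) - w / (l - 1) -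
        (min (w' / (l - R)) (rr l Y w') - w' / (l - 1)) =
        (min (w / (l - R)) (rr l Y w) - min (w' / (l - R)) (rr l Y w')) -
          (w / (l - 1) - w' / (l - 1)) := by ring
    rw [this]
    refine (abs_sub _ _).trans ?_
    calc _ ≤ 1 / (l - R) * |w - w'| + 1 / (l - R) * |w - w'| := add_le_add h8 h6
      _ = _ := by ring

lemma LL_nonneg : 0 ≤ LL R l Y w := le_max_left _ _

lemma LL_supp (hR : 1 < R) (hl : R < l) (hY : 0 ≤ Y) (h : LL R l Y w ≠ 0) :
    0 < w ∧ w ≤ (l - 1) * Real.sqrt Y := by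
  have h3 : 0 < l - R := by linarith
  have h4 : 0 < l - 1 := by linarith
  have h1 : 0 < min (w / (l - R)) (rr l Y w) - w / (l - 1) := by
    by_contra h'
    rw [not_lt] at h'
    exact h (max_eq_left h')
  have h5 : w / (l - 1) < w / (l - R) := by linarith [min_le_left (w / (l - R)) (rr l Y w)]
  have h6 : w / (l - 1) < rr l Y w := by linarith [min_le_right (w / (l - R)) (rr l Y w)]
  obtain ⟨h7, _⟩ := lin_pos hR hl le_rfl h5
  exact ⟨h7, w_le hR hl hY h7 h6.le⟩

end line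

/-! ### The region -/

section region

variable {R Y a₁ a₂ b₁ b₂ : ℝ}

/-- the length of the line `y`, in units of `e₁` -/
noncomputable def FF (R Y a₁ a₂ b₁ b₂ y : ℝ) : ℝ :=
  LL R (a₁ / a₂) Y (y * (a₁ * b₂ - a₂ * b₁) / a₂) / a₂

lemma FF_nonneg (ha : 0 < a₂) (y : ℝ) : 0 ≤ FF R Y a₁ a₂ b₁ b₂ y :=
  div_nonneg LL_nonneg ha.le

lemma FF_lip (hR : 1 < R) (ha : 0 < a₂) (hl : R * a₂ < a₁) (hY : 0 < Y) (y y' : ℝ) :
    |FF R Y a₁ a₂ b₁ b₂ y - FF R Y a₁ a₂ b₁ b₂ y'| ≤
      2 / (a₁ / a₂ - R) * (|a₁ * b₂ - a₂ * b₁| / a₂) / a₂ * |y - y'| := by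
  have hl' : R < a₁ / a₂ := by rwa [lt_div_iff₀ ha]
  rw [FF, FF, ← sub_div, abs_div, abs_of_pos ha, div_le_iff₀ ha]
  refine (LL_lip hR hl' hY _ _).trans ?_
  rw [← sub_div, abs_div, abs_of_pos ha, ← sub_mul, abs_mul]
  apply le_of_eq
  field_simp

lemma FF_cont (hR : 1 < R) (ha : 0 < a₂) (hl : R * a₂ < a₁) (hY : 0 < Y) :
    Continuous (FF R Y a₁ a₂ b₁ b₂) := by
  have hl' : R < a₁ / a₂ := by rwa [lt_div_iff₀ ha]
  have h3 : 0 < a₁ / a₂ - R := by linarith
  refine LipschitzWith.continuous (K := ⟨2 / (a₁ / a₂ - R) * (|a₁ * b₂ - a₂ * b₁| / a₂) / a₂,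
    by positivity⟩) (LipschitzWith.of_dist_le_mul ?_)
  intro x y
  rw [Real.dist_eq, Real.dist_eq]
  exact FF_lip hR ha hl hY x y

lemma FF_supp (hR : 1 < R) (ha : 0 < a₂) (hl : R * a₂ < a₁) (hY : 0 ≤ Y) (y : ℝ)
    (h : FF R Y a₁ a₂ b₁ b₂ y ≠ 0) (hd : a₁ * b₂ - a₂ * b₁ ≠ 0) :
    |y| ≤ (a₁ - a₂) * Real.sqrt Y / |a₁ * b₂ - a₂ * b₁| := by
  have hl' : R < a₁ / a₂ := by rwa [lt_div_iff₀ ha]
  have h1 : LL R (a₁ / a₂) Y (y * (a₁ * b₂ - a₂ * b₁) / a₂) ≠ 0 := by
    intro h'
    exact h (by rw [FF, h', zero_div])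
  obtain ⟨h2, h3⟩ := LL_supp hR hl' hY h1
  have h4 : |y| * |a₁ * b₂ - a₂ * b₁| / a₂ ≤ (a₁ / a₂ - 1) * Real.sqrt Y := by
    rw [← abs_mul, ← abs_of_pos ha, ← abs_div, abs_of_pos ha, abs_of_pos h2]
    exact h3
  rw [le_div_iff₀ (abs_pos.2 hd)]
  rw [div_le_iff₀ ha] at h4
  refine h4.trans (le_of_eq ?_)
  field_simp

lemma volume_slice (hR : 1 < R) (ha : 0 < a₂) (hl : R * a₂ < a₁) (hY : 0 < Y) (y : ℝ) :
    volume ((fun m : ℝ => (m, y)) ⁻¹' {p : ℝ × ℝ |
      (a₂ * p.1 + b₂ * p.2, a₁ * p.1 + b₁ * p.2) ∈ Dg R Y}) =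
      ENNReal.ofReal (FF R Y a₁ a₂ b₁ b₂ y) := by
  have hl' : R < a₁ / a₂ := by rwa [lt_div_iff₀ ha]
  set w := y * (a₁ * b₂ - a₂ * b₁) / a₂ with hw
  set l := a₁ / a₂ with hldef
  have hset : ((fun m : ℝ => (m, y)) ⁻¹' {p : ℝ × ℝ |
      (a₂ * p.1 + b₂ * p.2, a₁ * p.1 + b₁ * p.2) ∈ Dg R Y}) =
      Set.Ioo ((w / (l - 1) - b₂ * y) / a₂) ((min (w / (l - R)) (rr l Y w) - b₂ * y) / a₂) := by
    ext m
    have h1 : a₁ * m + b₁ * y = l * (a₂ * m + b₂ * y) - w := by
      rw [hw, hldef]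
      field_simp
      ring
    simp only [Set.mem_preimage, Set.mem_ofPred_eq, Dg, Set.mem_Ioo]
    rw [h1, open_iff hR hl' hY.le, div_lt_iff₀ ha, lt_div_iff₀ ha, lt_sub_iff_add_lt,
      lt_min_iff, sub_lt_iff_lt_add]
    have h2 : m * a₂ + b₂ * y = a₂ * m + b₂ * y := by ring
    rw [h2]
  rw [hset, Real.volume_Ioo, ← sub_div]
  have h3 : min (w / (l - R)) (rr l Y w) - b₂ * y - (w / (l - 1) - b₂ * y) =
      min (w / (l - R)) (rr l Y w) - w / (l - 1) := by ring
  rw [h3, FF, LL]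
  set t := min (w / (l - R)) (rr l Y w) - w / (l - 1) with ht
  rcases le_or_gt t 0 with h | h
  · rw [max_eq_left h, zero_div, ENNReal.ofReal_zero, ENNReal.ofReal_eq_zero]
    exact div_nonpos_of_nonpos_of_nonneg h ha.le
  · rw [max_eq_right h.le]

lemma integral_FF (hR : 1 < R) (ha : 0 < a₂) (hl : R * a₂ < a₁) (hY : 0 < Y)
    (hd : a₁ * b₂ - a₂ * b₁ ≠ 0) :
    ∫ y, FF R Y a₁ a₂ b₁ b₂ y = Real.log R / 2 * Y / |a₁ * b₂ - a₂ * b₁| := by
  have hlog : 0 < Real.log R := Real.log_pos hR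
  set T : (ℝ × ℝ) →ₗ[ℝ] (ℝ × ℝ) := Matrix.toLin (Module.Basis.finTwoProd ℝ)
    (Module.Basis.finTwoProd ℝ) !![a₂, b₂; a₁, b₁] with hT
  have hdet : LinearMap.det T = -(a₁ * b₂ - a₂ * b₁) := by
    rw [hT, LinearMap.det_toLin, Matrix.det_fin_two_of]
    ring
  have hdet0 : LinearMap.det T ≠ 0 := by rw [hdet]; exact neg_ne_zero.2 hd
  have hpre : T ⁻¹' (Dg R Y) = {p : ℝ × ℝ |
      (a₂ * p.1 + b₂ * p.2, a₁ * p.1 + b₁ * p.2) ∈ Dg R Y} := by
    ext p
    rw [Set.mem_preimage, hT, Matrix.toLin_finTwoProd_apply]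
    rfl
  have hmeas : MeasurableSet (Dg R Y) := by
    refine (measurableSet_lt measurable_fst measurable_snd).inter
      ((measurableSet_lt measurable_snd (measurable_const.mul measurable_fst)).inter
        (measurableSet_lt (measurable_fst.mul measurable_snd) measurable_const))
  have hTm : Measurable T := by
    have : Continuous T := LinearMap.continuous_of_finiteDimensional T
    exact this.measurable
  have h1 : volume (T ⁻¹' (Dg R Y)) =
      ENNReal.ofReal (Real.log R / 2 * Y / |a₁ * b₂ - a₂ * b₁|) := by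
    rw [Measure.addHaar_preimage_linearMap _ hdet0, area hR hY,
      ← ENNReal.ofReal_mul (abs_nonneg _), hdet, abs_inv, abs_neg]
    congr 1
    ring
  have h2 : volume (T ⁻¹' (Dg R Y)) = ∫⁻ y, ENNReal.ofReal (FF R Y a₁ a₂ b₁ b₂ y) := by
    rw [Measure.volume_eq_prod, Measure.prod_apply_symm (hTm hmeas)]
    refine lintegral_congr ?_
    intro y
    rw [hpre]
    exact volume_slice hR ha hl hY y
  rw [integral_eq_lintegral_of_nonneg_ae (Eventually.of_forall (fun y => FF_nonneg ha y))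
    (FF_cont hR ha hl hY).aestronglyMeasurable, ← h2, h1, ENNReal.toReal_ofReal (by positivity)]

end region

end LatCM

open LatCM

/-- LATC -/
theorem specLatC : SpecLatC := by
  intro R V e₁ e₂ hR hV hB
  obtain ⟨ha, hl, hd⟩ := hB
  set a₁ := e₁.1 with ha₁
  set a₂ := e₁.2 with ha₂
  set b₁ := e₂.1 with hb₁
  set b₂ := e₂.2 with hb₂
  have hd0 : a₁ * b₂ - a₂ * b₁ ≠ 0 := by
    intro h
    rw [h, abs_zero] at hd
    linarith
  have hl' : R < a₁ / a₂ := by rwa [lt_div_iff₀ ha]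
  have ha12 : 0 < a₁ - a₂ := by nlinarith
  set K := 2 / (a₁ / a₂ - R) * (|a₁ * b₂ - a₂ * b₁| / a₂) / a₂ with hK
  have hK0 : 0 ≤ K := by
    have : 0 < a₁ / a₂ - R := by linarith
    positivity
  set D := (a₁ - a₂) / V with hD
  have hD0 : 0 < D := by positivity
  refine ⟨(K + 1) * (2 * D + 5), by positivity, ?_⟩
  intro Y S hY hS
  rcases hY.eq_or_lt with h0 | hY0
  · -- `Y = 0`
    have hemp : S = ∅ := by
      rw [Finset.eq_empty_iff_forall_notMem]
      intro p hp
      obtain ⟨⟨h1, h2, _⟩, h4⟩ := (hS p).1 hp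
      rw [← h0] at h4
      have : 0 < (lr e₁ e₂ p).1 * (lr e₁ e₂ p).2 := mul_pos (h1.trans_le h2) h1
      linarith
    rw [hemp, ← h0]
    simp
    positivity
  · set M : ℕ := ⌈D * Real.sqrt Y⌉₊ + 1 with hM
    have hMlow : D * Real.sqrt Y + 1 ≤ M := by
      rw [hM]
      push_cast
      linarith [Nat.le_ceil (D * Real.sqrt Y)]
    have hMup : (M : ℝ) ≤ D * Real.sqrt Y + 2 := by
      rw [hM]
      push_cast
      have : 0 ≤ D * Real.sqrt Y := by positivity
      linarith [(Nat.ceil_lt_add_one this).le]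
    -- description of `S`
    have hmem : ∀ p : ℤ × ℤ, p ∈ S ↔
        ((p.2 * (a₁ * b₂ - a₂ * b₁) / a₂) / (a₁ / a₂ - 1) ≤ a₂ * p.1 + b₂ * p.2 ∧
        a₂ * p.1 + b₂ * p.2 < (p.2 * (a₁ * b₂ - a₂ * b₁) / a₂) / (a₁ / a₂ - R) ∧
        a₂ * p.1 + b₂ * p.2 ≤ rr (a₁ / a₂) Y (p.2 * (a₁ * b₂ - a₂ * b₁) / a₂)) := by
      intro p
      rw [hS p, ← closed_iff hR hl' hY]
      have h1 : (a₁ / a₂) * (a₂ * p.1 + b₂ * p.2) - p.2 * (a₁ * b₂ - a₂ * b₁) / a₂ =
          (lr e₁ e₂ p).1 := by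
        rw [lr]
        simp only
        field_simp
        ring
      have h2 : a₂ * p.1 + b₂ * p.2 = (lr e₁ e₂ p).2 := by
        rw [lr]
        simp only
        ring
      rw [h1, h2, Sec]
    have hrange : ∀ p ∈ S, -(M : ℤ) ≤ p.2 ∧ p.2 ≤ M := by
      intro p hp
      obtain ⟨h1, h2, h3⟩ := (hmem p).1 hp
      obtain ⟨h4, _⟩ := lin_pos hR hl' h1 h2
      have h5 := w_le hR hl' hY h4 (h1.trans h3)
      have h6 : |(p.2 : ℝ)| ≤ M := by
        have h7 : |(p.2 : ℝ)| * |a₁ * b₂ - a₂ * b₁| / a₂ ≤ (a₁ / a₂ - 1) * Real.sqrt Y := by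
          rw [← abs_mul, ← abs_of_pos ha, ← abs_div, abs_of_pos ha, abs_of_pos h4]
          exact h5
        rw [hd, div_le_iff₀ ha] at h7
        have h8 : |(p.2 : ℝ)| ≤ D * Real.sqrt Y := by
          rw [hD, div_mul_eq_mul_div, le_div_iff₀ hV]
          refine h7.trans (le_of_eq ?_)
          field_simp
        linarith
      rw [abs_le] at h6
      exact ⟨by exact_mod_cast h6.1, by exact_mod_cast h6.2⟩
    -- fibers
    have hcard : (S.card : ℝ) = ∑ k ∈ Finset.range (2 * M + 1),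
        ((S.filter (fun p => p.2 = -(M : ℤ) + k)).card : ℝ) := by
      rw [← Nat.cast_sum]
      congr 1
      rw [Finset.card_eq_sum_card_fiberwise (f := fun p : ℤ × ℤ => (p.2 + M).toNat)
        (t := Finset.range (2 * M + 1))]
      · refine Finset.sum_congr rfl ?_
        intro k _
        congr 1
        refine Finset.filter_congr ?_
        intro p hp
        have := hrange p hp
        omega
      · intro p hp
        have := hrange p hp
        simp only [Finset.coe_range, Set.mem_Iio]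
        omega
    have hfib : ∀ k ∈ Finset.range (2 * M + 1),
        |((S.filter (fun p => p.2 = -(M : ℤ) + k)).card : ℝ) -
          FF R Y a₁ a₂ b₁ b₂ (-(M : ℝ) + k)| ≤ 1 := by
      intro k _
      set n : ℤ := -(M : ℤ) + k with hn
      have hnr : (n : ℝ) = -(M : ℝ) + k := by rw [hn]; push_cast; ring
      set w := (n : ℝ) * (a₁ * b₂ - a₂ * b₁) / a₂ with hw
      have h1 : ((S.filter (fun p => p.2 = n)).card) =
          ((S.filter (fun p => p.2 = n)).image Prod.fst).card := by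
        rw [Finset.card_image_of_injOn]
        intro p hp q hq h
        simp only [Finset.coe_filter, Set.mem_ofPred_eq] at hp hq
        exact Prod.ext h (hp.2.trans hq.2.symm)
      rw [h1]
      have h2 := card_int ((S.filter (fun p => p.2 = n)).image Prod.fst)
        ((w / (a₁ / a₂ - 1) - b₂ * n) / a₂) ((w / (a₁ / a₂ - R) - b₂ * n) / a₂)
        ((rr (a₁ / a₂) Y w - b₂ * n) / a₂) ?_
      · refine le_trans (le_of_eq ?_) h2
        congr 2
        rw [FF, ← hnr, ← hw, LL, min_div_div_right ha.le, ← sub_div, min_sub_sub_right]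
        have h3 : min (w / (a₁ / a₂ - R)) (rr (a₁ / a₂) Y w) - b₂ * n -
            (w / (a₁ / a₂ - 1) - b₂ * n) =
            min (w / (a₁ / a₂ - R)) (rr (a₁ / a₂) Y w) - w / (a₁ / a₂ - 1) := by ring
        rw [h3]
        have h4 := max_div_div_right ha.le 0
          (min (w / (a₁ / a₂ - R)) (rr (a₁ / a₂) Y w) - w / (a₁ / a₂ - 1))
        rw [zero_div] at h4
        exact h4.symm
      · intro m
        rw [Finset.mem_image]
        constructor
        · rintro ⟨p, hp, rfl⟩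
          rw [Finset.mem_filter] at hp
          obtain ⟨hp1, hp2⟩ := hp
          obtain ⟨h3, h4, h5⟩ := (hmem p).1 hp1
          rw [hp2] at h3 h4 h5
          rw [div_le_iff₀ ha, lt_div_iff₀ ha, le_div_iff₀ ha]
          refine ⟨by linarith, by linarith, by linarith⟩
        · rintro ⟨h3, h4, h5⟩
          rw [div_le_iff₀ ha] at h3
          rw [lt_div_iff₀ ha] at h4
          rw [le_div_iff₀ ha] at h5
          refine ⟨(m, n), ?_, rfl⟩
          rw [Finset.mem_filter]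
          refine ⟨(hmem (m, n)).2 ⟨?_, ?_, ?_⟩, rfl⟩
          · simp only; linarith
          · simp only; linarith
          · simp only; linarith
    have h1 : |∑ k ∈ Finset.range (2 * M + 1),
        ((S.filter (fun p => p.2 = -(M : ℤ) + k)).card : ℝ) -
        ∑ k ∈ Finset.range (2 * M + 1), FF R Y a₁ a₂ b₁ b₂ (-(M : ℝ) + k)| ≤
          ((2 * M + 1 : ℕ) : ℝ) := by
      rw [← Finset.sum_sub_distrib]
      refine (Finset.abs_sum_le_sum_abs _ _).trans ((Finset.sum_le_sum hfib).trans ?_)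
      simp
    have h2 := sum_int (FF R Y a₁ a₂ b₁ b₂) K hK0 (fun y y' => FF_lip hR ha hl hY0 y y')
      (FF_cont hR ha hl hY0) (-(M : ℝ)) (2 * M + 1)
    have h3 : ∫ y in (-(M : ℝ))..(-(M : ℝ) + ((2 * M + 1 : ℕ) : ℝ)), FF R Y a₁ a₂ b₁ b₂ y =
        Real.log R / 2 * Y / V := by
      rw [intervalIntegral.integral_eq_integral_of_support_subset, integral_FF hR ha hl hY0 hd0,
        hd]
      intro y hy
      have h4 := FF_supp hR ha hl hY y hy hd0
      rw [hd] at h4
      have h5 : (a₁ - a₂) * Real.sqrt Y / V = D * Real.sqrt Y := by rw [hD]; ring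
      rw [h5, abs_le] at h4
      constructor
      · linarith [h4.1]
      · push_cast
        linarith [h4.2]
    rw [h3] at h2
    rw [hcard]
    have h4 : ((2 * M + 1 : ℕ) : ℝ) ≤ (2 * D + 5) * (Real.sqrt Y + 1) := by
      push_cast
      have : 0 ≤ Real.sqrt Y := Real.sqrt_nonneg _
      nlinarith
    calc |∑ k ∈ Finset.range (2 * M + 1),
          ((S.filter (fun p => p.2 = -(M : ℤ) + k)).card : ℝ) - Real.log R / 2 * Y / V|
        ≤ ((2 * M + 1 : ℕ) : ℝ) + K * ((2 * M + 1 : ℕ) : ℝ) := by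
          refine (abs_sub_le _ (∑ k ∈ Finset.range (2 * M + 1),
            FF R Y a₁ a₂ b₁ b₂ (-(M : ℝ) + k)) _).trans (add_le_add h1 h2)
      _ = (K + 1) * ((2 * M + 1 : ℕ) : ℝ) := by ring
      _ ≤ (K + 1) * ((2 * D + 5) * (Real.sqrt Y + 1)) :=
          mul_le_mul_of_nonneg_left h4 (by positivity)
      _ = _ := by ring

end Pool.Agent.Lib.MP391708.MAR
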