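import Pool.Agent.Lib.MP_391708_nt.MAR.LatV

/-!
# LATT, real quadratic case: small frequencies, comparison with the integral
-/

set_option autoImplicit false

namespace Pool.Agent.Lib.MP391708.MAR.LT

open Finset Filter Topology MeasureTheory

/-! ### Sums and integrals -/

lemma sum_int {g : ℝ → ℂ} {A lam : ℝ} (hcont : ContinuousOn g (Set.Ici A))
    (h1 : ∀ t, A ≤ t → ‖g t‖ ≤ 1) (hL : ∀ t, A ≤ t → ∀ s, A ≤ s → |t - s| ≤ 1 → ‖g t - g s‖ ≤ lam)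
    (hlam : 0 ≤ lam) {B : ℝ} (hAB : A ≤ B) {b : ℤ} (hb1 : B ≤ b) (hb2 : (b : ℝ) ≤ B + 1) :
    ‖∑ n ∈ Ico ⌈A⌉ b, g n - ∫ t in A..B, g t‖ ≤ lam * (B - A + 1) + 2 := by
  have hii : ∀ u v : ℝ, A ≤ u → A ≤ v → IntervalIntegrable g volume u v := by
    intro u v hu hv
    apply ContinuousOn.intervalIntegrable
    apply hcont.mono
    intro t ht
    rw [Set.mem_uIcc] at ht
    show A ≤ t
    rcases ht with h | h
    · exact hu.trans h.1
    · exact hv.trans h.1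
  have hint : ∀ u v : ℝ, A ≤ u → A ≤ v → ‖∫ t in u..v, g t‖ ≤ |v - u| := by
    intro u v hu hv
    have := intervalIntegral.norm_integral_le_of_norm_le_const (a := u) (b := v) (f := g) (C := 1)
      (by
        intro t ht
        apply h1
        rw [Set.mem_uIoc] at ht
        rcases ht with h | h
        · exact hu.trans h.1.le
        · exact hv.trans h.1.le)
    linarith
  have ha1 := Int.le_ceil A
  have ha2 := Int.ceil_lt_add_one A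
  rcases le_or_gt b ⌈A⌉ with h | h
  · rw [Ico_eq_empty (not_lt.2 h), sum_empty, zero_sub, norm_neg]
    have h2 : (b : ℝ) ≤ ⌈A⌉ := by exact_mod_cast h
    have h3 := hint A B le_rfl hAB
    rw [abs_of_nonneg (by linarith)] at h3
    have : 0 ≤ lam * (B - A + 1) := mul_nonneg hlam (by linarith)
    linarith
  · obtain ⟨N, hN⟩ : ∃ N : ℕ, b = ⌈A⌉ + N := ⟨(b - ⌈A⌉).toNat, by omega⟩
    subst hN
    have hs : ∑ n ∈ Ico ⌈A⌉ (⌈A⌉ + (N : ℤ)), g n = ∑ j ∈ range N, g ((⌈A⌉ : ℝ) + j) := by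
      symm
      apply sum_nbij (fun j : ℕ => ⌈A⌉ + (j : ℤ))
      · intro j hj
        rw [mem_range] at hj
        rw [mem_Ico]
        omega
      · intro i _ j _ hij
        simpa using hij
      · intro n hn
        rw [mem_coe, mem_Ico] at hn
        refine ⟨(n - ⌈A⌉).toNat, ?_, ?_⟩
        · rw [mem_coe, mem_range]; omega
        · simp only; omega
      · intro j _
        push_cast
        rfl
    have hadj : ∑ j ∈ range N, ∫ t in ((⌈A⌉ : ℝ) + j)..((⌈A⌉ : ℝ) + (j + 1 : ℕ)), g t =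
        ∫ t in ((⌈A⌉ : ℝ) + (0 : ℕ))..((⌈A⌉ : ℝ) + N), g t := by
      apply intervalIntegral.sum_integral_adjacent_intervals (a := fun j : ℕ => (⌈A⌉ : ℝ) + j)
      intro j _
      apply hii
      · have : (0 : ℝ) ≤ (j : ℝ) := Nat.cast_nonneg _
        linarith
      · have : (0 : ℝ) ≤ ((j + 1 : ℕ) : ℝ) := Nat.cast_nonneg _
        linarith
    rw [Nat.cast_zero, add_zero] at hadj
    have hN0 : (0 : ℝ) ≤ N := Nat.cast_nonneg _
    push_cast at hb1 hb2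
    have hsplit : ∫ t in A..B, g t = (∫ t in A..(⌈A⌉ : ℝ), g t) +
        (∫ t in (⌈A⌉ : ℝ)..((⌈A⌉ : ℝ) + N), g t) + ∫ t in ((⌈A⌉ : ℝ) + N)..B, g t := by
      rw [intervalIntegral.integral_add_adjacent_intervals (hii _ _ le_rfl ha1)
        (hii _ _ ha1 (by linarith)),
        intervalIntegral.integral_add_adjacent_intervals (hii _ _ le_rfl (by linarith))
        (hii _ _ (by linarith) hAB)]
    have hterm : ‖∑ j ∈ range N, g ((⌈A⌉ : ℝ) + j) -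
        ∫ t in (⌈A⌉ : ℝ)..((⌈A⌉ : ℝ) + N), g t‖ ≤ N * lam := by
      rw [← hadj, ← sum_sub_distrib]
      refine (norm_sum_le _ _).trans ?_
      have : ∀ j ∈ range N, ‖g ((⌈A⌉ : ℝ) + j) -
          ∫ t in ((⌈A⌉ : ℝ) + j)..((⌈A⌉ : ℝ) + (j + 1 : ℕ)), g t‖ ≤ lam := by
        intro j _
        have hj : (0 : ℝ) ≤ (j : ℝ) := Nat.cast_nonneg _
        have e1 : g ((⌈A⌉ : ℝ) + j) =
            ∫ _ in ((⌈A⌉ : ℝ) + j)..((⌈A⌉ : ℝ) + (j + 1 : ℕ)), g ((⌈A⌉ : ℝ) + j) := by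
          rw [intervalIntegral.integral_const]
          push_cast
          rw [show (⌈A⌉ : ℝ) + ((j : ℝ) + 1) - ((⌈A⌉ : ℝ) + j) = 1 by ring, one_smul]
        rw [e1, ← intervalIntegral.integral_sub intervalIntegrable_const
          (hii _ _ (by linarith) (by push_cast; linarith))]
        refine (intervalIntegral.norm_integral_le_of_norm_le_const (C := lam) ?_).trans ?_
        · intro t ht
          rw [Set.uIoc_of_le (by push_cast; linarith), Set.mem_Ioc] at ht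
          push_cast at ht
          refine hL _ (by linarith) _ (by linarith [ht.1]) ?_
          rw [abs_le]
          constructor
          · linarith [ht.2]
          · linarith [ht.1]
        · push_cast
          rw [show (⌈A⌉ : ℝ) + ((j : ℝ) + 1) - ((⌈A⌉ : ℝ) + j) = 1 by ring, abs_one, mul_one]
      refine (sum_le_sum this).trans ?_
      rw [sum_const, card_range, nsmul_eq_mul]
    have e2 : ‖∫ t in A..(⌈A⌉ : ℝ), g t‖ ≤ 1 := by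
      refine (hint _ _ le_rfl ha1).trans ?_
      rw [abs_of_nonneg (by linarith)]
      linarith
    have e3 : ‖∫ t in ((⌈A⌉ : ℝ) + N)..B, g t‖ ≤ 1 := by
      refine (hint _ _ (by linarith) hAB).trans ?_
      rw [abs_of_nonpos (by linarith)]
      linarith
    have e4 : (N : ℝ) * lam ≤ lam * (B - A + 1) := by
      rw [mul_comm]
      exact mul_le_mul_of_nonneg_left (by linarith) hlam
    rw [hs, hsplit]
    have e5 : ∑ j ∈ range N, g ((⌈A⌉ : ℝ) + j) - ((∫ t in A..(⌈A⌉ : ℝ), g t) +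
        (∫ t in (⌈A⌉ : ℝ)..((⌈A⌉ : ℝ) + N), g t) + ∫ t in ((⌈A⌉ : ℝ) + N)..B, g t) =
        (∑ j ∈ range N, g ((⌈A⌉ : ℝ) + j) - ∫ t in (⌈A⌉ : ℝ)..((⌈A⌉ : ℝ) + N), g t) -
        (∫ t in A..(⌈A⌉ : ℝ), g t) - ∫ t in ((⌈A⌉ : ℝ) + N)..B, g t := by ring
    rw [e5]
    refine (norm_sub_le _ _).trans ?_
    have := norm_sub_le (∑ j ∈ range N, g ((⌈A⌉ : ℝ) + j) -
      ∫ t in (⌈A⌉ : ℝ)..((⌈A⌉ : ℝ) + N), g t) (∫ t in A..(⌈A⌉ : ℝ), g t)
    linarith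

/-- the sum of the integers `m` with `m² ≤ y` -/
lemma sum_sq_le {y : ℝ} (hy : 0 ≤ y) {M : ℤ} (hM : Real.sqrt y < M + 1) :
    |(∑ m ∈ Icc 1 M, if ((m : ℤ) : ℝ) ^ 2 ≤ y then ((m : ℤ) : ℝ) else 0) - y / 2| ≤
      Real.sqrt y := by
  have hs := Real.sqrt_nonneg y
  have hsum : ∀ K : ℤ, 0 ≤ K → ∑ m ∈ Icc 1 K, ((m : ℤ) : ℝ) = (K : ℝ) * (K + 1) / 2 := by
    intro K hK
    induction K, hK using Int.le_induction with
    | base => simp
    | succ K hK ih =>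
      have : Icc (1 : ℤ) (K + 1) = insert (K + 1) (Icc 1 K) := by
        ext z
        rw [mem_insert, mem_Icc, mem_Icc]
        omega
      rw [this, sum_insert (by rw [mem_Icc]; omega), ih]
      push_cast
      ring
  set K := ⌊Real.sqrt y⌋ with hK
  have hK0 : 0 ≤ K := Int.floor_nonneg.2 hs
  have hK1 : (K : ℝ) ≤ Real.sqrt y := Int.floor_le _
  have hK2 : Real.sqrt y < K + 1 := Int.lt_floor_add_one _
  have hKM : K ≤ M := by
    have : (K : ℝ) < M + 1 := hK1.trans_lt hM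
    have : K < M + 1 := by exact_mod_cast this
    omega
  rw [← sum_filter]
  have hf : (Icc 1 M).filter (fun m : ℤ => (m : ℝ) ^ 2 ≤ y) = Icc 1 K := by
    ext z
    rw [mem_filter, mem_Icc, mem_Icc]
    constructor
    · rintro ⟨⟨h1, h2⟩, h3⟩
      refine ⟨h1, Int.le_floor.2 ?_⟩
      exact Real.le_sqrt_of_sq_le h3
    · rintro ⟨h1, h2⟩
      refine ⟨⟨h1, h2.trans hKM⟩, ?_⟩
      have h3 : (z : ℝ) ≤ Real.sqrt y := Int.le_floor.1 h2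
      have h4 : (0 : ℝ) ≤ z := by exact_mod_cast (by omega : (0 : ℤ) ≤ z)
      calc (z : ℝ) ^ 2 ≤ Real.sqrt y ^ 2 := pow_le_pow_left₀ h4 h3 2
        _ = y := Real.sq_sqrt hy
  rw [hf, hsum K hK0]
  have h5 : Real.sqrt y ^ 2 = y := Real.sq_sqrt hy
  have h6 : (0 : ℝ) ≤ K := by exact_mod_cast hK0
  rw [abs_le]
  constructor
  · nlinarith
  · nlinarith

/-! ### The phase as a function of `r = n / m` -/

section

variable {R a₁ a₂ b₁ b₂ : ℝ}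

/-- `ph R (X₁ / X₂) ^ k` on the line, as a function of `r = n / m` -/
noncomputable def ff (R a₁ a₂ b₁ b₂ : ℝ) (k : ℤ) (r : ℝ) : ℂ :=
  Complex.exp (Complex.I * ((2 * Real.pi * ((k : ℝ) / Real.log R *
    (Real.log (a₁ * r + b₁) - Real.log (a₂ * r + b₂))) : ℝ) : ℂ))

lemma norm_ff (k : ℤ) (r : ℝ) : ‖ff R a₁ a₂ b₁ b₂ k r‖ = 1 := by
  unfold ff
  rw [mul_comm, Complex.norm_exp_ofReal_mul_I]

/-- the derivative of the phase -/
noncomputable def dd (R a₁ a₂ b₁ b₂ : ℝ) (k : ℤ) (r : ℝ) : ℝ :=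
  2 * Real.pi * ((k : ℝ) / Real.log R * ((a₁ * b₂ - a₂ * b₁) / qq a₁ a₂ b₁ b₂ r))

namespace LC

lemma hasDerivAt_ff (h : LC R a₁ a₂ b₁ b₂) (k : ℤ) {r : ℝ} (hr : tau a₁ a₂ b₁ b₂ 1 ≤ r) :
    HasDerivAt (ff R a₁ a₂ b₁ b₂ k)
      (ff R a₁ a₂ b₁ b₂ k r * (Complex.I * (dd R a₁ a₂ b₁ b₂ k r : ℂ))) r := by
  have e1 : 0 < a₁ * r + b₁ := h.v0_pos.trans_le (h.X1_ge hr)
  have e2 : 0 < a₂ * r + b₂ := h.v0_pos.trans_le (h.X2_pos hr)
  have hl : ∀ a c t : ℝ, HasDerivAt (fun t : ℝ => a * t + c) a t := by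
    intro a c t
    simpa using ((hasDerivAt_id t).const_mul a).add_const c
  have h1 : HasDerivAt (fun r : ℝ => 2 * Real.pi * ((k : ℝ) / Real.log R *
      (Real.log (a₁ * r + b₁) - Real.log (a₂ * r + b₂)))) (dd R a₁ a₂ b₁ b₂ k r) r := by
    have h2 := ((((hl a₁ b₁ r).log e1.ne').sub ((hl a₂ b₂ r).log e2.ne')).const_mul
      ((k : ℝ) / Real.log R)).const_mul (2 * Real.pi)
    refine h2.congr_deriv ?_
    unfold dd qq
    congr 2
    rw [div_sub_div _ _ e1.ne' e2.ne']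
    congr 1
    ring
  have h2 := (h1.ofReal_comp.const_mul Complex.I).cexp
  exact h2

lemma continuousOn_ff (h : LC R a₁ a₂ b₁ b₂) (k : ℤ) :
    ContinuousOn (ff R a₁ a₂ b₁ b₂ k) (Set.Ici (tau a₁ a₂ b₁ b₂ 1)) :=
  fun _ hr => (h.hasDerivAt_ff k hr).continuousAt.continuousWithinAt

/-- the Lipschitz constant, without `|k|` -/
lemma dd_le (h : LC R a₁ a₂ b₁ b₂) (k : ℤ) {r : ℝ} (hr : tau a₁ a₂ b₁ b₂ 1 ≤ r) :
    |dd R a₁ a₂ b₁ b₂ k r| ≤ 2 * Real.pi * ((a₁ * b₂ - a₂ * b₁) / c1 a₁ a₂ b₁ b₂ ^ 2) /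
      Real.log R * |(k : ℝ)| := by
  have hq := h.qq_alpha_pos hr
  have hc := h.c1_pos
  have hV := h.hV
  have hl := h.log_pos
  have hpi := Real.pi_pos
  have hq' : c1 a₁ a₂ b₁ b₂ ^ 2 ≤ qq a₁ a₂ b₁ b₂ r := hq
  have hq0 : 0 < qq a₁ a₂ b₁ b₂ r := lt_of_lt_of_le (by positivity) hq'
  unfold dd
  rw [abs_mul (2 * Real.pi), abs_of_pos (by positivity : 0 < 2 * Real.pi),
    abs_mul ((k : ℝ) / Real.log R), abs_div, abs_of_pos hl, abs_of_pos (div_pos hV hq0)]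
  have e1 : (a₁ * b₂ - a₂ * b₁) / qq a₁ a₂ b₁ b₂ r ≤
      (a₁ * b₂ - a₂ * b₁) / c1 a₁ a₂ b₁ b₂ ^ 2 :=
    div_le_div_of_nonneg_left hV.le (by positivity) hq'
  calc 2 * Real.pi * (|(k : ℝ)| / Real.log R * ((a₁ * b₂ - a₂ * b₁) / qq a₁ a₂ b₁ b₂ r)) ≤
      2 * Real.pi * (|(k : ℝ)| / Real.log R * ((a₁ * b₂ - a₂ * b₁) / c1 a₁ a₂ b₁ b₂ ^ 2)) := by
        gcongr
    _ = _ := by ring

lemma ff_lip (h : LC R a₁ a₂ b₁ b₂) (k : ℤ) {r s : ℝ} (hr : tau a₁ a₂ b₁ b₂ 1 ≤ r)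
    (hs : tau a₁ a₂ b₁ b₂ 1 ≤ s) : ‖ff R a₁ a₂ b₁ b₂ k r - ff R a₁ a₂ b₁ b₂ k s‖ ≤
      2 * Real.pi * ((a₁ * b₂ - a₂ * b₁) / c1 a₁ a₂ b₁ b₂ ^ 2) /
        Real.log R * |(k : ℝ)| * |r - s| := by
  have := (convex_Ici (tau a₁ a₂ b₁ b₂ 1)).norm_image_sub_le_of_norm_hasDerivWithin_le
    (f := ff R a₁ a₂ b₁ b₂ k)
    (f' := fun r => ff R a₁ a₂ b₁ b₂ k r * (Complex.I * (dd R a₁ a₂ b₁ b₂ k r : ℂ)))
    (C := 2 * Real.pi * ((a₁ * b₂ - a₂ * b₁) / c1 a₁ a₂ b₁ b₂ ^ 2) / Real.log R * |(k : ℝ)|)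
    (fun r hr => (h.hasDerivAt_ff k hr).hasDerivWithinAt)
    (fun r hr => by
      rw [norm_mul, norm_ff, one_mul, norm_mul, Complex.norm_I, one_mul, Complex.norm_real,
        Real.norm_eq_abs]
      exact h.dd_le k hr) hs hr
  rw [← Real.norm_eq_abs (r - s)]
  exact this

/-- the integral over the whole range vanishes -/
lemma integral_ff (h : LC R a₁ a₂ b₁ b₂) {k : ℤ} (hk : k ≠ 0) :
    ∫ r in (tau a₁ a₂ b₁ b₂ 1)..(tau a₁ a₂ b₁ b₂ R),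
      ((1 / qq a₁ a₂ b₁ b₂ r : ℝ) : ℂ) * ff R a₁ a₂ b₁ b₂ k r = 0 := by
  have hV := h.hV
  have hl := h.log_pos
  have hpi := Real.pi_pos
  have hkR : (k : ℝ) ≠ 0 := by exact_mod_cast hk
  have hαβ := h.tau_lt
  set c : ℂ := Complex.I * ((2 * Real.pi * ((k : ℝ) / Real.log R * (a₁ * b₂ - a₂ * b₁)) : ℝ) : ℂ)
    with hc
  have hc0 : c ≠ 0 := by
    rw [hc]
    apply mul_ne_zero Complex.I_ne_zero
    rw [Complex.ofReal_ne_zero]
    have : (k : ℝ) / Real.log R ≠ 0 := div_ne_zero hkR hl.ne'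
    have : (k : ℝ) / Real.log R * (a₁ * b₂ - a₂ * b₁) ≠ 0 := mul_ne_zero this hV.ne'
    exact mul_ne_zero (by positivity) this
  have hmem : ∀ r ∈ Set.uIcc (tau a₁ a₂ b₁ b₂ 1) (tau a₁ a₂ b₁ b₂ R), tau a₁ a₂ b₁ b₂ 1 ≤ r := by
    intro r hr
    rw [Set.uIcc_of_le hαβ.le] at hr
    exact hr.1
  have hq0 : ∀ r, tau a₁ a₂ b₁ b₂ 1 ≤ r → 0 < qq a₁ a₂ b₁ b₂ r := by
    intro r hr
    have := h.c1_pos
    exact lt_of_lt_of_le (by positivity) (show c1 a₁ a₂ b₁ b₂ ^ 2 ≤ _ from h.qq_alpha_pos hr)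
  have hderiv : ∀ r ∈ Set.uIcc (tau a₁ a₂ b₁ b₂ 1) (tau a₁ a₂ b₁ b₂ R),
      HasDerivAt (fun r => c⁻¹ * ff R a₁ a₂ b₁ b₂ k r)
        (((1 / qq a₁ a₂ b₁ b₂ r : ℝ) : ℂ) * ff R a₁ a₂ b₁ b₂ k r) r := by
    intro r hr
    have h1 := (h.hasDerivAt_ff k (hmem r hr)).const_mul c⁻¹
    refine h1.congr_deriv ?_
    have h2 : Complex.I * (dd R a₁ a₂ b₁ b₂ k r : ℂ) = c * ((1 / qq a₁ a₂ b₁ b₂ r : ℝ) : ℂ) := by
      rw [hc, mul_assoc, ← Complex.ofReal_mul]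
      congr 2
      unfold dd
      ring
    rw [h2]
    calc c⁻¹ * (ff R a₁ a₂ b₁ b₂ k r * (c * ((1 / qq a₁ a₂ b₁ b₂ r : ℝ) : ℂ))) =
        (c⁻¹ * c) * (((1 / qq a₁ a₂ b₁ b₂ r : ℝ) : ℂ) * ff R a₁ a₂ b₁ b₂ k r) := by ring
      _ = _ := by rw [inv_mul_cancel₀ hc0, one_mul]
  have hcont : ContinuousOn (fun r => ((1 / qq a₁ a₂ b₁ b₂ r : ℝ) : ℂ) * ff R a₁ a₂ b₁ b₂ k r)
      (Set.uIcc (tau a₁ a₂ b₁ b₂ 1) (tau a₁ a₂ b₁ b₂ R)) := by
    apply ContinuousOn.mul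
    · apply Complex.continuous_ofReal.comp_continuousOn
      apply continuousOn_const.div
      · unfold qq
        fun_prop
      · intro r hr
        exact (hq0 r (hmem r hr)).ne'
    · exact (h.continuousOn_ff k).mono hmem
  rw [intervalIntegral.integral_eq_sub_of_hasDerivAt hderiv hcont.intervalIntegrable]
  have e1 : ff R a₁ a₂ b₁ b₂ k (tau a₁ a₂ b₁ b₂ 1) = 1 := by
    unfold ff
    have h1 : (0 : ℝ) < a₁ - 1 * a₂ := by linarith [h.a12]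
    rw [X1_tau h1, X2_tau h1, one_mul, sub_self, mul_zero, mul_zero, Complex.ofReal_zero, mul_zero,
      Complex.exp_zero]
  have e2 : ff R a₁ a₂ b₁ b₂ k (tau a₁ a₂ b₁ b₂ R) = 1 := by
    unfold ff
    have h1 := h.aR
    have h2 : 0 < (a₁ * b₂ - a₂ * b₁) / (a₁ - R * a₂) := div_pos hV h1
    have h3 := h.hR
    rw [X1_tau h1, X2_tau h1, Real.log_mul (by linarith) h2.ne', add_sub_cancel_right,
      div_mul_cancel₀ _ hl.ne']
    rw [Complex.exp_eq_one_iff]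
    refine ⟨k, ?_⟩
    push_cast
    ring
  rw [e1, e2, sub_self]

end LC

/-- on the points -/
lemma ph_eq_ff (h : LC R a₁ a₂ b₁ b₂) (k : ℤ) {n m : ℤ} (hm : 0 < m)
    (hn : tau a₁ a₂ b₁ b₂ 1 ≤ (n : ℝ) / m) :
    ph R ((lr (a₁, a₂) (b₁, b₂) (n, m)).1 / (lr (a₁, a₂) (b₁, b₂) (n, m)).2) ^ k =
      ff R a₁ a₂ b₁ b₂ k ((n : ℝ) / m) := by
  have hm0 : (0 : ℝ) < m := by exact_mod_cast hm
  have e1 : 0 < a₁ * ((n : ℝ) / m) + b₁ := h.v0_pos.trans_le (h.X1_ge hn)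
  have e2 : 0 < a₂ * ((n : ℝ) / m) + b₂ := h.v0_pos.trans_le (h.X2_pos hn)
  rw [LC.lr_eq hm]
  simp only
  rw [mul_div_mul_left _ _ hm0.ne', ph_zpow e1 e2]
  unfold ff
  congr 1
  push_cast
  ring

end

end Pool.Agent.Lib.MP391708.MAR.LT
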