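import Pool.Agent.Lib.MP_391708_nt.MAR.LatI

/-!
# LATT, real quadratic case: small frequencies
-/

set_option autoImplicit false

namespace Pool.Agent.Lib.MP391708.MAR.LT

open Finset Filter Topology MeasureTheory

section

variable {R a₁ a₂ b₁ b₂ : ℝ}

/-- the Lipschitz constant -/
noncomputable def Lm (R a₁ a₂ b₁ b₂ : ℝ) : ℝ :=
  2 * Real.pi * ((a₁ * b₂ - a₂ * b₁) / c1 a₁ a₂ b₁ b₂ ^ 2) / Real.log R

namespace LC

lemma Lm_pos (h : LC R a₁ a₂ b₁ b₂) : 0 < Lm R a₁ a₂ b₁ b₂ := by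
  unfold Lm
  have h1 := h.c1_pos
  have h2 := h.hV
  have h3 := h.log_pos
  have h4 := Real.pi_pos
  positivity

lemma exists_root (h : LC R a₁ a₂ b₁ b₂) {y : ℝ} (hy : qq a₁ a₂ b₁ b₂ (tau a₁ a₂ b₁ b₂ 1) ≤ y) :
    ∃ ρ, tau a₁ a₂ b₁ b₂ 1 ≤ ρ ∧ qq a₁ a₂ b₁ b₂ ρ = y := by
  set α := tau a₁ a₂ b₁ b₂ 1 with hα
  have hc := h.c1_pos
  have ha := h.a1_pos
  set r₁ := max α ((y / c1 a₁ a₂ b₁ b₂ - b₁) / a₁) with hr₁
  have h1 : α ≤ r₁ := le_max_left _ _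
  have h2 : y ≤ qq a₁ a₂ b₁ b₂ r₁ := by
    have e1 : y / c1 a₁ a₂ b₁ b₂ ≤ a₁ * r₁ + b₁ := by
      have : (y / c1 a₁ a₂ b₁ b₂ - b₁) / a₁ ≤ r₁ := le_max_right _ _
      rw [div_le_iff₀ ha] at this
      linarith
    have e2 : c1 a₁ a₂ b₁ b₂ ≤ a₂ * r₁ + b₂ := h.X2_pos h1
    have hy0 : 0 ≤ y := by
      refine le_trans ?_ hy
      exact le_trans (by positivity) (h.qq_alpha_pos le_rfl)
    unfold qq
    calc y = y / c1 a₁ a₂ b₁ b₂ * c1 a₁ a₂ b₁ b₂ := by field_simp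
      _ ≤ _ := mul_le_mul e1 e2 hc.le (le_trans (by positivity) e1)
  have hcont : ContinuousOn (qq a₁ a₂ b₁ b₂) (Set.Icc α r₁) := by
    unfold qq
    fun_prop
  obtain ⟨ρ, h3, h4⟩ := intermediate_value_Icc h1 hcont ⟨hy, h2⟩
  exact ⟨ρ, h3.1, h4⟩

lemma line_int (h : LC R a₁ a₂ b₁ b₂) {x : ℝ} {S : Finset (ℤ × ℤ)}
    (hS : IsH (a₁, a₂) (b₁, b₂) R x S) {m : ℤ} (hm : 0 < m) (k : ℤ) :
    ∃ B : ℝ, tau a₁ a₂ b₁ b₂ 1 ≤ B ∧ B ≤ tau a₁ a₂ b₁ b₂ R ∧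
      (∀ r, tau a₁ a₂ b₁ b₂ 1 < r → r ≤ tau a₁ a₂ b₁ b₂ R →
        (r ≤ B ↔ qq a₁ a₂ b₁ b₂ r * (m : ℝ) ^ 2 ≤ x)) ∧
      ‖∑ n ∈ fib S m, ff R a₁ a₂ b₁ b₂ k ((n : ℝ) / m) -
        (m : ℂ) * ∫ r in (tau a₁ a₂ b₁ b₂ 1)..B, ff R a₁ a₂ b₁ b₂ k r‖ ≤
        Lm R a₁ a₂ b₁ b₂ * |(k : ℝ)| * (c3 R a₁ a₂ b₁ b₂ + 1) + 2 := by
  have hm0 : (0 : ℝ) < m := by exact_mod_cast hm
  have hm2 : (0 : ℝ) < (m : ℝ) ^ 2 := by positivity
  have hm1 : (1 : ℝ) ≤ m := by exact_mod_cast hm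
  have hΛ := h.Lm_pos
  have hc3 := h.c3_pos
  have hαβ := h.tau_lt
  have hk0 : 0 ≤ |(k : ℝ)| := abs_nonneg _
  set α := tau a₁ a₂ b₁ b₂ 1 with hα
  set β := tau a₁ a₂ b₁ b₂ R with hβ
  have hpos : 0 ≤ Lm R a₁ a₂ b₁ b₂ * |(k : ℝ)| * (c3 R a₁ a₂ b₁ b₂ + 1) + 2 := by positivity
  have hmem : ∀ n : ℤ, n ∈ fib S m ↔ α ≤ (n : ℝ) / m ∧ (n : ℝ) / m < β ∧
      qq a₁ a₂ b₁ b₂ ((n : ℝ) / m) * (m : ℝ) ^ 2 ≤ x := by
    intro n
    rw [mem_fib, h.mem_iff hS]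
    exact ⟨fun hh => hh.2, fun hh => ⟨hm, hh⟩⟩
  rcases lt_or_ge x (qq a₁ a₂ b₁ b₂ α * (m : ℝ) ^ 2) with hx | hx
  · refine ⟨α, le_rfl, hαβ.le, ?_, ?_⟩
    · intro r hr _
      constructor
      · intro hh; linarith
      · intro hh
        have := mul_lt_mul_of_pos_right (h.qq_lt le_rfl hr) hm2
        linarith
    · have he : fib S m = ∅ := by
        rw [eq_empty_iff_forall_notMem]
        intro n hn
        rw [hmem] at hn
        have := mul_le_mul_of_nonneg_right (h.qq_le le_rfl hn.1) hm2.le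
        linarith [hn.2.2]
      rw [he, sum_empty, intervalIntegral.integral_same, mul_zero, sub_zero, norm_zero]
      exact hpos
  · obtain ⟨ρ, hρ1, hρ2⟩ := h.exists_root (y := x / (m : ℝ) ^ 2) (by rwa [le_div_iff₀ hm2])
    have hρ3 : qq a₁ a₂ b₁ b₂ ρ * (m : ℝ) ^ 2 = x := by
      rw [hρ2]; field_simp
    have hiff : ∀ r, α ≤ r → (qq a₁ a₂ b₁ b₂ r * (m : ℝ) ^ 2 ≤ x ↔ r ≤ ρ) := by
      intro r hr
      constructor
      · intro hh
        by_contra hlt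
        push Not at hlt
        have := mul_lt_mul_of_pos_right (h.qq_lt hρ1 hlt) hm2
        linarith
      · intro hh
        have := mul_le_mul_of_nonneg_right (h.qq_le hr hh) hm2.le
        linarith
    set B := min β ρ with hB
    have hB1 : α ≤ B := le_min hαβ.le hρ1
    have hB2 : B ≤ β := min_le_left _ _
    refine ⟨B, hB1, hB2, ?_, ?_⟩
    · intro r hr hr2
      rw [hiff r hr.le, hB, le_min_iff]
      exact ⟨fun hh => hh.2, fun hh => ⟨hr2, hh⟩⟩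
    · set b : ℤ := min ⌈β * m⌉ (⌊ρ * m⌋ + 1) with hb
      have hfib : fib S m = Ico ⌈α * m⌉ b := by
        ext n
        rw [hmem, mem_Ico, hb, lt_min_iff, Int.ceil_le, Int.lt_ceil, Int.lt_add_one_iff,
          Int.le_floor, le_div_iff₀ hm0, div_lt_iff₀ hm0]
        constructor
        · rintro ⟨e1, e2, e3⟩
          have e4 := (hiff _ ((le_div_iff₀ hm0).2 e1)).1 e3
          rw [div_le_iff₀ hm0] at e4
          exact ⟨e1, e2, e4⟩
        · rintro ⟨e1, e2, e3⟩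
          refine ⟨e1, e2, (hiff _ ((le_div_iff₀ hm0).2 e1)).2 ?_⟩
          rwa [div_le_iff₀ hm0]
      have hBm : B * m = min (β * m) (ρ * m) := by
        rw [hB, min_mul_of_nonneg _ _ hm0.le]
      have hb1 : B * m ≤ b := by
        rw [hBm, hb]
        push_cast
        apply min_le_min
        · exact Int.le_ceil _
        · exact (Int.lt_floor_add_one _).le
      have hb2 : (b : ℝ) ≤ B * m + 1 := by
        rw [hBm, hb, ← min_add_add_right]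
        push_cast
        apply min_le_min
        · exact (Int.ceil_lt_add_one _).le
        · linarith [Int.floor_le (ρ * m)]
      have hdiv : ∀ t : ℝ, α * m ≤ t → α ≤ t / m := fun t ht => (le_div_iff₀ hm0).2 ht
      have key := sum_int (g := fun t => ff R a₁ a₂ b₁ b₂ k (t / m)) (A := α * m)
        (lam := Lm R a₁ a₂ b₁ b₂ * |(k : ℝ)| / m) (B := B * m) (b := b)
        (by
          apply (h.continuousOn_ff k).comp (continuous_id.div_const (m : ℝ)).continuousOn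
          intro t ht
          exact hdiv t ht)
        (fun t _ => (norm_ff k _).le)
        (fun t ht s hs hts => by
          have e1 := h.ff_lip k (hdiv t ht) (hdiv s hs)
          refine e1.trans ?_
          have e2 : |t / (m : ℝ) - s / m| ≤ 1 / m := by
            rw [← sub_div, abs_div, abs_of_pos hm0]
            gcongr
          calc 2 * Real.pi * ((a₁ * b₂ - a₂ * b₁) / c1 a₁ a₂ b₁ b₂ ^ 2) / Real.log R *
              |(k : ℝ)| * |t / (m : ℝ) - s / m| ≤ Lm R a₁ a₂ b₁ b₂ * |(k : ℝ)| * (1 / m) :=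
                mul_le_mul_of_nonneg_left e2 (by
                  have := mul_nonneg hΛ.le hk0
                  exact this)
            _ = _ := by ring)
        (by positivity) (mul_le_mul_of_nonneg_right hB1 hm0.le) hb1 hb2
      rw [hfib]
      have hint : ∫ t in (α * m)..(B * m), ff R a₁ a₂ b₁ b₂ k (t / m) =
          (m : ℂ) * ∫ r in α..B, ff R a₁ a₂ b₁ b₂ k r := by
        rw [intervalIntegral.integral_comp_div _ hm0.ne', mul_div_cancel_right₀ _ hm0.ne',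
          mul_div_cancel_right₀ _ hm0.ne', Complex.real_smul]
        push_cast
        rfl
      rw [← hint]
      refine key.trans ?_
      have e1 : Lm R a₁ a₂ b₁ b₂ * |(k : ℝ)| / m * (B * m - α * m + 1) =
          Lm R a₁ a₂ b₁ b₂ * |(k : ℝ)| * ((B - α) + 1 / m) := by
        field_simp
      rw [e1]
      have e2 : B - α + 1 / m ≤ c3 R a₁ a₂ b₁ b₂ + 1 := by
        have : 1 / (m : ℝ) ≤ 1 := by rw [div_le_one hm0]; exact hm1
        unfold c3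
        linarith
      have := mul_le_mul_of_nonneg_left e2 (mul_nonneg hΛ.le hk0)
      linarith

/-- **small frequencies** -/
theorem small (h : LC R a₁ a₂ b₁ b₂) : ∃ C : ℝ, 0 < C ∧ ∀ (x : ℝ) (S : Finset (ℤ × ℤ)) (k : ℤ),
    0 ≤ x → k ≠ 0 → IsH (a₁, a₂) (b₁, b₂) R x S →
    ‖∑ p ∈ S, ph R ((lr (a₁, a₂) (b₁, b₂) p).1 / (lr (a₁, a₂) (b₁, b₂) p).2) ^ k‖ ≤
      C * |(k : ℝ)| * Real.sqrt x := by
  have hΛ := h.Lm_pos
  have hc3 := h.c3_pos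
  have hc1 := h.c1_pos
  have hαβ := h.tau_lt
  refine ⟨(Lm R a₁ a₂ b₁ b₂ * (c3 R a₁ a₂ b₁ b₂ + 1) + 2 + c3 R a₁ a₂ b₁ b₂) / c1 a₁ a₂ b₁ b₂,
    by positivity, ?_⟩
  intro x S k hx hk hS
  have hk1 : (1 : ℝ) ≤ |(k : ℝ)| := by
    have : (1 : ℤ) ≤ |k| := Int.one_le_abs hk
    exact_mod_cast this
  set α := tau a₁ a₂ b₁ b₂ 1 with hα
  set β := tau a₁ a₂ b₁ b₂ R with hβ
  set M : ℤ := ⌊Real.sqrt x / c1 a₁ a₂ b₁ b₂⌋ with hM
  have hM0 : 0 ≤ M := Int.floor_nonneg.2 (by positivity)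
  have hM1 : (M : ℝ) ≤ Real.sqrt x / c1 a₁ a₂ b₁ b₂ := Int.floor_le _
  have hq : ∀ r, α ≤ r → c1 a₁ a₂ b₁ b₂ ^ 2 ≤ qq a₁ a₂ b₁ b₂ r := fun r hr => h.qq_alpha_pos hr
  have hSM : ∀ p ∈ S, 1 ≤ p.2 ∧ p.2 ≤ M := by
    intro p hp
    rw [h.mem_iff hS] at hp
    obtain ⟨e1, e2, e3, e4⟩ := hp
    refine ⟨by omega, Int.le_floor.2 ?_⟩
    have e5 : (0 : ℝ) < p.2 := by exact_mod_cast e1
    rw [le_div_iff₀ hc1]
    apply Real.le_sqrt_of_sq_le
    have e6 := mul_le_mul_of_nonneg_right (hq _ e2) (sq_nonneg (p.2 : ℝ))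
    nlinarith
  rw [sum_fib hSM]
  have hff : ∀ m ∈ Icc 1 M, ∑ n ∈ fib S m, ph R ((lr (a₁, a₂) (b₁, b₂) (n, m)).1 /
      (lr (a₁, a₂) (b₁, b₂) (n, m)).2) ^ k =
      ∑ n ∈ fib S m, ff R a₁ a₂ b₁ b₂ k ((n : ℝ) / m) := by
    intro m hm
    rw [mem_Icc] at hm
    refine sum_congr rfl fun n hn => ?_
    rw [mem_fib, h.mem_iff hS] at hn
    exact ph_eq_ff h k (by omega) hn.2.1
  rw [sum_congr rfl hff]
  have hline : ∀ m ∈ Icc 1 M, ∃ B : ℝ, α ≤ B ∧ B ≤ β ∧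
      (∀ r, α < r → r ≤ β → (r ≤ B ↔ qq a₁ a₂ b₁ b₂ r * (m : ℝ) ^ 2 ≤ x)) ∧
      ‖∑ n ∈ fib S m, ff R a₁ a₂ b₁ b₂ k ((n : ℝ) / m) -
        (m : ℂ) * ∫ r in α..B, ff R a₁ a₂ b₁ b₂ k r‖ ≤
        Lm R a₁ a₂ b₁ b₂ * |(k : ℝ)| * (c3 R a₁ a₂ b₁ b₂ + 1) + 2 := by
    intro m hm
    rw [mem_Icc] at hm
    exact h.line_int hS (by omega) k
  choose! B hB1 hB2 hB3 hB4 using hline
  -- the sum of the integrals
  have hffi : IntervalIntegrable (ff R a₁ a₂ b₁ b₂ k) volume α β := by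
    apply ContinuousOn.intervalIntegrable
    apply (h.continuousOn_ff k).mono
    intro r hr
    rw [Set.uIcc_of_le hαβ.le] at hr
    exact hr.1
  have hind : ∀ m ∈ Icc 1 M, (m : ℂ) * ∫ r in α..(B m), ff R a₁ a₂ b₁ b₂ k r =
      ∫ r in α..β, Set.indicator {r | r ≤ B m} (fun r => (m : ℂ) * ff R a₁ a₂ b₁ b₂ k r) r := by
    intro m hm
    rw [intervalIntegral.integral_indicator ⟨hB1 m hm, hB2 m hm⟩,
      intervalIntegral.integral_const_mul]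
  have hindi : ∀ m ∈ Icc 1 M, IntervalIntegrable
      (Set.indicator {r | r ≤ B m} (fun r => (m : ℂ) * ff R a₁ a₂ b₁ b₂ k r)) volume α β := by
    intro m _
    rw [intervalIntegrable_iff]
    exact ((intervalIntegrable_iff.1 (hffi.const_mul (m : ℂ))).indicator measurableSet_Iic)
  have hW : ‖∑ m ∈ Icc 1 M, (m : ℂ) * ∫ r in α..(B m), ff R a₁ a₂ b₁ b₂ k r‖ ≤
      c3 R a₁ a₂ b₁ b₂ * (Real.sqrt x / c1 a₁ a₂ b₁ b₂) := by
    rw [sum_congr rfl hind, ← intervalIntegral.integral_finset_sum hindi]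
    have hzero := h.integral_ff hk
    have hqcont : ContinuousOn (fun r => ((1 / qq a₁ a₂ b₁ b₂ r : ℝ) : ℂ) *
        ff R a₁ a₂ b₁ b₂ k r) (Set.uIcc α β) := by
      have hmem : ∀ r ∈ Set.uIcc α β, α ≤ r := by
        intro r hr
        rw [Set.uIcc_of_le hαβ.le] at hr
        exact hr.1
      apply ContinuousOn.mul
      · apply Complex.continuous_ofReal.comp_continuousOn
        apply continuousOn_const.div
        · unfold qq
          fun_prop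
        · intro r hr
          exact (lt_of_lt_of_le (by positivity) (hq r (hmem r hr))).ne'
      · exact (h.continuousOn_ff k).mono hmem
    have hz2 : ∫ r in α..β, ((x / 2 : ℝ) : ℂ) * (((1 / qq a₁ a₂ b₁ b₂ r : ℝ) : ℂ) *
        ff R a₁ a₂ b₁ b₂ k r) = 0 := by
      rw [intervalIntegral.integral_const_mul, hzero, mul_zero]
    have hsumi : IntervalIntegrable (fun r => ∑ m ∈ Icc 1 M,
        Set.indicator {r | r ≤ B m} (fun r => (m : ℂ) * ff R a₁ a₂ b₁ b₂ k r) r) volume α β := by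
      have := IntervalIntegrable.sum (Icc 1 M) hindi
      refine this.congr ?_
      intro r _
      simp
    rw [← sub_zero (∫ r in α..β, _), ← hz2, ← intervalIntegral.integral_sub hsumi
      (hqcont.intervalIntegrable.const_mul _)]
    refine (intervalIntegral.norm_integral_le_of_norm_le_const
      (C := Real.sqrt x / c1 a₁ a₂ b₁ b₂) ?_).trans ?_
    · intro r hr
      rw [Set.uIoc_of_le hαβ.le, Set.mem_Ioc] at hr
      have hqr := hq r hr.1.le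
      have hq0 : 0 < qq a₁ a₂ b₁ b₂ r := lt_of_lt_of_le (by positivity) hqr
      set y := x / qq a₁ a₂ b₁ b₂ r with hy
      have hy0 : 0 ≤ y := by positivity
      have hsy : Real.sqrt y ≤ Real.sqrt x / c1 a₁ a₂ b₁ b₂ := by
        rw [← Real.sqrt_sq hc1.le, ← Real.sqrt_div hx]
        apply Real.sqrt_le_sqrt
        rw [hy]
        exact div_le_div_of_nonneg_left hx (by positivity) hqr
      have e1 : ∑ m ∈ Icc 1 M, Set.indicator {r | r ≤ B m}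
          (fun r => (m : ℂ) * ff R a₁ a₂ b₁ b₂ k r) r =
          ((∑ m ∈ Icc 1 M, (if ((m : ℤ) : ℝ) ^ 2 ≤ y then ((m : ℤ) : ℝ) else 0) : ℝ) : ℂ) *
            ff R a₁ a₂ b₁ b₂ k r := by
        push_cast
        rw [sum_mul]
        refine sum_congr rfl fun m hm => ?_
        have e2 : r ≤ B m ↔ ((m : ℤ) : ℝ) ^ 2 ≤ y := by
          rw [hB3 m hm r hr.1 hr.2, hy, le_div_iff₀ hq0, mul_comm]
        by_cases e3 : r ≤ B m
        · rw [Set.indicator_of_mem (show r ∈ {r | r ≤ B m} from e3), if_pos (e2.1 e3)]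
          push_cast
          rfl
        · rw [Set.indicator_of_notMem (show r ∉ {r | r ≤ B m} from e3),
            if_neg (fun hh => e3 (e2.2 hh))]
          simp
      rw [e1]
      have e4 : ((x / 2 : ℝ) : ℂ) * (((1 / qq a₁ a₂ b₁ b₂ r : ℝ) : ℂ) *
          ff R a₁ a₂ b₁ b₂ k r) = ((y / 2 : ℝ) : ℂ) * ff R a₁ a₂ b₁ b₂ k r := by
        rw [← mul_assoc, ← Complex.ofReal_mul]
        congr 2
        rw [hy]
        ring
      rw [e4, ← sub_mul, norm_mul, norm_ff, mul_one, ← Complex.ofReal_sub, Complex.norm_real,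
        Real.norm_eq_abs]
      refine (sum_sq_le hy0 ?_).trans hsy
      exact hsy.trans_lt (Int.lt_floor_add_one _)
    · rw [abs_of_pos (by linarith), mul_comm]
      exact le_rfl
  have herr : ‖∑ m ∈ Icc 1 M, (∑ n ∈ fib S m, ff R a₁ a₂ b₁ b₂ k ((n : ℝ) / m) -
      (m : ℂ) * ∫ r in α..(B m), ff R a₁ a₂ b₁ b₂ k r)‖ ≤
      M * (Lm R a₁ a₂ b₁ b₂ * |(k : ℝ)| * (c3 R a₁ a₂ b₁ b₂ + 1) + 2) := by
    refine (norm_sum_le _ _).trans ((sum_le_sum hB4).trans ?_)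
    rw [sum_const, nsmul_eq_mul, Int.card_Icc]
    have : (((M + 1 - 1).toNat : ℕ) : ℝ) = M := by
      rw [add_sub_cancel_right]
      have : ((M.toNat : ℕ) : ℤ) = M := Int.toNat_of_nonneg hM0
      exact_mod_cast this
    rw [this]
  rw [sum_sub_distrib] at herr
  have hfin : ‖∑ m ∈ Icc 1 M, ∑ n ∈ fib S m, ff R a₁ a₂ b₁ b₂ k ((n : ℝ) / m)‖ ≤
      M * (Lm R a₁ a₂ b₁ b₂ * |(k : ℝ)| * (c3 R a₁ a₂ b₁ b₂ + 1) + 2) +
        c3 R a₁ a₂ b₁ b₂ * (Real.sqrt x / c1 a₁ a₂ b₁ b₂) := by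
    have e1 := norm_sub_norm_le (∑ m ∈ Icc 1 M, ∑ n ∈ fib S m,
      ff R a₁ a₂ b₁ b₂ k ((n : ℝ) / m)) (∑ m ∈ Icc 1 M, (m : ℂ) *
        ∫ r in α..(B m), ff R a₁ a₂ b₁ b₂ k r)
    linarith
  refine hfin.trans ?_
  have hs : 0 ≤ Real.sqrt x / c1 a₁ a₂ b₁ b₂ := by positivity
  have e1 : Lm R a₁ a₂ b₁ b₂ * |(k : ℝ)| * (c3 R a₁ a₂ b₁ b₂ + 1) + 2 ≤
      (Lm R a₁ a₂ b₁ b₂ * (c3 R a₁ a₂ b₁ b₂ + 1) + 2) * |(k : ℝ)| := by nlinarith
  have e0 : 0 ≤ Lm R a₁ a₂ b₁ b₂ * |(k : ℝ)| * (c3 R a₁ a₂ b₁ b₂ + 1) + 2 := by positivity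
  calc M * (Lm R a₁ a₂ b₁ b₂ * |(k : ℝ)| * (c3 R a₁ a₂ b₁ b₂ + 1) + 2) +
        c3 R a₁ a₂ b₁ b₂ * (Real.sqrt x / c1 a₁ a₂ b₁ b₂) ≤
      (Real.sqrt x / c1 a₁ a₂ b₁ b₂) *
        ((Lm R a₁ a₂ b₁ b₂ * (c3 R a₁ a₂ b₁ b₂ + 1) + 2) * |(k : ℝ)|) +
        (c3 R a₁ a₂ b₁ b₂ * |(k : ℝ)|) * (Real.sqrt x / c1 a₁ a₂ b₁ b₂) := by
        apply add_le_add
        · exact mul_le_mul hM1 e1 e0 hs
        · apply mul_le_mul_of_nonneg_right _ hs
          nlinarith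
    _ = _ := by ring

end LC

end

end Pool.Agent.Lib.MP391708.MAR.LT
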