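import Pool.Agent.Lib.MP_391708_nt.MAR.LatJ
import Pool.Agent.Lib.MP_391708_nt.MR.Type
import Pool.Agent.Lib.MP_391708_nt.MR.VDC

/-!
# LATT, real quadratic case
-/

set_option autoImplicit false

namespace Pool.Agent.Lib.MP391708.MAR

open Finset Filter Topology
open Pool.Agent.Lib.MP391708.MR.TypeM (VDCq card_int_le eventually_const_mul_le)

namespace LT

section

variable {R a₁ a₂ b₁ b₂ : ℝ}

lemma card_fib (h : LC R a₁ a₂ b₁ b₂) {x : ℝ} {S : Finset (ℤ × ℤ)}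
    (hS : IsH (a₁, a₂) (b₁, b₂) R x S) {m : ℤ} (hm : 0 < m) :
    ((fib S m).card : ℝ) ≤ c3 R a₁ a₂ b₁ b₂ * m + 1 := by
  have hm0 : (0 : ℝ) < m := by exact_mod_cast hm
  have hc3 := h.c3_pos
  have := card_int_le (fib S m) (α := tau a₁ a₂ b₁ b₂ 1 * m) (β := tau a₁ a₂ b₁ b₂ R * m)
    (by
      have := mul_le_mul_of_nonneg_right h.tau_lt.le hm0.le
      linarith)
    (by
      intro n hn
      rw [mem_fib, h.mem_iff hS] at hn
      obtain ⟨_, e1, e2, _⟩ := hn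
      exact ⟨(le_div_iff₀ hm0).1 e1, ((div_lt_iff₀ hm0).1 e2).le⟩)
  unfold c3
  linarith

lemma line_bnd (h : LC R a₁ a₂ b₁ b₂) {q : ℕ} (hq : 2 ≤ q) {Cq : ℝ} (hCq : 0 < Cq)
    (hC : VDCq q Cq) {x : ℝ} {S : Finset (ℤ × ℤ)}
    (hS : IsH (a₁, a₂) (b₁, b₂) R x S) {m : ℤ} (hm : 0 < m) {k : ℤ} (hk : k ≠ 0)
    (hlb : lb R a₁ a₂ b₁ b₂ q k m ≤ 1) :
    ‖∑ n ∈ fib S m, ph R ((lr (a₁, a₂) (b₁, b₂) (n, m)).1 /
      (lr (a₁, a₂) (b₁, b₂) (n, m)).2) ^ k‖ ≤ bnd R a₁ a₂ b₁ b₂ q Cq k m := by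
  have hm0 : (0 : ℝ) < m := by exact_mod_cast hm
  refine line_vdc h hq hCq hC hm hk (fib S m) ?_ ?_ hlb
  · intro n hn
    rw [mem_fib, h.mem_iff hS] at hn
    exact ⟨hn.2.1, hn.2.2.1⟩
  · intro a ha c hc b hab hbc
    rw [mem_fib, h.mem_iff hS] at ha hc ⊢
    simp only at ha hc ⊢
    have e1 : (a : ℝ) / m ≤ b / m := by gcongr
    have e2 : (b : ℝ) / m ≤ c / m := by gcongr
    refine ⟨hm, ha.2.1.trans e1, e2.trans_lt hc.2.2.1, ?_⟩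
    refine le_trans ?_ hc.2.2.2
    exact mul_le_mul_of_nonneg_right (h.qq_le (ha.2.1.trans e1) e2) (by positivity)

/-- the bound on a line which is not too short -/
lemma bnd_le (h : LC R a₁ a₂ b₁ b₂) {q : ℕ} (hq : 2 ≤ q) {Cq κ e g : ℝ} (hCq : 0 < Cq)
    (he : e = 1 / (2 ^ q - 2)) (hg1 : g ≤ e / 4)
    (hg2 : g ≤ 2 / 2 ^ q - ((q : ℝ) / 2 - κ) * e) :
    ∃ C : ℝ, 0 < C ∧ ∀ (x : ℝ) (k : ℤ) (m : ℝ), 1 ≤ x → x ^ κ ≤ |(k : ℝ)| →
      |(k : ℝ)| ≤ x ^ (((q : ℝ) - 1) / 2) → x ^ (1 / 2 - 1 / (4 * q) : ℝ) ≤ m →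
      m ≤ x ^ (1 / 2 : ℝ) / c1 a₁ a₂ b₁ b₂ →
      lb R a₁ a₂ b₁ b₂ q k m ≤ K0 R a₁ a₂ b₁ b₂ q * x ^ (-(1 / 4) : ℝ) ∧
      bnd R a₁ a₂ b₁ b₂ q Cq k m ≤ 1 + C * x ^ (1 / 2 - g) := by
  have hc1 := h.c1_pos
  have hc3 := h.c3_pos
  have hK0 := h.K0_pos q
  have hRR : 0 < RR R a₁ a₂ b₁ b₂ q := by linarith [h.RR_ge q]
  have hq2 : (2 : ℝ) ^ 2 ≤ 2 ^ q := pow_le_pow_right₀ (by norm_num) hq
  norm_num at hq2
  have hqd : (0 : ℝ) < 2 ^ q - 2 := by linarith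
  have he0 : 0 < e := by rw [he]; positivity
  have hqR : (2 : ℝ) ≤ q := by exact_mod_cast hq
  have hq0 : (0 : ℝ) < q := by linarith
  set K := K0 R a₁ a₂ b₁ b₂ q with hK
  set c := c1 a₁ a₂ b₁ b₂ with hc
  set f : ℝ := 1 - 2 / (2 : ℝ) ^ (q - 1) with hf
  have hf' : f = 1 - 2 * (2 / 2 ^ q) := by
    rw [hf]
    obtain ⟨j, rfl⟩ : ∃ j, q = j + 1 := ⟨q - 1, by omega⟩
    rw [Nat.add_sub_cancel, pow_succ]
    field_simp
  have hf0 : 0 ≤ f := by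
    rw [hf', sub_nonneg, ← mul_div_assoc, div_le_one (by positivity)]
    linarith
  refine ⟨Cq * RR R a₁ a₂ b₁ b₂ q * ((c3 R a₁ a₂ b₁ b₂ / c) * K ^ e +
    (c3 R a₁ a₂ b₁ b₂ / c) ^ f * (K * c ^ q) ^ (-e)), by positivity, ?_⟩
  intro x k m hx hk1 hk2 hm1 hm2
  have hx0 : 0 < x := by linarith
  have hm0 : 0 < m := lt_of_lt_of_le (by positivity) hm1
  have hk0 : 0 < |(k : ℝ)| := lt_of_lt_of_le (by positivity) hk1
  have hlb0 : 0 < lb R a₁ a₂ b₁ b₂ q k m := by unfold lb; positivity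
  -- upper bound of `lb`
  have hup : lb R a₁ a₂ b₁ b₂ q k m ≤ K * x ^ (-(1 / 4) : ℝ) := by
    unfold lb
    rw [div_le_iff₀ (by positivity), mul_assoc]
    apply mul_le_mul_of_nonneg_left _ hK0.le
    refine hk2.trans ?_
    have e1 : (x ^ (1 / 2 - 1 / (4 * q) : ℝ)) ^ q ≤ m ^ q := pow_le_pow_left₀ (by positivity) hm1 q
    rw [← Real.rpow_natCast, ← Real.rpow_mul hx0.le] at e1
    calc x ^ (((q : ℝ) - 1) / 2) ≤ x ^ (-(1 / 4) : ℝ) * x ^ ((1 / 2 - 1 / (4 * (q : ℝ))) * q) := by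
          rw [← Real.rpow_add hx0]
          apply Real.rpow_le_rpow_of_exponent_le hx
          have : (1 / 2 - 1 / (4 * (q : ℝ))) * q = q / 2 - 1 / 4 := by field_simp
          rw [this]
          linarith
      _ ≤ _ := mul_le_mul_of_nonneg_left e1 (by positivity)
  refine ⟨hup, ?_⟩
  -- lower bound of `lb`
  have hlow : K * c ^ q * x ^ (κ - q / 2) ≤ lb R a₁ a₂ b₁ b₂ q k m := by
    unfold lb
    rw [le_div_iff₀ (by positivity)]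
    have e1 : m ^ q ≤ (x ^ (1 / 2 : ℝ) / c) ^ q := pow_le_pow_left₀ hm0.le hm2 q
    have e2 : (x ^ (1 / 2 : ℝ) / c) ^ q = x ^ ((q : ℝ) / 2) / c ^ q := by
      rw [div_pow, ← Real.rpow_natCast (x ^ (1 / 2 : ℝ)), ← Real.rpow_mul hx0.le]
      congr 2
      ring
    rw [e2] at e1
    calc K * c ^ q * x ^ (κ - q / 2) * m ^ q ≤
        K * c ^ q * x ^ (κ - q / 2) * (x ^ ((q : ℝ) / 2) / c ^ q) := by gcongr
      _ = K * (x ^ (κ - q / 2) * x ^ ((q : ℝ) / 2)) := by field_simp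
      _ = K * x ^ κ := by rw [← Real.rpow_add hx0]; congr 2; ring
      _ ≤ K * |(k : ℝ)| := by gcongr
  have hcm : c3 R a₁ a₂ b₁ b₂ * m ≤ c3 R a₁ a₂ b₁ b₂ / c * x ^ (1 / 2 : ℝ) := by
    calc c3 R a₁ a₂ b₁ b₂ * m ≤ c3 R a₁ a₂ b₁ b₂ * (x ^ (1 / 2 : ℝ) / c) := by gcongr
      _ = _ := by ring
  have hx1 : ∀ u v : ℝ, u ≤ v → x ^ u ≤ x ^ v := fun u v huv =>
    Real.rpow_le_rpow_of_exponent_le hx huv
  have t1 : (c3 R a₁ a₂ b₁ b₂ * m) * (lb R a₁ a₂ b₁ b₂ q k m) ^ ((1 : ℝ) / (2 ^ q - 2)) ≤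
      (c3 R a₁ a₂ b₁ b₂ / c) * K ^ e * x ^ (1 / 2 - g) := by
    rw [← he]
    calc (c3 R a₁ a₂ b₁ b₂ * m) * (lb R a₁ a₂ b₁ b₂ q k m) ^ e ≤
        (c3 R a₁ a₂ b₁ b₂ / c * x ^ (1 / 2 : ℝ)) * (K * x ^ (-(1 / 4) : ℝ)) ^ e :=
          mul_le_mul hcm (Real.rpow_le_rpow hlb0.le hup he0.le) (by positivity) (by positivity)
      _ = (c3 R a₁ a₂ b₁ b₂ / c) * K ^ e * x ^ (1 / 2 + -(1 / 4) * e) := by
          rw [Real.mul_rpow hK0.le (by positivity), ← Real.rpow_mul hx0.le, Real.rpow_add hx0]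
          ring
      _ ≤ _ := by
          apply mul_le_mul_of_nonneg_left (hx1 _ _ _) (by positivity)
          linarith
  have t2 : (c3 R a₁ a₂ b₁ b₂ * m) ^ (1 - 2 / (2 : ℝ) ^ (q - 1)) *
      (lb R a₁ a₂ b₁ b₂ q k m) ^ (-(1 : ℝ) / (2 ^ q - 2)) ≤
      (c3 R a₁ a₂ b₁ b₂ / c) ^ f * (K * c ^ q) ^ (-e) * x ^ (1 / 2 - g) := by
    have hne : -(1 : ℝ) / (2 ^ q - 2) = -e := by rw [he]; ring
    rw [← hf, hne]
    have e1 : (lb R a₁ a₂ b₁ b₂ q k m) ^ (-e) ≤ (K * c ^ q * x ^ (κ - q / 2)) ^ (-e) :=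
      Real.rpow_le_rpow_of_nonpos (by positivity) hlow (by linarith)
    have e2 : (c3 R a₁ a₂ b₁ b₂ * m) ^ f ≤ (c3 R a₁ a₂ b₁ b₂ / c * x ^ (1 / 2 : ℝ)) ^ f :=
      Real.rpow_le_rpow (by positivity) hcm hf0
    calc (c3 R a₁ a₂ b₁ b₂ * m) ^ f * (lb R a₁ a₂ b₁ b₂ q k m) ^ (-e) ≤
        (c3 R a₁ a₂ b₁ b₂ / c * x ^ (1 / 2 : ℝ)) ^ f * (K * c ^ q * x ^ (κ - q / 2)) ^ (-e) :=
          mul_le_mul e2 e1 (by positivity) (by positivity)
      _ = (c3 R a₁ a₂ b₁ b₂ / c) ^ f * (K * c ^ q) ^ (-e) *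
          x ^ (1 / 2 * f + (κ - q / 2) * (-e)) := by
          rw [Real.mul_rpow (by positivity) (by positivity),
            Real.mul_rpow (by positivity) (by positivity), ← Real.rpow_mul hx0.le,
            ← Real.rpow_mul hx0.le, Real.rpow_add hx0]
          ring
      _ ≤ _ := by
          apply mul_le_mul_of_nonneg_left (hx1 _ _ _) (by positivity)
          rw [hf']
          linarith
  unfold bnd
  have t3 := add_le_add t1 t2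
  have t4 := mul_le_mul_of_nonneg_left t3 (mul_pos hCq hRR).le
  linarith

/-- middle range of frequencies -/
lemma mid (h : LC R a₁ a₂ b₁ b₂) {q : ℕ} (hq : 2 ≤ q) {κ : ℝ}
    (hκ : ((q : ℝ) / 2 - κ) / (2 ^ q - 2) < 2 / 2 ^ q) :
    ∃ c' : ℝ, 0 < c' ∧ c' < 1 ∧ ∀ᶠ x : ℝ in atTop, ∀ k : ℤ, k ≠ 0 → x ^ κ ≤ |(k : ℝ)| →
      |(k : ℝ)| ≤ x ^ (((q : ℝ) - 1) / 2) → ∀ S : Finset (ℤ × ℤ),
        IsH (a₁, a₂) (b₁, b₂) R x S →
        ‖∑ p ∈ S, ph R ((lr (a₁, a₂) (b₁, b₂) p).1 / (lr (a₁, a₂) (b₁, b₂) p).2) ^ k‖ ≤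
          x ^ (1 - c') := by
  obtain ⟨Cq, hCq, hC⟩ := Pool.Agent.Lib.MP391708.MR.specVDC q hq
  have hq2 : (2 : ℝ) ^ 2 ≤ 2 ^ q := pow_le_pow_right₀ (by norm_num) hq
  norm_num at hq2
  have hqd : (0 : ℝ) < 2 ^ q - 2 := by linarith
  set e : ℝ := 1 / (2 ^ q - 2) with he
  have he0 : 0 < e := by positivity
  have he2 : e ≤ 1 / 2 := by
    rw [he, div_le_div_iff₀ hqd (by norm_num)]; linarith
  have hκ' : 0 < 2 / 2 ^ q - ((q : ℝ) / 2 - κ) * e := by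
    rw [he, mul_one_div]; linarith
  set g := min (e / 4) (2 / 2 ^ q - ((q : ℝ) / 2 - κ) * e) with hg
  have hg0 : 0 < g := lt_min (by positivity) hκ'
  have hg1 : g ≤ e / 4 := min_le_left _ _
  obtain ⟨C₃, hC₃, hbnd⟩ := bnd_le h hq hCq he hg1 (min_le_right _ _)
  have hqR : (2 : ℝ) ≤ q := by exact_mod_cast hq
  set δ : ℝ := 1 / (4 * q) with hδ
  have hδ0 : 0 < δ := by positivity
  have hδ1 : δ ≤ 1 / 8 := by
    rw [hδ, div_le_div_iff₀ (by positivity) (by norm_num)]; linarith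
  set d := min δ g with hd
  have hd0 : 0 < d := lt_min hδ0 hg0
  have hd1 : d ≤ δ := min_le_left _ _
  have hd2 : d ≤ g := min_le_right _ _
  have hc1 := h.c1_pos
  have hc3 := h.c3_pos
  set C₄ : ℝ := (c3 R a₁ a₂ b₁ b₂ + 1) + (1 + C₃) / c1 a₁ a₂ b₁ b₂ with hC₄
  refine ⟨d / 2, by positivity, by linarith, ?_⟩
  filter_upwards [eventually_ge_atTop (1 : ℝ),
    eventually_const_mul_le (C := K0 R a₁ a₂ b₁ b₂ q) (a := -(1 / 4)) (b := 0) (by norm_num),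
    eventually_const_mul_le (C := C₄) (a := 1 - d) (b := 1 - d / 2) (by linarith)]
    with x hx hx1 hx2
  intro k hk hk1 hk2 S hS
  have hx0 : 0 < x := by linarith
  rw [Real.rpow_zero] at hx1
  set s := x ^ (1 / 2 : ℝ) with hs
  have hs0 : 0 < s := by positivity
  have hs1 : 1 ≤ s := Real.one_le_rpow hx (by norm_num)
  have hsx : s ^ 2 = x := by
    rw [hs, ← Real.rpow_natCast, ← Real.rpow_mul hx0.le]; norm_num
  set T := x ^ (1 / 2 - 1 / (4 * q) : ℝ) with hT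
  have hT1 : 1 ≤ T := Real.one_le_rpow hx (by rw [← hδ]; linarith)
  set M : ℤ := ⌊s / c1 a₁ a₂ b₁ b₂⌋ with hM
  have hM0 : 0 ≤ M := Int.floor_nonneg.2 (by positivity)
  have hM1 : (M : ℝ) ≤ s / c1 a₁ a₂ b₁ b₂ := Int.floor_le _
  have hSM : ∀ p ∈ S, 1 ≤ p.2 ∧ p.2 ≤ M := by
    intro p hp
    rw [h.mem_iff hS] at hp
    obtain ⟨e1, e2, e3, e4⟩ := hp
    refine ⟨by omega, Int.le_floor.2 ?_⟩
    have e5 : (0 : ℝ) < p.2 := by exact_mod_cast e1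
    rw [le_div_iff₀ hc1]
    have e6 := mul_le_mul_of_nonneg_right
      (show c1 a₁ a₂ b₁ b₂ ^ 2 ≤ _ from h.qq_alpha_pos e2) (sq_nonneg (p.2 : ℝ))
    exact le_of_sq_le_sq (by rw [hsx]; nlinarith) hs0.le
  rw [sum_fib hSM]
  set B := 1 + C₃ * x ^ (1 / 2 - g) with hB
  have hB0 : 0 ≤ B := by positivity
  have hline : ∀ m ∈ Icc 1 M, ‖∑ n ∈ fib S m, ph R ((lr (a₁, a₂) (b₁, b₂) (n, m)).1 /
      (lr (a₁, a₂) (b₁, b₂) (n, m)).2) ^ k‖ ≤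
      (if (m : ℝ) < T then (c3 R a₁ a₂ b₁ b₂ + 1) * T else 0) + B := by
    intro m hm
    rw [mem_Icc] at hm
    have hm0 : 0 < m := by omega
    split_ifs with hmT
    · have e1 := card_fib h hS hm0
      have e2 : ‖∑ n ∈ fib S m, ph R ((lr (a₁, a₂) (b₁, b₂) (n, m)).1 /
          (lr (a₁, a₂) (b₁, b₂) (n, m)).2) ^ k‖ ≤ ((fib S m).card : ℝ) := by
        refine (norm_sum_le _ _).trans ?_
        refine (sum_le_sum (g := fun _ => (1 : ℝ)) fun n _ => ?_).trans (by simp)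
        rw [norm_zpow, norm_ph, one_zpow]
      have e3 : c3 R a₁ a₂ b₁ b₂ * m ≤ c3 R a₁ a₂ b₁ b₂ * T := by gcongr
      linarith
    · rw [zero_add]
      have e1 : (m : ℝ) ≤ s / c1 a₁ a₂ b₁ b₂ := by
        have : (m : ℝ) ≤ M := by exact_mod_cast hm.2
        linarith
      obtain ⟨f1, f2⟩ := hbnd x k m hx hk1 hk2 (not_lt.1 hmT) e1
      exact (line_bnd h hq hCq hC hS hm0 hk (f1.trans hx1)).trans f2
  refine (norm_sum_le _ _).trans ((sum_le_sum hline).trans ?_)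
  rw [sum_add_distrib]
  have hMcard : ((Icc (1 : ℤ) M).card : ℝ) ≤ s / c1 a₁ a₂ b₁ b₂ := by
    rw [Int.card_Icc, add_sub_cancel_right]
    have : (((M.toNat : ℕ) : ℤ) : ℝ) = M := by rw [Int.toNat_of_nonneg hM0]
    have h2 : ((M.toNat : ℕ) : ℝ) = M := by exact_mod_cast this
    rw [h2]
    exact hM1
  have p1 : ∑ m ∈ Icc 1 M, (if (m : ℝ) < T then (c3 R a₁ a₂ b₁ b₂ + 1) * T else 0) ≤
      T * ((c3 R a₁ a₂ b₁ b₂ + 1) * T) := by
    rw [← sum_filter, sum_const, nsmul_eq_mul]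
    apply mul_le_mul_of_nonneg_right _ (by positivity)
    have := card_int_le ((Icc (1 : ℤ) M).filter (fun m : ℤ => (m : ℝ) < T))
      (α := 1) (β := T) (by linarith) (by
        intro m hm
        rw [mem_filter, mem_Icc] at hm
        exact ⟨by exact_mod_cast hm.1.1, hm.2.le⟩)
    linarith
  have p2 : ∑ _m ∈ Icc (1 : ℤ) M, B ≤ s / c1 a₁ a₂ b₁ b₂ * B := by
    rw [sum_const, nsmul_eq_mul]
    exact mul_le_mul_of_nonneg_right hMcard hB0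
  refine (add_le_add p1 p2).trans (le_trans ?_ hx2)
  have hx3 : ∀ u v : ℝ, u ≤ v → x ^ u ≤ x ^ v := fun u v huv =>
    Real.rpow_le_rpow_of_exponent_le hx huv
  have r1 : T * T ≤ x ^ (1 - d) := by
    rw [hT, ← Real.rpow_add hx0]
    apply hx3
    rw [← hδ]
    linarith
  have r2 : s * x ^ (1 / 2 - g) ≤ x ^ (1 - d) := by
    rw [hs, ← Real.rpow_add hx0]
    apply hx3
    linarith
  have r3 : s ≤ x ^ (1 - d) := by
    rw [hs]
    apply hx3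
    linarith
  calc T * ((c3 R a₁ a₂ b₁ b₂ + 1) * T) + s / c1 a₁ a₂ b₁ b₂ * B =
      (c3 R a₁ a₂ b₁ b₂ + 1) * (T * T) + (s + C₃ * (s * x ^ (1 / 2 - g))) / c1 a₁ a₂ b₁ b₂ := by
        rw [hB]; ring
    _ ≤ (c3 R a₁ a₂ b₁ b₂ + 1) * x ^ (1 - d) +
        (x ^ (1 - d) + C₃ * x ^ (1 - d)) / c1 a₁ a₂ b₁ b₂ := by gcongr
    _ = C₄ * x ^ (1 - d) := by rw [hC₄]; ring

/-- all frequencies up to `x^(n/2)` -/
lemma type_ind (h : LC R a₁ a₂ b₁ b₂) (n : ℕ) (hn : 1 ≤ n) :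
    ∃ c' : ℝ, 0 < c' ∧ c' < 1 ∧ ∀ᶠ x : ℝ in atTop, ∀ k : ℤ, k ≠ 0 →
      |(k : ℝ)| ≤ x ^ ((n : ℝ) / 2) → ∀ S : Finset (ℤ × ℤ),
        IsH (a₁, a₂) (b₁, b₂) R x S →
        ‖∑ p ∈ S, ph R ((lr (a₁, a₂) (b₁, b₂) p).1 / (lr (a₁, a₂) (b₁, b₂) p).2) ^ k‖ ≤
          x ^ (1 - c') := by
  induction n, hn using Nat.le_induction with
  | base =>
    obtain ⟨c₁, h1, h2, h3⟩ := mid h (q := 2) le_rfl (κ := 1 / 8) (by norm_num)
    obtain ⟨C, hC0, hC⟩ := h.small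
    refine ⟨min c₁ (1 / 16), by positivity, (min_le_left _ _).trans_lt h2, ?_⟩
    filter_upwards [h3, eventually_ge_atTop (1 : ℝ),
      eventually_const_mul_le (C := C) (a := 5 / 8) (b := 15 / 16) (by norm_num)]
      with x hx hx1 hx2
    intro k hk hk2 S hS
    have hx0 : 0 < x := by linarith
    rcases le_or_gt (x ^ (1 / 8 : ℝ)) |(k : ℝ)| with hk1 | hk1
    · refine (hx k hk hk1 ?_ S hS).trans ?_
      · norm_num at hk2 ⊢
        exact hk2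
      · apply Real.rpow_le_rpow_of_exponent_le hx1
        linarith [min_le_left c₁ (1 / 16 : ℝ)]
    · refine (hC x S k hx0.le hk hS).trans ?_
      calc C * |(k : ℝ)| * Real.sqrt x ≤
          C * x ^ (1 / 8 : ℝ) * x ^ (1 / 2 : ℝ) := by
            rw [Real.sqrt_eq_rpow]
            gcongr
        _ = C * x ^ (5 / 8 : ℝ) := by
          rw [mul_assoc, ← Real.rpow_add hx0]; norm_num
        _ ≤ x ^ (15 / 16 : ℝ) := hx2
        _ ≤ _ := by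
          apply Real.rpow_le_rpow_of_exponent_le hx1
          linarith [min_le_right c₁ (1 / 16 : ℝ)]
  | succ n hn ih =>
    obtain ⟨c₀, i1, i2, i3⟩ := ih
    have hcond : (((n + 2 : ℕ) : ℝ) / 2 - (n : ℝ) / 2) / (2 ^ (n + 2) - 2) < 2 / 2 ^ (n + 2) := by
      have h8 : (2 : ℝ) ^ 3 ≤ 2 ^ (n + 2) := pow_le_pow_right₀ (by norm_num) (by omega)
      norm_num at h8
      rw [div_lt_div_iff₀ (by linarith) (by positivity)]
      push_cast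
      nlinarith
    obtain ⟨c₁, h1, h2, h3⟩ := mid h (q := n + 2) (by omega) (κ := (n : ℝ) / 2) hcond
    refine ⟨min c₀ c₁, lt_min i1 h1, (min_le_left _ _).trans_lt i2, ?_⟩
    filter_upwards [i3, h3, eventually_ge_atTop (1 : ℝ)] with x hx hx' hx1
    intro k hk hk2 S hS
    rcases le_or_gt |(k : ℝ)| (x ^ ((n : ℝ) / 2)) with hk1 | hk1
    · refine (hx k hk hk1 S hS).trans ?_
      apply Real.rpow_le_rpow_of_exponent_le hx1
      linarith [min_le_left c₀ c₁]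
    · refine (hx' k hk hk1.le ?_ S hS).trans ?_
      · push_cast at hk2 ⊢
        have : ((n : ℝ) + 2 - 1) / 2 = ((n : ℝ) + 1) / 2 := by ring
        rw [this]
        exact hk2
      · apply Real.rpow_le_rpow_of_exponent_le hx1
        linarith [min_le_right c₀ c₁]

theorem type (h : LC R a₁ a₂ b₁ b₂) {A : ℝ} (hA : 1 ≤ A) :
    ∃ c : ℝ, 0 < c ∧ c < 1 ∧ ∀ᶠ x : ℝ in atTop, ∀ k : ℤ, k ≠ 0 → |(k : ℝ)| ≤ x ^ A →
      ∀ S : Finset (ℤ × ℤ), IsH (a₁, a₂) (b₁, b₂) R x S →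
        ‖∑ p ∈ S, ph R ((lr (a₁, a₂) (b₁, b₂) p).1 / (lr (a₁, a₂) (b₁, b₂) p).2) ^ k‖ ≤
          x ^ (1 - c) := by
  have hn : 1 ≤ ⌈2 * A⌉₊ := by
    apply Nat.one_le_iff_ne_zero.2
    intro h
    rw [Nat.ceil_eq_zero] at h
    linarith
  obtain ⟨c, h1, h2, h3⟩ := type_ind h ⌈2 * A⌉₊ hn
  refine ⟨c, h1, h2, ?_⟩
  filter_upwards [h3, eventually_ge_atTop (1 : ℝ)] with x hx hx1
  intro k hk hk2 S hS
  refine hx k hk (hk2.trans ?_) S hS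
  apply Real.rpow_le_rpow_of_exponent_le hx1
  have := Nat.le_ceil (2 * A)
  linarith

end

end LT

open MAR.LT

/-- **LATT** -/
theorem specLatT : SpecLatT := by
  intro R V e₁ e₂ hR hV hB A hA
  obtain ⟨h1, h2, h3⟩ := hB
  rcases lt_or_ge 0 (e₁.1 * e₂.2 - e₁.2 * e₂.1) with hD | hD
  · have h : LC R e₁.1 e₁.2 e₂.1 e₂.2 := ⟨hR, h1, h2, by linarith⟩
    exact LT.type h hA
  · have hD' : e₁.1 * e₂.2 - e₁.2 * e₂.1 < 0 := by
      rcases hD.lt_or_eq with h | h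
      · exact h
      · rw [h, abs_zero] at h3
        linarith
    have h : LC R e₁.1 e₁.2 (-e₂.1) (-e₂.2) := ⟨hR, h1, h2, by linarith⟩
    obtain ⟨c, hc0, hc1, hc⟩ := LT.type h hA
    refine ⟨c, hc0, hc1, ?_⟩
    filter_upwards [hc] with x hx k hk hk2 S hS
    have hlr : ∀ p : ℤ × ℤ, lr (e₁.1, e₁.2) (-e₂.1, -e₂.2) p = lr e₁ e₂ (p.1, -p.2) := by
      intro p
      unfold lr
      push_cast
      apply Prod.ext
      · simp only; ring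
      · simp only; ring
    set S' : Finset (ℤ × ℤ) := S.image (fun p => (p.1, -p.2)) with hS'
    have hmem : ∀ p : ℤ × ℤ, p ∈ S' ↔ (p.1, -p.2) ∈ S := by
      intro p
      rw [hS', mem_image]
      constructor
      · rintro ⟨q, hq, rfl⟩
        simpa using hq
      · intro hp
        exact ⟨(p.1, -p.2), hp, by simp⟩
    have hH : IsH (e₁.1, e₁.2) (-e₂.1, -e₂.2) R x S' := by
      intro p
      rw [hmem, hS (p.1, -p.2), hlr]
    have key := hx k hk hk2 S' hH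
    rw [hS', sum_image] at key
    · refine le_trans (le_of_eq ?_) key
      congr 1
      refine sum_congr rfl fun p _ => ?_
      rw [hlr]
      simp
    · intro p _ p' _ he
      have e1 := congrArg Prod.fst he
      have e2 := congrArg Prod.snd he
      simp only [neg_inj] at e1 e2
      exact Prod.ext e1 e2

end Pool.Agent.Lib.MP391708.MAR
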