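import Pool.Agent.Lib.MP_391708_nt.MAR.LatA
import Pool.Agent.Lib.MP_391708_nt.MR.TypeC

/-!
# LATT, real quadratic case: van der Corput's test on a line
-/

set_option autoImplicit false

namespace Pool.Agent.Lib.MP391708.MAR.LT

open Finset Filter Topology
open Pool.Agent.Lib.MP391708.MR.TypeM (VDCq exists_prog)

/-- the logarithm, cut off smoothly below `δ` -/
noncomputable def lgc (δ u : ℝ) : ℝ := Real.smoothTransition (2 * u / δ - 1) * Real.log u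

lemma lgc_eq {δ u : ℝ} (hδ : 0 < δ) (hu : δ ≤ u) : lgc δ u = Real.log u := by
  unfold lgc
  rw [Real.smoothTransition.one_of_one_le, one_mul]
  rw [le_sub_iff_add_le, le_div_iff₀ hδ]
  linarith

lemma contDiff_lgc {δ : ℝ} (hδ : 0 < δ) (q : ℕ) : ContDiff ℝ q (lgc δ) := by
  rw [contDiff_iff_contDiffAt]
  intro u
  by_cases hu : u = 0
  · have h : lgc δ =ᶠ[𝓝 u] fun _ => (0 : ℝ) := by
      filter_upwards [Iio_mem_nhds (show u < δ / 2 by rw [hu]; positivity)] with v hv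
      unfold lgc
      rw [Real.smoothTransition.zero_of_nonpos, zero_mul]
      rw [sub_nonpos, div_le_one hδ]
      have : v < δ / 2 := hv
      linarith
    exact contDiffAt_const.congr_of_eventuallyEq h
  · apply ContDiffAt.mul
    · exact (Real.smoothTransition.contDiff.comp
        (((contDiff_const.mul contDiff_id).div_const _).sub contDiff_const)).contDiffAt
    · exact Real.contDiffAt_log.2 hu

lemma hasDerivAt_quot {a c t : ℝ} (h : a * t + c ≠ 0) (n : ℕ) :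
    HasDerivAt (fun t : ℝ => (a / (a * t + c)) ^ (n + 1))
      (-((n + 1 : ℝ) * (a / (a * t + c)) ^ (n + 2))) t := by
  have h1 : HasDerivAt (fun t : ℝ => a * t + c) a t := by
    simpa using ((hasDerivAt_id t).const_mul a).add_const c
  have h2 : HasDerivAt (fun t : ℝ => a / (a * t + c)) (-(a / (a * t + c)) ^ 2) t := by
    have := h1.inv h
    have h3 := this.const_mul a
    refine (h3.congr_deriv ?_)
    field_simp
  have h3 := h2.pow (n + 1)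
  refine h3.congr_deriv ?_
  push_cast
  ring

lemma iteratedDeriv_log2 {a₁ c₁ a₂ c₂ : ℝ} (n : ℕ) : ∀ t : ℝ, 0 < a₁ * t + c₁ → 0 < a₂ * t + c₂ →
    iteratedDeriv (n + 1) (fun t : ℝ => Real.log (a₁ * t + c₁) - Real.log (a₂ * t + c₂)) t =
      (-1) ^ n * (n.factorial : ℝ) *
        ((a₁ / (a₁ * t + c₁)) ^ (n + 1) - (a₂ / (a₂ * t + c₂)) ^ (n + 1)) := by
  have hl : ∀ a c t : ℝ, HasDerivAt (fun t : ℝ => a * t + c) a t := by
    intro a c t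
    simpa using ((hasDerivAt_id t).const_mul a).add_const c
  induction n with
  | zero =>
    intro t h1 h2
    rw [zero_add, iteratedDeriv_one]
    have := (((hl a₁ c₁ t).log h1.ne').sub ((hl a₂ c₂ t).log h2.ne')).deriv
    simp only [pow_zero, Nat.factorial_zero, Nat.cast_one, mul_one, one_mul, pow_one]
    exact this
  | succ n ih =>
    intro t h1 h2
    rw [iteratedDeriv_succ]
    have he : iteratedDeriv (n + 1) (fun t : ℝ => Real.log (a₁ * t + c₁) -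
        Real.log (a₂ * t + c₂)) =ᶠ[𝓝 t] fun t => (-1) ^ n * (n.factorial : ℝ) *
        ((a₁ / (a₁ * t + c₁)) ^ (n + 1) - (a₂ / (a₂ * t + c₂)) ^ (n + 1)) := by
      have e1 : ∀ᶠ s in 𝓝 t, 0 < a₁ * s + c₁ :=
        ((hl a₁ c₁ t).continuousAt).eventually (lt_mem_nhds h1)
      have e2 : ∀ᶠ s in 𝓝 t, 0 < a₂ * s + c₂ :=
        ((hl a₂ c₂ t).continuousAt).eventually (lt_mem_nhds h2)
      filter_upwards [e1, e2] with s hs1 hs2
      exact ih s hs1 hs2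
    rw [he.deriv_eq]
    have h3 := ((hasDerivAt_quot h1.ne' n).sub (hasDerivAt_quot h2.ne' n)).const_mul
      ((-1) ^ n * (n.factorial : ℝ))
    refine h3.deriv.trans ?_
    rw [Nat.factorial_succ]
    push_cast
    ring

/-- the phase on a line -/
noncomputable def FF (κ δ a₁ c₁ a₂ c₂ : ℝ) (t : ℝ) : ℝ :=
  κ * (lgc δ (a₁ * t + c₁) - lgc δ (a₂ * t + c₂))

lemma contDiff_FF (κ a₁ c₁ a₂ c₂ : ℝ) {δ : ℝ} (hδ : 0 < δ) (q : ℕ) :
    ContDiff ℝ q (FF κ δ a₁ c₁ a₂ c₂) := by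
  unfold FF
  apply contDiff_const.mul
  apply ContDiff.sub
  · exact (contDiff_lgc hδ q).comp ((contDiff_const.mul contDiff_id).add contDiff_const)
  · exact (contDiff_lgc hδ q).comp ((contDiff_const.mul contDiff_id).add contDiff_const)

lemma iteratedDeriv_FF (κ : ℝ) {δ a₁ c₁ a₂ c₂ : ℝ} (hδ : 0 < δ) {t : ℝ} (h1 : δ < a₁ * t + c₁)
    (h2 : δ < a₂ * t + c₂) (n : ℕ) : iteratedDeriv (n + 1) (FF κ δ a₁ c₁ a₂ c₂) t =
      κ * ((-1) ^ n * (n.factorial : ℝ) *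
        ((a₁ / (a₁ * t + c₁)) ^ (n + 1) - (a₂ / (a₂ * t + c₂)) ^ (n + 1))) := by
  have hl : ∀ a c t : ℝ, HasDerivAt (fun t : ℝ => a * t + c) a t := by
    intro a c t
    simpa using ((hasDerivAt_id t).const_mul a).add_const c
  have he : FF κ δ a₁ c₁ a₂ c₂ =ᶠ[𝓝 t] fun t => κ * (Real.log (a₁ * t + c₁) -
      Real.log (a₂ * t + c₂)) := by
    have e1 : ∀ᶠ s in 𝓝 t, δ < a₁ * s + c₁ :=
      ((hl a₁ c₁ t).continuousAt).eventually (lt_mem_nhds h1)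
    have e2 : ∀ᶠ s in 𝓝 t, δ < a₂ * s + c₂ :=
      ((hl a₂ c₂ t).continuousAt).eventually (lt_mem_nhds h2)
    filter_upwards [e1, e2] with s hs1 hs2
    unfold FF
    rw [lgc_eq hδ hs1.le, lgc_eq hδ hs2.le]
  rw [he.iteratedDeriv_eq, iteratedDeriv_const_mul_field,
    iteratedDeriv_log2 n t (hδ.trans h1) (hδ.trans h2)]

/-! ### A line -/

section

variable {R a₁ a₂ b₁ b₂ : ℝ}

/-- `X₁ ≥ c₁ m` -/
noncomputable def c1 (a₁ a₂ b₁ b₂ : ℝ) : ℝ := (a₁ * b₂ - a₂ * b₁) / (a₁ - a₂)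

/-- `X₁ < c₂ m` -/
noncomputable def c2 (R a₁ a₂ b₁ b₂ : ℝ) : ℝ := R * ((a₁ * b₂ - a₂ * b₁) / (a₁ - R * a₂))

/-- `θ = R a₂ / a₁ < 1` -/
noncomputable def th (R a₁ a₂ : ℝ) : ℝ := R * a₂ / a₁

/-- the lower bound for the derivative, times `m ^ q / |k|` -/
noncomputable def K0 (R a₁ a₂ b₁ b₂ : ℝ) (q : ℕ) : ℝ :=
  1 / Real.log R * ((q - 1).factorial : ℝ) * ((a₁ / c2 R a₁ a₂ b₁ b₂) ^ q * (1 - th R a₁ a₂))

/-- the ratio of the bounds -/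
noncomputable def RR (R a₁ a₂ b₁ b₂ : ℝ) (q : ℕ) : ℝ :=
  (c2 R a₁ a₂ b₁ b₂ / c1 a₁ a₂ b₁ b₂) ^ q / (1 - th R a₁ a₂)

/-- the length of a line over `m` -/
noncomputable def c3 (R a₁ a₂ b₁ b₂ : ℝ) : ℝ := tau a₁ a₂ b₁ b₂ R - tau a₁ a₂ b₁ b₂ 1

/-- the lower bound for the derivative -/
noncomputable def lb (R a₁ a₂ b₁ b₂ : ℝ) (q : ℕ) (k : ℤ) (m : ℝ) : ℝ :=
  K0 R a₁ a₂ b₁ b₂ q * |(k : ℝ)| / m ^ q

/-- the bound on a line -/
noncomputable def bnd (R a₁ a₂ b₁ b₂ : ℝ) (q : ℕ) (Cq : ℝ) (k : ℤ) (m : ℝ) : ℝ :=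
  1 + Cq * RR R a₁ a₂ b₁ b₂ q *
    ((c3 R a₁ a₂ b₁ b₂ * m) * (lb R a₁ a₂ b₁ b₂ q k m) ^ ((1 : ℝ) / (2 ^ q - 2)) +
    (c3 R a₁ a₂ b₁ b₂ * m) ^ (1 - 2 / (2 : ℝ) ^ (q - 1)) *
      (lb R a₁ a₂ b₁ b₂ q k m) ^ (-(1 : ℝ) / (2 ^ q - 2)))

namespace LC

lemma c1_pos (h : LC R a₁ a₂ b₁ b₂) : 0 < c1 a₁ a₂ b₁ b₂ := h.v0_pos

lemma c12 (h : LC R a₁ a₂ b₁ b₂) : c1 a₁ a₂ b₁ b₂ ≤ c2 R a₁ a₂ b₁ b₂ := by
  have h1 := h.X1_ge h.tau_lt.le
  have h2 := X1_tau (b₁ := b₁) (b₂ := b₂) h.aR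
  rw [h2] at h1
  exact h1

lemma c2_pos (h : LC R a₁ a₂ b₁ b₂) : 0 < c2 R a₁ a₂ b₁ b₂ := h.c1_pos.trans_le h.c12

lemma c3_pos (h : LC R a₁ a₂ b₁ b₂) : 0 < c3 R a₁ a₂ b₁ b₂ := sub_pos.2 h.tau_lt

lemma th_pos (h : LC R a₁ a₂ b₁ b₂) : 0 < th R a₁ a₂ :=
  div_pos (mul_pos (by linarith [h.hR]) h.h2) h.a1_pos

lemma th_lt (h : LC R a₁ a₂ b₁ b₂) : th R a₁ a₂ < 1 := by
  unfold th
  rw [div_lt_one h.a1_pos]
  exact h.h1

lemma log_pos (h : LC R a₁ a₂ b₁ b₂) : 0 < Real.log R := Real.log_pos h.hR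

lemma K0_pos (h : LC R a₁ a₂ b₁ b₂) (q : ℕ) : 0 < K0 R a₁ a₂ b₁ b₂ q := by
  unfold K0
  have h1 := h.log_pos
  have h2 := h.c2_pos
  have h3 : 0 < 1 - th R a₁ a₂ := by linarith [h.th_lt]
  have h4 := h.a1_pos
  positivity

lemma RR_ge (h : LC R a₁ a₂ b₁ b₂) (q : ℕ) : 1 ≤ RR R a₁ a₂ b₁ b₂ q := by
  unfold RR
  have h3 : 0 < 1 - th R a₁ a₂ := by linarith [h.th_lt]
  rw [one_le_div h3]
  have h4 : 1 ≤ (c2 R a₁ a₂ b₁ b₂ / c1 a₁ a₂ b₁ b₂) ^ q :=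
    one_le_pow₀ ((one_le_div h.c1_pos).2 h.c12)
  linarith [h.th_pos]

end LC

lemma ph_zpow {u v : ℝ} (hu : 0 < u) (hv : 0 < v) (R : ℝ) (k : ℤ) :
    ph R (u / v) ^ k = Complex.exp (2 * Real.pi * Complex.I *
      (((k : ℝ) / Real.log R * (Real.log u - Real.log v) : ℝ) : ℂ)) := by
  unfold ph
  rw [← Complex.exp_int_mul, Real.log_div hu.ne' hv.ne']
  congr 1
  push_cast
  ring

lemma norm_ph (R u : ℝ) : ‖ph R u‖ = 1 := by
  unfold ph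
  rw [mul_comm, Complex.norm_exp_ofReal_mul_I]

/-- **a line** -/
theorem line_vdc (h : LC R a₁ a₂ b₁ b₂) {q : ℕ} (hq : 2 ≤ q) {Cq : ℝ} (hCq : 0 < Cq)
    (hC : VDCq q Cq) {m : ℤ} (hm : 0 < m) {k : ℤ} (hk : k ≠ 0) (G : Finset ℤ)
    (hsec : ∀ n ∈ G, tau a₁ a₂ b₁ b₂ 1 ≤ (n : ℝ) / m ∧ (n : ℝ) / m < tau a₁ a₂ b₁ b₂ R)
    (hconv : ∀ a ∈ G, ∀ c ∈ G, ∀ b, a ≤ b → b ≤ c → b ∈ G)
    (hlb : lb R a₁ a₂ b₁ b₂ q k m ≤ 1) :
    ‖∑ n ∈ G, ph R ((lr (a₁, a₂) (b₁, b₂) (n, m)).1 / (lr (a₁, a₂) (b₁, b₂) (n, m)).2) ^ k‖ ≤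
      bnd R a₁ a₂ b₁ b₂ q Cq k m := by
  have hm0 : (0 : ℝ) < m := by exact_mod_cast hm
  have hk0 : 0 < |(k : ℝ)| := abs_pos.2 (by exact_mod_cast hk)
  have hc3 := h.c3_pos
  have hK0 := h.K0_pos q
  have hRR := h.RR_ge q
  have hlb0 : 0 < lb R a₁ a₂ b₁ b₂ q k m := by unfold lb; positivity
  have hb1 : 1 ≤ bnd R a₁ a₂ b₁ b₂ q Cq k m := by
    unfold bnd
    have : 0 < RR R a₁ a₂ b₁ b₂ q := by linarith
    have : 0 ≤ Cq * RR R a₁ a₂ b₁ b₂ q *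
      ((c3 R a₁ a₂ b₁ b₂ * m) * (lb R a₁ a₂ b₁ b₂ q k m) ^ ((1 : ℝ) / (2 ^ q - 2)) +
      (c3 R a₁ a₂ b₁ b₂ * m) ^ (1 - 2 / (2 : ℝ) ^ (q - 1)) *
      (lb R a₁ a₂ b₁ b₂ q k m) ^ (-(1 : ℝ) / (2 ^ q - 2))) := by positivity
    linarith
  rcases G.eq_empty_or_nonempty with rfl | hG
  · rw [sum_empty, norm_zero]; linarith
  obtain ⟨a, N, ha, ha', hsum⟩ := exists_prog hG one_pos (fun _ _ _ _ => by simp)
    (fun a₁ h1 a₃ h3 a₂ h12 h23 _ => hconv a₁ h1 a₃ h3 a₂ h12 h23)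
  simp only [Nat.cast_one, one_mul] at ha' hsum
  rw [hsum, sum_range_succ]
  have hlast : ∀ p : ℤ × ℤ, ‖ph R ((lr (a₁, a₂) (b₁, b₂) p).1 /
      (lr (a₁, a₂) (b₁, b₂) p).2) ^ k‖ ≤ 1 := by
    intro p
    rw [norm_zpow, norm_ph, one_zpow]
  rcases Nat.eq_zero_or_pos N with rfl | hN
  · rw [sum_range_zero, zero_add]
    exact (hlast _).trans hb1
  -- the interval
  have h1 := hsec a ha
  have h2 := hsec _ ha'
  have hin : ∀ t ∈ Set.Icc (0 : ℝ) N, tau a₁ a₂ b₁ b₂ 1 ≤ ((a : ℝ) + t) / m ∧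
      ((a : ℝ) + t) / m < tau a₁ a₂ b₁ b₂ R := by
    intro t ht
    constructor
    · refine h1.1.trans ?_
      gcongr
      linarith [ht.1]
    · refine lt_of_le_of_lt ?_ h2.2
      push_cast
      gcongr
      exact ht.2
  have hNle : (N : ℝ) ≤ c3 R a₁ a₂ b₁ b₂ * m := by
    have e1 := h1.1
    have e2 := h2.2
    rw [le_div_iff₀ hm0] at e1
    rw [div_lt_iff₀ hm0] at e2
    push_cast at e2
    unfold c3
    nlinarith
  set κ : ℝ := (k : ℝ) / Real.log R with hκ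
  set C₁ : ℝ := a₁ * a + b₁ * m with hC₁
  set C₂ : ℝ := a₂ * a + b₂ * m with hC₂
  set δ : ℝ := C₂ / 2 with hδ
  have hX : ∀ t ∈ Set.Icc (0 : ℝ) N, c1 a₁ a₂ b₁ b₂ * m ≤ a₁ * t + C₁ ∧
      a₁ * t + C₁ < c2 R a₁ a₂ b₁ b₂ * m ∧ a₂ * t + C₂ ≤ a₁ * t + C₁ ∧
      a₁ * t + C₁ < R * (a₂ * t + C₂) := by
    intro t ht
    obtain ⟨e1, e2⟩ := hin t ht
    have e3 := h.X1_ge e1
    have e4 := LC.X1_tau (b₁ := b₁) (b₂ := b₂) h.aR
    have e5 := mul_lt_mul_of_pos_left e2 h.a1_pos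
    have e6 : a₁ * t + C₁ = (a₁ * (((a : ℝ) + t) / m) + b₁) * m := by
      rw [hC₁]; field_simp; ring
    have e7 : a₂ * t + C₂ = (a₂ * (((a : ℝ) + t) / m) + b₂) * m := by
      rw [hC₂]; field_simp; ring
    rw [e6, e7]
    refine ⟨mul_le_mul_of_nonneg_right e3 hm0.le, mul_lt_mul_of_pos_right ?_ hm0,
      mul_le_mul_of_nonneg_right ?_ hm0.le, ?_⟩
    · unfold c2
      rw [← e4]
      linarith
    · unfold tau at e1
      rw [div_le_iff₀ (by linarith [h.a12])] at e1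
      nlinarith
    · rw [← mul_assoc]
      refine mul_lt_mul_of_pos_right ?_ hm0
      unfold tau at e2
      rw [lt_div_iff₀ h.aR] at e2
      nlinarith
  have hC₂pos : 0 < C₂ := by
    have := hX 0 ⟨le_rfl, Nat.cast_nonneg _⟩
    have e0 : 0 < c1 a₁ a₂ b₁ b₂ * m := mul_pos h.c1_pos hm0
    simp only [mul_zero, zero_add] at this
    have h3 := h.hR
    have : 0 < R * C₂ := by linarith [this.2.2.2, this.1]
    exact (mul_pos_iff_of_pos_left (by linarith)).1 this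
  have hδ0 : 0 < δ := by rw [hδ]; positivity
  have hX2 : ∀ t ∈ Set.Icc (0 : ℝ) N, δ < a₂ * t + C₂ ∧ δ < a₁ * t + C₁ := by
    intro t ht
    have e1 := (hX t ht).2.2.1
    have e2 : 0 ≤ a₂ * t := mul_nonneg h.h2.le ht.1
    constructor
    · rw [hδ]; linarith
    · rw [hδ]; linarith
  have hD : ∀ t ∈ Set.Icc (0 : ℝ) N, iteratedDeriv q (FF κ δ a₁ C₁ a₂ C₂) t =
      κ * ((-1) ^ (q - 1) * ((q - 1).factorial : ℝ) *
        ((a₁ / (a₁ * t + C₁)) ^ q - (a₂ / (a₂ * t + C₂)) ^ q)) := by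
    intro t ht
    obtain ⟨n, rfl⟩ : ∃ n, q = n + 1 := ⟨q - 1, by omega⟩
    rw [iteratedDeriv_FF κ hδ0 (hX2 t ht).2 (hX2 t ht).1 n, Nat.add_sub_cancel]
  -- the size of the derivative
  have hth : 0 < 1 - th R a₁ a₂ := by linarith [h.th_lt]
  have hfac : (0 : ℝ) < ((q - 1).factorial : ℝ) := by exact_mod_cast (q - 1).factorial_pos
  have hsize : ∀ t ∈ Set.Icc (0 : ℝ) N,
      lb R a₁ a₂ b₁ b₂ q k m ≤ |κ| * (((q - 1).factorial : ℝ) *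
        ((a₁ / (a₁ * t + C₁)) ^ q - (a₂ / (a₂ * t + C₂)) ^ q)) ∧
      |κ| * (((q - 1).factorial : ℝ) *
        ((a₁ / (a₁ * t + C₁)) ^ q - (a₂ / (a₂ * t + C₂)) ^ q)) ≤
        RR R a₁ a₂ b₁ b₂ q * lb R a₁ a₂ b₁ b₂ q k m := by
    intro t ht
    obtain ⟨e1, e2, e3, e4⟩ := hX t ht
    obtain ⟨e5, e6⟩ := hX2 t ht
    have p1 : 0 < a₁ * t + C₁ := hδ0.trans e6
    have p2 : 0 < a₂ * t + C₂ := hδ0.trans e5
    have hc1 := h.c1_pos
    have hc2 := h.c2_pos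
    have ha1 := h.a1_pos
    have ha2 := h.h2
    have hlog := h.log_pos
    set u := a₁ / (a₁ * t + C₁) with hu
    set v := a₂ / (a₂ * t + C₂) with hv
    have hu0 : 0 < u := by positivity
    have hv0 : 0 < v := by positivity
    have huv : v ≤ th R a₁ a₂ * u := by
      rw [hu, hv]
      unfold th
      have : R * a₂ / a₁ * (a₁ / (a₁ * t + C₁)) = R * a₂ / (a₁ * t + C₁) := by field_simp
      rw [this, div_le_div_iff₀ p2 p1]
      nlinarith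
    have hu1 : a₁ / c2 R a₁ a₂ b₁ b₂ / m ≤ u := by
      rw [hu, div_div]
      exact div_le_div_of_nonneg_left ha1.le p1 e2.le
    have hu2 : u ≤ a₁ / c1 a₁ a₂ b₁ b₂ / m := by
      rw [hu, div_div]
      exact div_le_div_of_nonneg_left ha1.le (by positivity) e1
    have hvq : v ^ q ≤ th R a₁ a₂ * u ^ q := by
      have e7 : v ^ q ≤ (th R a₁ a₂ * u) ^ q := pow_le_pow_left₀ hv0.le huv q
      rw [mul_pow] at e7
      have e8 : th R a₁ a₂ ^ q ≤ th R a₁ a₂ := by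
        have := pow_le_pow_of_le_one h.th_pos.le h.th_lt.le (show 1 ≤ q by omega)
        simpa using this
      exact e7.trans (mul_le_mul_of_nonneg_right e8 (by positivity))
    have hκabs : |κ| = |(k : ℝ)| / Real.log R := by
      rw [hκ, abs_div, abs_of_pos hlog]
    constructor
    · have e9 : (a₁ / c2 R a₁ a₂ b₁ b₂ / m) ^ q * (1 - th R a₁ a₂) ≤ u ^ q - v ^ q := by
        have := mul_le_mul_of_nonneg_right (pow_le_pow_left₀ (by positivity) hu1 q) hth.le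
        linarith
      calc lb R a₁ a₂ b₁ b₂ q k m = |κ| * (((q - 1).factorial : ℝ) *
            ((a₁ / c2 R a₁ a₂ b₁ b₂ / m) ^ q * (1 - th R a₁ a₂))) := by
            rw [hκabs]
            unfold lb K0
            rw [div_pow _ (m : ℝ)]
            ring
        _ ≤ _ := by gcongr
    · have e9 : u ^ q - v ^ q ≤ (a₁ / c1 a₁ a₂ b₁ b₂ / m) ^ q := by
        have := pow_le_pow_left₀ hu0.le hu2 q
        have : 0 ≤ v ^ q := by positivity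
        linarith
      calc |κ| * (((q - 1).factorial : ℝ) * (u ^ q - v ^ q)) ≤
          |κ| * (((q - 1).factorial : ℝ) * (a₁ / c1 a₁ a₂ b₁ b₂ / m) ^ q) := by gcongr
        _ = _ := by
            rw [hκabs]
            unfold lb K0 RR
            have : (1 - th R a₁ a₂) ≠ 0 := hth.ne'
            rw [div_pow _ (m : ℝ), div_pow a₁, div_pow a₁, div_pow (c2 R a₁ a₂ b₁ b₂)]
            field_simp
  have hder : (∀ t ∈ Set.Icc (0 : ℝ) N, lb R a₁ a₂ b₁ b₂ q k m ≤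
        iteratedDeriv q (FF κ δ a₁ C₁ a₂ C₂) t ∧ iteratedDeriv q (FF κ δ a₁ C₁ a₂ C₂) t ≤
          RR R a₁ a₂ b₁ b₂ q * lb R a₁ a₂ b₁ b₂ q k m) ∨
      (∀ t ∈ Set.Icc (0 : ℝ) N, lb R a₁ a₂ b₁ b₂ q k m ≤
        -iteratedDeriv q (FF κ δ a₁ C₁ a₂ C₂) t ∧ -iteratedDeriv q (FF κ δ a₁ C₁ a₂ C₂) t ≤
          RR R a₁ a₂ b₁ b₂ q * lb R a₁ a₂ b₁ b₂ q k m) := by
    rcases le_or_gt 0 (κ * (-1) ^ (q - 1)) with hs | hs
    · left
      intro t ht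
      have e1 : |κ| = κ * (-1) ^ (q - 1) := by
        rw [← abs_of_nonneg hs, abs_mul, abs_neg_one_pow, mul_one]
      have e2 := hsize t ht
      rw [e1] at e2
      rw [hD t ht]
      have e3 : κ * ((-1) ^ (q - 1) * ((q - 1).factorial : ℝ) *
        ((a₁ / (a₁ * t + C₁)) ^ q - (a₂ / (a₂ * t + C₂)) ^ q)) =
        κ * (-1) ^ (q - 1) * (((q - 1).factorial : ℝ) *
        ((a₁ / (a₁ * t + C₁)) ^ q - (a₂ / (a₂ * t + C₂)) ^ q)) := by ring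
      rw [e3]
      exact e2
    · right
      intro t ht
      have e1 : |κ| = -(κ * (-1) ^ (q - 1)) := by
        rw [← abs_of_neg hs, abs_mul, abs_neg_one_pow, mul_one]
      have e2 := hsize t ht
      rw [e1] at e2
      rw [hD t ht]
      have e3 : -(κ * ((-1) ^ (q - 1) * ((q - 1).factorial : ℝ) *
        ((a₁ / (a₁ * t + C₁)) ^ q - (a₂ / (a₂ * t + C₂)) ^ q))) =
        -(κ * (-1) ^ (q - 1)) * (((q - 1).factorial : ℝ) *
        ((a₁ / (a₁ * t + C₁)) ^ q - (a₂ / (a₂ * t + C₂)) ^ q)) := by ring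
      rw [e3]
      exact e2
  have hv := hC N (lb R a₁ a₂ b₁ b₂ q k m) (RR R a₁ a₂ b₁ b₂ q) (FF κ δ a₁ C₁ a₂ C₂)
    hN hlb0 hlb hRR (contDiff_FF κ a₁ C₁ a₂ C₂ hδ0 q) hder
  have e1 : ∑ n ∈ range N, ph R ((lr (a₁, a₂) (b₁, b₂) (a + n, m)).1 /
      (lr (a₁, a₂) (b₁, b₂) (a + n, m)).2) ^ k =
      ∑ n ∈ range N, Complex.exp (2 * Real.pi * Complex.I *
        (FF κ δ a₁ C₁ a₂ C₂ n : ℂ)) := by
    refine sum_congr rfl fun n hn => ?_
    have hn' : ((n : ℕ) : ℝ) ∈ Set.Icc (0 : ℝ) N :=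
      ⟨Nat.cast_nonneg _, by exact_mod_cast (mem_range.1 hn).le⟩
    obtain ⟨e5, e6⟩ := hX2 _ hn'
    have e7 : (lr (a₁, a₂) (b₁, b₂) (a + n, m)).1 = a₁ * (n : ℝ) + C₁ := by
      unfold lr; simp only; push_cast; rw [hC₁]; ring
    have e8 : (lr (a₁, a₂) (b₁, b₂) (a + n, m)).2 = a₂ * (n : ℝ) + C₂ := by
      unfold lr; simp only; push_cast; rw [hC₂]; ring
    rw [e7, e8, ph_zpow (hδ0.trans e6) (hδ0.trans e5)]
    unfold FF
    rw [lgc_eq hδ0 e6.le, lgc_eq hδ0 e5.le]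
  refine (norm_add_le _ _).trans ?_
  rw [e1]
  unfold bnd
  rw [add_comm]
  apply add_le_add (hlast _)
  refine hv.trans ?_
  apply mul_le_mul_of_nonneg_left _ (by positivity)
  have hN0 : (0 : ℝ) ≤ N := Nat.cast_nonneg _
  apply add_le_add
  · exact mul_le_mul_of_nonneg_right hNle (by positivity)
  · apply mul_le_mul_of_nonneg_right _ (by positivity)
    apply Real.rpow_le_rpow hN0 hNle
    rw [sub_nonneg, div_le_one (by positivity)]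
    obtain ⟨j, rfl⟩ : ∃ j, q = j + 2 := ⟨q - 2, by omega⟩
    have : (2 : ℝ) ^ (j + 2 - 1) = 2 * 2 ^ j := by
      rw [show j + 2 - 1 = j + 1 by omega, pow_succ]; ring
    rw [this]
    have : (1 : ℝ) ≤ 2 ^ j := one_le_pow₀ (by norm_num)
    linarith

end

end Pool.Agent.Lib.MP391708.MAR.LT
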