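import Pool.Agent.Lib.MP_391708_nt.MAR.OSSum

/-!
# Module OS: the one-sided bound for twisted prime sums
-/

set_option autoImplicit false

namespace Pool.Agent.Lib.MP391708.MAR

open Finset Filter Topology NumberField
open scoped ComplexConjugate Classical

namespace OS

variable {K : Type} [Field K] [NumberField K] {G : Gi K → ℂ} (hG : CM G)

lemma mem_GP {P Q : ℝ} {z : Gi K} : z ∈ GP P Q ↔
    (nm z).Prime ∧ cj z ≠ z ∧ P < (nm z : ℝ) ∧ (nm z : ℝ) ≤ Q := by
  unfold GP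
  rw [mem_filter, mem_disc]
  constructor
  · rintro ⟨⟨_, h1⟩, h2, h3, h4⟩
    exact ⟨h2, h3, h4, h1⟩
  · rintro ⟨h2, h3, h4, h1⟩
    refine ⟨⟨?_, h1⟩, h2, h3, h4⟩
    rintro rfl
    rw [nm_zero] at h2
    exact Nat.not_prime_zero h2

lemma GP_ne_zero {P Q : ℝ} {z : Gi K} (h : z ∈ GP P Q) : z ≠ 0 := by
  rintro rfl
  have h2 := (mem_GP.1 h).1
  rw [nm_zero] at h2
  exact Nat.not_prime_zero h2

lemma FQ_ne_zero (π : FQ K) : (π : Gi K) ≠ 0 := by
  intro h
  have h2 := π.2.1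
  rw [h, nm_zero] at h2
  exact Nat.not_prime_zero h2

lemma one_sub_rpow_le {n t : ℝ} (hn : 0 < n) : 1 - n ^ (-t) ≤ t * Real.log n := by
  rw [Real.rpow_def_of_pos hn]
  have := Real.add_one_le_exp (Real.log n * -t)
  linarith

lemma T_shift {t y : ℝ} {z : Gi K} (hz : z ≠ 0) :
    T G (((1 + t : ℝ) : ℂ) + y * Complex.I) z =
      T G (1 + y * Complex.I) z * (((nm z : ℝ) ^ (-t) : ℝ) : ℂ) := by
  have h0 : ((nm z : ℕ) : ℂ) ≠ 0 := by exact_mod_cast (nm_pos hz).ne'
  unfold T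
  rw [Complex.ofReal_cpow (by positivity), mul_assoc]
  congr 1
  have e : ((nm z : ℝ) : ℂ) = ((nm z : ℕ) : ℂ) := by push_cast; rfl
  rw [e, ← Complex.cpow_add _ _ h0]
  congr 1
  push_cast
  ring

include hG in
lemma re_H0 {B : ℝ} (hB : CB K B) {t y : ℝ} (ht : 0 < t) :
    HasSum (fun π : FQ K => (T G (1 + y * Complex.I) π).re * (nm (π : Gi K) : ℝ) ^ (-t))
      (H0 G (((1 + t : ℝ) : ℂ) + y * Complex.I)).re := by
  have hs : 1 < (((1 + t : ℝ) : ℂ) + y * Complex.I).re := by simp; exact ht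
  have h1 : Summable (fun π : FQ K => T G (((1 + t : ℝ) : ℂ) + y * Complex.I) π) :=
    ((summable_norm_T hG hB hs).of_norm).comp_injective Subtype.val_injective
  have h2 := Complex.hasSum_re h1.hasSum
  have e : (fun π : FQ K => (T G (((1 + t : ℝ) : ℂ) + y * Complex.I) π).re) =
      (fun π : FQ K => (T G (1 + y * Complex.I) π).re * (nm (π : Gi K) : ℝ) ^ (-t)) := by
    funext π
    rw [T_shift (FQ_ne_zero π), Complex.re_mul_ofReal]
  rw [e] at h2
  exact h2

variable {Cg : ℝ} (hCg : 0 < Cg)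
  (hg : ∀ x : ℝ, 2 ≤ x → WW K x (Real.exp 1 * x) ≤ Cg / Real.log x)

include hCg hg in
/-- the weights, summed -/
lemma sum_weights [RQ K] {B : ℝ} (hB : CB K B) {P Q : ℝ} (hP : 2 ≤ P) (hPQ : P ≤ Q) (w : Gi K → ℝ) (hw0 : ∀ z, 0 ≤ w z)
    (hw1 : ∀ z ∈ GP 0 P, w z ≤ 1 / Real.log P * Real.log (nm z))
    (hw2 : ∀ z ∈ GP P Q, w z ≤ 1 / Real.log Q * Real.log (nm z) +
      (nm z : ℝ) ^ (-(1 / Real.log P)))
    (hw3 : ∀ Z : ℝ, ∀ z ∈ GP Q Z, w z ≤ (nm z : ℝ) ^ (-(1 / Real.log Q)))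
    (F : Finset (FQ K)) :
    ∑ π ∈ F, (1 / (nm (π : Gi K) : ℝ)) * w π ≤ 24 * Cg + 8 * B := by
  have hl2 := log_two_pos'
  have hlP : Real.log 2 ≤ Real.log P := Real.log_le_log (by norm_num) hP
  have hlQ : Real.log 2 ≤ Real.log Q := Real.log_le_log (by norm_num) (hP.trans hPQ)
  set Z : ℝ := max Q (∑ π ∈ F, (nm (π : Gi K) : ℝ)) with hZ
  have hQZ : Q ≤ Z := le_max_left _ _
  have hsub : F.map ⟨fun π : FQ K => (π : Gi K), Subtype.val_injective⟩ ⊆ GP 0 Z := by
    intro z hz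
    rw [Finset.mem_map] at hz
    obtain ⟨π, hπ, rfl⟩ := hz
    simp only [Function.Embedding.coeFn_mk]
    rw [mem_GP]
    refine ⟨π.2.1, π.2.2, by exact_mod_cast π.2.1.pos, ?_⟩
    refine le_trans ?_ (le_max_right _ _)
    exact single_le_sum (f := fun π : FQ K => (nm (π : Gi K) : ℝ)) (fun _ _ => by positivity) hπ
  have hterm : ∀ z : Gi K, 0 ≤ (1 / (nm z : ℝ)) * w z := fun z =>
    mul_nonneg (by positivity) (hw0 z)
  calc ∑ π ∈ F, (1 / (nm (π : Gi K) : ℝ)) * w π
      = ∑ z ∈ F.map ⟨fun π : FQ K => (π : Gi K), Subtype.val_injective⟩,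
          (1 / (nm z : ℝ)) * w z := by
        rw [sum_map]; rfl
    _ ≤ ∑ z ∈ GP 0 Z, (1 / (nm z : ℝ)) * w z :=
        sum_le_sum_of_subset_of_nonneg hsub (fun z _ _ => hterm z)
    _ = (∑ z ∈ GP 0 P, (1 / (nm z : ℝ)) * w z +
          (∑ z ∈ GP P Q, (1 / (nm z : ℝ)) * w z + ∑ z ∈ GP Q Z, (1 / (nm z : ℝ)) * w z)) := by
        rw [GP_split (b := P) (by linarith) (hPQ.trans hQZ),
          GP_split (a := P) hPQ hQZ]
    _ ≤ ((9 * Cg + 4 * B) + (((9 * Cg + 4 * B) + 3 * Cg) + 3 * Cg)) := by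
        have b1 : ∑ z ∈ GP 0 P, (1 / (nm z : ℝ)) * w z ≤ 9 * Cg + 4 * B := by
          calc ∑ z ∈ GP 0 P, (1 / (nm z : ℝ)) * w z
              ≤ ∑ z ∈ GP 0 P, 1 / Real.log P * (Real.log (nm z) / nm z) := by
                apply sum_le_sum
                intro z hz
                have := mul_le_mul_of_nonneg_left (hw1 z hz)
                  (show (0 : ℝ) ≤ 1 / (nm z : ℝ) by positivity)
                refine this.trans (le_of_eq ?_)
                ring
            _ = 1 / Real.log P * ∑ z ∈ (GP 0 P : Finset (Gi K)), Real.log (nm z) / nm z := by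
                rw [mul_sum]
            _ ≤ 1 / Real.log P * ((9 * Cg + 4 * B) * Real.log P) := by
                apply mul_le_mul_of_nonneg_left (sum_log_le hCg hg hB hP)
                exact div_nonneg (by norm_num) (by linarith)
            _ = 9 * Cg + 4 * B := by
                have : Real.log P ≠ 0 := by linarith
                field_simp
        have b2 : ∑ z ∈ GP P Q, (1 / (nm z : ℝ)) * w z ≤ 9 * Cg + 4 * B + 3 * Cg := by
          calc ∑ z ∈ GP P Q, (1 / (nm z : ℝ)) * w z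
              ≤ ∑ z ∈ GP P Q, (1 / Real.log Q * (Real.log (nm z) / nm z) +
                  (1 / (nm z : ℝ)) * (nm z : ℝ) ^ (-(1 / Real.log P))) := by
                apply sum_le_sum
                intro z hz
                have := mul_le_mul_of_nonneg_left (hw2 z hz)
                  (show (0 : ℝ) ≤ 1 / (nm z : ℝ) by positivity)
                refine this.trans (le_of_eq ?_)
                ring
            _ = 1 / Real.log Q * (∑ z ∈ (GP P Q : Finset (Gi K)), Real.log (nm z) / nm z) +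
                  ∑ z ∈ (GP P Q : Finset (Gi K)),
                    (1 / (nm z : ℝ)) * (nm z : ℝ) ^ (-(1 / Real.log P)) := by
                rw [sum_add_distrib, mul_sum]
            _ ≤ 1 / Real.log Q * ((9 * Cg + 4 * B) * Real.log Q) + 3 * Cg := by
                apply add_le_add _ (sum_tail_le hCg hg hP)
                apply mul_le_mul_of_nonneg_left _ (div_nonneg (by norm_num) (by linarith))
                have h1 := sum_log_le hCg hg hB (hP.trans hPQ)
                have h2 := GP_split (a := 0) (b := P) (c := Q) (by linarith) hPQ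
                  (fun z : Gi K => Real.log (nm z) / nm z)
                have h3 : 0 ≤ ∑ z ∈ (GP 0 P : Finset (Gi K)), Real.log (nm z) / nm z :=
                  sum_nonneg (fun z _ => div_nonneg (log_nm_nonneg _) (by positivity))
                linarith
            _ = 9 * Cg + 4 * B + 3 * Cg := by
                have : Real.log Q ≠ 0 := by linarith
                field_simp
        have b3 : ∑ z ∈ GP Q Z, (1 / (nm z : ℝ)) * w z ≤ 3 * Cg := by
          calc ∑ z ∈ GP Q Z, (1 / (nm z : ℝ)) * w z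
              ≤ ∑ z ∈ GP Q Z, (1 / (nm z : ℝ)) * (nm z : ℝ) ^ (-(1 / Real.log Q)) := by
                apply sum_le_sum
                intro z hz
                exact mul_le_mul_of_nonneg_left (hw3 Z z hz) (by positivity)
            _ ≤ 3 * Cg := sum_tail_le hCg hg (hP.trans hPQ)
        linarith
    _ = 24 * Cg + 8 * B := by ring

include hG hCg hg in
/-- the sum over a range of primes -/
lemma main_diff [RQ K] {B : ℝ} (hB : CB K B) {P Q y : ℝ} (hP : 2 ≤ P) (hPQ : P ≤ Q) :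
    (∑ π ∈ GP P Q, T G (1 + y * Complex.I) π).re ≤
      ((H0 G (((1 + 1 / Real.log Q : ℝ) : ℂ) + y * Complex.I)).re -
        (H0 G (((1 + 1 / Real.log P : ℝ) : ℂ) + y * Complex.I)).re) + (24 * Cg + 8 * B) := by
  have hl2 := log_two_pos'
  have hlP : Real.log 2 ≤ Real.log P := Real.log_le_log (by norm_num) hP
  have hlPQ : Real.log P ≤ Real.log Q := Real.log_le_log (by linarith) hPQ
  set t1 := 1 / Real.log Q with ht1
  set t2 := 1 / Real.log P with ht2
  have ht1p : 0 < t1 := div_pos one_pos (by linarith)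
  have ht2p : 0 < t2 := div_pos one_pos (by linarith)
  have ht12 : t1 ≤ t2 := by
    rw [ht1, ht2]
    exact one_div_le_one_div_of_le (by linarith) hlPQ
  set a : Gi K → ℝ := fun z => (T G (1 + y * Complex.I) z).re with ha
  have ha1 : ∀ z : Gi K, |a z| ≤ 1 / (nm z : ℝ) := by
    intro z
    refine (Complex.abs_re_le_norm _).trans ((norm_T_le hG (by simp) z).trans ?_)
    have : (1 + (y : ℂ) * Complex.I).re = 1 := by simp
    rw [this, Real.rpow_neg_one, one_div]
  set w : Gi K → ℝ := fun z => |(nm z : ℝ) ^ (-t1) - (nm z : ℝ) ^ (-t2) -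
    (if z ∈ GP P Q then 1 else 0)| with hw
  have hle1 : ∀ {z : Gi K} {t : ℝ}, z ≠ 0 → 0 < t → (nm z : ℝ) ^ (-t) ≤ 1 := fun hz ht =>
    Real.rpow_le_one_of_one_le_of_nonpos (one_le_nm hz) (by linarith)
  have hmono : ∀ {z : Gi K}, z ≠ 0 → (nm z : ℝ) ^ (-t2) ≤ (nm z : ℝ) ^ (-t1) := fun hz =>
    Real.rpow_le_rpow_of_exponent_le (one_le_nm hz) (by linarith)
  have hpos : ∀ (z : Gi K) (t : ℝ), 0 ≤ (nm z : ℝ) ^ (-t) := fun z t => by positivity
  have hbound := sum_weights hCg hg hB hP hPQ w (fun z => abs_nonneg _)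
    (by
      intro z hz
      have hz0 := GP_ne_zero hz
      have hn : z ∉ GP P Q := by
        intro h
        linarith [(mem_GP.1 hz).2.2.2, (mem_GP.1 h).2.2.1]
      simp only [hw]
      rw [if_neg hn, sub_zero, abs_of_nonneg (sub_nonneg.2 (hmono hz0))]
      have h1 := one_sub_rpow_le (n := nm z) (t := t2) (nm_posR hz0)
      have h2 := hle1 hz0 ht1p
      linarith)
    (by
      intro z hz
      have hz0 := GP_ne_zero hz
      simp only [hw]
      rw [if_pos hz]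
      have h1 := one_sub_rpow_le (n := nm z) (t := t1) (nm_posR hz0)
      have h2 := hle1 hz0 ht1p
      have h3 := hpos z t2
      rw [abs_le]
      constructor
      · linarith
      · have h4 : 0 ≤ t1 * Real.log (nm z) := mul_nonneg ht1p.le (log_nm_nonneg _)
        linarith)
    (by
      intro Z z hz
      have hz0 := GP_ne_zero hz
      have hn : z ∉ GP P Q := by
        intro h
        linarith [(mem_GP.1 hz).2.2.1, (mem_GP.1 h).2.2.2]
      simp only [hw]
      rw [if_neg hn, sub_zero, abs_of_nonneg (sub_nonneg.2 (hmono hz0))]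
      have h3 := hpos z t2
      linarith)
  have hnn : ∀ z : Gi K, 0 ≤ (1 / (nm z : ℝ)) * w z := fun z =>
    mul_nonneg (by positivity) (abs_nonneg _)
  have hsw : Summable (fun π : FQ K => (1 / (nm (π : Gi K) : ℝ)) * w π) :=
    summable_of_sum_le (fun π => hnn π) hbound
  have htw : ∑' π : FQ K, (1 / (nm (π : Gi K) : ℝ)) * w π ≤ 24 * Cg + 8 * B :=
    Real.tsum_le_of_sum_le (fun π => hnn π) hbound
  -- the finite sum as a sum over FQ
  have hfin : HasSum (fun π : FQ K => if (π : Gi K) ∈ GP P Q then a π else 0)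
      (∑ z ∈ GP P Q, a z) := by
    have h1 : HasSum (fun z : Gi K => if z ∈ GP P Q then a z else 0) (∑ z ∈ GP P Q, a z) := by
      have h : HasSum (fun z : Gi K => if z ∈ GP P Q then a z else 0)
          (∑ b ∈ GP P Q, (if b ∈ GP P Q then a b else 0)) :=
        hasSum_sum_of_ne_finset_zero (fun b hb => if_neg hb)
      have e : ∑ b ∈ GP P Q, (if b ∈ GP P Q then a b else 0) = ∑ z ∈ GP P Q, a z :=
        sum_congr rfl (fun n hn => if_pos hn)
      rw [e] at h
      exact h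
    have h2 := (Subtype.val_injective (p := fun π : Gi K => (nm π).Prime ∧ cj π ≠ π)).hasSum_iff
      (f := fun z : Gi K => if z ∈ GP P Q then a z else 0) (a := ∑ z ∈ GP P Q, a z)
      (by
        intro z hz
        rw [if_neg]
        intro h
        apply hz
        exact ⟨⟨z, (mem_GP.1 h).1, (mem_GP.1 h).2.1⟩, rfl⟩)
    exact h2.2 h1
  have hD := ((re_H0 hG hB (y := y) ht1p).sub (re_H0 hG hB (y := y) ht2p)).sub hfin
  have hDle : ∀ π : FQ K, ‖(a π * (nm (π : Gi K) : ℝ) ^ (-t1) - a π * (nm (π : Gi K) : ℝ) ^ (-t2)) -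
      (if (π : Gi K) ∈ GP P Q then a π else 0)‖ ≤ (1 / (nm (π : Gi K) : ℝ)) * w π := by
    intro π
    have e : (a π * (nm (π : Gi K) : ℝ) ^ (-t1) - a π * (nm (π : Gi K) : ℝ) ^ (-t2)) -
      (if (π : Gi K) ∈ GP P Q then a π else 0) = a π * ((nm (π : Gi K) : ℝ) ^ (-t1) -
        (nm (π : Gi K) : ℝ) ^ (-t2) - (if (π : Gi K) ∈ GP P Q then 1 else 0)) := by
      split_ifs <;> ring
    rw [e, norm_mul, Real.norm_eq_abs, Real.norm_eq_abs]
    exact mul_le_mul_of_nonneg_right (ha1 _) (abs_nonneg _)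
  have h1 := tsum_of_norm_bounded hsw.hasSum hDle
  rw [hD.tsum_eq] at h1
  have h2 := (Real.norm_eq_abs _ ▸ h1 : |_| ≤ _)
  have h3 := neg_le_of_abs_le (h2.trans htw)
  have h4 : (∑ π ∈ GP P Q, T G (1 + y * Complex.I) π).re = ∑ z ∈ GP P Q, a z := by
    rw [Complex.re_sum]
  rw [h4]
  linarith

include hG in
/-- the analytic input -/
lemma La_re_le {B : ℝ} (hB : CB K B) {CL : ℝ} (hL : ∀ (f : ℂ → ℂ) (s₀ : ℂ) (r M x₀ : ℝ), 0 < r → 1 ≤ M →
      AnalyticOnNhd ℂ f (Metric.closedBall s₀ r) → f s₀ ≠ 0 →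
      (∀ s ∈ Metric.closedBall s₀ r, ‖f s‖ ≤ M * ‖f s₀‖) →
      (∀ s ∈ Metric.closedBall s₀ r, f s = 0 → s.re ≤ x₀) →
      ∀ s ∈ Metric.closedBall s₀ (r / 8), x₀ < s.re →
        -(deriv f s / f s).re ≤ CL * (1 + Real.log M) / r)
    {c Y r M t2 y : ℝ} (hc : 0 < c) (hc1 : c < 1) (hY : 1 ≤ Y)
    (hyp : ∀ x : ℝ, Y ≤ x → ‖∑ z ∈ disc x, G z‖ ≤ x ^ (1 - c))
    (hr : 0 < r) (hrc : r ≤ c / 2) (ht2 : 0 < t2) (ht21 : t2 ≤ 1) (ht2r : t2 ≤ r / 8)
    (hM : 1 ≤ M)
    (hbd : (|y| + 4) * (B * Y ^ r * (1 + Real.log Y) +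
      ∑' n : ℕ, ((n + 1 : ℕ) : ℝ) ^ (-1 - c / 2)) ≤ M * (t2 / (7 * B)))
    {t : ℝ} (ht : 0 < t) (htt : t ≤ t2) :
    (La G (((1 + t : ℝ) : ℂ) + y * Complex.I)).re ≤ CL * (1 + Real.log M) / r := by
  set s₀ : ℂ := ((1 + t2 : ℝ) : ℂ) + y * Complex.I with hs0
  have hs0re : s₀.re = 1 + t2 := by rw [hs0]; simp
  have hs0n : ‖s₀‖ ≤ 1 + t2 + |y| := by
    rw [hs0]
    refine (norm_add_le _ _).trans ?_
    rw [Complex.norm_real, Real.norm_eq_abs, abs_of_nonneg (by linarith), norm_mul,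
      Complex.norm_real, Complex.norm_I, mul_one, Real.norm_eq_abs]
  have hball : ∀ s ∈ Metric.closedBall s₀ r, 1 + t2 - r ≤ s.re ∧ ‖s‖ ≤ |y| + 3 := by
    intro s hs
    rw [Metric.mem_closedBall, dist_eq_norm] at hs
    constructor
    · have h1 := (Complex.abs_re_le_norm (s - s₀)).trans hs
      rw [Complex.sub_re, hs0re] at h1
      have := neg_le_of_abs_le h1
      linarith
    · have h1 : ‖s‖ ≤ ‖s - s₀‖ + ‖s₀‖ := by
        calc ‖s‖ = ‖(s - s₀) + s₀‖ := by rw [sub_add_cancel]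
          _ ≤ ‖s - s₀‖ + ‖s₀‖ := norm_add_le _ _
      linarith
  have hsub : Metric.closedBall s₀ r ⊆ {s : ℂ | 1 - c / 2 < s.re ∧ ‖s‖ < |y| + 4} := by
    intro s hs
    have h := hball s hs
    exact ⟨by linarith [h.1], by linarith [h.2]⟩
  have hUo : IsOpen {s : ℂ | 1 - c / 2 < s.re ∧ ‖s‖ < |y| + 4} :=
    (isOpen_lt continuous_const Complex.continuous_re).inter
      (isOpen_lt continuous_norm continuous_const)
  have han : AnalyticOnNhd ℂ (FF G) (Metric.closedBall s₀ r) :=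
    ((differentiableOn_FF hG hB hc hc1 hY hyp (|y| + 4)).analyticOnNhd hUo).mono hsub
  have hlow := LL_lower' hG hB y ht2 ht21
  have hs0LL : FF G s₀ = LL G s₀ := FF_eq_LL hG hB (by rw [hs0re]; linarith)
  have hf0 : FF G s₀ ≠ 0 := by
    rw [hs0LL]; exact LL_ne_zero hG hB (by rw [hs0re]; linarith)
  have hbound : ∀ s ∈ Metric.closedBall s₀ r, ‖FF G s‖ ≤ M * ‖FF G s₀‖ := by
    intro s hs
    have h := hball s hs
    have h1 := norm_FF_le hG hB hc hc1 hY hyp hr hrc (s := s) (by linarith [h.1])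
    have hS : 0 ≤ B * Y ^ r * (1 + Real.log Y) + ∑' n : ℕ, ((n + 1 : ℕ) : ℝ) ^ (-1 - c / 2) := by
      apply add_nonneg
      · have := Real.log_nonneg hY
        have hB0 : 0 ≤ B := by linarith [hB.1]
        positivity
      · exact tsum_nonneg (fun _ => by positivity)
    have h2 : ‖s‖ * (B * Y ^ r * (1 + Real.log Y) +
        ∑' n : ℕ, ((n + 1 : ℕ) : ℝ) ^ (-1 - c / 2)) ≤ (|y| + 4) * (B * Y ^ r * (1 + Real.log Y) +
        ∑' n : ℕ, ((n + 1 : ℕ) : ℝ) ^ (-1 - c / 2)) :=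
      mul_le_mul_of_nonneg_right (by linarith [h.2]) hS
    have h3 : M * (t2 / (7 * B)) ≤ M * ‖FF G s₀‖ := by
      apply mul_le_mul_of_nonneg_left _ (by linarith)
      rw [hs0LL]
      exact hlow
    linarith
  have hzero : ∀ s ∈ Metric.closedBall s₀ r, FF G s = 0 → s.re ≤ 1 := by
    intro s _ h0
    by_contra hcon
    push Not at hcon
    rw [FF_eq_LL hG hB hcon] at h0
    exact LL_ne_zero hG hB hcon h0
  set s : ℂ := ((1 + t : ℝ) : ℂ) + y * Complex.I with hs
  have hsre : s.re = 1 + t := by rw [hs]; simp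
  have hsmem : s ∈ Metric.closedBall s₀ (r / 8) := by
    rw [Metric.mem_closedBall, dist_eq_norm]
    have e : s - s₀ = ((t - t2 : ℝ) : ℂ) := by
      rw [hs, hs0]; push_cast; ring
    rw [e, Complex.norm_real, Real.norm_eq_abs, abs_le]
    constructor <;> linarith
  have hres := hL (FF G) s₀ r M 1 hr hM han hf0 hbound hzero s hsmem (by rw [hsre]; linarith)
  have hs1 : 1 < s.re := by rw [hsre]; linarith
  have heq : FF G =ᶠ[𝓝 s] LL G := by
    filter_upwards [(isOpen_re 1).mem_nhds hs1] with w hw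
    exact FF_eq_LL hG hB hw
  have hder : deriv (FF G) s = -(La G s * LL G s) := by
    rw [heq.deriv_eq]
    exact (hasDerivAt_LL hG hB hs1).deriv
  rw [hder, FF_eq_LL hG hB hs1, neg_div, mul_div_assoc, div_self (LL_ne_zero hG hB hs1), mul_one,
    Complex.neg_re, neg_neg] at hres
  exact hres

end OS

open OS in
/-- Module OS. -/
theorem specOS {K : Type} [Field K] [NumberField K] [RQ K] (hL : MR.SpecLandau)
    (hPG : SpecPG K) (hC : SpecCount K) : SpecOS K := by
  obtain ⟨B, hB⟩ := exists_CB hC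
  have hB1 : 1 ≤ B := hB.1
  have hB0 : 0 < B := by linarith
  obtain ⟨CL, hCL, hL⟩ := hL
  obtain ⟨Cg, hCg, hg⟩ := hPG.2.1
  have hbet : 0 ≤ ∑' x : RP K × ℕ, bet x := (norm_nonneg _).trans
    (norm_La_sub_le CM_ON hB (s := 2) (by norm_num))
  refine ⟨24 * Cg + 8 * B + (1 + ∑' x : RP K × ℕ, bet x), ?_⟩
  intro T d hT hd hd2
  set θ : ℝ := d ^ 2 / (6 * CL) with hθ
  have hθp : 0 < θ := by positivity
  refine ⟨θ, hθp, ?_⟩
  intro c hc hc1
  set S : ℝ := ∑' n : ℕ, ((n + 1 : ℕ) : ℝ) ^ (-1 - c / 2) with hS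
  have hlog : Tendsto (fun X : ℝ => Real.log X) atTop atTop := Real.tendsto_log_atTop
  -- the conditions
  have c1 : ∀ᶠ X : ℝ in atTop, 8 * θ / d ^ 2 + 1 ≤ Real.log (Real.log X) :=
    (hlog.comp hlog).eventually_ge_atTop _
  have c2 : ∀ᶠ X : ℝ in atTop, Real.log (Real.log X) ≤ (θ * (c / 2)) * Real.log X := by
    have h1 : (Real.log) =o[atTop] (fun x : ℝ => x) := Real.isLittleO_log_id_atTop
    have h2 := h1.bound (show 0 < θ * (c / 2) by positivity)
    have h3 := hlog.eventually h2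
    filter_upwards [h3, hlog.eventually_ge_atTop 1] with X h4 h5
    rw [Real.norm_eq_abs, Real.norm_eq_abs, abs_of_nonneg (Real.log_nonneg h5),
      abs_of_nonneg (by linarith)] at h4
    exact h4
  have c3 : ∀ᶠ X : ℝ in atTop, max 1 (1 / d ^ 2) ≤ Real.log X := hlog.eventually_ge_atTop _
  have c4 : ∀ᶠ X : ℝ in atTop, 7 * B * ((T + 4) * (B * (1 + θ) + |S|)) ≤ Real.log X :=
    hlog.eventually_ge_atTop _
  have c5 : ∀ᶠ X : ℝ in atTop, 1 < X := eventually_gt_atTop 1
  filter_upwards [c1, c2, c3, c4, c5] with X h1 h2 h3 h4 h5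
  intro G hG hyp t ht
  set ℓ := Real.log X with hℓ
  have hℓ1 : 1 ≤ ℓ := (le_max_left _ _).trans h3
  have hℓ2 : 1 / d ^ 2 ≤ ℓ := (le_max_right _ _).trans h3
  have hd2p : 0 < d ^ 2 := by positivity
  have hdℓ : 1 ≤ d ^ 2 * ℓ := by
    rw [div_le_iff₀ hd2p] at hℓ2; linarith
  have hLL1 : 1 ≤ Real.log ℓ := by
    have : 0 ≤ 8 * θ / d ^ 2 := by positivity
    linarith
  have hLL0 : 0 < Real.log ℓ := by linarith
  have hX0 : 0 < X := by linarith
  set P := X ^ (d ^ 2) with hP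
  set Q := X ^ d with hQ
  have hlP : Real.log P = d ^ 2 * ℓ := by rw [hP, Real.log_rpow hX0]
  have hlQ : Real.log Q = d * ℓ := by rw [hQ, Real.log_rpow hX0]
  have hP2 : 2 ≤ P := by
    have e1 : P = Real.exp (d ^ 2 * ℓ) := by
      rw [← hlP, Real.exp_log (by positivity)]
    rw [e1]
    have := Real.add_one_le_exp (d ^ 2 * ℓ)
    linarith
  have hPQ : P ≤ Q := by
    rw [hP, hQ]
    apply Real.rpow_le_rpow_of_exponent_le h5.le
    nlinarith
  set r : ℝ := Real.log ℓ / (θ * ℓ) with hr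
  have hθℓ : 0 < θ * ℓ := by positivity
  have hrp : 0 < r := by positivity
  have hrc : r ≤ c / 2 := by
    rw [hr, div_le_iff₀ hθℓ]
    linarith
  set t2 : ℝ := 1 / Real.log P with ht2
  set t1 : ℝ := 1 / Real.log Q with ht1
  have ht2p : 0 < t2 := by rw [ht2, hlP]; positivity
  have ht1p : 0 < t1 := by rw [ht1, hlQ]; positivity
  have ht12 : t1 ≤ t2 := by
    rw [ht1, ht2, hlP, hlQ]
    apply one_div_le_one_div_of_le (by positivity)
    apply mul_le_mul_of_nonneg_right _ (by linarith)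
    nlinarith
  have ht21 : t2 ≤ 1 := by
    rw [ht2, hlP, div_le_one (by positivity)]
    exact hdℓ
  have ht2r : t2 ≤ r / 8 := by
    rw [ht2, hlP, hr, div_div, div_le_div_iff₀ (by positivity) (by positivity)]
    have h6 : 8 * θ / d ^ 2 ≤ Real.log ℓ := by linarith
    rw [div_le_iff₀ hd2p] at h6
    nlinarith
  set Y := X ^ θ with hY
  have hY1 : 1 ≤ Y := Real.one_le_rpow h5.le hθp.le
  have hlY : Real.log Y = θ * ℓ := by rw [hY, Real.log_rpow hX0]
  have hYr : Y ^ r = ℓ := by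
    rw [Real.rpow_def_of_pos (by positivity), hlY, hr, mul_div_cancel₀ _ hθℓ.ne',
      Real.exp_log (by linarith)]
  set M : ℝ := ℓ ^ 5 with hM
  have hM1 : 1 ≤ M := one_le_pow₀ hℓ1
  have hbd : (|t| + 4) * (B * Y ^ r * (1 + Real.log Y) + S) ≤ M * (t2 / (7 * B)) := by
    rw [hYr, hlY, ht2, hlP, hM]
    have e1 : ℓ ^ 5 * (1 / (d ^ 2 * ℓ) / (7 * B)) = ℓ ^ 4 / (7 * B) / d ^ 2 := by
      field_simp
    rw [e1]
    have e2 : ℓ ^ 4 / (7 * B) ≤ ℓ ^ 4 / (7 * B) / d ^ 2 := by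
      rw [le_div_iff₀ (by positivity)]
      have : d ^ 2 ≤ 1 := by nlinarith
      have h7 : 0 ≤ ℓ ^ 4 / (7 * B) := by positivity
      nlinarith
    refine le_trans ?_ e2
    have e3 : B * ℓ * (1 + θ * ℓ) + S ≤ (B * (1 + θ) + |S|) * ℓ ^ 2 := by
      have h8 := le_abs_self S
      have h9 : ℓ ≤ ℓ ^ 2 := by nlinarith
      have h10 : 1 ≤ ℓ ^ 2 := by nlinarith
      have h11 : |S| ≤ |S| * ℓ ^ 2 := le_mul_of_one_le_right (abs_nonneg _) h10
      have h12 : B * ℓ ≤ B * ℓ ^ 2 := mul_le_mul_of_nonneg_left h9 hB0.le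
      nlinarith
    have e4 : 0 ≤ (B * (1 + θ) + |S|) * ℓ ^ 2 := by positivity
    calc (|t| + 4) * (B * ℓ * (1 + θ * ℓ) + S)
        ≤ (|t| + 4) * ((B * (1 + θ) + |S|) * ℓ ^ 2) :=
          mul_le_mul_of_nonneg_left e3 (by positivity)
      _ ≤ (T + 4) * ((B * (1 + θ) + |S|) * ℓ ^ 2) :=
          mul_le_mul_of_nonneg_right (by linarith) e4
      _ = (7 * B * ((T + 4) * (B * (1 + θ) + |S|))) * ℓ ^ 2 / (7 * B) := by
          field_simp
      _ ≤ ℓ * ℓ ^ 2 / (7 * B) := by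
          apply div_le_div_of_nonneg_right _ (by positivity)
          exact mul_le_mul_of_nonneg_right h4 (by positivity)
      _ ≤ ℓ ^ 4 / (7 * B) := by
          apply div_le_div_of_nonneg_right _ (by positivity)
          have : ℓ * ℓ ^ 2 = ℓ ^ 3 := by ring
          rw [this]
          exact pow_le_pow_right₀ hℓ1 (by norm_num)
  have hBd : ∀ τ : ℝ, 0 < τ → τ ≤ t2 →
      (La G (((1 + τ : ℝ) : ℂ) + t * Complex.I)).re ≤ 1 / t2 := by
    intro τ hτ hτ2
    have h6 := La_re_le hG hB hL hc hc1 hY1 hyp hrp hrc ht2p ht21 ht2r hM1 hbd hτ hτ2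
    refine h6.trans ?_
    have e1 : Real.log M = 5 * Real.log ℓ := by
      rw [hM, Real.log_pow]; push_cast; ring
    rw [e1]
    have e2 : CL * (1 + 5 * Real.log ℓ) / r ≤ CL * (6 * Real.log ℓ) / r := by
      apply div_le_div_of_nonneg_right _ hrp.le
      apply mul_le_mul_of_nonneg_left _ hCL.le
      linarith
    refine e2.trans (le_of_eq ?_)
    rw [hr, ht2, hlP, hθ]
    field_simp
  -- the mean value inequality
  have hMV : -(H0 G (((1 + t2 : ℝ) : ℂ) + t * Complex.I)).re -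
      -(H0 G (((1 + t1 : ℝ) : ℂ) + t * Complex.I)).re ≤ (1 / t2 + ∑' x : RP K × ℕ, bet x) * (t2 - t1) := by
    have hderiv : ∀ τ : ℝ, 0 < τ → HasDerivAt
        (fun τ : ℝ => -(H0 G (((1 + τ : ℝ) : ℂ) + t * Complex.I)).re)
        (L0 G (((1 + τ : ℝ) : ℂ) + t * Complex.I)).re τ := by
      intro τ hτ
      have hs : 1 < (((1 + τ : ℝ) : ℂ) + t * Complex.I).re := by simp; exact hτ
      have g1 := hasDerivAt_H0 hG hB hs
      have e0 : (((1 + τ : ℝ) : ℂ) + t * Complex.I) = (τ : ℂ) + (1 + t * Complex.I) := by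
        push_cast; ring
      rw [e0] at g1
      have g2 := (HasDerivAt.comp_add_const (τ : ℂ) (1 + t * Complex.I) g1).real_of_complex
      have g3 := g2.neg
      rw [← e0] at g3
      have e3 : (fun x : ℝ => -(H0 G ((x : ℂ) + (1 + t * Complex.I))).re) =
          (fun τ : ℝ => -(H0 G (((1 + τ : ℝ) : ℂ) + t * Complex.I)).re) := by
        funext x
        congr 3
        push_cast; ring
      have e4 : -(-(L0 G (((1 + τ : ℝ) : ℂ) + t * Complex.I))).re =
          (L0 G (((1 + τ : ℝ) : ℂ) + t * Complex.I)).re := by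
        rw [Complex.neg_re, neg_neg]
      rw [e4] at g3
      rw [← e3]
      exact g3
    refine Convex.image_sub_le_mul_sub_of_deriv_le (convex_Icc t1 t2)
      (f := fun τ : ℝ => -(H0 G (((1 + τ : ℝ) : ℂ) + t * Complex.I)).re) ?_ ?_ ?_ t1
      (Set.left_mem_Icc.2 ht12) t2 (Set.right_mem_Icc.2 ht12) ht12
    · exact fun τ hτ => (hderiv τ (lt_of_lt_of_le ht1p hτ.1)).continuousAt.continuousWithinAt
    · rw [interior_Icc]
      exact fun τ hτ => (hderiv τ (ht1p.trans hτ.1)).differentiableAt.differentiableWithinAt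
    · rw [interior_Icc]
      intro τ hτ
      have hτ0 : 0 < τ := ht1p.trans hτ.1
      rw [(hderiv τ hτ0).deriv]
      have g1 := hBd τ hτ0 hτ.2.le
      have g2 := norm_La_sub_le hG hB (s := ((1 + τ : ℝ) : ℂ) + t * Complex.I) (by simp; exact hτ0)
      have g3 := (Complex.abs_re_le_norm _).trans g2
      rw [Complex.sub_re] at g3
      have g4 := neg_le_of_abs_le g3
      linarith
  have hmain := main_diff hG hCg hg hB (y := t) hP2 hPQ
  have hfinal : (1 / t2 + ∑' x : RP K × ℕ, bet x) * (t2 - t1) ≤ 1 + ∑' x : RP K × ℕ, bet x := by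
    have g1 : 0 ≤ 1 / t2 + ∑' x : RP K × ℕ, bet x := by positivity
    calc (1 / t2 + ∑' x : RP K × ℕ, bet x) * (t2 - t1) ≤ (1 / t2 + ∑' x : RP K × ℕ, bet x) * t2 :=
          mul_le_mul_of_nonneg_left (by linarith) g1
      _ = 1 + (∑' x : RP K × ℕ, bet x) * t2 := by
          rw [add_mul, one_div, inv_mul_cancel₀ ht2p.ne']
      _ ≤ 1 + ∑' x : RP K × ℕ, bet x := by
          have := mul_le_mul_of_nonneg_left ht21 hbet
          linarith
  have e5 : ∑ π ∈ GP P Q, G π * ((nm π : ℕ) : ℂ) ^ (-1 - Complex.I * (t : ℂ)) =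
      ∑ π ∈ GP P Q, OS.T G (1 + t * Complex.I) π := by
    apply sum_congr rfl
    intro π _
    unfold OS.T
    congr 2
    ring
  rw [e5]
  linarith

end Pool.Agent.Lib.MP391708.MAR
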