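import Pool.Agent.Lib.MP_391708_nt.MAR.Spec

/-!
# SEP: different directions in a narrow class are separated
-/

set_option autoImplicit false

namespace Pool.Agent.Lib.MP391708.MAR

open Finset Filter Topology NumberField
open scoped ComplexConjugate Classical nonZeroDivisors

namespace SepM

/-! ## The phase -/

/-- `|exp (2 π i θ) - 1| ≥ 4 |θ|` for `|θ| ≤ 1/2` -/
theorem exp_lower {θ : ℝ} (h : |θ| ≤ 1 / 2) :
    4 * |θ| ≤ ‖Complex.exp (Complex.I * ((2 * Real.pi * θ : ℝ) : ℂ)) - 1‖ := by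
  rw [Complex.norm_exp_I_mul_ofReal_sub_one]
  rw [norm_mul, Real.norm_eq_abs, Real.norm_eq_abs]
  have h1 : 2 * Real.pi * θ / 2 = Real.pi * θ := by ring
  rw [h1]
  have h2 : |(2 : ℝ)| = 2 := by norm_num
  rw [h2]
  have h3 : 2 * |θ| ≤ |Real.sin (Real.pi * θ)| := by
    have h4 := Real.mul_abs_le_abs_sin (x := Real.pi * θ) (by
      rw [abs_mul, abs_of_pos Real.pi_pos]
      nlinarith [Real.pi_pos])
    rw [abs_mul, abs_of_pos Real.pi_pos] at h4
    have h5 : 2 / Real.pi * (Real.pi * |θ|) = 2 * |θ| := by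
      field_simp
    linarith
  linarith

/-- `|log (a / b)| ≥ |a - b| / max a b` -/
theorem log_lower {a b : ℝ} (ha : 0 < a) (hb : 0 < b) :
    |a - b| / max a b ≤ |Real.log (a / b)| := by
  wlog h : b ≤ a generalizing a b
  · have h1 := this hb ha (by linarith)
    have h2 : Real.log (a / b) = -Real.log (b / a) := by rw [← Real.log_inv, inv_div]
    rw [h2, abs_neg, abs_sub_comm, max_comm]
    exact h1
  rw [max_eq_left h, abs_of_nonneg (by linarith)]
  have h1 : 1 ≤ a / b := by rwa [le_div_iff₀ hb, one_mul]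
  rw [abs_of_nonneg (Real.log_nonneg h1)]
  have h2 := Real.add_one_le_exp (-Real.log (a / b))
  rw [Real.exp_neg, Real.exp_log (by positivity), inv_div] at h2
  rw [sub_div, div_self ha.ne']
  linarith

/-! ## Integers of a real quadratic field -/

section

variable {K : Type} [Field K] [NumberField K]

/-- a real quadratic field has two infinite places -/
theorem card_place [RQ K] : Fintype.card (InfinitePlace K) = 2 := by
  have : NumberField.IsTotallyReal K := RQ.re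
  rw [InfinitePlace.card_eq_nrRealPlaces_add_nrComplexPlaces,
    IsTotallyReal.nrComplexPlaces_eq_zero, add_zero, ← IsTotallyReal.finrank, RQ.deg]

/-- the complex embedding of a real embedding -/
noncomputable def cx (σ : K →+* ℝ) : K →+* ℂ := Complex.ofRealHom.comp σ

omit [NumberField K] in
theorem cx_apply (σ : K →+* ℝ) (v : K) : cx σ v = ((σ v : ℝ) : ℂ) := rfl

omit [NumberField K] in
theorem mk_ne {σ τ : K →+* ℝ} (h : σ ≠ τ) : InfinitePlace.mk (cx σ) ≠ InfinitePlace.mk (cx τ) := by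
  intro h1
  apply h
  rw [InfinitePlace.mk_eq_iff] at h1
  have h2 : ComplexEmbedding.conjugate (cx σ) = cx σ := by
    ext v
    rw [ComplexEmbedding.conjugate_coe_eq, cx_apply, Complex.conj_ofReal]
  rw [h2, or_self] at h1
  ext v
  have h3 := congrArg (fun f : K →+* ℂ => f v) h1
  simp only [cx_apply] at h3
  exact_mod_cast h3

/-- the norm of a principal ideal -/
theorem norm_abs [RQ K] {σ τ : K →+* ℝ} (h : σ ≠ τ) (v : 𝓞 K) :
    |σ (v : K)| * |τ (v : K)| = (nm (Ideal.span {v} : Gi K) : ℝ) := by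
  have hc : NumberField.IsTotallyReal K := RQ.re
  have h1 := InfinitePlace.prod_eq_abs_norm (v : K)
  have hne := mk_ne h
  have h2 : (Finset.univ : Finset (InfinitePlace K)) =
      {InfinitePlace.mk (cx σ), InfinitePlace.mk (cx τ)} := by
    symm
    apply Finset.eq_univ_of_card
    rw [Finset.card_pair hne, card_place]
  rw [h2, Finset.prod_pair hne, IsTotallyReal.mult_eq, IsTotallyReal.mult_eq, pow_one, pow_one,
    InfinitePlace.apply, InfinitePlace.apply, cx_apply, cx_apply, Complex.norm_real,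
    Complex.norm_real, Real.norm_eq_abs, Real.norm_eq_abs] at h1
  rw [h1, nm, Ideal.absNorm_span_singleton, Nat.cast_natAbs]
  have h4 : Algebra.norm ℚ (v : K) = ((Algebra.norm ℤ v : ℤ) : ℚ) :=
    (Algebra.coe_norm_int v).symm
  rw [h4]
  push_cast
  rfl

theorem norm_pos [RQ K] {σ τ : K →+* ℝ} (h : σ ≠ τ) {v : 𝓞 K} (hs : 0 < σ (v : K))
    (ht : 0 < τ (v : K)) : σ (v : K) * τ (v : K) = (nm (Ideal.span {v} : Gi K) : ℝ) := by
  rw [← norm_abs h, abs_of_pos hs, abs_of_pos ht]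

omit [NumberField K] in
theorem map_add_one (σ : K →+* ℝ) (v : 𝓞 K) : σ ((v + 1 : 𝓞 K) : K) = σ (v : K) + 1 := by
  change σ (algebraMap (𝓞 K) K (v + 1)) = σ (algebraMap (𝓞 K) K v) + 1
  rw [map_add, map_one, map_add, map_one]

omit [NumberField K] in
theorem map_nat (σ : K →+* ℝ) (n : ℕ) : σ (((n : ℕ) : 𝓞 K) : K) = n := by
  change σ (algebraMap (𝓞 K) K (n : 𝓞 K)) = (n : ℝ)
  rw [map_natCast, map_natCast]

omit [NumberField K] in
theorem map_int (σ : K →+* ℝ) (n : ℤ) : σ (((n : ℤ) : 𝓞 K) : K) = n := by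
  change σ (algebraMap (𝓞 K) K (n : 𝓞 K)) = (n : ℝ)
  rw [map_intCast, map_intCast]

omit [NumberField K] in
theorem map_mul' (σ : K →+* ℝ) (v w : 𝓞 K) : σ ((v * w : 𝓞 K) : K) = σ (v : K) * σ (w : K) := by
  change σ (algebraMap (𝓞 K) K (v * w)) = σ (algebraMap (𝓞 K) K v) * σ (algebraMap (𝓞 K) K w)
  rw [map_mul, map_mul]

/-- the trace of a totally positive integer is a rational integer -/
theorem trace_int [RQ K] {σ τ : K →+* ℝ} (h : σ ≠ τ) {v : 𝓞 K} (hs : 0 < σ (v : K))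
    (ht : 0 < τ (v : K)) : ∃ t : ℤ, σ (v : K) + τ (v : K) = t := by
  refine ⟨(nm (Ideal.span {v + 1} : Gi K) : ℤ) - (nm (Ideal.span {v} : Gi K) : ℤ) - 1, ?_⟩
  have h1 := norm_pos h hs ht
  have h2 := norm_pos h (v := v + 1) (by rw [map_add_one]; linarith) (by rw [map_add_one]; linarith)
  rw [map_add_one, map_add_one] at h2
  push_cast
  rw [← h1, ← h2]
  ring

/-- the two conjugates of a totally positive integer are equal, and it is rational, or they differ
by at least one -/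
theorem diff_or [RQ K] {σ τ : K →+* ℝ} (h : σ ≠ τ) {v : 𝓞 K} (hs : 0 < σ (v : K))
    (ht : 0 < τ (v : K)) : (∃ m : ℕ, 0 < m ∧ v = (m : 𝓞 K)) ∨ 1 ≤ |σ (v : K) - τ (v : K)| := by
  obtain ⟨t, htr⟩ := trace_int h hs ht
  have h1 := norm_pos h hs ht
  set N : ℤ := (nm (Ideal.span {v} : Gi K) : ℤ) with hN
  have hN' : (nm (Ideal.span {v} : Gi K) : ℝ) = (N : ℝ) := by rw [hN]; push_cast; rfl
  rw [hN'] at h1
  have h2 : (σ (v : K) - τ (v : K)) ^ 2 = ((t ^ 2 - 4 * N : ℤ) : ℝ) := by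
    push_cast
    rw [← htr, ← h1]
    ring
  rcases le_or_gt (t ^ 2 - 4 * N) 0 with h3 | h3
  · left
    have h4 : ((t ^ 2 - 4 * N : ℤ) : ℝ) ≤ 0 := by exact_mod_cast h3
    rw [← h2] at h4
    have h5 : (σ (v : K) - τ (v : K)) ^ 2 = 0 := le_antisymm h4 (sq_nonneg _)
    have h6 : σ (v : K) - τ (v : K) = 0 := (pow_eq_zero_iff two_ne_zero).1 h5
    rw [h5] at h2
    have h7 : t ^ 2 = 4 * N := by
      have : (t ^ 2 - 4 * N : ℤ) = 0 := by exact_mod_cast h2.symm
      linarith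
    have h8 : Even t := by
      have h9 : Even (t ^ 2) := by rw [h7]; exact ⟨2 * N, by ring⟩
      exact (Int.even_pow.1 h9).1
    obtain ⟨m, hm⟩ := h8
    have h10 : σ (v : K) = m := by
      have : (t : ℝ) = m + m := by rw [hm]; push_cast; ring
      linarith
    have hm0 : 0 < m := by
      have : (0 : ℝ) < m := by rw [← h10]; exact hs
      exact_mod_cast this
    refine ⟨m.toNat, by omega, ?_⟩
    have h11 : σ (v : K) = σ (((m.toNat : ℕ) : 𝓞 K) : K) := by
      rw [map_nat, h10]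
      have : ((m.toNat : ℕ) : ℤ) = m := Int.toNat_of_nonneg hm0.le
      exact_mod_cast this.symm
    exact RingOfIntegers.coe_injective (σ.injective h11)
  · right
    have h4 : (1 : ℝ) ≤ ((t ^ 2 - 4 * N : ℤ) : ℝ) := by exact_mod_cast h3
    rw [← h2] at h4
    have h5 : (1 : ℝ) ^ 2 ≤ |σ (v : K) - τ (v : K)| ^ 2 := by rw [sq_abs]; linarith
    exact le_of_sq_le_sq h5 (abs_nonneg _)

/-- the norm of the ideal generated by a natural number -/
theorem nm_rt [RQ K] (n : ℕ) : nm (rt n : Gi K) = n ^ 2 := by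
  rw [nm, rt, Ideal.absNorm_span_singleton]
  have h1 : Algebra.norm ℤ ((n : ℕ) : 𝓞 K) = (n : ℤ) ^ 2 := by
    have h2 := Algebra.norm_algebraMap_of_basis (RingOfIntegers.basis K) (n : ℤ)
    have h3 : Fintype.card (Module.Free.ChooseBasisIndex ℤ (𝓞 K)) = 2 := by
      rw [← Module.finrank_eq_card_chooseBasisIndex, RingOfIntegers.rank, RQ.deg]
    rw [h3] at h2
    rw [← h2]
    simp
  rw [h1]
  norm_cast

/-- a totally positive element is a quotient of a totally positive integer and a natural number -/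
theorem exists_quot (u : Kˣ) (hu : u ∈ tpos K) : ∃ (y : 𝓞 K) (n : ℕ), 0 < n ∧
    (y : K) = (u : K) * n ∧ ∀ σ : K →+* ℝ, 0 < σ (y : K) := by
  obtain ⟨a, b, hb, hab⟩ := IsFractionRing.div_surjective (A := 𝓞 K) (u : K)
  have hb0 : b ≠ 0 := nonZeroDivisors.ne_zero hb
  have hbk : algebraMap (𝓞 K) K b ≠ 0 := by
    intro h
    exact hb0 ((map_eq_zero_iff _ (IsFractionRing.injective (𝓞 K) K)).1 h)
  obtain ⟨c, hc⟩ : b ∣ ((nm (Ideal.span {b} : Gi K) : ℕ) : 𝓞 K) :=
    Ideal.mem_span_singleton.1 (Ideal.absNorm_mem _)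
  have hn : nm (Ideal.span {b} : Gi K) ≠ 0 := by
    rw [nm, Ne, Ideal.absNorm_eq_zero_iff, Ideal.span_singleton_eq_bot]
    exact hb0
  have hy : ((a * c : 𝓞 K) : K) = (u : K) * (nm (Ideal.span {b} : Gi K) : ℕ) := by
    have h1 := congrArg (algebraMap (𝓞 K) K) hc
    rw [map_natCast, map_mul] at h1
    rw [h1, ← hab]
    change algebraMap (𝓞 K) K (a * c) = _
    rw [map_mul]
    field_simp
  refine ⟨a * c, nm (Ideal.span {b} : Gi K), Nat.pos_of_ne_zero hn, hy, fun σ => ?_⟩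
  rw [hy, map_mul, map_natCast]
  have h4 : (0 : ℝ) < ((nm (Ideal.span {b} : Gi K) : ℕ) : ℝ) := by
    exact_mod_cast Nat.pos_of_ne_zero hn
  exact mul_pos (hu σ) h4

/-- two ideals of the same narrow class -/
theorem exists_rel {z z' : Gi K} (hz : z ≠ 0) (hz' : z' ≠ 0) (h : cls z = cls z') :
    ∃ (y : 𝓞 K) (n : ℕ), 0 < n ∧ (∀ σ : K →+* ℝ, 0 < σ (y : K)) ∧
      Ideal.span {((n : ℕ) : 𝓞 K)} * z = Ideal.span {y} * z' := by
  rw [cls, cls, dif_pos hz, dif_pos hz'] at h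
  have h1 : (FractionalIdeal.mk0 K ⟨z', mem_nonZeroDivisors_of_ne_zero hz'⟩)⁻¹ *
      FractionalIdeal.mk0 K ⟨z, mem_nonZeroDivisors_of_ne_zero hz⟩ ∈ tp K :=
    QuotientGroup.eq.1 h.symm
  obtain ⟨u, hu, h2⟩ := h1
  obtain ⟨y, n, hn, hy, hpos⟩ := exists_quot u hu
  refine ⟨y, n, hn, hpos, ?_⟩
  have h3 : FractionalIdeal.mk0 K ⟨z, mem_nonZeroDivisors_of_ne_zero hz⟩ =
      FractionalIdeal.mk0 K ⟨z', mem_nonZeroDivisors_of_ne_zero hz'⟩ * toPrincipalIdeal (𝓞 K) K u := by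
    rw [h2, mul_inv_cancel_left]
  have h4 := congrArg (fun t : (FractionalIdeal (𝓞 K)⁰ K)ˣ => (t : FractionalIdeal (𝓞 K)⁰ K)) h3
  simp only [FractionalIdeal.coe_mk0, Units.val_mul, coe_toPrincipalIdeal] at h4
  have h5 : ((Ideal.span {((n : ℕ) : 𝓞 K)} * z : Gi K) : FractionalIdeal (𝓞 K)⁰ K) =
      ((Ideal.span {y} * z' : Gi K) : FractionalIdeal (𝓞 K)⁰ K) := by
    rw [FractionalIdeal.coeIdeal_mul, FractionalIdeal.coeIdeal_mul,
      FractionalIdeal.coeIdeal_span_singleton, FractionalIdeal.coeIdeal_span_singleton, h4,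
      mul_comm (z' : FractionalIdeal (𝓞 K)⁰ K), ← mul_assoc,
      FractionalIdeal.spanSingleton_mul_spanSingleton]
    congr 2
    change algebraMap (𝓞 K) K ((n : ℕ) : 𝓞 K) * (u : K) = (y : K)
    rw [hy, map_natCast]
    ring
  exact FractionalIdeal.coeIdeal_injective h5

/-- the generator of `z * z''`, where `z' * z'' = (nm z')` -/
theorem exists_gen [RQ K] {z z' : Gi K} (hz : z ≠ 0) (hz' : z' ≠ 0) (h : cls z = cls z') :
    ∃ (n : ℕ) (y γ : 𝓞 K) (z'' : Gi K), 0 < n ∧ (∀ σ : K →+* ℝ, 0 < σ (y : K)) ∧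
      Ideal.span {((n : ℕ) : 𝓞 K)} * z = Ideal.span {y} * z' ∧
      y * (nm z' : 𝓞 K) = ((n : ℕ) : 𝓞 K) * γ ∧
      z' * z'' = rt (nm z') ∧ z * z'' = Ideal.span {γ} ∧
      nm (Ideal.span {γ} : Gi K) = nm z * nm z' := by
  obtain ⟨y, n, hn, hy, hxy⟩ := exists_rel hz hz' h
  have hn' : nm z' ≠ 0 := by
    rw [nm, Ne, Ideal.absNorm_eq_zero_iff]
    exact hz'
  have hx : ((n : ℕ) : 𝓞 K) ≠ 0 := Nat.cast_ne_zero.2 hn.ne'
  obtain ⟨z'', hz''⟩ : z' ∣ rt (nm z') := by
    rw [Ideal.dvd_iff_le]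
    exact Ideal.span_singleton_absNorm_le z'
  have h1 : Ideal.span {((n : ℕ) : 𝓞 K)} * (z * z'') =
      Ideal.span {y * ((nm z' : ℕ) : 𝓞 K)} := by
    rw [← mul_assoc, hxy, mul_assoc, ← hz'', rt, Ideal.span_singleton_mul_span_singleton]
  have h2 : ((n : ℕ) : 𝓞 K) ∣ y * ((nm z' : ℕ) : 𝓞 K) := by
    have h2 : Ideal.span {y * ((nm z' : ℕ) : 𝓞 K)} ≤ Ideal.span {((n : ℕ) : 𝓞 K)} := by
      rw [← h1]
      exact Ideal.mul_le_left
    exact Ideal.span_singleton_le_span_singleton.1 h2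
  obtain ⟨γ, hγ⟩ := h2
  have hx' : (Ideal.span {((n : ℕ) : 𝓞 K)} : Gi K) ≠ 0 := by
    exact fun h => hx (Ideal.span_singleton_eq_bot.1 h)
  have h3 : z * z'' = Ideal.span {γ} := by
    rw [hγ, ← Ideal.span_singleton_mul_span_singleton] at h1
    exact mul_left_cancel₀ hx' h1
  refine ⟨n, y, γ, z'', hn, hy, hxy, hγ, hz''.symm, h3, ?_⟩
  have h4 : nm z' * nm z'' = nm z' ^ 2 := by
    rw [← nm_rt (K := K) (nm z'), hz'']
    simp only [nm, map_mul]
  have h5 : nm z'' = nm z' := by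
    rw [sq] at h4
    exact Nat.eq_of_mul_eq_mul_left (Nat.pos_of_ne_zero hn') h4
  rw [← h3, ← h5]
  simp only [nm, map_mul]

/-- powers of a unit -/
theorem mapE_zpow (σ : K →+* ℝ) (E : (𝓞 K)ˣ) (n : ℤ) :
    σ (((E ^ n : (𝓞 K)ˣ) : 𝓞 K) : K) = σ ((E : 𝓞 K) : K) ^ n := by
  have h := map_zpow (Units.map ((σ.comp (algebraMap (𝓞 K) K) : 𝓞 K →+* ℝ) : 𝓞 K →* ℝ)) E n
  have h2 := congrArg Units.val h
  rw [Units.val_zpow_eq_zpow_val] at h2
  exact h2

end

end SepM

open SepM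

/-- **SEP** -/
theorem specSep {K : Type} [Field K] [NumberField K] [RQ K] (D : Dir K) : SpecSep K D := by
  have hne := D.ne
  set sE := D.σ ((D.E : 𝓞 K) : K) with hsE
  set tE := D.τ ((D.E : 𝓞 K) : K) with htE
  have hs1 : 1 < sE := D.one_lt
  have ht0 : 0 < tE := D.pos
  have hE1 : sE * tE = 1 := by
    have h1 := norm_pos hne (v := (D.E : 𝓞 K)) (by rw [← hsE]; linarith) ht0
    rw [← hsE, ← htE] at h1
    have h2 : (Ideal.span {((D.E : (𝓞 K)ˣ) : 𝓞 K)} : Gi K) = ⊤ :=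
      Ideal.span_singleton_eq_top.2 (Units.isUnit _)
    rw [h1, h2, nm, Ideal.absNorm_top, Nat.cast_one]
  set R : ℝ := D.R with hR
  have hRE : R = sE / tE := rfl
  have hR1 : 1 < R := by
    rw [hRE, lt_div_iff₀ ht0]
    nlinarith
  have hlR : 0 < Real.log R := Real.log_pos hR1
  refine ⟨4 / (Real.log R * Real.sqrt R), by positivity, fun z z' hz hz' hcls hpar => ?_⟩
  obtain ⟨n, y, γ, z'', hn, hy, hxy, hγe, hz'', hzz, hnm⟩ := SepM.exists_gen hz hz' hcls
  have hn' : nm z' ≠ 0 := by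
    rw [nm, Ne, Ideal.absNorm_eq_zero_iff]
    exact hz'
  have hnr : (0 : ℝ) < n := by exact_mod_cast hn
  have hnzr : (0 : ℝ) < nm z' := by exact_mod_cast Nat.pos_of_ne_zero hn'
  have hγσ : ∀ φ : K →+* ℝ, φ (y : K) * nm z' = n * φ (γ : K) := by
    intro φ
    have h1 := congrArg (fun v : 𝓞 K => φ (v : K)) hγe
    simp only [map_mul', map_nat] at h1
    exact h1
  have hγpos : ∀ φ : K →+* ℝ, 0 < φ (γ : K) := by
    intro φ
    have h1 : 0 < (n : ℝ) * φ (γ : K) := by rw [← hγσ φ]; exact mul_pos (hy φ) hnzr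
    exact pos_of_mul_pos_right h1 hnr.le |> fun h => (pos_iff_pos_of_mul_pos h1).1 hnr
  -- the difference of the directions
  have h1 : D.f z = ph R (D.σ (γ : K) / D.τ (γ : K)) * D.f z' := by
    have h2 := congrArg D.f hxy
    rw [D.mul, D.mul, D.prin y (hy _) (hy _), D.prin ((n : ℕ) : 𝓞 K) (by rw [map_nat]; exact hnr)
      (by rw [map_nat]; exact hnr), map_nat, map_nat, div_self hnr.ne'] at h2
    have h3 : ph D.toFund.R 1 = 1 := by
      unfold ph
      simp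
    rw [h3, one_mul] at h2
    rw [h2]
    congr 2
    have h4 := hγσ D.σ
    have h5 := hγσ D.τ
    rw [div_eq_div_iff (hy _).ne' (hγpos _).ne']
    have h6 : D.σ (y : K) * D.τ (γ : K) * (nm z' * n) = D.σ (γ : K) * D.τ (y : K) * (nm z' * n) := by
      linear_combination (n : ℝ) * D.τ (γ : K) * h4 - (n : ℝ) * D.σ (γ : K) * h5
    exact mul_right_cancel₀ (by positivity) h6
  have h2 : ‖D.f z - D.f z'‖ = ‖ph R (D.σ (γ : K) / D.τ (γ : K)) - 1‖ := by
    rw [h1, ← sub_one_mul, norm_mul, D.norm z' hz', mul_one]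
  rw [h2]
  -- the reduced generator
  set ρ : ℝ := D.σ (γ : K) / D.τ (γ : K) with hρ
  have hρ0 : 0 < ρ := div_pos (hγpos _) (hγpos _)
  set θ : ℝ := Real.log ρ / Real.log R with hθ
  set k : ℤ := round θ with hk
  have hθk : |θ - k| ≤ 1 / 2 := abs_sub_round θ
  set v : 𝓞 K := γ * ((D.E ^ (-k) : (𝓞 K)ˣ) : 𝓞 K) with hv
  have hvσ : D.σ (v : K) = D.σ (γ : K) * sE ^ (-k) := by rw [hv, map_mul', mapE_zpow]
  have hvτ : D.τ (v : K) = D.τ (γ : K) * tE ^ (-k) := by rw [hv, map_mul', mapE_zpow]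
  have hs0 : 0 < sE := by linarith
  have hvσ0 : 0 < D.σ (v : K) := by
    rw [hvσ]
    exact mul_pos (hγpos _) (zpow_pos hs0 _)
  have hvτ0 : 0 < D.τ (v : K) := by
    rw [hvτ]
    exact mul_pos (hγpos _) (zpow_pos ht0 _)
  have hspan : (Ideal.span {v} : Gi K) = Ideal.span {γ} := by
    rw [Ideal.span_singleton_eq_span_singleton]
    exact Associated.symm ⟨D.E ^ (-k), rfl⟩
  have hprod : D.σ (v : K) * D.τ (v : K) = (nm z : ℝ) * nm z' := by
    rw [norm_pos hne hvσ0 hvτ0, hspan, hnm]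
    push_cast
    rfl
  rcases diff_or hne hvσ0 hvτ0 with ⟨m, hm0, hm⟩ | hdiff
  · exfalso
    apply hpar
    refine ⟨hz, hz', nm z', m, Nat.pos_of_ne_zero hn', hm0, ?_⟩
    have h6 : (rt m : Gi K) = Ideal.span {γ} := by
      rw [rt, ← hm, hspan]
    rw [h6, ← hzz, ← hz'']
    ring
  -- the logarithm of the ratio
  have hratio : Real.log (D.σ (v : K) / D.τ (v : K)) = (θ - k) * Real.log R := by
    have h3 : D.σ (v : K) / D.τ (v : K) = ρ * R ^ (-k) := by
      rw [hvσ, hvτ, hρ, hRE, div_zpow, mul_div_mul_comm]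
    rw [h3, Real.log_mul hρ0.ne' (zpow_pos (by linarith) _).ne', Real.log_zpow, hθ]
    have : Real.log ρ / Real.log R * Real.log R = Real.log ρ := by field_simp
    push_cast
    rw [sub_mul, this]
    ring
  have hmax : max (D.σ (v : K)) (D.τ (v : K)) ≤ Real.sqrt R * Real.sqrt ((nm z : ℝ) * nm z') := by
    rw [← Real.sqrt_mul (by linarith), ← hprod]
    apply Real.le_sqrt_of_sq_le
    have hl : |Real.log (D.σ (v : K) / D.τ (v : K))| ≤ Real.log R := by
      rw [hratio, abs_mul, abs_of_pos hlR]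
      nlinarith
    rw [abs_le] at hl
    have hq0 : 0 < D.σ (v : K) / D.τ (v : K) := by positivity
    have hq1 : D.σ (v : K) / D.τ (v : K) ≤ R := (Real.log_le_log_iff hq0 (by linarith)).1 hl.2
    have hq2 : D.τ (v : K) / D.σ (v : K) ≤ R := by
      have h3 : Real.log (D.τ (v : K) / D.σ (v : K)) ≤ Real.log R := by
        rw [← inv_div, Real.log_inv]
        linarith [hl.1]
      exact (Real.log_le_log_iff (by positivity) (by linarith)).1 h3
    rw [div_le_iff₀ hvτ0] at hq1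
    rw [div_le_iff₀ hvσ0] at hq2
    rcases max_cases (D.σ (v : K)) (D.τ (v : K)) with ⟨h3, -⟩ | ⟨h3, -⟩
    · rw [h3]
      calc D.σ (v : K) ^ 2 = D.σ (v : K) * D.σ (v : K) := sq _
        _ ≤ D.σ (v : K) * (R * D.τ (v : K)) := by gcongr
        _ = _ := by ring
    · rw [h3]
      calc D.τ (v : K) ^ 2 = D.τ (v : K) * D.τ (v : K) := sq _
        _ ≤ (R * D.σ (v : K)) * D.τ (v : K) := by gcongr
        _ = _ := by ring
  have hlow := log_lower hvσ0 hvτ0
  rw [hratio, abs_mul, abs_of_pos hlR] at hlow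
  have hmax0 : 0 < max (D.σ (v : K)) (D.τ (v : K)) := lt_max_of_lt_left hvσ0
  -- the phase
  have hph : ph R ρ = Complex.exp (Complex.I * ((2 * Real.pi * (θ - k) : ℝ) : ℂ)) := by
    unfold ph
    rw [← hθ]
    have h3 : Complex.I * ((2 * Real.pi * θ : ℝ) : ℂ) =
        Complex.I * ((2 * Real.pi * (θ - k) : ℝ) : ℂ) + k * (2 * Real.pi * Complex.I) := by
      push_cast
      ring
    rw [h3, Complex.exp_add, Complex.exp_int_mul_two_pi_mul_I, mul_one]
  rw [hph]
  refine le_trans ?_ (exp_lower hθk)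
  have hsq0 : 0 < Real.sqrt ((nm z : ℝ) * nm z') := by
    apply Real.sqrt_pos.2
    rw [← hprod]
    positivity
  have h7 : 1 / (Real.sqrt R * Real.sqrt ((nm z : ℝ) * nm z')) ≤ |θ - k| * Real.log R := by
    calc 1 / (Real.sqrt R * Real.sqrt ((nm z : ℝ) * nm z')) ≤
          1 / max (D.σ (v : K)) (D.τ (v : K)) := one_div_le_one_div_of_le hmax0 hmax
      _ ≤ |D.σ (v : K) - D.τ (v : K)| / max (D.σ (v : K)) (D.τ (v : K)) := by gcongr
      _ ≤ _ := hlow
  have hsR : 0 < Real.sqrt R := Real.sqrt_pos.2 (by linarith)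
  rw [div_le_iff₀ (by positivity)] at h7
  rw [div_div, div_le_iff₀ (by positivity)]
  nlinarith

end Pool.Agent.Lib.MP391708.MAR
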