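import Pool.Agent.Lib.MP_391708_nt.MAR.Spec
import Pool.Agent.Lib.MP_391708_nt.MAR.Basic2

/-!
# UP: Halász–Montgomery on sparse sets of frequencies (ideals)
-/

set_option autoImplicit false

namespace Pool.Agent.Lib.MP391708.MAR

namespace UpM

open Finset Filter Topology NumberField
open scoped ComplexConjugate Classical

variable {K : Type} [Field K] [NumberField K]
variable [MA.Sg]

/-- duality (Halász–Montgomery) -/
lemma hm (D : Dir K) (U : Finset (Kp K)) (S S' : Finset (Gi K)) (a : Gi K → ℂ) (hS : S ⊆ S')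
    (hS0 : ∀ z ∈ S', z ≠ 0) (B : ℝ) (hB0 : 0 ≤ B)
    (hB : ∀ k ∈ U, ∑ l ∈ U, ‖∑ z ∈ S', xi D (k - l) z‖ ≤ B) :
    ∑ k ∈ U, ‖∑ z ∈ S, a z * xi D k z‖ ^ 2 ≤ B * ∑ z ∈ S, ‖a z‖ ^ 2 := by
  set b : Kp K → ℂ := fun k => ∑ z ∈ S, a z * xi D k z with hb
  set g : Gi K → ℂ := fun z => ∑ k ∈ U, conj (b k) * xi D k z with hg
  set T : ℝ := ∑ k ∈ U, ‖b k‖ ^ 2 with hT
  set A : ℝ := ∑ z ∈ S, ‖a z‖ ^ 2 with hA
  have hT0 : 0 ≤ T := sum_nonneg fun _ _ => by positivity
  have hA0 : 0 ≤ A := sum_nonneg fun _ _ => by positivity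
  -- T as a sum over z
  have e1 : (T : ℂ) = ∑ z ∈ S, a z * g z := by
    rw [hT]
    push_cast
    have : ∀ k, ((‖b k‖ : ℂ)) ^ 2 = ∑ z ∈ S, a z * (conj (b k) * xi D k z) := by
      intro k
      have h1 : ((‖b k‖ : ℂ)) ^ 2 = b k * conj (b k) := by
        rw [Complex.mul_conj, Complex.normSq_eq_norm_sq]; push_cast; rfl
      rw [h1, hb]
      simp only
      rw [sum_mul]
      refine sum_congr rfl fun z _ => by ring
    simp_rw [this]
    rw [sum_comm]
    refine sum_congr rfl fun z _ => ?_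
    rw [hg]; simp only; rw [mul_sum]
  have e2 : T ≤ ∑ z ∈ S, ‖a z‖ * ‖g z‖ := by
    have h1 : T = ‖(T : ℂ)‖ := by rw [Complex.norm_real, Real.norm_eq_abs, abs_of_nonneg hT0]
    rw [h1, e1]
    refine (norm_sum_le _ _).trans (sum_le_sum fun z _ => by rw [norm_mul])
  have e3 : T ^ 2 ≤ A * ∑ z ∈ S', ‖g z‖ ^ 2 := by
    calc T ^ 2 ≤ (∑ z ∈ S, ‖a z‖ * ‖g z‖) ^ 2 := by
          apply pow_le_pow_left₀ hT0 e2
      _ ≤ (∑ z ∈ S, ‖a z‖ ^ 2) * (∑ z ∈ S, ‖g z‖ ^ 2) := sum_mul_sq_le_sq_mul_sq _ _ _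
      _ ≤ A * ∑ z ∈ S', ‖g z‖ ^ 2 := by
          apply mul_le_mul_of_nonneg_left _ hA0
          exact sum_le_sum_of_subset_of_nonneg hS fun _ _ _ => by positivity
  -- the quadratic form
  set M : Kp K → Kp K → ℂ := fun k l => ∑ z ∈ S', xi D (k - l) z with hM
  have hMs : ∀ k l, ‖M k l‖ = ‖M l k‖ := by
    intro k l
    have : M l k = conj (M k l) := by
      rw [hM]; simp only
      rw [map_sum]
      refine sum_congr rfl fun z hz => ?_
      rw [conj_xi D _ (hS0 z hz)]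
      congr 1; rw [neg_sub]
    rw [this, RCLike.norm_conj]
  have e4 : ((∑ z ∈ S', ‖g z‖ ^ 2 : ℝ) : ℂ) = ∑ k ∈ U, ∑ l ∈ U, conj (b k) * b l * M k l := by
    push_cast
    have : ∀ z ∈ S', ((‖g z‖ : ℂ)) ^ 2 =
        ∑ k ∈ U, ∑ l ∈ U, conj (b k) * b l * xi D (k - l) z := by
      intro z hz
      have h1 : ((‖g z‖ : ℂ)) ^ 2 = g z * conj (g z) := by
        rw [Complex.mul_conj, Complex.normSq_eq_norm_sq]; push_cast; rfl
      rw [h1, hg]
      simp only
      rw [map_sum, sum_mul_sum]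
      refine sum_congr rfl fun k _ => sum_congr rfl fun l _ => ?_
      rw [map_mul, Complex.conj_conj, xi_sub D k l (hS0 z hz)]
      ring
    rw [sum_congr rfl this, sum_comm]
    refine sum_congr rfl fun k _ => ?_
    rw [sum_comm]
    refine sum_congr rfl fun l _ => ?_
    exact (mul_sum _ _ _).symm
  have e5 : ∑ z ∈ S', ‖g z‖ ^ 2 ≤ B * T := by
    have h0 : 0 ≤ ∑ z ∈ S', ‖g z‖ ^ 2 := sum_nonneg fun _ _ => by positivity
    have h1 : ∑ z ∈ S', ‖g z‖ ^ 2 = ‖((∑ z ∈ S', ‖g z‖ ^ 2 : ℝ) : ℂ)‖ := by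
      rw [Complex.norm_real, Real.norm_eq_abs, abs_of_nonneg h0]
    rw [h1, e4]
    calc ‖∑ k ∈ U, ∑ l ∈ U, conj (b k) * b l * M k l‖
        ≤ ∑ k ∈ U, ∑ l ∈ U, ‖conj (b k) * b l * M k l‖ :=
          (norm_sum_le _ _).trans (sum_le_sum fun k _ => norm_sum_le _ _)
      _ ≤ ∑ k ∈ U, ∑ l ∈ U, ((1 / 2) * (‖b k‖ ^ 2 * ‖M k l‖) +
            (1 / 2) * (‖b l‖ ^ 2 * ‖M k l‖)) := by
          refine sum_le_sum fun k _ => sum_le_sum fun l _ => ?_
          rw [norm_mul, norm_mul, RCLike.norm_conj]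
          nlinarith [norm_nonneg (M k l), sq_nonneg (‖b k‖ - ‖b l‖),
            mul_nonneg (norm_nonneg (M k l)) (sq_nonneg (‖b k‖ - ‖b l‖))]
      _ = (1 / 2) * (∑ k ∈ U, ‖b k‖ ^ 2 * ∑ l ∈ U, ‖M k l‖) +
            (1 / 2) * (∑ l ∈ U, ‖b l‖ ^ 2 * ∑ k ∈ U, ‖M l k‖) := by
          simp_rw [sum_add_distrib, ← mul_sum]
          congr 2
          rw [sum_comm]
          refine sum_congr rfl fun l _ => ?_
          rw [mul_sum]
          refine sum_congr rfl fun k _ => ?_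
          rw [hMs k l]
      _ ≤ (1 / 2) * (∑ k ∈ U, ‖b k‖ ^ 2 * B) + (1 / 2) * (∑ l ∈ U, ‖b l‖ ^ 2 * B) := by
          gcongr with k hk k hk
          · exact hB k hk
          · exact hB k hk
      _ = B * T := by rw [← sum_mul, hT]; ring
  have e6 : T ^ 2 ≤ A * (B * T) := e3.trans (mul_le_mul_of_nonneg_left e5 hA0)
  rcases hT0.eq_or_lt with h | h
  · rw [← h]; positivity
  · have : T * T ≤ (B * A) * T := by nlinarith
    exact le_of_mul_le_mul_right this h

/-- number of points of a disc -/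
lemma carddisc (hC : SpecCount K) : ∃ C : ℝ, 0 < C ∧ ∀ Y : ℝ, 0 ≤ Y →
    ((disc Y : Finset (Gi K)).card : ℝ) ≤ C * Y := by
  obtain ⟨ρ, C, hρ, hC0, h⟩ := hC
  refine ⟨ρ + 2 * C, by positivity, fun Y hY => ?_⟩
  rcases lt_or_ge Y 1 with h1 | h1
  · rw [disc_empty h1, card_empty]
    push_cast
    positivity
  · have h2 := h Y hY
    rw [abs_le] at h2
    have h3 : Real.sqrt Y ≤ Y := by
      rw [Real.sqrt_le_left hY]
      nlinarith
    have h4 : C * (Real.sqrt Y + 1) ≤ C * (2 * Y) :=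
      mul_le_mul_of_nonneg_left (by linarith) hC0.le
    linarith [h2.2]

/-- the sums of `xi l` over annuli -/
lemma annsum (D : Dir K) (ht : SpecType K D) (hC : SpecCount K) : ∃ c C : ℝ, 0 < c ∧ c ≤ 1 / 2 ∧
    0 < C ∧ ∀ᶠ X : ℝ in atTop, ∀ l : Kp K, l ≠ 0 → |(l.2 : ℝ)| ≤ 2 * X →
      ∀ Y Y' : ℝ, 0 ≤ Y → Y ≤ Y' → Real.sqrt X ≤ Y' →
        ‖∑ z ∈ ann Y Y', xi D l z‖ ≤ C * Y' ^ (1 - c) := by
  obtain ⟨C, hC0, hcd⟩ := carddisc hC
  obtain ⟨c, hc0, hc1, hev⟩ := ht 5 (by norm_num)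
  obtain ⟨x0, hx0⟩ := eventually_atTop.1 hev
  refine ⟨min c (1 / 2), 2 * (C + 1), lt_min hc0 (by norm_num), min_le_right _ _, by positivity,
    ?_⟩
  filter_upwards [eventually_ge_atTop ((max x0 2) ^ 4)] with X hX l hl hlX
  set q := Real.sqrt (Real.sqrt X) with hq
  have hm2 : (2 : ℝ) ≤ max x0 2 := le_max_right _ _
  have hX0 : 0 ≤ X := le_trans (by positivity) hX
  have hq2 : q ^ 2 = Real.sqrt X := Real.sq_sqrt (Real.sqrt_nonneg _)
  have hq4 : q ^ 4 = X := by
    have : q ^ 4 = (q ^ 2) ^ 2 := by ring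
    rw [this, hq2, Real.sq_sqrt hX0]
  have hq0 : 0 ≤ q := Real.sqrt_nonneg _
  have hqm : max x0 2 ≤ q := by
    apply le_of_pow_le_pow_left₀ (n := 4) (by norm_num) hq0
    rw [hq4]; exact hX
  have hqx : x0 ≤ q := (le_max_left _ _).trans hqm
  have hq22 : 2 ≤ q := hm2.trans hqm
  have key : ∀ Y Y' : ℝ, 0 ≤ Y → Y ≤ Y' → Real.sqrt X ≤ Y' →
      ‖∑ z ∈ disc Y, xi D l z‖ ≤ (C + 1) * Y' ^ (1 - min c (1 / 2)) := by
    intro Y Y' hY hYY hXY
    have hY1 : 1 ≤ Y' := by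
      rw [← hq2] at hXY
      nlinarith
    have h5 : 0 ≤ Y' ^ (1 - min c (1 / 2)) := by positivity
    rcases le_or_gt q Y with h | h
    · have h1 := hx0 Y (hqx.trans h) l hl ?_
      · have h3 : Y ^ (1 - c) ≤ Y' ^ (1 - c) := Real.rpow_le_rpow hY hYY (by linarith)
        have h4 : Y' ^ (1 - c) ≤ Y' ^ (1 - min c (1 / 2)) :=
          Real.rpow_le_rpow_of_exponent_le hY1 (by linarith [min_le_left c (1 / 2)])
        have h6 : 0 ≤ C * Y' ^ (1 - min c (1 / 2)) := by positivity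
        linarith
      · have h1 : |(l.2 : ℝ)| ≤ q ^ 5 := by
          rw [← hq4] at hlX
          have : q ^ 5 = q * q ^ 4 := by ring
          rw [this]
          nlinarith [pow_nonneg hq0 4]
        have h2 : Y ^ (5 : ℝ) = Y ^ (5 : ℕ) := by norm_cast
        rw [h2]
        exact h1.trans (pow_le_pow_left₀ hq0 h 5)
    · have h1 : ‖∑ z ∈ disc Y, xi D l z‖ ≤ (disc Y : Finset (Gi K)).card := by
        refine (norm_sum_le _ _).trans ?_
        rw [sum_congr rfl (fun z hz => norm_xi D l (mem_disc.1 hz).1)]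
        simp
      have h2 := hcd Y hY
      have h3 : q ≤ Y' ^ ((1 : ℝ) / 2) := by
        rw [← Real.sqrt_eq_rpow, hq]
        exact Real.sqrt_le_sqrt hXY
      have h4 : Y' ^ ((1 : ℝ) / 2) ≤ Y' ^ (1 - min c (1 / 2)) :=
        Real.rpow_le_rpow_of_exponent_le hY1 (by linarith [min_le_right c (1 / 2)])
      have h6 : C * Y ≤ C * Y' ^ (1 - min c (1 / 2)) :=
        mul_le_mul_of_nonneg_left (h.le.trans (h3.trans h4)) hC0.le
      linarith
  intro Y Y' hY hYY hXY
  have h1 : ∑ z ∈ disc Y', xi D l z = ∑ z ∈ disc Y, xi D l z + ∑ z ∈ ann Y Y', xi D l z := by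
    rw [disc_union hYY, sum_union (disc_disjoint _ _)]
  have h2 : ∑ z ∈ ann Y Y', xi D l z = ∑ z ∈ disc Y', xi D l z - ∑ z ∈ disc Y, xi D l z := by
    rw [h1]; ring
  rw [h2]
  have h3 := key Y Y' hY hYY hXY
  have h4 := key Y' Y' (hY.trans hYY) le_rfl hXY
  have h5 := norm_sub_le (∑ z ∈ disc Y', xi D l z) (∑ z ∈ disc Y, xi D l z)
  linarith

/-- number of points of an annulus -/
lemma cardann (hC : SpecCount K) : ∃ C : ℝ, 0 < C ∧ ∀ Y Y' : ℝ, 0 ≤ Y → Y ≤ Y' → 1 ≤ Y' →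
    ((ann Y Y' : Finset (Gi K)).card : ℝ) ≤ C * (Y' - Y) + C * Real.sqrt Y' := by
  obtain ⟨ρ, C, hρ, hC0, h⟩ := hC
  refine ⟨ρ + 4 * C, by positivity, fun Y Y' hY hYY hY1 => ?_⟩
  have h1 := h Y hY
  have h2 := h Y' (hY.trans hYY)
  have h3 : (disc Y' : Finset (Gi K)).card = (disc Y : Finset (Gi K)).card +
      (ann Y Y' : Finset (Gi K)).card := by
    rw [disc_union hYY, card_union_of_disjoint (disc_disjoint _ _)]
  have h3' : ((disc Y' : Finset (Gi K)).card : ℝ) = (disc Y : Finset (Gi K)).card +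
      (ann Y Y' : Finset (Gi K)).card := by exact_mod_cast h3
  have h4 : Real.sqrt Y ≤ Real.sqrt Y' := Real.sqrt_le_sqrt hYY
  have h5 : 1 ≤ Real.sqrt Y' := by rw [Real.one_le_sqrt]; exact hY1
  rw [abs_le] at h1 h2
  have h7 : C * (Real.sqrt Y + 1) ≤ C * (2 * Real.sqrt Y') :=
    mul_le_mul_of_nonneg_left (by linarith) hC0.le
  have h8 : C * (Real.sqrt Y' + 1) ≤ C * (2 * Real.sqrt Y') :=
    mul_le_mul_of_nonneg_left (by linarith) hC0.le
  have h9 : 0 ≤ C * (Y' - Y) := mul_nonneg hC0.le (by linarith)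
  have h10 : 0 ≤ ρ * Real.sqrt Y' := by positivity
  nlinarith [h1.1, h1.2, h2.1, h2.2]

/-- the mean value estimate for sparse sets of frequencies -/
lemma mainB (D : Dir K) (hC : SpecCount K) (ht : SpecType K D) :
    ∃ c₀ C : ℝ, 0 < c₀ ∧ c₀ ≤ 1 / 8 ∧ 0 < C ∧
    ∀ᶠ X : ℝ in atTop, ∀ U : Finset (Kp K), (∀ k ∈ U, |(k.2 : ℝ)| ≤ X) →
      (U.card : ℝ) ≤ X ^ c₀ → ∀ Y Y' : ℝ, 0 ≤ Y → Y ≤ Y' → Real.sqrt X ≤ Y' →
        ((ann Y Y' : Finset (Gi K)).card : ℝ) ≤ C * ((Y' - Y) + X ^ (-c₀) * Y') ∧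
        ∀ S : Finset (Gi K), S ⊆ ann Y Y' → ∀ a : Gi K → ℂ,
          ∑ k ∈ U, ‖∑ z ∈ S, a z * xi D k z‖ ^ 2 ≤
            C * ((Y' - Y) + X ^ (-c₀) * Y') * ∑ z ∈ S, ‖a z‖ ^ 2 := by
  obtain ⟨c, C₁, hc0, hc1, hC₁, hev⟩ := annsum D ht hC
  obtain ⟨C₂, hC₂, hcard⟩ := cardann hC
  refine ⟨c / 4, C₂ + C₁, by positivity, by linarith, by positivity, ?_⟩
  filter_upwards [hev, eventually_ge_atTop (1 : ℝ)] with X hX hX1 U hU hUc Y Y' hY hYY hXY
  have hX0 : 0 < X := by linarith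
  have hsX : 1 ≤ Real.sqrt X := by rw [Real.one_le_sqrt]; exact hX1
  have hY1 : 1 ≤ Y' := hsX.trans hXY
  have hY0 : 0 < Y' := by linarith
  have hpX : 0 < X ^ (-(c / 4)) := Real.rpow_pos_of_pos hX0 _
  -- comparison of powers
  have hsq : ∀ e : ℝ, 0 ≤ e → Y' ^ (-e) ≤ X ^ (-(e / 2)) := by
    intro e he
    have h1 : Y' ^ (-e) ≤ (Real.sqrt X) ^ (-e) :=
      Real.rpow_le_rpow_of_nonpos (by linarith) hXY (by linarith)
    have h2 : (Real.sqrt X) ^ (-e) = X ^ (-(e / 2)) := by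
      rw [Real.sqrt_eq_rpow, ← Real.rpow_mul hX0.le]
      congr 1; ring
    rw [← h2]; exact h1
  have hsqrt : Real.sqrt Y' ≤ X ^ (-(c / 4)) * Y' := by
    have h1 : Real.sqrt Y' = Y' ^ (-((1 : ℝ) / 2)) * Y' := by
      rw [Real.sqrt_eq_rpow]
      nth_rewrite 3 [← Real.rpow_one Y']
      rw [← Real.rpow_add hY0]
      norm_num
    rw [h1]
    apply mul_le_mul_of_nonneg_right _ hY0.le
    refine (hsq _ (by norm_num)).trans ?_
    exact Real.rpow_le_rpow_of_exponent_le hX1 (by linarith)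
  have hcardB : ((ann Y Y' : Finset (Gi K)).card : ℝ) ≤
      C₂ * ((Y' - Y) + X ^ (-(c / 4)) * Y') := by
    have h1 := hcard Y Y' hY hYY hY1
    have h2 : C₂ * Real.sqrt Y' ≤ C₂ * (X ^ (-(c / 4)) * Y') :=
      mul_le_mul_of_nonneg_left hsqrt hC₂.le
    linarith
  have hB0 : 0 ≤ (Y' - Y) + X ^ (-(c / 4)) * Y' := by
    have h3 : 0 ≤ X ^ (-(c / 4)) * Y' := by positivity
    linarith
  refine ⟨hcardB.trans (mul_le_mul_of_nonneg_right (by linarith) hB0), fun S hS a => ?_⟩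
  refine hm D U S (ann Y Y') a hS (fun z hz => (mem_ann.1 hz).1) _ (by positivity) ?_
  intro k hk
  have hUX : (U.card : ℝ) * Y' ^ (1 - c) ≤ X ^ (-(c / 4)) * Y' := by
    have h1 : Y' ^ (1 - c) = Y' ^ (-c) * Y' := by
      nth_rewrite 3 [← Real.rpow_one Y']
      rw [← Real.rpow_add hY0]
      congr 1; ring
    rw [h1, ← mul_assoc]
    apply mul_le_mul_of_nonneg_right _ hY0.le
    calc (U.card : ℝ) * Y' ^ (-c) ≤ X ^ (c / 4) * X ^ (-(c / 2)) :=
          mul_le_mul hUc (hsq c hc0.le) (by positivity) (by positivity)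
      _ = X ^ (-(c / 4)) := by
          rw [← Real.rpow_add hX0]; congr 1; ring
  calc ∑ l ∈ U, ‖∑ z ∈ ann Y Y', xi D (k - l) z‖
      ≤ ∑ l ∈ U, ((if l = k then ((ann Y Y' : Finset (Gi K)).card : ℝ) else 0) +
          C₁ * Y' ^ (1 - c)) := by
        refine sum_le_sum fun l hl => ?_
        split_ifs with h
        · have h1 : ‖∑ z ∈ ann Y Y', xi D (k - l) z‖ ≤ (ann Y Y' : Finset (Gi K)).card := by
            refine (norm_sum_le _ _).trans ?_
            rw [sum_congr rfl (fun z hz => norm_xi D (k - l) (mem_ann.1 hz).1)]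
            simp
          have h2 : 0 ≤ C₁ * Y' ^ (1 - c) := by positivity
          linarith
        · rw [zero_add]
          apply hX (k - l) (sub_ne_zero.2 (fun h' => h h'.symm)) _ Y Y' hY hYY hXY
          rw [Prod.snd_sub]
          push_cast
          have h1 := hU k hk
          have h2 := hU l hl
          have h3 := abs_sub (k.2 : ℝ) (l.2 : ℝ)
          linarith
    _ = ((ann Y Y' : Finset (Gi K)).card : ℝ) + C₁ * (U.card * Y' ^ (1 - c)) := by
        rw [sum_add_distrib, sum_ite_eq' U k, if_pos hk, sum_const, nsmul_eq_mul]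
        ring
    _ ≤ (C₂ + C₁) * ((Y' - Y) + X ^ (-(c / 4)) * Y') := by
        have h4 : 0 ≤ C₁ * (Y' - Y) := mul_nonneg hC₁.le (by linarith)
        have h5 := mul_le_mul_of_nonneg_left hUX hC₁.le
        linarith

/-! ### the count of prime divisors -/

/-- the primes of `GP P Q` with primitive cofactor -/
noncomputable def cof (P Q : ℝ) (z : Gi K) : Finset (Gi K) :=
  (GP P Q).filter (fun π => ∃ m, z = π * m ∧ prim m)

lemma mem_cof {P Q : ℝ} {z π : Gi K} : π ∈ cof P Q z ↔ π ∈ GP P Q ∧ ∃ m, z = π * m ∧ prim m := by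
  unfold cof
  rw [mem_filter]

lemma cof_of_prim {P Q : ℝ} {z : Gi K} (h : prim z) : (cof P Q z).card = om P Q z := by
  unfold cof om
  congr 1
  apply filter_congr
  intro π _
  constructor
  · rintro ⟨m, hm, _⟩
    exact ⟨m, hm⟩
  · rintro ⟨m, rfl⟩
    exact ⟨m, rfl, prim_of_mul_left h⟩

lemma cof_of_not_prim [RQ K] {P Q : ℝ} {z : Gi K} (h : ¬ prim z) : (cof P Q z).card ≤ 2 := by
  rcases (cof P Q z).eq_empty_or_nonempty with he | ⟨x, hx⟩
  · rw [he]; simp
  -- all elements have the same norm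
  have hz0 : z ≠ 0 := by
    obtain ⟨hx1, m, rfl, hm⟩ := mem_cof.1 hx
    exact mul_ne_zero (GP_ne_zero hx1) (prim_ne_zero hm)
  have hex : ∃ q : ℕ, q.Prime ∧ (rt q : Gi K) ∣ z := by
    unfold prim at h
    push Not at h
    obtain ⟨n, hn, hd⟩ := h hz0
    refine ⟨n.minFac, Nat.minFac_prime (by omega), ?_⟩
    refine dvd_trans ?_ hd
    obtain ⟨c, hc⟩ := Nat.minFac_dvd n
    refine ⟨rt c, ?_⟩
    unfold rt
    rw [Ideal.span_singleton_mul_span_singleton]
    congr 2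
    exact_mod_cast congrArg (Nat.cast : ℕ → 𝓞 K) hc
  obtain ⟨q, hqp, hqz⟩ := hex
  have key : ∀ π ∈ cof P Q z, nm π = q := by
    intro π hπ
    obtain ⟨hπ1, m, hm, hpm⟩ := mem_cof.1 hπ
    have hπ0 := GP_ne_zero hπ1
    have hpp : (nm π).Prime := (mem_GP.1 hπ1).1
    by_contra hne
    obtain ⟨c, hc⟩ := hqz
    have h1 : π ∣ rt q * c := ⟨m, by rw [← hc, hm]⟩
    rcases (GP_prime hπ1).dvd_or_dvd h1 with h2 | ⟨c', rfl⟩
    · have h3 := nm_dvd h2
      rw [nm_rt] at h3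
      exact hne ((Nat.prime_dvd_prime_iff_eq hpp hqp).1 (hpp.dvd_of_dvd_pow h3))
    · apply hpm.2 q hqp.two_le
      refine ⟨c', ?_⟩
      apply mul_left_cancel₀ hπ0
      rw [← hm, hc]
      ring
  have hsub : cof P Q z ⊆ {x, cj x} := by
    intro y hy
    have h1 := eq_or_of_nm_eq (mem_cof.1 hx).1 (mem_cof.1 hy).1
      ((key x hx).trans (key y hy).symm)
    rw [mem_insert, mem_singleton]
    exact h1
  exact (card_le_card hsub).trans (card_le_two)

/-- the sum over primes as a sum over `z` -/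
lemma prime_sum (D : Dir K) (P Q x : ℝ) (k : Kp K) :
    ∑ π ∈ GP P Q, (lam π : ℂ) * xi D k π * SS D k (x / nm π) =
      ∑ z ∈ disc x, ((cof P Q z).card : ℂ) * ((lam z : ℂ) * xi D k z) := by
  have h1 : ∀ π ∈ (GP P Q : Finset (Gi K)), (lam π : ℂ) * xi D k π * SS D k (x / nm π) =
      ∑ z ∈ disc x, if (∃ m, z = π * m ∧ prim m) then (lam z : ℂ) * xi D k z else 0 := by
    intro π hπ
    have hπ0 : π ≠ 0 := GP_ne_zero hπ
    have hnm : (0 : ℝ) < nm π := nm_posR hπ0
    rw [← sum_filter]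
    have him : (disc x).filter (fun z => ∃ m, z = π * m ∧ prim m) =
        ((disc (x / nm π)).filter prim).image (fun m => π * m) := by
      ext z
      rw [mem_filter, mem_disc, mem_image]
      constructor
      · rintro ⟨⟨h0, hx⟩, m, rfl, hm⟩
        refine ⟨m, ?_, rfl⟩
        rw [mem_filter, mem_disc]
        refine ⟨⟨prim_ne_zero hm, ?_⟩, hm⟩
        rw [le_div_iff₀ hnm]
        rw [nm_mul] at hx
        push_cast at hx
        linarith
      · rintro ⟨m, hm, rfl⟩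
        rw [mem_filter, mem_disc] at hm
        obtain ⟨⟨h0, hx⟩, hm⟩ := hm
        refine ⟨⟨mul_ne_zero hπ0 h0, ?_⟩, m, rfl, hm⟩
        rw [le_div_iff₀ hnm] at hx
        rw [nm_mul]
        push_cast
        linarith
    rw [him, sum_image (fun a _ b _ hab => mul_left_cancel₀ hπ0 hab)]
    unfold SS
    rw [mul_sum]
    refine sum_congr rfl fun m hm => ?_
    have hm0 : m ≠ 0 := (mem_disc.1 (mem_filter.1 hm).1).1
    rw [lam_mul hπ0 hm0, xi_mul D k hπ0 hm0]
    push_cast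
    ring
  rw [sum_congr rfl h1, sum_comm]
  refine sum_congr rfl fun z _ => ?_
  rw [← sum_filter, sum_const, nsmul_eq_mul]
  rfl

end UpM

open Finset Filter Topology in
/-- UP -/
theorem specUp [MA.Sg] {K : Type} [Field K] [NumberField K] [RQ K] (D : Dir K) (ht : SpecType K D)
    (hC : SpecCount K) (hTK : SpecTK K) (hPG : SpecPG K) : SpecUp K D := by
  classical
  obtain ⟨c₀, C, hc0, hc8, hC0, hmain⟩ := UpM.mainB D hC ht
  obtain ⟨C₃, hC₃, hcd⟩ := UpM.carddisc hC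
  obtain ⟨C₁, hC₁, htk⟩ := hTK
  obtain ⟨⟨C₂, hpg⟩, -, -⟩ := hPG
  have hdisc : ∀ x : ℝ, (disc x : Finset (Gi K)) = ann 0 x := by
    intro x
    ext z
    rw [mem_disc, mem_ann]
    constructor
    · rintro ⟨h, h1⟩; exact ⟨h, nm_posR h, h1⟩
    · rintro ⟨h, _, h1⟩; exact ⟨h, h1⟩
  refine ⟨c₀, 2 * C * C₃ + 4 * C ^ 2 + 2 * C * (3 * C₁ + 4 * C₃),
    min (1 / 8) (Real.exp (-1 - C₂)), hc0, by positivity, lt_min (by norm_num) (Real.exp_pos _), ?_⟩
  intro d hd hd0
  have hd8 : d ≤ 1 / 8 := hd0.trans (min_le_left _ _)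
  have hde : d ≤ Real.exp (-1 - C₂) := hd0.trans (min_le_right _ _)
  have hev : ∀ᶠ X : ℝ in atTop, 3 ≤ X ^ (d ^ 2) :=
    (tendsto_rpow_atTop (by positivity : 0 < d ^ 2)).eventually_ge_atTop 3
  filter_upwards [hmain, hev, eventually_ge_atTop (3 : ℝ)] with X hX hX3 hX1 U hU hUc
  have hX0 : 0 < X := by linarith
  have hXc : X ^ (-c₀) ≤ 1 := Real.rpow_le_one_of_one_le_of_nonpos (by linarith) (by linarith)
  have hXc0 : 0 < X ^ (-c₀) := Real.rpow_pos_of_pos hX0 _
  have hsX : 1 ≤ Real.sqrt X := by rw [Real.one_le_sqrt]; linarith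
  refine ⟨?_, ?_, ?_⟩
  · intro x hx hx4
    have hx0 : 0 < x := by linarith
    obtain ⟨-, h1⟩ := hX U hU hUc 0 x le_rfl hx0.le hx
    have h2 := h1 ((disc x).filter prim) (by rw [hdisc]; exact filter_subset _ _)
      (fun z => (lam z : ℂ))
    have h3 : ∑ z ∈ (disc x : Finset (Gi K)).filter prim, ‖(lam z : ℂ)‖ ^ 2 ≤ C₃ * x := by
      calc ∑ z ∈ (disc x : Finset (Gi K)).filter prim, ‖(lam z : ℂ)‖ ^ 2
          = ∑ z ∈ (disc x : Finset (Gi K)).filter prim, (1 : ℝ) := by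
            refine sum_congr rfl fun z _ => ?_
            rw [norm_lam, one_pow]
        _ = ((disc x : Finset (Gi K)).filter prim).card := by simp
        _ ≤ (disc x : Finset (Gi K)).card := by exact_mod_cast card_filter_le _ _
        _ ≤ C₃ * x := hcd x hx0.le
    calc ∑ k ∈ U, ‖SS D k x‖ ^ 2
        ≤ C * ((x - 0) + X ^ (-c₀) * x) *
            ∑ z ∈ (disc x : Finset (Gi K)).filter prim, ‖(lam z : ℂ)‖ ^ 2 := h2
      _ ≤ C * (2 * x) * (C₃ * x) := by
          apply mul_le_mul _ h3 (sum_nonneg fun _ _ => by positivity) (by positivity)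
          apply mul_le_mul_of_nonneg_left _ hC0.le
          nlinarith
      _ = (2 * C * C₃) * x ^ 2 := by ring
      _ ≤ _ := by
          apply mul_le_mul_of_nonneg_right _ (by positivity)
          have : 0 ≤ 4 * C ^ 2 + 2 * C * (3 * C₁ + 4 * C₃) := by positivity
          linarith
  · intro x x' hx hxx hx4
    have hx0 : 0 < x := by linarith
    obtain ⟨h0, h1⟩ := hX U hU hUc x x' hx0.le hxx (hx.trans hxx)
    have h2 := h1 ((ann x x').filter prim) (filter_subset _ _) (fun z => (lam z : ℂ))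
    have h3 : ∑ z ∈ (ann x x' : Finset (Gi K)).filter prim, ‖(lam z : ℂ)‖ ^ 2 ≤
        C * ((x' - x) + X ^ (-c₀) * x') := by
      calc ∑ z ∈ (ann x x' : Finset (Gi K)).filter prim, ‖(lam z : ℂ)‖ ^ 2
          = ∑ z ∈ (ann x x' : Finset (Gi K)).filter prim, (1 : ℝ) := by
            refine sum_congr rfl fun z _ => ?_
            rw [norm_lam, one_pow]
        _ = ((ann x x' : Finset (Gi K)).filter prim).card := by simp
        _ ≤ (ann x x' : Finset (Gi K)).card := by exact_mod_cast card_filter_le _ _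
        _ ≤ _ := h0
    have h4 : ∀ k, SS D k x' - SS D k x =
        ∑ z ∈ (ann x x').filter prim, (lam z : ℂ) * xi D k z := by
      intro k
      unfold SS
      rw [disc_union hxx, filter_union,
        sum_union (disjoint_filter_filter (disc_disjoint _ _))]
      ring
    simp_rw [h4]
    set R := X ^ (-c₀) * x' with hR
    have hR0 : 0 ≤ R := mul_nonneg hXc0.le (by linarith)
    have hD0 : 0 ≤ x' - x := by linarith
    calc ∑ k ∈ U, ‖∑ z ∈ (ann x x').filter prim, (lam z : ℂ) * xi D k z‖ ^ 2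
        ≤ C * ((x' - x) + R) *
            ∑ z ∈ (ann x x' : Finset (Gi K)).filter prim, ‖(lam z : ℂ)‖ ^ 2 := h2
      _ ≤ C * ((x' - x) + R) * (C * ((x' - x) + R)) := by
          apply mul_le_mul_of_nonneg_left h3 (by positivity)
      _ = C ^ 2 * ((x' - x) + R) ^ 2 := by ring
      _ ≤ C ^ 2 * (2 * ((x' - x) ^ 2 + R ^ 2)) := by
          apply mul_le_mul_of_nonneg_left _ (by positivity)
          nlinarith [sq_nonneg ((x' - x) - R)]
      _ ≤ C ^ 2 * (2 * ((x' - x) ^ 2 + X ^ (-c₀) * x' ^ 2)) := by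
          apply mul_le_mul_of_nonneg_left _ (by positivity)
          apply mul_le_mul_of_nonneg_left _ (by norm_num)
          have : R ^ 2 ≤ X ^ (-c₀) * x' ^ 2 := by
            rw [hR, mul_pow]
            apply mul_le_mul_of_nonneg_right _ (by positivity)
            nlinarith
          linarith
      _ = (2 * C ^ 2) * ((x' - x) ^ 2 + X ^ (-c₀) * x' ^ 2) := by ring
      _ ≤ _ := by
          apply mul_le_mul_of_nonneg_right _ (by positivity)
          have : 0 ≤ 2 * C * C₃ + 2 * C ^ 2 + 2 * C * (3 * C₁ + 4 * C₃) := by positivity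
          linarith
  · intro x hx hx4
    have hx0 : 0 < x := by linarith
    have hx1 : 1 ≤ x := by linarith
    set P := X ^ (d ^ 2) with hP
    set Q := X ^ d with hQ
    set W := WW K P Q with hW
    have hPQ : P ≤ Q := by
      apply Real.rpow_le_rpow_of_exponent_le (by linarith)
      nlinarith
    have hW1 : 1 ≤ W := by
      have h1 := hpg P Q hX3 hPQ
      have hlX : 0 < Real.log X := Real.log_pos (by linarith)
      have h2 : Real.log (Real.log Q) - Real.log (Real.log P) = -Real.log d := by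
        rw [hP, hQ, Real.log_rpow hX0, Real.log_rpow hX0, Real.log_mul hd.ne' hlX.ne',
          Real.log_mul (by positivity) hlX.ne', Real.log_pow]
        push_cast
        ring
      have h3 : Real.log d ≤ -1 - C₂ := by
        rw [Real.log_le_iff_le_exp hd]; exact hde
      rw [h2, abs_le] at h1
      linarith [h1.1]
    have hW0 : 0 < W := by linarith
    -- the coefficients
    set e : Gi K → ℂ := fun z => (lam z : ℂ) * ((if prim z then 1 else 0) -
      (1 / (W : ℂ)) * ((UpM.cof P Q z).card : ℂ)) with he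
    have h1 : ∀ k, SS D k x - (1 / (W : ℂ)) *
        ∑ π ∈ GP P Q, (lam π : ℂ) * xi D k π * SS D k (x / nm π) =
          ∑ z ∈ ann 0 x, e z * xi D k z := by
      intro k
      rw [UpM.prime_sum D P Q x k, ← hdisc x]
      unfold SS
      rw [sum_filter, mul_sum, ← sum_sub_distrib]
      refine sum_congr rfl fun z _ => ?_
      rw [he]
      simp only
      split_ifs <;> ring
    have h2 : ∀ z ∈ (disc x : Finset (Gi K)),
        ‖e z‖ ^ 2 ≤ (1 / W ^ 2) * (((om P Q z : ℝ) - W) ^ 2 + 4) := by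
      intro z hz
      have h3 : ‖e z‖ ≤ ‖((if prim z then 1 else 0) -
          (1 / (W : ℂ)) * ((UpM.cof P Q z).card : ℂ) : ℂ)‖ := by
        rw [he]; simp only
        rw [norm_mul, norm_lam, one_mul]
      have h4 : ‖e z‖ ^ 2 ≤ ‖((if prim z then 1 else 0) -
          (1 / (W : ℂ)) * ((UpM.cof P Q z).card : ℂ) : ℂ)‖ ^ 2 :=
        pow_le_pow_left₀ (norm_nonneg _) h3 2
      refine h4.trans ?_
      by_cases hp : prim z
      · rw [if_pos hp, UpM.cof_of_prim hp]
        have h5 : ((1 : ℂ) - (1 / (W : ℂ)) * ((om P Q z : ℕ) : ℂ)) =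
            ((1 - (1 / W) * (om P Q z : ℝ) : ℝ) : ℂ) := by push_cast; rfl
        rw [h5, Complex.norm_real, Real.norm_eq_abs, sq_abs]
        have h6 : (1 - (1 / W) * (om P Q z : ℝ)) ^ 2 = (1 / W ^ 2) * ((om P Q z : ℝ) - W) ^ 2 := by
          field_simp
          ring
        rw [h6]
        apply mul_le_mul_of_nonneg_left _ (by positivity)
        linarith
      · rw [if_neg hp, zero_sub, norm_neg]
        have h5 : ((1 / (W : ℂ)) * ((UpM.cof P Q z).card : ℂ)) =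
            (((1 / W) * ((UpM.cof P Q z).card : ℝ) : ℝ) : ℂ) := by push_cast; rfl
        rw [h5, Complex.norm_real, Real.norm_eq_abs, sq_abs, mul_pow, one_div_pow]
        apply mul_le_mul_of_nonneg_left _ (by positivity)
        have h6 : ((UpM.cof P Q z).card : ℝ) ≤ 2 := by
          exact_mod_cast UpM.cof_of_not_prim hp
        have h7 : (0 : ℝ) ≤ ((UpM.cof P Q z).card : ℝ) := Nat.cast_nonneg _
        nlinarith [sq_nonneg ((om P Q z : ℝ) - W)]
    have h3 : ∑ z ∈ disc x, ‖e z‖ ^ 2 ≤ (3 * C₁ + 4 * C₃) * x / W := by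
      have h4 := htk P Q 0 x (by linarith) hPQ le_rfl hx0.le hx1
      rw [← hdisc x, sub_zero] at h4
      have h5 : Q ^ 2 * Real.sqrt x ≤ x := by
        have h6 : Q ^ 2 ≤ Real.sqrt x := by
          have h7 : Q ^ 2 = X ^ (2 * d) := by
            rw [hQ, ← Real.rpow_natCast, ← Real.rpow_mul hX0.le]
            congr 1; push_cast; ring
          rw [h7]
          calc X ^ (2 * d) ≤ X ^ ((1 : ℝ) / 4) :=
                Real.rpow_le_rpow_of_exponent_le (by linarith) (by linarith)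
            _ = Real.sqrt (Real.sqrt X) := by
                rw [Real.sqrt_eq_rpow, Real.sqrt_eq_rpow, ← Real.rpow_mul hX0.le]
                norm_num
            _ ≤ Real.sqrt x := Real.sqrt_le_sqrt hx
        calc Q ^ 2 * Real.sqrt x ≤ Real.sqrt x * Real.sqrt x :=
              mul_le_mul_of_nonneg_right h6 (Real.sqrt_nonneg _)
          _ = x := Real.mul_self_sqrt hx0.le
      calc ∑ z ∈ disc x, ‖e z‖ ^ 2
          ≤ ∑ z ∈ (disc x : Finset (Gi K)), (1 / W ^ 2) * (((om P Q z : ℝ) - W) ^ 2 + 4) :=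
            sum_le_sum h2
        _ = (1 / W ^ 2) * (∑ z ∈ (disc x : Finset (Gi K)), ((om P Q z : ℝ) - W) ^ 2 +
              4 * (disc x : Finset (Gi K)).card) := by
            rw [← mul_sum, sum_add_distrib, sum_const, nsmul_eq_mul]; ring
        _ ≤ (1 / W ^ 2) * (C₁ * (x * (W + 1) + x) + 4 * (C₃ * x)) := by
            apply mul_le_mul_of_nonneg_left _ (by positivity)
            have h6 : C₁ * (x * (W + 1) + Q ^ 2 * Real.sqrt x) ≤ C₁ * (x * (W + 1) + x) :=
              mul_le_mul_of_nonneg_left (by linarith) hC₁.le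
            have h7 := hcd x hx0.le
            linarith
        _ ≤ (1 / W ^ 2) * ((3 * C₁ + 4 * C₃) * x * W) := by
            apply mul_le_mul_of_nonneg_left _ (by positivity)
            have h8 : x ≤ x * W := by nlinarith
            nlinarith [mul_le_mul_of_nonneg_left h8 hC₁.le, mul_le_mul_of_nonneg_left h8 hC₃.le]
        _ = (3 * C₁ + 4 * C₃) * x / W := by
            field_simp
    obtain ⟨-, h5⟩ := hX U hU hUc 0 x le_rfl hx0.le hx
    have h6 := h5 (ann 0 x) subset_rfl e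
    simp_rw [h1]
    calc ∑ k ∈ U, ‖∑ z ∈ ann 0 x, e z * xi D k z‖ ^ 2
        ≤ C * ((x - 0) + X ^ (-c₀) * x) * ∑ z ∈ ann 0 x, ‖e z‖ ^ 2 := h6
      _ ≤ C * (2 * x) * ((3 * C₁ + 4 * C₃) * x / W) := by
          rw [← hdisc x]
          apply mul_le_mul _ h3 (sum_nonneg fun _ _ => by positivity) (by positivity)
          apply mul_le_mul_of_nonneg_left _ hC0.le
          nlinarith
      _ = (2 * C * (3 * C₁ + 4 * C₃)) * x ^ 2 / W := by ring
      _ ≤ _ := by
          apply div_le_div_of_nonneg_right _ hW0.le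
          apply mul_le_mul_of_nonneg_right _ (by positivity)
          have : 0 ≤ 2 * C * C₃ + 4 * C ^ 2 := by positivity
          linarith

end Pool.Agent.Lib.MP391708.MAR
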