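import Pool.Agent.Lib.MP_391708_nt.MAR.Prin
import Pool.Agent.Lib.MP_391708_nt.MAR.Field
import Pool.Agent.Lib.MP_391708_nt.MAR.Fund
import Pool.Agent.Lib.MP_391708_nt.MAR.Ext
import Pool.Agent.Lib.MP_391708_nt.MAR.Count
import Pool.Agent.Lib.MP_391708_nt.MAR.MRk
import Pool.Agent.Lib.MP_391708_nt.MAR.Ladder
import Pool.Agent.Lib.MP_391708_nt.MAR.Top
import Pool.Agent.Lib.MP_391708_nt.MAR.Lower
import Pool.Agent.Lib.MP_391708_nt.MAR.Up
import Pool.Agent.Lib.MP_391708_nt.MAR.TK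
import Pool.Agent.Lib.MP_391708_nt.MAR.Dec
import Pool.Agent.Lib.MP_391708_nt.MAR.Mom
import Pool.Agent.Lib.MP_391708_nt.MAR.Sep
import Pool.Agent.Lib.MP_391708_nt.MAR.LSG
import Pool.Agent.Lib.MP_391708_nt.MAR.Cls
import Pool.Agent.Lib.MP_391708_nt.MAR.LatC
import Pool.Agent.Lib.MP_391708_nt.MAR.LatT
import Pool.Agent.Lib.MP_391708_nt.MAR.PG
import Pool.Agent.Lib.MP_391708_nt.MAR.OS
import Pool.Agent.Lib.MP_391708_nt.MA.Plan
import Pool.Agent.Lib.MP_391708_nt.MR.Lad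
import Pool.Agent.Lib.MP_391708_nt.MR.Landau

/-!
# Assembly: `SpecMAR` from FIELD, FUND, EXT, MRC and PRIN
-/

set_option autoImplicit false

namespace Pool.Agent.Lib.MP391708.MAR

open Finset Filter Topology NumberField
open scoped ComplexConjugate Classical

variable [MA.Sg]

/-- **Assembly.** -/
theorem specMAR_of (hF : SpecField)
    (hU : ∀ (K : Type) [Field K] [NumberField K] [RQ K], SpecFund K)
    (hE : ∀ (K : Type) [Field K] [NumberField K] [RQ K], SpecExt K)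
    (hM : ∀ (K : Type) [Field K] [NumberField K] [RQ K] (D : Dir K), SpecMRC K D)
    (hP : ∀ (K : Type) [Field K] [NumberField K], SpecPrin K) : SpecMAR := by
  intro k hk
  obtain ⟨K, iF, iN, iQ, ω, b, c, g, hg, hgd, hω, hb⟩ := hF k hk
  obtain ⟨⟨σ₀, τ₀, hne₀⟩, hUK⟩ := hU K
  obtain ⟨σ, τ, hne, hlt⟩ : ∃ σ τ : K →+* ℝ, σ ≠ τ ∧ τ (ω : K) < σ (ω : K) := by
    rcases lt_trichotomy (σ₀ (ω : K)) (τ₀ (ω : K)) with h | h | h
    · exact ⟨τ₀, σ₀, hne₀.symm, h⟩
    · exact absurd (PrinM.emb_ext hb h) hne₀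
    · exact ⟨σ₀, τ₀, hne₀, h⟩
  obtain ⟨Φ, rfl, rfl⟩ := hUK σ τ hne
  obtain ⟨D, rfl⟩ := hE K Φ
  obtain ⟨x, y, hxy⟩ := hb (D.E : 𝓞 K)
  have hel : (D.E : 𝓞 K) = PrinM.el ω (x, y) := hxy
  have hs : D.σ ((D.E : 𝓞 K) : K) = (x : ℝ) + (y : ℝ) * D.σ (ω : K) := by
    rw [hel, PrinM.sigma_el]
  have ht : D.τ ((D.E : 𝓞 K) : K) = (x : ℝ) + (y : ℝ) * D.τ (ω : K) := by
    rw [hel, PrinM.sigma_el]
  have hq : MA.qn b c (x, y) = 1 := by
    have h1 := PrinM.qn_eq D.toFund hω hb (x, y)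
    rw [← hel, PrinM.unit_norm D.toFund hω hb] at h1
    exact_mod_cast h1
  have hR : D.R = ((x : ℝ) + (y : ℝ) * D.σ (ω : K)) / ((x : ℝ) + (y : ℝ) * D.τ (ω : K)) := by
    unfold Fund.R
    rw [hs, ht]
  refine ⟨b, c, g, (x, y), D.σ (ω : K), D.τ (ω : K), hg, hgd, hlt, PrinM.root_eq hω _,
    PrinM.root_eq hω _, hq, ?_, ?_⟩
  · have h1 := D.one_lt
    rw [hs] at h1
    exact h1
  · show Prin b c (((x : ℝ) + (y : ℝ) * D.σ (ω : K)) / ((x : ℝ) + (y : ℝ) * D.τ (ω : K))) _ _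
    rw [← hR]
    exact hP K ω b c D (hM K D) hω hb

/-- the core, from the large sieve, the lattices, the primes and the one-sided bound -/
theorem specMRC_of {K : Type} [Field K] [NumberField K] [RQ K] (D : Dir K)
    (hLSG : SpecLSG K D) (hCls : SpecCls K D) (hLatC : SpecLatC) (hLatT : SpecLatT)
    (hPG : SpecPG K) (hOS : SpecOS K) : SpecMRC K D := by
  have hCount : SpecCount K := specCount hCls hLatC
  have hType : SpecType K D := specType hCls hLatC hLatT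
  have hTK : SpecTK K := specTK hCount
  exact specMRC D (specMRk D
    (specLadder D (specDec D hLSG hTK hCount) (specMom D hLSG hCount) MR.specLad hPG)
    (specTop D (specUp D hType hCount hTK hPG) MA.specPlan (specLower D hType hOS hPG) hPG))

/-- **Assembly**, FIELD, FUND, EXT, PRIN plugged in. -/
theorem specMAR_of_MRC
    (hM : ∀ (K : Type) [Field K] [NumberField K] [RQ K] (D : Dir K), SpecMRC K D) : SpecMAR :=
  specMAR_of specField (fun K => specFund K) (fun _ => specExt) hM (fun K => specPrin K)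

/-- **Assembly** up to LSG, CLS, LATC, LATT, PG, OS. -/
theorem specMAR_of_parts
    (hLSG : ∀ (K : Type) [Field K] [NumberField K] [RQ K] (D : Dir K), SpecLSG K D)
    (hCls : ∀ (K : Type) [Field K] [NumberField K] [RQ K] (D : Dir K), SpecCls K D)
    (hLatC : SpecLatC) (hLatT : SpecLatT)
    (hPG : ∀ (K : Type) [Field K] [NumberField K] [RQ K], SpecPG K)
    (hOS : ∀ (K : Type) [Field K] [NumberField K] [RQ K], SpecOS K) : SpecMAR :=
  specMAR_of_MRC fun K _ _ _ D =>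
    specMRC_of D (hLSG K D) (hCls K D) hLatC hLatT (hPG K) (hOS K)

/-- **MAR** (real quadratic fields, every `g`): complete. -/
theorem specMAR : SpecMAR :=
  specMAR_of_parts (fun _ _ _ _ D => specLSG D (specSep D)) (fun _ _ _ _ D => specCls D)
    specLatC specLatT (fun _ _ _ _ => specPG) (fun K _ _ _ => by
      obtain ⟨⟨σ, τ, hne⟩, hU⟩ := specFund K
      obtain ⟨Φ, -, -⟩ := hU σ τ hne
      obtain ⟨D, -⟩ := specExt (K := K) Φ
      exact specOS MR.specLandau specPG (specCount (specCls D) specLatC))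

end Pool.Agent.Lib.MP391708.MAR
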