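import Pool.Agent.Lib.MP_391708_nt.MAR.OSA
import Pool.Agent.Lib.MP_391708_nt.MAR.Basic2

/-!
# Module OS: the contribution of the split primes
-/

set_option autoImplicit false
set_option linter.unusedVariables false
set_option linter.unusedSectionVars false

namespace Pool.Agent.Lib.MP391708.MAR

open Finset Filter Topology NumberField
open scoped ComplexConjugate Classical

namespace OS

/-- the split primes -/
abbrev FQ (K : Type) [Field K] [NumberField K] : Type := {π : Gi K // (nm π).Prime ∧ cj π ≠ π}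

variable {K : Type} [Field K] [NumberField K]

/-! ## the other primes -/

/-- the ramified primes are finitely many -/
lemma finite_ramified : {z : Gi K | (nm z).Prime ∧ cj z = z}.Finite := by
  have hd : (differentIdeal ℤ (𝓞 K) : Gi K) ≠ 0 := by
    rw [Ideal.zero_eq_bot]; exact differentIdeal_ne_bot
  apply Set.Finite.subset (s := ((disc ((nm (differentIdeal ℤ (𝓞 K) : Gi K) : ℕ) : ℝ) :
    Finset (Gi K)) : Set (Gi K))) (Finset.finite_toSet _)
  rintro z ⟨h1, h2⟩
  have hz : z ≠ 0 := by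
    rintro rfl
    rw [nm_zero] at h1
    exact Nat.not_prime_zero h1
  have h3 := MAR.mul_cj hz
  rw [h2] at h3
  have hp : (Ideal.span {((nm z : ℕ) : ℤ)} : Ideal ℤ) ≠ ⊥ := by
    rw [Ne, Ideal.span_singleton_eq_bot]
    exact_mod_cast h1.ne_zero
  have hpr : (Ideal.span {((nm z : ℕ) : ℤ)} : Ideal ℤ).IsPrime := by
    rw [Ideal.span_singleton_prime (by exact_mod_cast h1.ne_zero)]
    exact Nat.prime_iff_prime_int.1 h1
  have : (Ideal.span {((nm z : ℕ) : ℤ)} : Ideal ℤ).IsMaximal := hpr.isMaximal hp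
  have h4 : z ^ 2 ∣ (Ideal.span {((nm z : ℕ) : ℤ)} : Ideal ℤ).map (algebraMap ℤ (𝓞 K)) := by
    rw [Ideal.map_span, Set.image_singleton, sq, h3]
    unfold rt
    simp
  have h5 := pow_sub_one_dvd_differentIdeal ℤ z 2 hp h4
  rw [show 2 - 1 = 1 from rfl, pow_one] at h5
  rw [mem_coe, MAR.mem_disc]
  exact ⟨hz, by exact_mod_cast MAR.le_nm_of_dvd h5 hd⟩

/-- a prime that is not split is inert or ramified -/
lemma inert_or_ramified [RQ K] {z : Gi K} (hz : Prime z) (h : ¬ ((nm z).Prime ∧ cj z ≠ z)) :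
    (∃ n : ℕ, 0 < n ∧ z = rt n) ∨ ((nm z).Prime ∧ cj z = z) := by
  by_cases h1 : (nm z).Prime
  · right
    refine ⟨h1, ?_⟩
    by_contra h2
    exact h ⟨h1, h2⟩
  left
  have hz0 := hz.ne_zero
  have hn0 := MAR.nm_pos hz0
  -- `z` divides a rational prime
  have hzn : z ∣ rt (nm z) := MAR.dvd_rt_nm
  have key : ∃ p : ℕ, p.Prime ∧ z ∣ (rt p : Gi K) := by
    have h3 : (rt (nm z) : Gi K) = ((nm z).primeFactorsList.map (fun p : ℕ => (rt p : Gi K))).prod := by
      have gen : ∀ l : List ℕ, (rt l.prod : Gi K) = (l.map (fun p : ℕ => (rt p : Gi K))).prod := by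
        intro l
        induction l with
        | nil => simp
        | cons a l ih => rw [List.prod_cons, MAR.rt_mul, ih, List.map_cons, List.prod_cons]
      rw [← gen, Nat.prod_primeFactorsList hn0.ne']
    rw [h3] at hzn
    obtain ⟨a, ha, hza⟩ := (Prime.dvd_prod_iff hz).1 hzn
    rw [List.mem_map] at ha
    obtain ⟨p, hp, rfl⟩ := ha
    exact ⟨p, Nat.prime_of_mem_primeFactorsList hp, hza⟩
  obtain ⟨p, hp, w, hw⟩ := key
  have hmul : nm z * nm w = p ^ 2 := by rw [← MAR.nm_mul, ← hw, MAR.nm_rt]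
  have hz1 : nm z ≠ 1 := fun h => hz.not_isUnit (MAR.isUnit_iff_nm.2 h)
  obtain ⟨k, hk, hk'⟩ := (Nat.dvd_prime_pow hp).1 ⟨nm w, hmul.symm⟩
  refine ⟨p, hp.pos, ?_⟩
  interval_cases k
  · rw [pow_zero] at hk'; exact absurd hk' hz1
  · rw [pow_one] at hk'; exact absurd (hk' ▸ hp) h1
  · have hw1 : nm w = 1 := by
      have hp2 : 0 < p ^ 2 := by have := hp.pos; positivity
      rw [hk'] at hmul
      exact Nat.eq_of_mul_eq_mul_left hp2 (by rw [hmul, mul_one])
    rw [hw, MAR.nm_eq_one.1 hw1, mul_one]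

/-- the weight of the other primes -/
noncomputable def ex (z : Gi K) : ℝ :=
  (if ∃ n : ℕ, 0 < n ∧ z = rt n then Real.log (nm z) * (nm z : ℝ) ^ (-1 : ℝ) else 0) +
  (if (nm z).Prime ∧ cj z = z then Real.log (nm z) * (nm z : ℝ) ^ (-1 : ℝ) else 0)

lemma ex_nonneg (z : Gi K) : 0 ≤ ex z := by
  have : 0 ≤ Real.log (nm z) * (nm z : ℝ) ^ (-1 : ℝ) :=
    mul_nonneg (log_nm_nonneg z) (by positivity)
  unfold ex
  split_ifs <;> linarith

lemma summable_sq : Summable (fun n : ℕ => Real.log ((n : ℝ) ^ 2) * ((n : ℝ) ^ 2) ^ (-1 : ℝ)) := by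
  have h2 : Summable (fun n : ℕ => 4 * (n : ℝ) ^ (-(3 / 2) : ℝ)) :=
    (Real.summable_nat_rpow.2 (by norm_num)).mul_left 4
  refine Summable.of_nonneg_of_le ?_ ?_ h2
  · intro n
    rcases Nat.eq_zero_or_pos n with h | h
    · rw [h]; simp
    · have : (1 : ℝ) ≤ n := by exact_mod_cast h
      exact mul_nonneg (Real.log_nonneg (by nlinarith)) (by positivity)
  · intro n
    rcases Nat.eq_zero_or_pos n with h | h
    · rw [h]; simp
    · have hn : (0 : ℝ) < n := by exact_mod_cast h
      have h3 := Real.log_le_rpow_div hn.le (show (0 : ℝ) < 1 / 2 by norm_num)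
      rw [Real.log_pow]
      push_cast
      have e2 : ((n : ℝ) ^ 2) ^ (-1 : ℝ) = (n : ℝ) ^ (-2 : ℝ) := by
        rw [← Real.rpow_natCast, ← Real.rpow_mul hn.le]
        norm_num
      rw [e2]
      calc 2 * Real.log n * (n : ℝ) ^ (-2 : ℝ)
          ≤ 2 * ((n : ℝ) ^ (1 / 2 : ℝ) / (1 / 2)) * (n : ℝ) ^ (-2 : ℝ) := by
            apply mul_le_mul_of_nonneg_right _ (by positivity)
            linarith
        _ = 4 * ((n : ℝ) ^ (1 / 2 : ℝ) * (n : ℝ) ^ (-2 : ℝ)) := by ring
        _ = 4 * (n : ℝ) ^ (-(3 / 2) : ℝ) := by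
            rw [← Real.rpow_add hn]
            norm_num

lemma summable_ex [RQ K] : Summable (ex : Gi K → ℝ) := by
  unfold ex
  apply Summable.add
  · have hinj : Function.Injective (fun n : ℕ => (rt n : Gi K)) := fun m n h => MAR.rt_inj h
    rw [← hinj.summable_iff]
    · refine Summable.of_nonneg_of_le ?_ ?_ summable_sq
      · intro n
        simp only [Function.comp]
        split_ifs
        · exact mul_nonneg (log_nm_nonneg _) (by positivity)
        · exact le_rfl
      · intro n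
        simp only [Function.comp]
        have hnn : 0 ≤ Real.log ((n : ℝ) ^ 2) * ((n : ℝ) ^ 2) ^ (-1 : ℝ) := by
          rcases Nat.eq_zero_or_pos n with h | h
          · rw [h]; simp
          · have : (1 : ℝ) ≤ n := by exact_mod_cast h
            exact mul_nonneg (Real.log_nonneg (by nlinarith)) (by positivity)
        split_ifs
        · rw [MAR.nm_rt]
          push_cast
          exact le_rfl
        · exact hnn
    · intro z hz
      rw [if_neg]
      rintro ⟨n, _, rfl⟩
      exact hz ⟨n, rfl⟩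
  · apply summable_of_ne_finset_zero (s := (finite_ramified (K := K)).toFinset)
    intro z hz
    rw [if_neg]
    intro h
    exact hz ((Set.Finite.mem_toFinset _).2 h)

variable {G : Gi K → ℂ} (hG : CM G)

/-- the prime sum with logarithms -/
noncomputable def L0 (G : Gi K → ℂ) (s : ℂ) : ℂ :=
  ∑' π : FQ K, (Real.log (nm (π : Gi K)) : ℂ) * T G s π

/-- the prime sum -/
noncomputable def H0 (G : Gi K → ℂ) (s : ℂ) : ℂ := ∑' π : FQ K, T G s π

/-- the bound for the other terms -/
noncomputable def bet (x : RP K × ℕ) : ℝ :=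
  2 * (Real.log (nm (x.1 : Gi K)) * (nm (x.1 : Gi K) : ℝ) ^ (-2 : ℝ) * (1 / 2) ^ x.2) +
    (if x.2 = 0 then ex (x.1 : Gi K) else 0)

lemma summable_bet [RQ K] {B : ℝ} (hB : CB K B) : Summable (bet : RP K × ℕ → ℝ) := by
  unfold bet
  apply Summable.add
  · exact (summable_La_bound hB (σ := 2) (by norm_num)).mul_left 2
  · let ι : RP K → RP K × ℕ := fun π => (π, 0)
    have hι : Function.Injective ι := by
      intro a b h
      simpa [ι] using h
    rw [← hι.summable_iff]
    · have e1 : ((fun x : RP K × ℕ => if x.2 = 0 then ex (x.1 : Gi K) else 0) ∘ ι) =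
          fun π : RP K => ex (π : Gi K) := by
        funext π
        simp [ι]
      rw [e1]
      exact summable_ex.comp_injective Subtype.val_injective
    · rintro ⟨π, n⟩ h
      simp only
      rw [if_neg]
      rintro rfl
      exact h ⟨π, rfl⟩

include hG in
lemma norm_La_sub_le [RQ K] {B : ℝ} (hB : CB K B) {s : ℂ} (hs : 1 < s.re) :
    ‖La G s - L0 G s‖ ≤ ∑' x : RP K × ℕ, bet x := by
  set f : RP K × ℕ → ℂ := fun x => (Real.log (nm (x.1 : Gi K)) : ℂ) * T G s (pw x) with hf
  have hsum : Summable f := (summable_norm_La hG hB hs).of_norm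
  let ι : FQ K → RP K × ℕ := fun π => (⟨π, MAR.prime_of_nm_prime π.2.1⟩, 0)
  have hι : Function.Injective ι := by
    intro a b h
    simp only [ι, Prod.mk.injEq, and_true] at h
    exact Subtype.ext (congrArg (fun x : RP K => (x : Gi K)) h)
  set g : RP K × ℕ → ℂ := fun x =>
    if x.2 = 0 ∧ (nm (x.1 : Gi K)).Prime ∧ cj (x.1 : Gi K) ≠ x.1 then f x else 0 with hg
  have hgι : g ∘ ι = fun π : FQ K => (Real.log (nm (π : Gi K)) : ℂ) * T G s π := by
    funext π
    simp only [Function.comp, g, ι, f]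
    rw [if_pos ⟨trivial, π.2⟩]
    unfold pw
    rw [zero_add, pow_one]
  have hsF : Summable (fun π : FQ K => (Real.log (nm (π : Gi K)) : ℂ) * T G s π) := by
    have := hsum.comp_injective hι
    refine this.congr (fun π => ?_)
    simp only [Function.comp, f, ι]
    unfold pw
    rw [zero_add, pow_one]
  have h1 : HasSum g (L0 G s) := by
    rw [← hι.hasSum_iff]
    · rw [hgι]; exact hsF.hasSum
    · rintro ⟨π, n⟩ h
      simp only [g]
      rw [if_neg]
      rintro ⟨h1, h2⟩
      exact h ⟨⟨π, h2⟩, by simp only [ι]; rw [← h1]⟩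
  have h2 : HasSum (fun x => f x - g x) (La G s - L0 G s) := hsum.hasSum.sub h1
  have h3 : ∀ x, ‖f x - g x‖ ≤ bet x := by
    intro x
    have hnm : (0 : ℝ) < nm (x.1 : Gi K) := MAR.nm_posR x.1.2.ne_zero
    have hnm2 : (2 : ℝ) ≤ nm (x.1 : Gi K) := by exact_mod_cast two_le_nm x.1
    have hA : 0 ≤ 2 * (Real.log (nm (x.1 : Gi K)) * (nm (x.1 : Gi K) : ℝ) ^ (-2 : ℝ) *
        (1 / 2) ^ x.2) :=
      mul_nonneg (by norm_num)
        (mul_nonneg (mul_nonneg (log_nm_nonneg _) (by positivity)) (by positivity))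
    have hBn : 0 ≤ (if x.2 = 0 then ex (x.1 : Gi K) else 0) := by
      split_ifs
      · exact ex_nonneg _
      · exact le_rfl
    simp only [g]
    by_cases hx : x.2 = 0 ∧ (nm (x.1 : Gi K)).Prime ∧ cj (x.1 : Gi K) ≠ x.1
    · rw [if_pos hx, sub_self, norm_zero]
      unfold bet
      linarith
    · rw [if_neg hx, sub_zero]
      simp only [f]
      have hT : ‖T G s (pw x)‖ ≤ (nm (pw x) : ℝ) ^ (-1 : ℝ) := by
        refine (norm_T_le hG (by linarith) _).trans ?_
        apply Real.rpow_le_rpow_of_exponent_le (MAR.one_le_nm (pw_ne_zero x)) (by linarith)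
      have hn : ‖(Real.log (nm (x.1 : Gi K)) : ℂ) * T G s (pw x)‖ ≤
          Real.log (nm (x.1 : Gi K)) * (nm (pw x) : ℝ) ^ (-1 : ℝ) := by
        rw [norm_mul, Complex.norm_real, Real.norm_eq_abs, abs_of_nonneg (log_nm_nonneg _)]
        exact mul_le_mul_of_nonneg_left hT (log_nm_nonneg _)
      refine hn.trans ?_
      obtain ⟨π, n⟩ := x
      simp only at *
      rcases n with _ | n
      · have hns : ¬ ((nm (π : Gi K)).Prime ∧ cj (π : Gi K) ≠ π) := fun h => hx ⟨rfl, h⟩
        have hle : Real.log (nm (π : Gi K)) * (nm (π : Gi K) : ℝ) ^ (-1 : ℝ) ≤ ex (π : Gi K) := by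
          have h0 : 0 ≤ Real.log (nm (π : Gi K)) * (nm (π : Gi K) : ℝ) ^ (-1 : ℝ) :=
            mul_nonneg (log_nm_nonneg _) (by positivity)
          unfold ex
          rcases inert_or_ramified π.2 hns with h | h
          · rw [if_pos h]
            split_ifs <;> linarith
          · rw [if_pos h]
            split_ifs <;> linarith
        unfold bet pw
        simp only
        rw [if_pos trivial, zero_add, pow_one]
        linarith
      · unfold bet pw
        simp only
        rw [if_neg (by omega), add_zero, nm_pow]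
        have e : (((nm (π : Gi K)) ^ (n + 1 + 1) : ℕ) : ℝ) ^ (-1 : ℝ) =
            (nm (π : Gi K) : ℝ) ^ (-2 : ℝ) * ((nm (π : Gi K) : ℝ)⁻¹) ^ n := by
          rw [Real.rpow_neg_one, Real.rpow_neg (by positivity)]
          push_cast
          rw [show n + 1 + 1 = 2 + n by ring, pow_add, mul_inv, inv_pow]
          congr 1
          norm_num
        rw [e, pow_succ]
        have h5 : ((nm (π : Gi K) : ℝ)⁻¹) ^ n ≤ (1 / 2) ^ n := by
          apply pow_le_pow_left₀ (by positivity)
          rw [one_div]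
          exact inv_anti₀ (by norm_num) hnm2
        calc Real.log (nm (π : Gi K)) * ((nm (π : Gi K) : ℝ) ^ (-2 : ℝ) *
              ((nm (π : Gi K) : ℝ)⁻¹) ^ n)
            = (Real.log (nm (π : Gi K)) * (nm (π : Gi K) : ℝ) ^ (-2 : ℝ)) *
              ((nm (π : Gi K) : ℝ)⁻¹) ^ n := by ring
          _ ≤ (Real.log (nm (π : Gi K)) * (nm (π : Gi K) : ℝ) ^ (-2 : ℝ)) * (1 / 2) ^ n :=
              mul_le_mul_of_nonneg_left h5 (mul_nonneg (log_nm_nonneg _) (by positivity))
          _ = 2 * (Real.log (nm (π : Gi K)) * (nm (π : Gi K) : ℝ) ^ (-2 : ℝ) *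
              ((1 / 2) ^ n * (1 / 2))) := by ring
  rw [← h2.tsum_eq]
  exact tsum_of_norm_bounded (summable_bet hB).hasSum h3

include hG in
lemma hasDerivAt_H0 {B : ℝ} (hB : CB K B) {s : ℂ} (hs : 1 < s.re) :
    HasDerivAt (H0 G) (-(L0 G s)) s := by
  set a := (1 + s.re) / 2 with ha
  have h1 : 1 < a := by rw [ha]; linarith
  have h2 : a < s.re := by rw [ha]; linarith
  set U : Set ℂ := {s : ℂ | a < s.re} with hU
  have hUo : IsOpen U := isOpen_re a
  have hne : ∀ w ∈ U, w ≠ 0 := by
    rintro w hw rfl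
    simp only [hU, Set.mem_ofPred_eq, Complex.zero_re] at hw
    linarith
  have hf : ∀ π : FQ K, DifferentiableOn ℂ (fun w => T G w π) U := fun z w hw =>
    (hasDerivAt_T _ (hne w hw)).differentiableAt.differentiableWithinAt
  have hz0 : ∀ π : FQ K, (π : Gi K) ≠ 0 := fun π => (MAR.prime_of_nm_prime π.2.1).ne_zero
  have hle : ∀ (π : FQ K) (w : ℂ), w ∈ U → ‖T G w π‖ ≤ (nm (π : Gi K) : ℝ) ^ (-a) := by
    intro z w hw
    have hw' : a < w.re := hw
    refine (norm_T_le hG (by linarith) _).trans ?_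
    exact Real.rpow_le_rpow_of_exponent_le (MAR.one_le_nm (hz0 z)) (by linarith)
  have hsU : s ∈ U := h2
  have hsn : Summable (fun π : FQ K => (nm (π : Gi K) : ℝ) ^ (-a)) :=
    (summable_nm hB h1).comp_injective Subtype.val_injective
  have hd := Complex.hasSum_deriv_of_summable_norm hsn hf hUo hle hsU
  have hdiff := Complex.differentiableOn_tsum_of_summable_norm hsn hf hUo hle
  have e1 : (fun π : FQ K => deriv (fun w => T G w π) s) =
      fun π : FQ K => -((Real.log (nm (π : Gi K)) : ℂ) * T G s π) := by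
    funext z
    exact (hasDerivAt_T _ (hne s hsU)).deriv
  rw [e1] at hd
  have h3 : HasDerivAt (H0 G) (deriv (H0 G) s) s :=
    ((hdiff s hsU).differentiableAt (hUo.mem_nhds hsU)).hasDerivAt
  have h4 : deriv (H0 G) s = -(L0 G s) := by
    have h5 := hd.tsum_eq
    rw [tsum_neg] at h5
    exact h5.symm
  rw [h4] at h3
  exact h3

end OS

end Pool.Agent.Lib.MP391708.MAR
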