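import Pool.Agent.Lib.MP_391708_nt.MAR.Spec
import Pool.Agent.Lib.MP_391708_nt.MAR.Basic2

/-!
# PRIN (real quadratic fields): from ideals to the totally positive principal elements
-/

set_option autoImplicit false

namespace Pool.Agent.Lib.MP391708.MAR

open Finset Filter Topology NumberField
open scoped ComplexConjugate Classical

namespace PrinM

variable {K : Type} [Field K] [NumberField K]

/-- the element `x + y ω` -/
def el (ω : 𝓞 K) (p : ℤ × ℤ) : 𝓞 K := (p.1 : 𝓞 K) + (p.2 : 𝓞 K) * ω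

theorem sigma_el (ρ : K →+* ℝ) (ω : 𝓞 K) (p : ℤ × ℤ) :
    ρ ((el ω p : 𝓞 K) : K) = (p.1 : ℝ) + (p.2 : ℝ) * ρ (ω : K) := by
  unfold el
  simp

/-! ### the two embeddings -/

section emb

variable {ω : 𝓞 K} {b c : ℤ}

theorem emb_ext (hsp : ∀ v : 𝓞 K, ∃ x y : ℤ, v = (x : 𝓞 K) + (y : 𝓞 K) * ω) {ρ ρ' : K →+* ℝ}
    (h : ρ (ω : K) = ρ' (ω : K)) : ρ = ρ' := by
  have h1 : ∀ v : 𝓞 K, ρ (v : K) = ρ' (v : K) := by
    intro v
    obtain ⟨x, y, hv⟩ := hsp v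
    have h2 : v = el ω (x, y) := hv
    rw [h2, sigma_el, sigma_el, h]
  apply RingHom.ext
  intro x
  obtain ⟨a, d, -, rfl⟩ := IsFractionRing.div_surjective (A := 𝓞 K) x
  rw [map_div₀, map_div₀]
  exact congrArg₂ _ (h1 a) (h1 d)

theorem roots_ne (Φ : Fund K) (hsp : ∀ v : 𝓞 K, ∃ x y : ℤ, v = (x : 𝓞 K) + (y : 𝓞 K) * ω) :
    Φ.σ (ω : K) ≠ Φ.τ (ω : K) := fun h => Φ.ne (emb_ext hsp h)

theorem root_eq (hω : ω ^ 2 = (b : 𝓞 K) * ω - (c : 𝓞 K)) (ρ : K →+* ℝ) :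
    ρ (ω : K) ^ 2 = (b : ℝ) * ρ (ω : K) - c := by
  have h := congrArg (fun v : 𝓞 K => ρ (v : K)) hω
  simpa using h

theorem vieta (Φ : Fund K) (hω : ω ^ 2 = (b : 𝓞 K) * ω - (c : 𝓞 K))
    (hsp : ∀ v : 𝓞 K, ∃ x y : ℤ, v = (x : 𝓞 K) + (y : 𝓞 K) * ω) :
    Φ.σ (ω : K) + Φ.τ (ω : K) = b ∧ Φ.σ (ω : K) * Φ.τ (ω : K) = c := by
  have h1 := root_eq hω Φ.σ
  have h2 := root_eq hω Φ.τ
  have h3 := sub_ne_zero.2 (roots_ne Φ hsp)
  have h4 : Φ.σ (ω : K) + Φ.τ (ω : K) = b := by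
    apply mul_left_cancel₀ h3
    linear_combination h1 - h2
  refine ⟨h4, ?_⟩
  linear_combination Φ.σ (ω : K) * h4 - h1

theorem emb_cases (Φ : Fund K) (hω : ω ^ 2 = (b : 𝓞 K) * ω - (c : 𝓞 K))
    (hsp : ∀ v : 𝓞 K, ∃ x y : ℤ, v = (x : 𝓞 K) + (y : 𝓞 K) * ω) (ρ : K →+* ℝ) :
    ρ = Φ.σ ∨ ρ = Φ.τ := by
  obtain ⟨h1, h2⟩ := vieta Φ hω hsp
  have h3 := root_eq hω ρ
  have h4 : (ρ (ω : K) - Φ.σ (ω : K)) * (ρ (ω : K) - Φ.τ (ω : K)) = 0 := by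
    linear_combination h3 - ρ (ω : K) * h1 + h2
  rcases mul_eq_zero.1 h4 with h | h
  · exact Or.inl (emb_ext hsp (sub_eq_zero.1 h))
  · exact Or.inr (emb_ext hsp (sub_eq_zero.1 h))

theorem pos_all (Φ : Fund K) (hω : ω ^ 2 = (b : 𝓞 K) * ω - (c : 𝓞 K))
    (hsp : ∀ v : 𝓞 K, ∃ x y : ℤ, v = (x : 𝓞 K) + (y : 𝓞 K) * ω) {v : K} (h1 : 0 < Φ.σ v)
    (h2 : 0 < Φ.τ v) (ρ : K →+* ℝ) : 0 < ρ v := by
  rcases emb_cases Φ hω hsp ρ with rfl | rfl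
  · exact h1
  · exact h2

theorem el_injective (Φ : Fund K) (hsp : ∀ v : 𝓞 K, ∃ x y : ℤ, v = (x : 𝓞 K) + (y : 𝓞 K) * ω) :
    Function.Injective (el ω) := by
  intro p q h
  have h1 : (p.1 : ℝ) + (p.2 : ℝ) * Φ.σ (ω : K) = (q.1 : ℝ) + (q.2 : ℝ) * Φ.σ (ω : K) := by
    rw [← sigma_el, ← sigma_el, h]
  have h2 : (p.1 : ℝ) + (p.2 : ℝ) * Φ.τ (ω : K) = (q.1 : ℝ) + (q.2 : ℝ) * Φ.τ (ω : K) := by
    rw [← sigma_el, ← sigma_el, h]
  have h3 := sub_ne_zero.2 (roots_ne Φ hsp)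
  have h4 : (p.2 : ℝ) = q.2 := by
    apply mul_left_cancel₀ h3
    linear_combination h1 - h2
  have h4' : p.2 = q.2 := by exact_mod_cast h4
  have h5 : (p.1 : ℝ) = q.1 := by
    rw [h4] at h1
    linarith
  exact Prod.ext (by exact_mod_cast h5) h4'

end emb

/-! ### the integral basis -/

section basis

variable {ω : 𝓞 K} {b c : ℤ} (hinj : Function.Injective (el ω))

include hinj

/-- the integral basis `1, ω` -/
noncomputable def bas (hsp : ∀ v : 𝓞 K, ∃ x y : ℤ, v = (x : 𝓞 K) + (y : 𝓞 K) * ω) :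
    Module.Basis (Fin 2) ℤ (𝓞 K) :=
  Module.Basis.mk (v := ![1, ω]) (by
    rw [LinearIndependent.pair_iff]
    intro s t h
    have h1 : el ω (s, t) = el ω (0, 0) := by
      unfold el
      rw [zsmul_eq_mul, zsmul_eq_mul, mul_one] at h
      rw [h]
      simp
    have h2 := hinj h1
    exact ⟨congrArg Prod.fst h2, congrArg Prod.snd h2⟩) (by
    intro v _
    obtain ⟨x, y, hv⟩ := hsp v
    rw [Submodule.mem_span_range_iff_exists_fun]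
    refine ⟨![x, y], ?_⟩
    rw [Fin.sum_univ_two]
    simp only [Matrix.cons_val_zero, Matrix.cons_val_one, zsmul_eq_mul, mul_one]
    exact hv.symm)

theorem bas_zero (hsp : ∀ v : 𝓞 K, ∃ x y : ℤ, v = (x : 𝓞 K) + (y : 𝓞 K) * ω) :
    bas hinj hsp 0 = 1 := by
  unfold bas
  rw [Module.Basis.mk_apply]
  rfl

theorem bas_one (hsp : ∀ v : 𝓞 K, ∃ x y : ℤ, v = (x : 𝓞 K) + (y : 𝓞 K) * ω) :
    bas hinj hsp 1 = ω := by
  unfold bas
  rw [Module.Basis.mk_apply]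
  rfl

theorem repr_el (hsp : ∀ v : 𝓞 K, ∃ x y : ℤ, v = (x : 𝓞 K) + (y : 𝓞 K) * ω) (x y : ℤ) :
    (bas hinj hsp).repr (el ω (x, y)) 0 = x ∧ (bas hinj hsp).repr (el ω (x, y)) 1 = y := by
  have h : el ω (x, y) = x • bas hinj hsp 0 + y • bas hinj hsp 1 := by
    rw [bas_zero, bas_one, zsmul_eq_mul, zsmul_eq_mul, mul_one]
    rfl
  rw [h, map_add, map_smul, map_smul, Module.Basis.repr_self, Module.Basis.repr_self]
  constructor <;> simp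

theorem norm_el (hω : ω ^ 2 = (b : 𝓞 K) * ω - (c : 𝓞 K))
    (hsp : ∀ v : 𝓞 K, ∃ x y : ℤ, v = (x : 𝓞 K) + (y : 𝓞 K) * ω) (p : ℤ × ℤ) :
    Algebra.norm ℤ (el ω p) = MA.qn b c p := by
  obtain ⟨x, y⟩ := p
  rw [Algebra.norm_eq_matrix_det (bas hinj hsp), Matrix.det_fin_two]
  simp only [Algebra.leftMulMatrix_eq_repr_mul]
  rw [bas_zero, bas_one, mul_one]
  have h2 : el ω (x, y) * ω = el ω (-(c * y), x + b * y) := by
    unfold el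
    push_cast
    linear_combination (y : 𝓞 K) * hω
  rw [h2, (repr_el hinj hsp _ _).1, (repr_el hinj hsp _ _).2, (repr_el hinj hsp _ _).1,
    (repr_el hinj hsp _ _).2]
  unfold MA.qn
  ring

theorem nm_el (hω : ω ^ 2 = (b : 𝓞 K) * ω - (c : 𝓞 K))
    (hsp : ∀ v : 𝓞 K, ∃ x y : ℤ, v = (x : 𝓞 K) + (y : 𝓞 K) * ω) (p : ℤ × ℤ) :
    nm (Ideal.span {el ω p} : Gi K) = (MA.qn b c p).natAbs := by
  unfold nm
  rw [Ideal.absNorm_span_singleton, norm_el hinj hω hsp]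

/-- primitive elements -/
theorem prim_el (hsp : ∀ v : 𝓞 K, ∃ x y : ℤ, v = (x : 𝓞 K) + (y : 𝓞 K) * ω) (p : ℤ × ℤ) :
    prim (Ideal.span {el ω p} : Gi K) ↔ Int.gcd p.1 p.2 = 1 := by
  have hdvd : ∀ n : ℕ, (rt n : Gi K) ∣ Ideal.span {el ω p} ↔ (n : ℤ) ∣ p.1 ∧ (n : ℤ) ∣ p.2 := by
    intro n
    unfold rt
    rw [Ideal.dvd_span_singleton, Ideal.mem_span_singleton]
    constructor
    · rintro ⟨v, hv⟩
      obtain ⟨x, y, rfl⟩ := hsp v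
      have h : el ω p = el ω (n * x, n * y) := by
        rw [hv]
        unfold el
        push_cast
        ring
      have h2 := hinj h
      exact ⟨⟨x, congrArg Prod.fst h2⟩, ⟨y, congrArg Prod.snd h2⟩⟩
    · rintro ⟨⟨x, hx⟩, ⟨y, hy⟩⟩
      refine ⟨el ω (x, y), ?_⟩
      unfold el
      rw [hx, hy]
      push_cast
      ring
  have h0 : (Ideal.span {el ω p} : Gi K) = 0 ↔ p = 0 := by
    rw [Ideal.zero_eq_bot, Ideal.span_singleton_eq_bot]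
    have h1 : el ω (0 : ℤ × ℤ) = 0 := by
      unfold el
      simp
    rw [← h1]
    exact hinj.eq_iff
  unfold prim
  constructor
  · rintro ⟨h1, h2⟩
    rw [Ne, h0] at h1
    by_contra hg
    have hg0 : Int.gcd p.1 p.2 ≠ 0 := by
      intro h
      rw [Int.gcd_eq_zero_iff] at h
      exact h1 (Prod.ext h.1 h.2)
    refine h2 (Int.gcd p.1 p.2) (by omega) ((hdvd _).2 ⟨Int.gcd_dvd_left _ _, Int.gcd_dvd_right _ _⟩)
  · intro hg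
    refine ⟨?_, fun n hn h => ?_⟩
    · rw [Ne, h0]
      rintro rfl
      simp at hg
    · have h1 := Int.dvd_coe_gcd ((hdvd n).1 h).1 ((hdvd n).1 h).2
      rw [hg] at h1
      have h2 : n ∣ 1 := by exact_mod_cast h1
      have := Nat.le_of_dvd one_pos h2
      omega

end basis

/-! ### units -/

theorem R_gt_one (Φ : Fund K) (hN : Φ.σ ((Φ.E : 𝓞 K) : K) * Φ.τ ((Φ.E : 𝓞 K) : K) = 1) :
    1 < Φ.R := by
  have h1 := Φ.one_lt
  have h2 := Φ.pos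
  unfold Fund.R
  rw [lt_div_iff₀ h2, one_mul]
  nlinarith

/-- the ratio of a power of the fundamental unit -/
theorem ratio_zpow (Φ : Fund K) (n : ℤ) :
    0 < Φ.σ (((Φ.E ^ n : (𝓞 K)ˣ) : 𝓞 K) : K) ∧ 0 < Φ.τ (((Φ.E ^ n : (𝓞 K)ˣ) : 𝓞 K) : K) ∧
    Φ.σ (((Φ.E ^ n : (𝓞 K)ˣ) : 𝓞 K) : K) / Φ.τ (((Φ.E ^ n : (𝓞 K)ˣ) : 𝓞 K) : K) = Φ.R ^ n := by
  have key : ∀ ρ : K →+* ℝ, ρ (((Φ.E ^ n : (𝓞 K)ˣ) : 𝓞 K) : K) = ρ ((Φ.E : 𝓞 K) : K) ^ n := by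
    intro ρ
    set g : (𝓞 K)ˣ →* ℝˣ := Units.map ((ρ : K →* ℝ).comp (algebraMap (𝓞 K) K : 𝓞 K →* K)) with hg
    have h1 : ∀ u : (𝓞 K)ˣ, ((g u : ℝˣ) : ℝ) = ρ ((u : 𝓞 K) : K) := fun u => rfl
    rw [← h1, ← h1, map_zpow, Units.val_zpow_eq_zpow_val]
  have h1 := Φ.one_lt
  have h2 := Φ.pos
  rw [key, key]
  refine ⟨zpow_pos (by linarith) n, zpow_pos h2 n, ?_⟩
  unfold Fund.R
  rw [div_zpow]

/-- the norm of the fundamental unit is `1` -/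
theorem unit_norm {ω : 𝓞 K} {b c : ℤ} (Φ : Fund K) (hω : ω ^ 2 = (b : 𝓞 K) * ω - (c : 𝓞 K))
    (hsp : ∀ v : 𝓞 K, ∃ x y : ℤ, v = (x : 𝓞 K) + (y : 𝓞 K) * ω) :
    Φ.σ ((Φ.E : 𝓞 K) : K) * Φ.τ ((Φ.E : 𝓞 K) : K) = 1 := by
  obtain ⟨x, y, hE⟩ := hsp (Φ.E : 𝓞 K)
  have hE' : (Φ.E : 𝓞 K) = el ω (x, y) := hE
  obtain ⟨h1, h2⟩ := vieta Φ hω hsp
  have h3 : Φ.σ ((Φ.E : 𝓞 K) : K) * Φ.τ ((Φ.E : 𝓞 K) : K) = (MA.qn b c (x, y) : ℝ) := by
    rw [hE', sigma_el, sigma_el]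
    unfold MA.qn
    push_cast
    linear_combination (x : ℝ) * y * h1 + (y : ℝ) ^ 2 * h2
  have h4 : (MA.qn b c (x, y)).natAbs = 1 := by
    rw [← nm_el (el_injective Φ hsp) hω hsp, ← hE']
    rw [nm_eq_one, Ideal.one_eq_top, Ideal.span_singleton_eq_top]
    exact Φ.E.isUnit
  have h5 : (0 : ℝ) < (MA.qn b c (x, y) : ℝ) := by
    rw [← h3]
    exact mul_pos (by linarith [Φ.one_lt]) Φ.pos
  have h6 : 0 < MA.qn b c (x, y) := by exact_mod_cast h5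
  have h7 : MA.qn b c (x, y) = 1 := by omega
  rw [h3, h7]
  simp

theorem sec_iff {R : ℝ} {X : ℝ × ℝ} : Sec R X ↔ 0 < X.2 ∧ 1 ≤ X.1 / X.2 ∧ X.1 / X.2 < R := by
  unfold Sec
  refine and_congr_right fun h => ?_
  rw [le_div_iff₀ h, one_mul, div_lt_iff₀ h]

/-! ### the bijection -/

section fibre

variable {ω : 𝓞 K} {b c : ℤ} (Φ : Fund K) (hω : ω ^ 2 = (b : 𝓞 K) * ω - (c : 𝓞 K))
  (hsp : ∀ v : 𝓞 K, ∃ x y : ℤ, v = (x : 𝓞 K) + (y : 𝓞 K) * ω)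

theorem lr_eq (p : ℤ × ℤ) : lr (1, 1) (Φ.σ (ω : K), Φ.τ (ω : K)) p =
    (Φ.σ ((el ω p : 𝓞 K) : K), Φ.τ ((el ω p : 𝓞 K) : K)) := by
  rw [sigma_el, sigma_el]
  unfold lr
  simp only [mul_one]

include hω hsp

theorem qn_eq (p : ℤ × ℤ) : (MA.qn b c p : ℝ) =
    Φ.σ ((el ω p : 𝓞 K) : K) * Φ.τ ((el ω p : 𝓞 K) : K) := by
  obtain ⟨h1, h2⟩ := vieta Φ hω hsp
  rw [sigma_el, sigma_el]
  unfold MA.qn
  push_cast
  linear_combination -(p.1 : ℝ) * p.2 * h1 - (p.2 : ℝ) ^ 2 * h2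

theorem nm_el_real {p : ℤ × ℤ} (h1 : 0 < Φ.σ ((el ω p : 𝓞 K) : K))
    (h2 : 0 < Φ.τ ((el ω p : 𝓞 K) : K)) :
    (nm (Ideal.span {el ω p} : Gi K) : ℝ) = (MA.qn b c p : ℝ) := by
  have h3 : (0 : ℝ) < (MA.qn b c p : ℝ) := by
    rw [qn_eq Φ hω hsp]
    exact mul_pos h1 h2
  have h4 : 0 ≤ MA.qn b c p := by exact_mod_cast h3.le
  rw [nm_el (el_injective Φ hsp) hω hsp, ← Int.cast_natCast, Int.natAbs_of_nonneg h4]

variable {X X' : ℝ} {S : Finset (ℤ × ℤ)}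
  (hS : ∀ p : ℤ × ℤ, p ∈ S ↔ Int.gcd p.1 p.2 = 1 ∧
    Sec Φ.R (lr (1, 1) (Φ.σ (ω : K), Φ.τ (ω : K)) p) ∧ X < (MA.qn b c p : ℝ) ∧
      (MA.qn b c p : ℝ) ≤ X')

include hS

theorem pos_S {p : ℤ × ℤ} (hp : p ∈ S) : 0 < Φ.σ ((el ω p : 𝓞 K) : K) ∧
    0 < Φ.τ ((el ω p : 𝓞 K) : K) ∧
    1 ≤ Φ.σ ((el ω p : 𝓞 K) : K) / Φ.τ ((el ω p : 𝓞 K) : K) ∧
    Φ.σ ((el ω p : 𝓞 K) : K) / Φ.τ ((el ω p : 𝓞 K) : K) < Φ.R := by
  have h := ((hS p).1 hp).2.1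
  rw [lr_eq Φ, sec_iff] at h
  obtain ⟨h1, h2, h3⟩ := h
  simp only at h1 h2 h3
  refine ⟨?_, h1, h2, h3⟩
  rw [le_div_iff₀ h1, one_mul] at h2
  linarith

theorem sum_S (F : Gi K → ℂ) : ∑ p ∈ S, F (Ideal.span {el ω p}) =
    ∑ z ∈ ((ann X X').filter prim).filter (fun z => cls z = 1), F z := by
  have hinj := el_injective Φ hsp
  have hR := R_gt_one Φ (unit_norm Φ hω hsp)
  refine Finset.sum_bij (fun p _ => (Ideal.span {el ω p} : Gi K)) ?_ ?_ ?_ (fun _ _ => rfl)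
  · intro p hp
    obtain ⟨h1, h2, -, -⟩ := pos_S Φ hω hsp hS hp
    obtain ⟨g1, -, g2, g3⟩ := (hS p).1 hp
    have hpr := (prim_el hinj hsp p).2 g1
    have h0 : el ω p ≠ 0 := by
      intro h
      rw [h] at h1
      simp at h1
    rw [mem_filter, mem_filter, mem_ann, nm_el_real Φ hω hsp h1 h2]
    exact ⟨⟨⟨hpr.1, g2, g3⟩, hpr⟩, cls_span h0 (pos_all Φ hω hsp h1 h2)⟩
  · intro p hp q hq h
    obtain ⟨h1, h2, h3, h4⟩ := pos_S Φ hω hsp hS hp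
    obtain ⟨k1, k2, k3, k4⟩ := pos_S Φ hω hsp hS hq
    have h' : (Ideal.span {el ω p} : Gi K) = Ideal.span {el ω q} := h
    rw [Ideal.span_singleton_eq_span_singleton] at h'
    obtain ⟨u, hu⟩ := h'
    have hu' : ∀ ρ : K →+* ℝ, ρ ((el ω p : 𝓞 K) : K) * ρ ((u : 𝓞 K) : K) =
        ρ ((el ω q : 𝓞 K) : K) := by
      intro ρ
      rw [← hu]
      simp
    have u1 : 0 < Φ.σ ((u : 𝓞 K) : K) := by
      have := hu' Φ.σ
      rw [← this] at k1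
      exact (pos_iff_pos_of_mul_pos k1).1 h1
    have u2 : 0 < Φ.τ ((u : 𝓞 K) : K) := by
      have := hu' Φ.τ
      rw [← this] at k2
      exact (pos_iff_pos_of_mul_pos k2).1 h2
    obtain ⟨n, rfl⟩ := Φ.gen u u1 u2
    obtain ⟨-, -, hr⟩ := ratio_zpow Φ n
    have h5 : Φ.σ ((el ω q : 𝓞 K) : K) / Φ.τ ((el ω q : 𝓞 K) : K) =
        Φ.σ ((el ω p : 𝓞 K) : K) / Φ.τ ((el ω p : 𝓞 K) : K) * Φ.R ^ n := by
      rw [← hr, ← hu' Φ.σ, ← hu' Φ.τ, mul_div_mul_comm]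
    set r := Φ.σ ((el ω p : 𝓞 K) : K) / Φ.τ ((el ω p : 𝓞 K) : K) with hrdef
    have hn : n = 0 := by
      rcases lt_trichotomy n 0 with hn | hn | hn
      · exfalso
        have h6 : Φ.R ^ n ≤ Φ.R ^ (-1 : ℤ) := zpow_le_zpow_right₀ hR.le (by omega)
        rw [zpow_neg_one] at h6
        have h7 : r * Φ.R ^ n < 1 := by
          calc r * Φ.R ^ n ≤ r * (Φ.R)⁻¹ := mul_le_mul_of_nonneg_left h6 (by linarith)
            _ < Φ.R * (Φ.R)⁻¹ := mul_lt_mul_of_pos_right h4 (inv_pos.2 (by linarith))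
            _ = 1 := mul_inv_cancel₀ (by linarith)
        linarith
      · exact hn
      · exfalso
        have h6 : Φ.R ^ (1 : ℤ) ≤ Φ.R ^ n := zpow_le_zpow_right₀ hR.le (by omega)
        rw [zpow_one] at h6
        have h7 : Φ.R ≤ r * Φ.R ^ n := by
          calc Φ.R = 1 * Φ.R := (one_mul _).symm
            _ ≤ r * Φ.R ^ n := mul_le_mul h3 h6 (by linarith) (by linarith)
        linarith
    rw [hn, zpow_zero, Units.val_one, mul_one] at hu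
    exact hinj hu
  · intro z hz
    rw [mem_filter, mem_filter, mem_ann] at hz
    obtain ⟨⟨⟨hz0, hz1, hz2⟩, hzp⟩, hzc⟩ := hz
    obtain ⟨v, hv0, hvp, rfl⟩ := (cls_eq_one hz0).1 hzc
    have hv1 := hvp Φ.σ
    have hv2 := hvp Φ.τ
    obtain ⟨n, hn⟩ := exists_mem_Ico_zpow (div_pos hv1 hv2) hR
    obtain ⟨e1, e2, e3⟩ := ratio_zpow Φ (-n)
    set u : (𝓞 K)ˣ := Φ.E ^ (-n) with hu
    obtain ⟨x, y, hxy⟩ := hsp (v * (u : 𝓞 K))
    have hp : el ω (x, y) = v * (u : 𝓞 K) := hxy.symm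
    have hspan : (Ideal.span {el ω (x, y)} : Gi K) = Ideal.span {v} := by
      rw [hp, Ideal.span_singleton_eq_span_singleton]
      exact (associated_mul_unit_left v (u : 𝓞 K) u.isUnit)
    have hval : ∀ ρ : K →+* ℝ, ρ ((el ω (x, y) : 𝓞 K) : K) = ρ (v : K) * ρ ((u : 𝓞 K) : K) := by
      intro ρ
      rw [hp]
      simp
    have hp1 : 0 < Φ.σ ((el ω (x, y) : 𝓞 K) : K) := by rw [hval]; exact mul_pos hv1 e1
    have hp2 : 0 < Φ.τ ((el ω (x, y) : 𝓞 K) : K) := by rw [hval]; exact mul_pos hv2 e2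
    have hrat : Φ.σ ((el ω (x, y) : 𝓞 K) : K) / Φ.τ ((el ω (x, y) : 𝓞 K) : K) =
        Φ.σ (v : K) / Φ.τ (v : K) * Φ.R ^ (-n) := by
      rw [hval, hval, ← e3, mul_div_mul_comm]
    have hRn : 0 < Φ.R ^ n := zpow_pos (by linarith) n
    refine ⟨(x, y), ?_, hspan⟩
    rw [hS]
    refine ⟨(prim_el hinj hsp _).1 (by rw [hspan]; exact hzp), ?_, ?_, ?_⟩
    · rw [lr_eq Φ, sec_iff]
      simp only
      rw [hrat, zpow_neg]
      refine ⟨hp2, ?_, ?_⟩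
      · rw [← div_eq_mul_inv, le_div_iff₀ hRn, one_mul]
        exact hn.1
      · rw [← div_eq_mul_inv, div_lt_iff₀ hRn]
        have h9 := hn.2
        rw [zpow_add_one₀ (by linarith : Φ.R ≠ 0)] at h9
        linarith
    · rw [← nm_el_real Φ hω hsp hp1 hp2, hspan]
      exact hz1
    · rw [← nm_el_real Φ hω hsp hp1 hp2, hspan]
      exact hz2

end fibre

variable [MA.Sg]

/-- detection of the principal class -/
theorem sum_MM (D : Dir K) (Y Y' : ℝ) (j : ℤ) :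
    ∑ χ : AddChar (Additive (Cl K)) ℂ, MM D Y Y' (χ, j) = (Fintype.card (Cl K) : ℂ) *
      ∑ z ∈ ((ann Y Y').filter prim).filter (fun z => cls z = 1), (lam z : ℂ) * D.f z ^ j := by
  unfold MM
  rw [Finset.sum_comm, Finset.mul_sum, Finset.sum_filter (s := (ann Y Y').filter prim)]
  refine Finset.sum_congr rfl fun z _ => ?_
  have h1 : ∀ χ : AddChar (Additive (Cl K)) ℂ, (lam z : ℂ) * xi D (χ, j) z =
      ((lam z : ℂ) * D.f z ^ j) * χ (Additive.ofMul (cls z)) := by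
    intro χ
    unfold xi
    ring
  simp only [h1]
  rw [← Finset.mul_sum, AddChar.sum_apply_eq_ite]
  have h2 : Additive.ofMul (cls z) = 0 ↔ cls z = 1 := by
    rw [ofMul_eq_zero]
  have h3 : Fintype.card (Additive (Cl K)) = Fintype.card (Cl K) := Fintype.card_congr Additive.toMul
  by_cases h : cls z = 1
  · rw [if_pos (h2.2 h), if_pos h, h3]
    ring
  · rw [if_neg (fun h' => h (h2.1 h')), if_neg h, mul_zero]

theorem sq_le (D : Dir K) (Y Y' : ℝ) (j : ℤ) :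
    ‖∑ z ∈ ((ann Y Y').filter prim).filter (fun z => cls z = 1), (lam z : ℂ) * D.f z ^ j‖ ^ 2 ≤
      ∑ χ : AddChar (Additive (Cl K)) ℂ, ‖MM D Y Y' (χ, j)‖ ^ 2 := by
  set A := ∑ z ∈ ((ann Y Y').filter prim).filter (fun z => cls z = 1), (lam z : ℂ) * D.f z ^ j
    with hA
  have h := sum_MM D Y Y' j
  rw [← hA] at h
  have hc : (1 : ℝ) ≤ Fintype.card (Cl K) := by
    exact_mod_cast Fintype.card_pos
  have hcard : (Fintype.card (AddChar (Additive (Cl K)) ℂ) : ℝ) = Fintype.card (Cl K) := by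
    rw [AddChar.card_eq]
    exact_mod_cast Fintype.card_congr Additive.toMul
  have h1 : ‖∑ χ : AddChar (Additive (Cl K)) ℂ, MM D Y Y' (χ, j)‖ ^ 2 ≤
      (Fintype.card (Cl K) : ℝ) * ∑ χ : AddChar (Additive (Cl K)) ℂ, ‖MM D Y Y' (χ, j)‖ ^ 2 := by
    have h2 := sq_sum_le_card_mul_sum_sq (s := (univ : Finset (AddChar (Additive (Cl K)) ℂ)))
      (f := fun χ => ‖MM D Y Y' (χ, j)‖)
    rw [Finset.card_univ, hcard] at h2
    refine le_trans ?_ h2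
    exact pow_le_pow_left₀ (norm_nonneg _) (norm_sum_le _ _) 2
  rw [h, norm_mul, mul_pow, Complex.norm_natCast] at h1
  have h3 : (Fintype.card (Cl K) : ℝ) * ‖A‖ ^ 2 ≤ ∑ χ : AddChar (Additive (Cl K)) ℂ,
      ‖MM D Y Y' (χ, j)‖ ^ 2 := by
    have h4 : (Fintype.card (Cl K) : ℝ) * ((Fintype.card (Cl K) : ℝ) * ‖A‖ ^ 2) ≤
        (Fintype.card (Cl K) : ℝ) * ∑ χ : AddChar (Additive (Cl K)) ℂ, ‖MM D Y Y' (χ, j)‖ ^ 2 := by
      calc _ = (Fintype.card (Cl K) : ℝ) ^ 2 * ‖A‖ ^ 2 := by ring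
        _ ≤ _ := h1
    exact le_of_mul_le_mul_left h4 (by linarith)
  refine le_trans ?_ h3
  nlinarith [sq_nonneg ‖A‖]

end PrinM

open PrinM

/-- **PRIN** for real quadratic fields -/
theorem specPrin [MA.Sg] (K : Type) [Field K] [NumberField K] : SpecPrin K := by
  intro ω b c D hM hω hsp B ε hB hε
  obtain ⟨H₀, hH₀⟩ := hM B ε hB hε
  refine ⟨H₀, fun H hH => ?_⟩
  filter_upwards [hH₀ H hH] with X hX S hS
  set Z := ⌊X / H⌋₊ with hZ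
  -- one frequency
  have h1 : ∀ j : ℤ, ∑ p ∈ S, ((MA.gs (MA.qn b c p).natAbs : ℤ) : ℂ) *
      ph D.R ((lr (1, 1) (D.σ (ω : K), D.τ (ω : K)) p).1 /
        (lr (1, 1) (D.σ (ω : K), D.τ (ω : K)) p).2) ^ j =
      ∑ z ∈ ((ann X (B * X)).filter prim).filter (fun z => cls z = 1),
        (lam z : ℂ) * D.f z ^ j := by
    intro j
    rw [← sum_S D.toFund hω hsp hS (fun z => (lam z : ℂ) * D.f z ^ j)]
    refine Finset.sum_congr rfl fun p hp => ?_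
    obtain ⟨g1, g2, -, -⟩ := pos_S D.toFund hω hsp hS hp
    congr 1
    · unfold lam
      rw [nm_el (el_injective D.toFund hsp) hω hsp]
      push_cast
      rfl
    · rw [D.prin _ g1 g2, lr_eq D.toFund]
  refine (Finset.sum_le_sum fun j _ => ?_).trans ?_ (b :=
    ∑ j ∈ (Icc (-(Z : ℤ)) Z).filter (fun j => j ≠ 0),
      ∑ χ : AddChar (Additive (Cl K)) ℂ, ‖MM D X (B * X) (χ, j)‖ ^ 2)
  · rw [h1 j]
    exact sq_le D X (B * X) j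
  have h3 : ∑ j ∈ (Icc (-(Z : ℤ)) Z).filter (fun j => j ≠ 0),
      ∑ χ : AddChar (Additive (Cl K)) ℂ, ‖MM D X (B * X) (χ, j)‖ ^ 2 =
      ∑ κ ∈ (IK K Z).filter (fun κ => κ.2 ≠ 0), ‖MM D X (B * X) κ‖ ^ 2 := by
    unfold IK
    rw [Finset.sum_filter, Finset.sum_filter, Finset.sum_product_right]
    refine Finset.sum_congr rfl fun j _ => ?_
    by_cases hj : j = 0
    · simp [hj]
    · simp [hj]
  rw [h3]
  exact hX

end Pool.Agent.Lib.MP391708.MAR
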