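import Pool.Agent.Lib.MP_391708_nt.MAR.Spec

/-!
# Turán–Kubilius in annuli, for ideals
-/

set_option autoImplicit false

namespace Pool.Agent.Lib.MP391708.MAR

open Finset Filter Topology NumberField

namespace TK

variable {K : Type} [Field K] [NumberField K]

lemma nm_mul (x y : Gi K) : nm (x * y) = nm x * nm y := map_mul _ _ _

lemma nm_one : nm (1 : Gi K) = 1 := map_one _

lemma nm_eq_zero {z : Gi K} : nm z = 0 ↔ z = 0 := by
  unfold nm
  rw [Ideal.absNorm_eq_zero_iff]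
  rfl

lemma nm_pos {z : Gi K} (h : z ≠ 0) : 0 < nm z := Nat.pos_of_ne_zero fun h' => h (nm_eq_zero.1 h')

lemma nm_posR {z : Gi K} (h : z ≠ 0) : (0 : ℝ) < nm z := by exact_mod_cast nm_pos h

lemma one_le_nm {z : Gi K} (h : z ≠ 0) : (1 : ℝ) ≤ nm z := by exact_mod_cast nm_pos h

lemma mem_disc {x : ℝ} {z : Gi K} : z ∈ disc x ↔ z ≠ 0 ∧ (nm z : ℝ) ≤ x := by
  unfold disc
  rw [mem_filter, and_iff_right_of_imp]
  rintro ⟨h0, h⟩
  have hx : 0 ≤ x := le_trans (by positivity) h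
  rw [Set.Finite.mem_toFinset]
  exact (Nat.le_floor_iff hx).2 h

lemma mem_ann {x x' : ℝ} {z : Gi K} :
    z ∈ ann x x' ↔ z ≠ 0 ∧ x < (nm z : ℝ) ∧ (nm z : ℝ) ≤ x' := by
  unfold ann
  rw [mem_filter, mem_disc]
  tauto

lemma disc_subset {x x' : ℝ} (h : x ≤ x') : (disc x : Finset (Gi K)) ⊆ disc x' := fun z hz => by
  rw [mem_disc] at hz ⊢
  exact ⟨hz.1, hz.2.trans h⟩

lemma mem_GP {P Q : ℝ} {z : Gi K} : z ∈ GP P Q ↔
    (z ≠ 0 ∧ (nm z : ℝ) ≤ Q) ∧ (nm z).Prime ∧ cj z ≠ z ∧ P < (nm z : ℝ) := by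
  unfold GP
  rw [mem_filter, mem_disc]

lemma GP_ne_zero {P Q : ℝ} {z : Gi K} (h : z ∈ GP P Q) : z ≠ 0 := (mem_GP.1 h).1.1

lemma GP_isPrime {P Q : ℝ} {z : Gi K} (h : z ∈ GP P Q) : z.IsPrime := by
  apply Ideal.isPrime_of_irreducible_absNorm
  exact (mem_GP.1 h).2.1

lemma GP_coprime {P Q P' Q' : ℝ} {z z' : Gi K} (h : z ∈ GP P Q) (h' : z' ∈ GP P' Q')
    (hne : z ≠ z') : IsCoprime z z' := by
  have := (GP_isPrime h).isMaximal (GP_ne_zero h)
  have := (GP_isPrime h').isMaximal (GP_ne_zero h')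
  exact Ideal.isCoprime_of_isMaximal hne

lemma disc_sdiff (x x' : ℝ) :
    (disc x' : Finset (Gi K)) \ disc x = ann x x' := by
  ext z
  rw [Finset.mem_sdiff, mem_disc, mem_disc, mem_ann]
  push Not
  tauto

lemma card_ann {Y Y' : ℝ} (h : Y ≤ Y') :
    ((ann Y Y' : Finset (Gi K)).card : ℝ) =
      ((disc Y' : Finset (Gi K)).card : ℝ) - ((disc Y : Finset (Gi K)).card : ℝ) := by
  rw [← disc_sdiff, card_sdiff_of_subset (disc_subset h),
    Nat.cast_sub (card_le_card (disc_subset h))]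

open Classical in
lemma card_ann_dvd {D : Gi K} (hD : D ≠ 0) (Y Y' : ℝ) :
    ((ann Y Y' : Finset (Gi K)).filter (fun z => D ∣ z)).card =
      (ann (Y / nm D) (Y' / nm D) : Finset (Gi K)).card := by
  symm
  have hp := nm_posR hD
  apply card_nbij (fun z => D * z)
  · intro z hz
    rw [mem_coe, mem_ann] at hz
    rw [mem_coe, mem_filter, mem_ann]
    refine ⟨⟨mul_ne_zero hD hz.1, ?_, ?_⟩, dvd_mul_right _ _⟩
    · rw [nm_mul, Nat.cast_mul, mul_comm]
      exact (div_lt_iff₀ hp).1 hz.2.1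
    · rw [nm_mul, Nat.cast_mul, mul_comm]
      exact (le_div_iff₀ hp).1 hz.2.2
  · intro z _ z' _ h
    exact mul_left_cancel₀ hD h
  · intro z hz
    rw [mem_coe, mem_filter, mem_ann] at hz
    obtain ⟨⟨h0, h1, h2⟩, w, rfl⟩ := hz
    refine ⟨w, ?_, rfl⟩
    rw [mem_coe, mem_ann]
    rw [nm_mul, Nat.cast_mul, mul_comm] at h1 h2
    exact ⟨right_ne_zero_of_mul h0, (div_lt_iff₀ hp).2 h1, (le_div_iff₀ hp).2 h2⟩

open Classical in
lemma count_dvd (hC : SpecCount K) : ∃ ρ C : ℝ, 0 < ρ ∧ 0 < C ∧ ∀ (D : Gi K) (Y Y' : ℝ),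
    D ≠ 0 → 0 ≤ Y → Y ≤ Y' → 1 ≤ Y' →
      |(((ann Y Y').filter (fun z => D ∣ z)).card : ℝ) - ρ * (Y' - Y) / nm D| ≤
        C * Real.sqrt Y' := by
  obtain ⟨ρ, C, hρ, hC0, h⟩ := hC
  refine ⟨ρ, 4 * C, hρ, by positivity, fun D Y Y' hD hY hYY hY' => ?_⟩
  have hp := nm_posR hD
  have h1 := one_le_nm hD
  have hle : Y / nm D ≤ Y' / nm D := div_le_div_of_nonneg_right hYY hp.le
  rw [card_ann_dvd hD, card_ann hle]
  have e1 := h (Y' / nm D) (div_nonneg (hY.trans hYY) hp.le)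
  have e2 := h (Y / nm D) (div_nonneg hY hp.le)
  have s0 : 1 ≤ Real.sqrt Y' := by rw [Real.one_le_sqrt]; exact hY'
  have s1 : Real.sqrt (Y' / nm D) ≤ Real.sqrt Y' :=
    Real.sqrt_le_sqrt (div_le_self (hY.trans hYY) h1)
  have s2 : Real.sqrt (Y / nm D) ≤ Real.sqrt Y' :=
    Real.sqrt_le_sqrt ((div_le_self hY h1).trans hYY)
  have e3 : ((disc (Y' / nm D) : Finset (Gi K)).card : ℝ) -
      ((disc (Y / nm D) : Finset (Gi K)).card : ℝ) -
      ρ * (Y' - Y) / nm D = (((disc (Y' / nm D) : Finset (Gi K)).card : ℝ) - ρ * (Y' / nm D)) -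
        (((disc (Y / nm D) : Finset (Gi K)).card : ℝ) - ρ * (Y / nm D)) := by ring
  rw [e3]
  refine (abs_sub _ _).trans ?_
  nlinarith

lemma card_disc_le (hC : SpecCount K) : ∃ C : ℝ, 1 ≤ C ∧ ∀ Y : ℝ, 0 ≤ Y →
    ((disc Y : Finset (Gi K)).card : ℝ) ≤ C * Y := by
  obtain ⟨ρ, C, hρ, hC0, h⟩ := hC
  refine ⟨ρ + 2 * C + 1, by linarith, fun Y hY => ?_⟩
  rcases lt_or_ge Y 1 with h1 | h1
  · have : (disc Y : Finset (Gi K)) = ∅ := by
      rw [eq_empty_iff_forall_notMem]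
      intro z hz
      rw [mem_disc] at hz
      have := one_le_nm hz.1
      linarith [hz.2]
    rw [this, card_empty, Nat.cast_zero]
    positivity
  · have e := (abs_le.1 (h Y hY)).2
    have s0 : 1 ≤ Real.sqrt Y := by rw [Real.one_le_sqrt]; exact h1
    have s1 : Real.sqrt Y * Real.sqrt Y = Y := Real.mul_self_sqrt hY
    have s2 : Real.sqrt Y ≤ Y := by nlinarith
    have s3 : C * (Real.sqrt Y + 1) ≤ C * (2 * Y) :=
      mul_le_mul_of_nonneg_left (by linarith) hC0.le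
    linarith

end TK

open TK in
theorem specTK {K : Type} [Field K] [NumberField K] (hC : SpecCount K) : SpecTK K := by
  classical
  obtain ⟨B, hB1, hB⟩ := card_disc_le hC
  obtain ⟨ρ, C, hρ, hC0, h⟩ := count_dvd hC
  refine ⟨ρ + 4 * B ^ 2 * C, by positivity, fun P Q Y Y' hP hPQ hY hYY hY' => ?_⟩
  set S := (GP P Q : Finset (Gi K)) with hS
  set A := (ann Y Y' : Finset (Gi K)) with hA
  set T := ρ * (Y' - Y) with hT
  set E := C * Real.sqrt Y' with hE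
  set W := WW K P Q with hW
  have hQ : 1 ≤ Q := hP.trans hPQ
  have hT0 : 0 ≤ T := mul_nonneg hρ.le (sub_nonneg.2 hYY)
  have hE0 : 0 ≤ E := by positivity
  have hn : (S.card : ℝ) ≤ B * Q := by
    refine le_trans ?_ (hB Q (by linarith))
    exact_mod_cast card_le_card (filter_subset _ _)
  have hW0 : 0 ≤ W := by
    rw [hW, WW]; positivity
  have hWn : W ≤ S.card := by
    rw [hW, WW, card_eq_sum_ones]
    push_cast
    refine sum_le_sum fun π hπ => ?_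
    have := one_le_nm (GP_ne_zero hπ)
    rw [div_le_one (by linarith)]
    exact this
  -- indicator
  let ind : Gi K → Gi K → ℝ := fun π z => if π ∣ z then 1 else 0
  have hom : ∀ z, (om P Q z : ℝ) = ∑ π ∈ S, ind π z := by
    intro z
    rw [om, card_eq_sum_ones]
    push_cast
    rw [sum_filter]
  have hexp : ∑ z ∈ A, ((om P Q z : ℝ) - W) ^ 2 =
      ∑ π ∈ S, ∑ π' ∈ S, ∑ z ∈ A, ind π z * ind π' z - 2 * W * ∑ π ∈ S, ∑ z ∈ A, ind π z +
        W ^ 2 * A.card := by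
    have e1 : ∀ z ∈ A, ((om P Q z : ℝ) - W) ^ 2 =
        ∑ π ∈ S, ∑ π' ∈ S, ind π z * ind π' z - 2 * W * ∑ π ∈ S, ind π z + W ^ 2 := by
      intro z _
      rw [hom, sub_sq, sq, sum_mul_sum]
      ring
    have e2 : ∑ z ∈ A, ∑ π ∈ S, ∑ π' ∈ S, ind π z * ind π' z =
        ∑ π ∈ S, ∑ π' ∈ S, ∑ z ∈ A, ind π z * ind π' z := by
      rw [sum_comm]
      refine sum_congr rfl fun π _ => ?_
      rw [sum_comm]
    have e3 : ∑ z ∈ A, ∑ π ∈ S, ind π z = ∑ π ∈ S, ∑ z ∈ A, ind π z := sum_comm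
    rw [sum_congr rfl e1, sum_add_distrib, sum_sub_distrib, e2, ← mul_sum, e3, sum_const,
      nsmul_eq_mul, mul_comm (A.card : ℝ) (W ^ 2)]
  have hN2 : ∀ π ∈ S, ∀ π' ∈ S, ∑ z ∈ A, ind π z * ind π' z ≤
      T * ((1 / (nm π : ℝ)) * (1 / (nm π' : ℝ))) + (if π = π' then T * (1 / (nm π : ℝ)) else 0) +
        E := by
    intro π hπ π' hπ'
    have hp := nm_posR (GP_ne_zero hπ)
    have hp' := nm_posR (GP_ne_zero hπ')
    by_cases heq : π = π'
    · subst heq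
      rw [if_pos rfl]
      have e : ∑ z ∈ A, ind π z * ind π z = ((A.filter (fun z => π ∣ z)).card : ℝ) := by
        rw [card_eq_sum_ones]
        push_cast
        rw [sum_filter]
        refine sum_congr rfl fun z _ => ?_
        simp only [ind]
        split_ifs <;> simp
      rw [e]
      have := (abs_le.1 (h π Y Y' (GP_ne_zero hπ) hY hYY hY')).2
      have hpos : 0 ≤ T * ((1 / (nm π : ℝ)) * (1 / (nm π : ℝ))) := by positivity
      have e2 : T * (1 / (nm π : ℝ)) = ρ * (Y' - Y) / nm π := by rw [hT]; ring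
      rw [e2]
      linarith
    · rw [if_neg heq]
      have hcop : IsCoprime π π' := GP_coprime hπ hπ' heq
      have e : ∑ z ∈ A, ind π z * ind π' z =
          ((A.filter (fun z => π * π' ∣ z)).card : ℝ) := by
        rw [card_eq_sum_ones]
        push_cast
        rw [sum_filter]
        refine sum_congr rfl fun z _ => ?_
        simp only [ind]
        by_cases h1 : π * π' ∣ z
        · rw [if_pos h1, if_pos ((dvd_mul_right _ _).trans h1),
            if_pos ((dvd_mul_left _ _).trans h1), mul_one]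
        · rw [if_neg h1]
          by_cases h2 : π ∣ z
          · rw [if_neg (fun h3 => h1 (hcop.mul_dvd h2 h3)), mul_zero]
          · rw [if_neg h2, zero_mul]
      rw [e]
      have := (abs_le.1 (h (π * π') Y Y' (mul_ne_zero (GP_ne_zero hπ) (GP_ne_zero hπ'))
        hY hYY hY')).2
      rw [nm_mul, Nat.cast_mul] at this
      have e2 : T * ((1 / (nm π : ℝ)) * (1 / (nm π' : ℝ))) =
          ρ * (Y' - Y) / ((nm π : ℝ) * nm π') := by
        rw [hT]; field_simp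
      rw [e2]
      linarith
  have hN1 : ∀ π ∈ S, T * (1 / (nm π : ℝ)) - E ≤ ∑ z ∈ A, ind π z := by
    intro π hπ
    have e : ∑ z ∈ A, ind π z = ((A.filter (fun z => π ∣ z)).card : ℝ) := by
      rw [card_eq_sum_ones]
      push_cast
      rw [sum_filter]
    rw [e]
    have := (abs_le.1 (h π Y Y' (GP_ne_zero hπ) hY hYY hY')).1
    have e2 : T * (1 / (nm π : ℝ)) = ρ * (Y' - Y) / nm π := by rw [hT]; ring
    rw [e2]
    linarith
  have hN0 : (A.card : ℝ) ≤ T + E := by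
    have := (abs_le.1 (h 1 Y Y' one_ne_zero hY hYY hY')).2
    have e : (ann Y Y').filter (fun z => (1 : Gi K) ∣ z) = A :=
      filter_true_of_mem fun z _ => one_dvd z
    rw [e] at this
    simp only [nm_one, Nat.cast_one, div_one] at this
    linarith
  have hWdef : W = ∑ π ∈ S, 1 / (nm π : ℝ) := rfl
  have hsum2 : ∑ π ∈ S, ∑ π' ∈ S, ∑ z ∈ A, ind π z * ind π' z ≤
      T * W ^ 2 + T * W + (S.card : ℝ) ^ 2 * E := by
    refine (sum_le_sum fun π hπ => sum_le_sum fun π' hπ' => hN2 π hπ π' hπ').trans ?_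
    simp only [sum_add_distrib]
    refine le_of_eq ?_
    have e1 : ∑ π ∈ S, ∑ π' ∈ S, T * ((1 / (nm π : ℝ)) * (1 / (nm π' : ℝ))) = T * W ^ 2 := by
      rw [hWdef, sq, sum_mul_sum, mul_sum]
      refine sum_congr rfl fun π _ => ?_
      rw [mul_sum]
    have e2 : ∑ π ∈ S, ∑ π' ∈ S, (if π = π' then T * (1 / (nm π : ℝ)) else 0) = T * W := by
      rw [hWdef, mul_sum]
      refine sum_congr rfl fun π hπ => ?_
      rw [sum_ite_eq]
      rw [if_pos hπ]
    rw [e1, e2]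
    simp only [sum_const, nsmul_eq_mul]
    ring
  have hsum1 : T * W - S.card * E ≤ ∑ π ∈ S, ∑ z ∈ A, ind π z := by
    have := sum_le_sum hN1
    rw [sum_sub_distrib, ← mul_sum, sum_const, nsmul_eq_mul, ← hWdef] at this
    exact this
  rw [hexp]
  have hn0 : (0 : ℝ) ≤ S.card := Nat.cast_nonneg _
  have hfinal : ∑ π ∈ S, ∑ π' ∈ S, ∑ z ∈ A, ind π z * ind π' z -
      2 * W * ∑ π ∈ S, ∑ z ∈ A, ind π z + W ^ 2 * A.card ≤ T * W + 4 * (S.card : ℝ) ^ 2 * E := by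
    have a1 : 2 * W * (T * W - S.card * E) ≤ 2 * W * ∑ π ∈ S, ∑ z ∈ A, ind π z :=
      mul_le_mul_of_nonneg_left hsum1 (by positivity)
    have a2 : W ^ 2 * A.card ≤ W ^ 2 * (T + E) := mul_le_mul_of_nonneg_left hN0 (by positivity)
    have a3 : W * (S.card * E) ≤ S.card * (S.card * E) :=
      mul_le_mul_of_nonneg_right hWn (by positivity)
    have a4 : W ^ 2 * E ≤ (S.card : ℝ) ^ 2 * E :=
      mul_le_mul_of_nonneg_right (pow_le_pow_left₀ hW0 hWn 2) hE0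
    nlinarith
  refine hfinal.trans ?_
  have b1 : (S.card : ℝ) ^ 2 ≤ B ^ 2 * Q ^ 2 := by
    rw [← mul_pow]
    exact pow_le_pow_left₀ hn0 hn 2
  have b2 : 4 * (S.card : ℝ) ^ 2 * E ≤ 4 * (B ^ 2 * Q ^ 2) * E :=
    mul_le_mul_of_nonneg_right (by linarith) hE0
  have b3 : T * W ≤ ρ * ((Y' - Y) * (W + 1)) := by
    rw [hT]
    have : 0 ≤ ρ * (Y' - Y) := hT0
    nlinarith
  have b4 : 4 * (B ^ 2 * Q ^ 2) * E = 4 * B ^ 2 * C * (Q ^ 2 * Real.sqrt Y') := by rw [hE]; ring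
  have b5 : 0 ≤ ρ * (Q ^ 2 * Real.sqrt Y') := by positivity
  have b6 : 0 ≤ 4 * B ^ 2 * C * ((Y' - Y) * (W + 1)) := by
    have : 0 ≤ (Y' - Y) * (W + 1) := mul_nonneg (sub_nonneg.2 hYY) (by linarith)
    positivity
  calc T * W + 4 * (S.card : ℝ) ^ 2 * E ≤ ρ * ((Y' - Y) * (W + 1)) +
        4 * B ^ 2 * C * (Q ^ 2 * Real.sqrt Y') := by linarith
    _ ≤ (ρ + 4 * B ^ 2 * C) * ((Y' - Y) * (W + 1) + Q ^ 2 * Real.sqrt Y') := by nlinarith

end Pool.Agent.Lib.MP391708.MAR
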